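import Pool.Agent.Work.MP_9d1ffa_al.Rt.QDefs

/-! Twisted complexes over the obstruction category with coefficients in a differential graded
ring, and their simple equivalences. -/

namespace Pool.Agent.Work.MP_9d1ffa_al

open MulAction

/-- a differential graded ring -/
structure DG : Type 1 where
  A : Type
  [ring : Ring A]
  gr : ℤ → AddSubgroup A
  [graded : GradedRing gr]
  d : A →+ A
  deg : ∀ n, ∀ a ∈ gr n, d a ∈ gr (n + 1)
  sq : ∀ a, d (d a) = 0
  leib : ∀ n, ∀ a ∈ gr n, ∀ b, d (a * b) = d a * b + (n.negOnePow : ℤ) • (a * d b)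

attribute [instance] DG.ring DG.graded

/-- a basis with heights, positions and degrees, and a square matrix -/
structure Cx (X S : Type) : Type 1 where
  ob : Ob X
  deg : ob.I → ℤ
  δ : Matrix ob.I ob.I S

section

variable {X K R S I J L : Type} [Group K] [Ring R] [Ring S]

/-- a controlled matrix: finitely many group elements occur, heights change by a bounded amount,
and positions change by an amount that tends to zero with the height -/
def Ctr (ρ : K →* Equiv.Perm X) (a b : Ob X) (M : Matrix a.I b.I (MonoidAlgebra R K)) : Prop :=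
  (∃ T : Finset K, ∀ i j g, (M i j).coeff g ≠ 0 → g ∈ T) ∧
  (∃ c : ℕ, ∀ i j g, (M i j).coeff g ≠ 0 → a.t i ≤ b.t j + c ∧ b.t j ≤ a.t i + c) ∧
  ∀ ε : ℝ, 0 < ε → ∃ n : ℕ, ∀ i j g, n ≤ a.t i → (M i j).coeff g ≠ 0 →
    l1 (a.x i - (b.x j).mapDomain (ρ g)) ≤ ε

/-- the product of matrices with finite rows -/
noncomputable def cm (M : Matrix I J S) (N : Matrix J L S) : Matrix I L S :=
  Matrix.of fun i k => ∑ᶠ j, M i j * N j k

open Classical in
/-- the matrix with the entry `± γ i` at the place `(i, e i)` -/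
noncomputable def mono (R : Type) [Ring R] (e : I → J) (γ : I → K) (s : I → ℤˣ) :
    Matrix I J (MonoidAlgebra R K) :=
  Matrix.of fun i j => if e i = j then MonoidAlgebra.single (γ i) (((s i : ℤ) : R)) else 0

/-- the matrix strictly lowers the levels -/
def Lw (l : I → ℕ) (m : J → ℕ) (M : Matrix I J S) : Prop := ∀ i j, M i j ≠ 0 → m j < l i

/-- the direct sum -/
def Cx.sum (a b : Cx X S) : Cx X S :=
  ⟨a.ob.sum b.ob, Sum.elim a.deg b.deg, Matrix.fromBlocks a.δ 0 0 b.δ⟩

open Classical in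
/-- an elementary complex -/
noncomputable def El (S : Type) [Ring S] (b : Ob X) (n : b.I → ℤ) : Cx X S :=
  ⟨b.sum b, Sum.elim (fun i => n i - 1) n, Matrix.fromBlocks 0 1 0 0⟩

variable (Λ : DG) (ρ : K →* Equiv.Perm X)

/-- a controlled map of degree `k` -/
def Hg (k : ℤ) (a b : Cx X (MonoidAlgebra Λ.A K))
    (M : Matrix a.ob.I b.ob.I (MonoidAlgebra Λ.A K)) : Prop :=
  Ctr ρ a.ob b.ob M ∧ ∀ i j g, (M i j).coeff g ∈ Λ.gr (k + a.deg i - b.deg j)

/-- the differential of the ring applied to the entries, with the signs of the rows -/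
noncomputable def del (n : I → ℤ) (M : Matrix I J (MonoidAlgebra Λ.A K)) :
    Matrix I J (MonoidAlgebra Λ.A K) :=
  Matrix.of fun i j => ((n i).negOnePow : ℤ) • MonoidAlgebra.map Λ.d (M i j)

/-- the differential of a map of degree `k` -/
noncomputable def Dif (k : ℤ) (a b : Cx X (MonoidAlgebra Λ.A K))
    (M : Matrix a.ob.I b.ob.I (MonoidAlgebra Λ.A K)) :
    Matrix a.ob.I b.ob.I (MonoidAlgebra Λ.A K) :=
  del Λ a.deg M + cm a.δ M - (k.negOnePow : ℤ) • cm M b.δ

/-- a twisted complex -/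
def IsTw (a : Cx X (MonoidAlgebra Λ.A K)) : Prop :=
  Hg Λ ρ 1 a a a.δ ∧ del Λ a.deg a.δ + cm a.δ a.δ = 0 ∧
    ∃ l : a.ob.I → ℕ, BddAbove (Set.range l) ∧ Lw l l a.δ

/-- a chain map of twisted complexes that is a monomial isomorphism up to terms that lower a
bounded level function, which both differentials lower as well -/
def Stp (a b : Cx X (MonoidAlgebra Λ.A K)) : Prop :=
  IsTw Λ ρ a ∧ IsTw Λ ρ b ∧ ∃ (e : a.ob.I ≃ b.ob.I) (γ : a.ob.I → K) (s : a.ob.I → ℤˣ)
    (N : Matrix a.ob.I b.ob.I (MonoidAlgebra Λ.A K)) (l : b.ob.I → ℕ),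
    (∀ i, b.deg (e i) = a.deg i) ∧ Ctr ρ a.ob b.ob (mono Λ.A e γ s) ∧ Hg Λ ρ 0 a b N ∧
      Dif Λ 0 a b (mono Λ.A e γ s + N) = 0 ∧ BddAbove (Set.range l) ∧ Lw (l ∘ e) (l ∘ e) a.δ ∧
      Lw l l b.δ ∧ Lw (l ∘ e) l N

end

variable {G V X : Type} [Group G] [MulAction G V]

open Classical in
/-- for every group `K` over `G` and every differential graded ring, every contractible twisted
complex over the obstruction category is stably simply equivalent to an elementary one -/
def VanD (ρ : G →* Equiv.Perm X) : Prop :=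
  ∀ (K : Type) [Group K] (φ : K →* G) (Λ : DG) (a : Cx X (MonoidAlgebra Λ.A K)),
    IsTw Λ (ρ.comp φ) a → (∃ Γ, Hg Λ (ρ.comp φ) (-1) a a Γ ∧ Dif Λ (-1) a a Γ = 1) →
      ∃ (b : Ob X) (m : b.I → ℤ) (c : Ob X) (n : c.I → ℤ),
        Relation.EqvGen (Stp Λ (ρ.comp φ)) (a.sum (El _ b m)) (El _ c n)

/-- `D` and `s` lift to a group over `G` with vanishing torsion, together with the relations of
the HNN extension of `D` along conjugation by `s` -/
def LiftD (ρ : G →* Equiv.Perm X) (D : Subgroup G) (s : G) : Prop :=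
  ∃ (H : Type) (_ : Group H) (π : H →* G) (κ : D →* H) (t : H), VanD (ρ.comp π) ∧
    (∀ d : D, π (κ d) = d) ∧ π t = s ∧ ∀ d d' : D, (d' : G) * s = s * d → κ d' * t = t * κ d

/-- there is no ray of segments `[a, b n]`, each of them moved forward by an element `s n` that
does not lift and sends `b n` to `b (n + 1)` -/
def NoRayD (ρ : G →* Equiv.Perm X) (T : SimpleGraph V) : Prop :=
  ¬ ∃ (a : V) (b : ℕ → V) (s : ℕ → G), ∀ n, Trl T a (b n) (s n) ∧
    ¬ LiftD ρ (stabilizer G (a, b n)) (s n) ∧ b (n + 1) = s n • b n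

end Pool.Agent.Work.MP_9d1ffa_al
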