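import Mathlib
import Pool.Agent.Work.MP_9d1ffa_al.Dg.DDefs
import Pool.Agent.Work.MP_9d1ffa_al.Ct.CL

-- merged part: Pool.Agent.Work.MP_9d1ffa_al.Dg.DA
section
/-! Additive categories with chosen sums, with a calculus of block matrices that
mirrors the one of `Matrix`. -/

namespace Pool.Agent.Work.MP_9d1ffa_al.Dg

set_option linter.unusedSectionVars false
set_option linter.unusedVariables false

/-- an additive category with chosen sums -/
structure ACat (O : Type 1) [Add O] where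
  Hom : O → O → Type
  acg : ∀ a b, AddCommGroup (Hom a b)
  mul : ∀ {a b c}, Hom a b → Hom b c → Hom a c
  one : ∀ a, Hom a a
  inl : ∀ a b, Hom a (a + b)
  inr : ∀ a b, Hom b (a + b)
  fst : ∀ a b, Hom (a + b) a
  snd : ∀ a b, Hom (a + b) b
  mul_assoc : ∀ {a b c d} (x : Hom a b) (y : Hom b c) (z : Hom c d),
    mul (mul x y) z = mul x (mul y z)
  one_mul : ∀ {a b} (x : Hom a b), mul (one a) x = x
  mul_one : ∀ {a b} (x : Hom a b), mul x (one b) = x
  mul_add : ∀ {a b c} (x : Hom a b) (y z : Hom b c), mul x (y + z) = mul x y + mul x z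
  add_mul : ∀ {a b c} (x y : Hom a b) (z : Hom b c), mul (x + y) z = mul x z + mul y z
  inl_inl : ∀ a b, mul (inl a b) (fst a b) = one a
  inr_inr : ∀ a b, mul (inr a b) (snd a b) = one b
  inl_inr : ∀ a b, mul (inl a b) (snd a b) = 0
  inr_inl : ∀ a b, mul (inr a b) (fst a b) = 0
  total : ∀ a b, mul (fst a b) (inl a b) + mul (snd a b) (inr a b) = one (a + b)

variable {O : Type 1} [Add O] {𝒞 : ACat O} {I J K L M N : O}

instance homAcg (𝒞 : ACat O) (a b : O) : AddCommGroup (𝒞.Hom a b) := 𝒞.acg a b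

@[default_instance 100]
instance homHMul : HMul (𝒞.Hom I J) (𝒞.Hom J K) (𝒞.Hom I K) := ⟨𝒞.mul⟩

instance homOne : One (𝒞.Hom I I) := ⟨𝒞.one I⟩

instance homMul : Mul (𝒞.Hom I I) := ⟨fun x y => x * y⟩

namespace Hm

protected theorem mul_assoc (x : 𝒞.Hom I J) (y : 𝒞.Hom J K) (z : 𝒞.Hom K L) :
    x * y * z = x * (y * z) := 𝒞.mul_assoc x y z

@[simp] protected theorem one_mul (x : 𝒞.Hom I J) : (1 : 𝒞.Hom I I) * x = x := 𝒞.one_mul x

@[simp] protected theorem mul_one (x : 𝒞.Hom I J) : x * (1 : 𝒞.Hom J J) = x := 𝒞.mul_one x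

protected theorem mul_add (x : 𝒞.Hom I J) (y z : 𝒞.Hom J K) : x * (y + z) = x * y + x * z :=
  𝒞.mul_add x y z

protected theorem add_mul (x y : 𝒞.Hom I J) (z : 𝒞.Hom J K) : (x + y) * z = x * z + y * z :=
  𝒞.add_mul x y z

/-- multiplication from the left -/
def lmul (x : 𝒞.Hom I J) : 𝒞.Hom J K →+ 𝒞.Hom I K := AddMonoidHom.mk' (x * ·) (Hm.mul_add x)

/-- multiplication from the right -/
def rmul (z : 𝒞.Hom J K) : 𝒞.Hom I J →+ 𝒞.Hom I K :=
  AddMonoidHom.mk' (· * z) fun x y => Hm.add_mul x y z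

@[simp] protected theorem mul_zero (x : 𝒞.Hom I J) : x * (0 : 𝒞.Hom J K) = 0 := (lmul x).map_zero

@[simp] protected theorem zero_mul (z : 𝒞.Hom J K) : (0 : 𝒞.Hom I J) * z = 0 := (rmul z).map_zero

@[simp] protected theorem mul_neg (x : 𝒞.Hom I J) (y : 𝒞.Hom J K) : x * -y = -(x * y) :=
  (lmul x).map_neg y

@[simp] protected theorem neg_mul (x : 𝒞.Hom I J) (y : 𝒞.Hom J K) : -x * y = -(x * y) :=
  (rmul y).map_neg x

protected theorem mul_sub (x : 𝒞.Hom I J) (y z : 𝒞.Hom J K) : x * (y - z) = x * y - x * z :=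
  (lmul x).map_sub y z

protected theorem sub_mul (x y : 𝒞.Hom I J) (z : 𝒞.Hom J K) : (x - y) * z = x * z - y * z :=
  (rmul z).map_sub x y

@[simp] protected theorem mul_smul (x : 𝒞.Hom I J) (n : ℤ) (y : 𝒞.Hom J K) :
    x * (n • y) = n • (x * y) := (lmul x).map_zsmul n y

@[simp] protected theorem smul_mul (n : ℤ) (x : 𝒞.Hom I J) (y : 𝒞.Hom J K) :
    (n • x) * y = n • (x * y) := (rmul y).map_zsmul n x

protected theorem mul_sum {ι : Type} (s : Finset ι) (x : 𝒞.Hom I J) (f : ι → 𝒞.Hom J K) :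
    x * ∑ i ∈ s, f i = ∑ i ∈ s, x * f i := map_sum (lmul x) f s

protected theorem sum_mul {ι : Type} (s : Finset ι) (f : ι → 𝒞.Hom I J) (z : 𝒞.Hom J K) :
    (∑ i ∈ s, f i) * z = ∑ i ∈ s, f i * z := map_sum (rmul z) f s

end Hm

instance homRing : Ring (𝒞.Hom I I) :=
  { homAcg 𝒞 I I, homOne, homMul with
    mul_assoc := Hm.mul_assoc
    one_mul := Hm.one_mul
    mul_one := Hm.mul_one
    left_distrib := Hm.mul_add
    right_distrib := Hm.add_mul
    zero_mul := Hm.zero_mul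
    mul_zero := Hm.mul_zero }

theorem SC_ll : 𝒞.inl I J * 𝒞.fst I J = 1 := 𝒞.inl_inl I J

theorem SC_rr : 𝒞.inr I J * 𝒞.snd I J = 1 := 𝒞.inr_inr I J

theorem SC_lr : 𝒞.inl I J * 𝒞.snd I J = 0 := 𝒞.inl_inr I J

theorem SC_rl : 𝒞.inr I J * 𝒞.fst I J = 0 := 𝒞.inr_inl I J

theorem SC_tot : 𝒞.fst I J * 𝒞.inl I J + 𝒞.snd I J * 𝒞.inr I J = 1 := 𝒞.total I J

/-- two blocks of rows -/
def fromRows (a : 𝒞.Hom I K) (b : 𝒞.Hom J K) : 𝒞.Hom (I + J) K :=
  𝒞.fst I J * a + 𝒞.snd I J * b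

/-- two blocks of columns -/
def fromCols (a : 𝒞.Hom K I) (b : 𝒞.Hom K J) : 𝒞.Hom K (I + J) := a * 𝒞.inl I J + b * 𝒞.inr I J

/-- four blocks -/
def fromBlocks (a : 𝒞.Hom I K) (b : 𝒞.Hom I L) (c : 𝒞.Hom J K) (d : 𝒞.Hom J L) :
    𝒞.Hom (I + J) (K + L) := fromRows (fromCols a b) (fromCols c d)

/-- the upper rows -/
def ACat.Hom.toRows₁ (A : 𝒞.Hom (I + J) K) : 𝒞.Hom I K := 𝒞.inl I J * A

/-- the lower rows -/
def ACat.Hom.toRows₂ (A : 𝒞.Hom (I + J) K) : 𝒞.Hom J K := 𝒞.inr I J * A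

/-- the left columns -/
def ACat.Hom.toCols₁ (A : 𝒞.Hom K (I + J)) : 𝒞.Hom K I := A * 𝒞.fst I J

/-- the right columns -/
def ACat.Hom.toCols₂ (A : 𝒞.Hom K (I + J)) : 𝒞.Hom K J := A * 𝒞.snd I J

/-- the upper left block -/
def ACat.Hom.toBlocks₁₁ (A : 𝒞.Hom (I + J) (K + L)) : 𝒞.Hom I K := A.toRows₁.toCols₁

/-- the upper right block -/
def ACat.Hom.toBlocks₁₂ (A : 𝒞.Hom (I + J) (K + L)) : 𝒞.Hom I L := A.toRows₁.toCols₂

/-- the lower left block -/
def ACat.Hom.toBlocks₂₁ (A : 𝒞.Hom (I + J) (K + L)) : 𝒞.Hom J K := A.toRows₂.toCols₁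

/-- the lower right block -/
def ACat.Hom.toBlocks₂₂ (A : 𝒞.Hom (I + J) (K + L)) : 𝒞.Hom J L := A.toRows₂.toCols₂

open ACat.Hom

@[simp] theorem toRows₁_fromRows (a : 𝒞.Hom I K) (b : 𝒞.Hom J K) : (fromRows a b).toRows₁ = a := by
  rw [toRows₁, fromRows, Hm.mul_add, ← Hm.mul_assoc, ← Hm.mul_assoc, SC_ll, SC_lr]; simp

@[simp] theorem toRows₂_fromRows (a : 𝒞.Hom I K) (b : 𝒞.Hom J K) : (fromRows a b).toRows₂ = b := by
  rw [toRows₂, fromRows, Hm.mul_add, ← Hm.mul_assoc, ← Hm.mul_assoc, SC_rl, SC_rr]; simp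

@[simp] theorem toCols₁_fromCols (a : 𝒞.Hom K I) (b : 𝒞.Hom K J) : (fromCols a b).toCols₁ = a := by
  rw [toCols₁, fromCols, Hm.add_mul, Hm.mul_assoc, Hm.mul_assoc, SC_ll, SC_rl]; simp

@[simp] theorem toCols₂_fromCols (a : 𝒞.Hom K I) (b : 𝒞.Hom K J) : (fromCols a b).toCols₂ = b := by
  rw [toCols₂, fromCols, Hm.add_mul, Hm.mul_assoc, Hm.mul_assoc, SC_lr, SC_rr]; simp

@[simp] theorem fromRows_toRows (A : 𝒞.Hom (I + J) K) : fromRows A.toRows₁ A.toRows₂ = A := by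
  rw [fromRows, toRows₁, toRows₂, ← Hm.mul_assoc, ← Hm.mul_assoc, ← Hm.add_mul, SC_tot, Hm.one_mul]

@[simp] theorem fromCols_toCols (A : 𝒞.Hom K (I + J)) : fromCols A.toCols₁ A.toCols₂ = A := by
  rw [fromCols, toCols₁, toCols₂, Hm.mul_assoc, Hm.mul_assoc, ← Hm.mul_add, SC_tot, Hm.mul_one]

@[simp] theorem fromBlocks_toBlocks (A : 𝒞.Hom (I + J) (K + L)) :
    fromBlocks A.toBlocks₁₁ A.toBlocks₁₂ A.toBlocks₂₁ A.toBlocks₂₂ = A := by
  simp only [fromBlocks, toBlocks₁₁, toBlocks₁₂, toBlocks₂₁, toBlocks₂₂, fromCols_toCols,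
    fromRows_toRows]

theorem ext_rows {A B : 𝒞.Hom (I + J) K} (h1 : A.toRows₁ = B.toRows₁) (h2 : A.toRows₂ = B.toRows₂) :
    A = B := by rw [← fromRows_toRows A, h1, h2, fromRows_toRows]

theorem ext_cols {A B : 𝒞.Hom K (I + J)} (h1 : A.toCols₁ = B.toCols₁) (h2 : A.toCols₂ = B.toCols₂) :
    A = B := by rw [← fromCols_toCols A, h1, h2, fromCols_toCols]

theorem exists_rows (A : 𝒞.Hom (I + J) K) : ∃ a b, A = fromRows a b := ⟨_, _, (fromRows_toRows A).symm⟩

theorem exists_cols (A : 𝒞.Hom K (I + J)) : ∃ a b, A = fromCols a b := ⟨_, _, (fromCols_toCols A).symm⟩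

theorem exists_blocks (A : 𝒞.Hom (I + J) (K + L)) : ∃ a b c d, A = fromBlocks a b c d :=
  ⟨_, _, _, _, (fromBlocks_toBlocks A).symm⟩

section Blocks

variable (a a' : 𝒞.Hom I K) (b b' : 𝒞.Hom I L) (c c' : 𝒞.Hom J K) (d d' : 𝒞.Hom J L)

@[simp] theorem toRows₁_fromBlocks : (fromBlocks a b c d).toRows₁ = fromCols a b :=
  toRows₁_fromRows _ _

@[simp] theorem toRows₂_fromBlocks : (fromBlocks a b c d).toRows₂ = fromCols c d :=
  toRows₂_fromRows _ _

@[simp] theorem toBlocks_fromBlocks₁₁ : (fromBlocks a b c d).toBlocks₁₁ = a := by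
  simp [toBlocks₁₁]

@[simp] theorem toBlocks_fromBlocks₁₂ : (fromBlocks a b c d).toBlocks₁₂ = b := by
  simp [toBlocks₁₂]

@[simp] theorem toBlocks_fromBlocks₂₁ : (fromBlocks a b c d).toBlocks₂₁ = c := by
  simp [toBlocks₂₁]

@[simp] theorem toBlocks_fromBlocks₂₂ : (fromBlocks a b c d).toBlocks₂₂ = d := by
  simp [toBlocks₂₂]

theorem fromRows_fromCols_eq_fromBlocks :
    fromRows (fromCols a b) (fromCols c d) = fromBlocks a b c d := rfl

theorem fromCols_fromRows_eq_fromBlocks :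
    fromCols (fromRows a c) (fromRows b d) = fromBlocks a b c d := by
  simp only [fromBlocks, fromCols, fromRows, Hm.mul_add, Hm.add_mul, Hm.mul_assoc]
  abel

@[simp] theorem toCols₁_fromBlocks : (fromBlocks a b c d).toCols₁ = fromRows a c := by
  rw [← fromCols_fromRows_eq_fromBlocks, toCols₁_fromCols]

@[simp] theorem toCols₂_fromBlocks : (fromBlocks a b c d).toCols₂ = fromRows b d := by
  rw [← fromCols_fromRows_eq_fromBlocks, toCols₂_fromCols]

end Blocks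

theorem fromRows_ext_iff {a a' : 𝒞.Hom I K} {b b' : 𝒞.Hom J K} :
    fromRows a b = fromRows a' b' ↔ a = a' ∧ b = b' :=
  ⟨fun h => ⟨by simpa using congrArg toRows₁ h, by simpa using congrArg toRows₂ h⟩,
    fun ⟨h, h'⟩ => h ▸ h' ▸ rfl⟩

theorem fromCols_ext_iff {a a' : 𝒞.Hom K I} {b b' : 𝒞.Hom K J} :
    fromCols a b = fromCols a' b' ↔ a = a' ∧ b = b' :=
  ⟨fun h => ⟨by simpa using congrArg toCols₁ h, by simpa using congrArg toCols₂ h⟩,
    fun ⟨h, h'⟩ => h ▸ h' ▸ rfl⟩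

theorem fromCols_inj {a a' : 𝒞.Hom K I} {b b' : 𝒞.Hom K J} (h : fromCols a b = fromCols a' b') :
    a = a' ∧ b = b' := fromCols_ext_iff.1 h

theorem fromRows_inj {a a' : 𝒞.Hom I K} {b b' : 𝒞.Hom J K} (h : fromRows a b = fromRows a' b') :
    a = a' ∧ b = b' := fromRows_ext_iff.1 h

@[simp] theorem fromBlocks_inj {a a' : 𝒞.Hom I K} {b b' : 𝒞.Hom I L} {c c' : 𝒞.Hom J K}
    {d d' : 𝒞.Hom J L} :
    fromBlocks a b c d = fromBlocks a' b' c' d' ↔ a = a' ∧ b = b' ∧ c = c' ∧ d = d' := by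
  simp only [fromBlocks, fromRows_ext_iff, fromCols_ext_iff, and_assoc]

@[simp] theorem fromRows_mul (a : 𝒞.Hom I K) (b : 𝒞.Hom J K) (x : 𝒞.Hom K L) :
    fromRows a b * x = fromRows (a * x) (b * x) := by
  simp only [fromRows, Hm.add_mul, Hm.mul_assoc]

@[simp] theorem mul_fromCols (x : 𝒞.Hom L K) (a : 𝒞.Hom K I) (b : 𝒞.Hom K J) :
    x * fromCols a b = fromCols (x * a) (x * b) := by
  simp only [fromCols, Hm.mul_add, Hm.mul_assoc]

theorem fromCols_mul_eq (a : 𝒞.Hom K I) (b : 𝒞.Hom K J) (x : 𝒞.Hom (I + J) L) :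
    fromCols a b * x = a * x.toRows₁ + b * x.toRows₂ := by
  simp only [fromCols, toRows₁, toRows₂, Hm.add_mul, Hm.mul_assoc]

theorem mul_fromRows_eq (x : 𝒞.Hom K (I + J)) (c : 𝒞.Hom I L) (d : 𝒞.Hom J L) :
    x * fromRows c d = x.toCols₁ * c + x.toCols₂ * d := by
  simp only [fromRows, toCols₁, toCols₂, Hm.mul_add, Hm.mul_assoc]

theorem fromCols_mul_fromRows (a : 𝒞.Hom K I) (b : 𝒞.Hom K J) (c : 𝒞.Hom I L) (d : 𝒞.Hom J L) :
    fromCols a b * fromRows c d = a * c + b * d := by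
  rw [fromCols_mul_eq, toRows₁_fromRows, toRows₂_fromRows]

theorem fromRows_mul_fromCols (a : 𝒞.Hom I M) (b : 𝒞.Hom J M) (c : 𝒞.Hom M K) (d : 𝒞.Hom M L) :
    fromRows a b * fromCols c d = fromBlocks (a * c) (a * d) (b * c) (b * d) := by
  rw [fromRows_mul, mul_fromCols, mul_fromCols, fromBlocks]

@[simp] theorem fromRows_add (a a' : 𝒞.Hom I K) (b b' : 𝒞.Hom J K) :
    fromRows a b + fromRows a' b' = fromRows (a + a') (b + b') := by
  simp only [fromRows, Hm.mul_add]; abel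

@[simp] theorem fromCols_add (a a' : 𝒞.Hom K I) (b b' : 𝒞.Hom K J) :
    fromCols a b + fromCols a' b' = fromCols (a + a') (b + b') := by
  simp only [fromCols, Hm.add_mul]; abel

theorem fromRows_neg (a : 𝒞.Hom I K) (b : 𝒞.Hom J K) : -fromRows a b = fromRows (-a) (-b) := by
  simp only [fromRows, Hm.mul_neg]; abel

theorem fromCols_neg (a : 𝒞.Hom K I) (b : 𝒞.Hom K J) : -fromCols a b = fromCols (-a) (-b) := by
  simp only [fromCols, Hm.neg_mul]; abel

@[simp] theorem fromRows_sub (a a' : 𝒞.Hom I K) (b b' : 𝒞.Hom J K) :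
    fromRows a b - fromRows a' b' = fromRows (a - a') (b - b') := by
  simp only [sub_eq_add_neg, fromRows_neg, fromRows_add]

@[simp] theorem fromCols_sub (a a' : 𝒞.Hom K I) (b b' : 𝒞.Hom K J) :
    fromCols a b - fromCols a' b' = fromCols (a - a') (b - b') := by
  simp only [sub_eq_add_neg, fromCols_neg, fromCols_add]

theorem fromRows_smul (n : ℤ) (a : 𝒞.Hom I K) (b : 𝒞.Hom J K) :
    n • fromRows a b = fromRows (n • a) (n • b) := by
  simp only [fromRows, Hm.mul_smul, smul_add]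

theorem fromCols_smul (n : ℤ) (a : 𝒞.Hom K I) (b : 𝒞.Hom K J) :
    n • fromCols a b = fromCols (n • a) (n • b) := by
  simp only [fromCols, Hm.smul_mul, smul_add]

@[simp] theorem fromRows_zero : fromRows (0 : 𝒞.Hom I K) (0 : 𝒞.Hom J K) = 0 := by simp [fromRows]

@[simp] theorem fromCols_zero : fromCols (0 : 𝒞.Hom K I) (0 : 𝒞.Hom K J) = 0 := by simp [fromCols]

@[simp] theorem fromBlocks_zero :
    fromBlocks (0 : 𝒞.Hom I K) (0 : 𝒞.Hom I L) (0 : 𝒞.Hom J K) (0 : 𝒞.Hom J L) = 0 := by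
  simp [fromBlocks]

@[simp] theorem fromBlocks_one : fromBlocks (1 : 𝒞.Hom I I) 0 0 (1 : 𝒞.Hom J J) = 1 := by
  simp only [fromBlocks, fromRows, fromCols, Hm.one_mul, Hm.zero_mul, add_zero, zero_add, SC_tot]

section Blocks2

variable (a a' : 𝒞.Hom I K) (b b' : 𝒞.Hom I L) (c c' : 𝒞.Hom J K) (d d' : 𝒞.Hom J L)

theorem fromBlocks_add : fromBlocks a b c d + fromBlocks a' b' c' d' =
    fromBlocks (a + a') (b + b') (c + c') (d + d') := by
  simp only [fromBlocks, fromRows_add, fromCols_add]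

theorem fromBlocks_sub : fromBlocks a b c d - fromBlocks a' b' c' d' =
    fromBlocks (a - a') (b - b') (c - c') (d - d') := by
  simp only [fromBlocks, fromRows_sub, fromCols_sub]

theorem fromBlocks_neg : -fromBlocks a b c d = fromBlocks (-a) (-b) (-c) (-d) := by
  simp only [fromBlocks, fromRows_neg, fromCols_neg]

theorem fromBlocks_smul (n : ℤ) :
    n • fromBlocks a b c d = fromBlocks (n • a) (n • b) (n • c) (n • d) := by
  simp only [fromBlocks, fromRows_smul, fromCols_smul]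

theorem fromBlocks_mul_fromRows (x : 𝒞.Hom K M) (y : 𝒞.Hom L M) :
    fromBlocks a b c d * fromRows x y = fromRows (a * x + b * y) (c * x + d * y) := by
  rw [fromBlocks, fromRows_mul, fromCols_mul_fromRows, fromCols_mul_fromRows]

theorem fromCols_mul_fromBlocks (x : 𝒞.Hom M I) (y : 𝒞.Hom M J) :
    fromCols x y * fromBlocks a b c d = fromCols (x * a + y * c) (x * b + y * d) := by
  rw [← fromCols_fromRows_eq_fromBlocks, mul_fromCols, fromCols_mul_fromRows, fromCols_mul_fromRows]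

theorem fromBlocks_multiply (x : 𝒞.Hom K M) (y : 𝒞.Hom K N) (z : 𝒞.Hom L M) (w : 𝒞.Hom L N) :
    fromBlocks a b c d * fromBlocks x y z w =
      fromBlocks (a * x + b * z) (a * y + b * w) (c * x + d * z) (c * y + d * w) := by
  rw [fromBlocks, fromRows_mul, fromCols_mul_fromBlocks, fromCols_mul_fromBlocks, fromBlocks]

end Blocks2

section Parts

variable (A B : 𝒞.Hom (I + J) K) (A' B' : 𝒞.Hom K (I + J))

@[simp] theorem toRows₁_add : (A + B).toRows₁ = A.toRows₁ + B.toRows₁ := Hm.mul_add _ _ _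
@[simp] theorem toRows₂_add : (A + B).toRows₂ = A.toRows₂ + B.toRows₂ := Hm.mul_add _ _ _
@[simp] theorem toCols₁_add : (A' + B').toCols₁ = A'.toCols₁ + B'.toCols₁ := Hm.add_mul _ _ _
@[simp] theorem toCols₂_add : (A' + B').toCols₂ = A'.toCols₂ + B'.toCols₂ := Hm.add_mul _ _ _
@[simp] theorem toRows₁_sub : (A - B).toRows₁ = A.toRows₁ - B.toRows₁ := Hm.mul_sub _ _ _
@[simp] theorem toRows₂_sub : (A - B).toRows₂ = A.toRows₂ - B.toRows₂ := Hm.mul_sub _ _ _
@[simp] theorem toCols₁_sub : (A' - B').toCols₁ = A'.toCols₁ - B'.toCols₁ := Hm.sub_mul _ _ _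
@[simp] theorem toCols₂_sub : (A' - B').toCols₂ = A'.toCols₂ - B'.toCols₂ := Hm.sub_mul _ _ _
@[simp] theorem toRows₁_neg : (-A).toRows₁ = -A.toRows₁ := Hm.mul_neg _ _
@[simp] theorem toRows₂_neg : (-A).toRows₂ = -A.toRows₂ := Hm.mul_neg _ _
@[simp] theorem toCols₁_neg : (-A').toCols₁ = -A'.toCols₁ := Hm.neg_mul _ _
@[simp] theorem toCols₂_neg : (-A').toCols₂ = -A'.toCols₂ := Hm.neg_mul _ _
@[simp] theorem toRows₁_smul (n : ℤ) : (n • A).toRows₁ = n • A.toRows₁ := Hm.mul_smul _ _ _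
@[simp] theorem toRows₂_smul (n : ℤ) : (n • A).toRows₂ = n • A.toRows₂ := Hm.mul_smul _ _ _
@[simp] theorem toCols₁_smul (n : ℤ) : (n • A').toCols₁ = n • A'.toCols₁ := Hm.smul_mul _ _ _
@[simp] theorem toCols₂_smul (n : ℤ) : (n • A').toCols₂ = n • A'.toCols₂ := Hm.smul_mul _ _ _
@[simp] theorem toRows₁_zero : (0 : 𝒞.Hom (I + J) K).toRows₁ = 0 := Hm.mul_zero _
@[simp] theorem toRows₂_zero : (0 : 𝒞.Hom (I + J) K).toRows₂ = 0 := Hm.mul_zero _
@[simp] theorem toCols₁_zero : (0 : 𝒞.Hom K (I + J)).toCols₁ = 0 := Hm.zero_mul _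
@[simp] theorem toCols₂_zero : (0 : 𝒞.Hom K (I + J)).toCols₂ = 0 := Hm.zero_mul _
theorem toRows₁_mul (x : 𝒞.Hom K L) : (A * x).toRows₁ = A.toRows₁ * x := (Hm.mul_assoc _ _ _).symm
theorem toRows₂_mul (x : 𝒞.Hom K L) : (A * x).toRows₂ = A.toRows₂ * x := (Hm.mul_assoc _ _ _).symm
theorem toCols₁_mul (x : 𝒞.Hom L K) : (x * A').toCols₁ = x * A'.toCols₁ := Hm.mul_assoc _ _ _
theorem toCols₂_mul (x : 𝒞.Hom L K) : (x * A').toCols₂ = x * A'.toCols₂ := Hm.mul_assoc _ _ _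

@[simp] theorem toRows₁_fromCols (x : 𝒞.Hom (I + J) K) (y : 𝒞.Hom (I + J) L) :
    (fromCols x y).toRows₁ = fromCols x.toRows₁ y.toRows₁ := mul_fromCols _ _ _
@[simp] theorem toRows₂_fromCols (x : 𝒞.Hom (I + J) K) (y : 𝒞.Hom (I + J) L) :
    (fromCols x y).toRows₂ = fromCols x.toRows₂ y.toRows₂ := mul_fromCols _ _ _
@[simp] theorem toCols₁_fromRows (x : 𝒞.Hom K (I + J)) (y : 𝒞.Hom L (I + J)) :
    (fromRows x y).toCols₁ = fromRows x.toCols₁ y.toCols₁ := fromRows_mul _ _ _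
@[simp] theorem toCols₂_fromRows (x : 𝒞.Hom K (I + J)) (y : 𝒞.Hom L (I + J)) :
    (fromRows x y).toCols₂ = fromRows x.toCols₂ y.toCols₂ := fromRows_mul _ _ _

@[simp] theorem toRows₁_one : (1 : 𝒞.Hom (I + J) (I + J)).toRows₁ = fromCols 1 0 := by
  rw [← fromBlocks_one, toRows₁_fromBlocks]
@[simp] theorem toRows₂_one : (1 : 𝒞.Hom (I + J) (I + J)).toRows₂ = fromCols 0 1 := by
  rw [← fromBlocks_one, toRows₂_fromBlocks]
@[simp] theorem toCols₁_one : (1 : 𝒞.Hom (I + J) (I + J)).toCols₁ = fromRows 1 0 := by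
  rw [← fromBlocks_one, toCols₁_fromBlocks]
@[simp] theorem toCols₂_one : (1 : 𝒞.Hom (I + J) (I + J)).toCols₂ = fromRows 0 1 := by
  rw [← fromBlocks_one, toCols₂_fromBlocks]

theorem toRows₁_eq (U : 𝒞.Hom (I + J) (K + L)) : U.toRows₁ = fromCols U.toBlocks₁₁ U.toBlocks₁₂ :=
  (fromCols_toCols _).symm
theorem toRows₂_eq (U : 𝒞.Hom (I + J) (K + L)) : U.toRows₂ = fromCols U.toBlocks₂₁ U.toBlocks₂₂ :=
  (fromCols_toCols _).symm
theorem toCols₁_eq (U : 𝒞.Hom (I + J) (K + L)) : U.toCols₁ = fromRows U.toBlocks₁₁ U.toBlocks₂₁ := by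
  conv_lhs => rw [← fromBlocks_toBlocks U, toCols₁_fromBlocks]
theorem toCols₂_eq (U : 𝒞.Hom (I + J) (K + L)) : U.toCols₂ = fromRows U.toBlocks₁₂ U.toBlocks₂₂ := by
  conv_lhs => rw [← fromBlocks_toBlocks U, toCols₂_fromBlocks]

end Parts

end Pool.Agent.Work.MP_9d1ffa_al.Dg
end

-- merged part: Pool.Agent.Work.MP_9d1ffa_al.Dg.DM
section
/-! The category of controlled matrices over a group ring with arbitrary coefficients. -/

namespace Pool.Agent.Work.MP_9d1ffa_al.Dg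

open MonoidAlgebra

set_option linter.unusedSectionVars false
set_option linter.unusedVariables false

variable {X K R : Type} [Group K] [Ring R] {ρ : K →* Equiv.Perm X}

/-- a controlled set of triples -/
def CtS (ρ : K →* Equiv.Perm X) (a b : Ob X) (S : a.I → b.I → K → Prop) : Prop :=
  (∃ T : Finset K, ∀ i j g, S i j g → g ∈ T) ∧
  (∃ c : ℕ, ∀ i j g, S i j g → a.t i ≤ b.t j + c ∧ b.t j ≤ a.t i + c) ∧
  ∀ ε : ℝ, 0 < ε → ∃ n : ℕ, ∀ i j g, n ≤ a.t i → S i j g →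
    l1 (a.x i - (b.x j).mapDomain (ρ g)) ≤ ε

section CtS

variable {a b c : Ob X} {S S' : a.I → b.I → K → Prop}

theorem ctr_iff {M : Matrix a.I b.I (MonoidAlgebra R K)} :
    Ctr ρ a b M ↔ CtS ρ a b fun i j g => (M i j).coeff g ≠ 0 := Iff.rfl

theorem CtS.mono (h : CtS ρ a b S) (k : ∀ i j g, S' i j g → S i j g) : CtS ρ a b S' := by
  obtain ⟨⟨T, hT⟩, ⟨c, hc⟩, hd⟩ := h
  refine ⟨⟨T, fun i j g e => hT i j g (k i j g e)⟩, ⟨c, fun i j g e => hc i j g (k i j g e)⟩,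
    fun δ hδ => ?_⟩
  obtain ⟨n, hn⟩ := hd δ hδ
  exact ⟨n, fun i j g h1 e => hn i j g h1 (k i j g e)⟩

theorem ctS_bot : CtS ρ a b fun _ _ _ => False :=
  ⟨⟨∅, fun _ _ _ e => e.elim⟩, ⟨0, fun _ _ _ e => e.elim⟩, fun _ _ => ⟨0, fun _ _ _ _ e => e.elim⟩⟩

theorem CtS.or (h : CtS ρ a b S) (h' : CtS ρ a b S') :
    CtS ρ a b fun i j g => S i j g ∨ S' i j g := by
  classical
  obtain ⟨⟨T, hT⟩, ⟨c, hc⟩, hd⟩ := h
  obtain ⟨⟨T', hT'⟩, ⟨c', hc'⟩, hd'⟩ := h'
  refine ⟨⟨T ∪ T', fun i j g e => Finset.mem_union.2 (e.imp (hT i j g) (hT' i j g))⟩,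
    ⟨c + c', fun i j g e => ?_⟩, fun δ hδ => ?_⟩
  · rcases e with e | e
    · have := hc i j g e
      omega
    · have := hc' i j g e
      omega
  · obtain ⟨n, hn⟩ := hd δ hδ
    obtain ⟨n', hn'⟩ := hd' δ hδ
    exact ⟨n + n', fun i j g h1 e => e.elim (hn i j g (by omega)) (hn' i j g (by omega))⟩

theorem CtS.comp {T : b.I → c.I → K → Prop} (h : CtS ρ a b S) (h' : CtS ρ b c T) :
    CtS ρ a c fun i k g => ∃ j g₁ g₂, g₁ * g₂ = g ∧ S i j g₁ ∧ T j k g₂ := by
  classical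
  obtain ⟨⟨U, hS⟩, ⟨d, hc⟩, hd⟩ := h
  obtain ⟨⟨U', hS'⟩, ⟨d', hc'⟩, hd'⟩ := h'
  refine ⟨⟨Finset.image₂ (· * ·) U U', fun i k g e => ?_⟩, ⟨d + d', fun i k g e => ?_⟩,
    fun δ hδ => ?_⟩
  · obtain ⟨j, g₁, g₂, rfl, h1, h2⟩ := e
    exact Finset.mem_image₂_of_mem (hS i j g₁ h1) (hS' j k g₂ h2)
  · obtain ⟨j, g₁, g₂, -, h1, h2⟩ := e
    have k1 := hc i j _ h1
    have k2 := hc' j k _ h2
    omega
  · obtain ⟨n, hn⟩ := hd (δ / 2) (half_pos hδ)
    obtain ⟨n', hn'⟩ := hd' (δ / 2) (half_pos hδ)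
    refine ⟨n + n' + d, fun i k g h0 e => ?_⟩
    obtain ⟨j, g₁, g₂, rfl, h1, h2⟩ := e
    have k1 := hc i j _ h1
    have k2 := hn i j g₁ (by omega) h1
    have k3 := hn' j k g₂ (by omega) h2
    rw [← l1_mapDomain_perm (ρ g₁), Finsupp.mapDomain_sub, ← mapDomain_rho_mul] at k3
    have k4 := l1_tri (a.x i) ((b.x j).mapDomain (ρ g₁)) ((c.x k).mapDomain (ρ (g₁ * g₂)))
    linarith

theorem CtS.inv (h : CtS ρ a b S) : CtS ρ b a fun j i g => S i j g⁻¹ := by
  classical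
  obtain ⟨⟨T, hS⟩, ⟨d, hc⟩, hd⟩ := h
  refine ⟨⟨T.image (·⁻¹), fun j i g e => Finset.mem_image.2 ⟨g⁻¹, hS i j _ e, inv_inv g⟩⟩,
    ⟨d, fun j i g e => (hc i j _ e).symm⟩, fun δ hδ => ?_⟩
  obtain ⟨n, hn⟩ := hd δ hδ
  refine ⟨n + d, fun j i g h0 e => ?_⟩
  have k1 := hc i j _ e
  have k2 := hn i j g⁻¹ (by omega) e
  rwa [← l1_mapDomain_perm (ρ g), Finsupp.mapDomain_sub, ← mapDomain_rho_mul, mul_inv_cancel,
    mapDomain_rho_one, l1_sub_comm] at k2

/-- a relation between basis elements with equal heights and positions -/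
theorem ctS_one (h : ∀ i j g, S i j g → g = 1 ∧ b.t j = a.t i ∧ b.x j = a.x i) : CtS ρ a b S := by
  refine ⟨⟨{1}, fun i j g e => Finset.mem_singleton.2 (h i j g e).1⟩, ⟨0, fun i j g e => ?_⟩,
    fun δ hδ => ⟨0, fun i j g _ e => ?_⟩⟩
  · have := (h i j g e).2.1
    omega
  · obtain ⟨rfl, -, e⟩ := h i j g e
    rw [mapDomain_rho_one, e, sub_self, l1_zero]
    exact hδ.le

/-- pulling back along maps that preserve heights and positions -/
theorem CtS.pull {a' b' : Ob X} (h : CtS ρ a b S) (s : a'.I → a.I) (t : b'.I → b.I)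
    (h1 : ∀ i, a.t (s i) = a'.t i) (h2 : ∀ i, a.x (s i) = a'.x i) (h3 : ∀ i, b.t (t i) = b'.t i)
    (h4 : ∀ i, b.x (t i) = b'.x i) : CtS ρ a' b' fun i j g => S (s i) (t j) g := by
  obtain ⟨⟨T, hT⟩, ⟨c, hc⟩, hd⟩ := h
  refine ⟨⟨T, fun i j g e => hT _ _ g e⟩, ⟨c, fun i j g e => ?_⟩, fun δ hδ => ?_⟩
  · have := hc _ _ g e
    rwa [h1, h3] at this
  · obtain ⟨n, hn⟩ := hd δ hδ
    refine ⟨n, fun i j g h0 e => ?_⟩
    have := hn _ _ g (by rwa [h1]) e
    rwa [h2, h4] at this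

end CtS

section Mat

variable {I J L M : Type}

theorem ne_iff {x : MonoidAlgebra R K} : x ≠ 0 ↔ ∃ g, x.coeff g ≠ 0 := by
  rw [Ne, ← coeff_eq_zero, Finsupp.ext_iff, not_forall]
  rfl

theorem coeff_mul_ne' {x y : MonoidAlgebra R K} {g : K} (e : (x * y).coeff g ≠ 0) :
    ∃ a b, x.coeff a ≠ 0 ∧ y.coeff b ≠ 0 ∧ a * b = g := by
  classical
  have := support_coeff_mul_subset x y (Finsupp.mem_support_iff.2 e)
  obtain ⟨a, ha, b, hb, e⟩ := Finset.mem_mul.1 this
  exact ⟨a, b, Finsupp.mem_support_iff.1 ha, Finsupp.mem_support_iff.1 hb, e⟩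

/-- all rows are finite -/
def RowF {S : Type} [Ring S] (A : Matrix I J S) : Prop := ∀ i, {j | A i j ≠ 0}.Finite

theorem rowF_of_ctr {a b : Ob X} {A : Matrix a.I b.I (MonoidAlgebra R K)} (h : Ctr ρ a b A) :
    RowF A := by
  obtain ⟨-, ⟨c, hc⟩, -⟩ := h
  refine fun i => (b.fin (a.t i + c)).subset fun j hj => ?_
  obtain ⟨g, e⟩ := ne_iff.1 hj
  exact (hc i j g e).2

variable {S : Type} [Ring S]

theorem cm_eq_sum (A : Matrix I J S) (B : Matrix J L S) (i : I) (k : L) (s : Finset J)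
    (h : ∀ j, A i j * B j k ≠ 0 → j ∈ s) : cm A B i k = ∑ j ∈ s, A i j * B j k :=
  finsum_eq_sum_of_support_subset _ fun j hj => h j hj

theorem cm_single (A : Matrix I J S) (B : Matrix J L S) (i : I) (k : L) (j₀ : J)
    (h : ∀ j, j ≠ j₀ → A i j * B j k = 0) : cm A B i k = A i j₀ * B j₀ k :=
  finsum_eq_single (fun j => A i j * B j k) j₀ h

theorem cm_zero (A : Matrix I J S) (B : Matrix J L S) (i : I) (k : L)
    (h : ∀ j, A i j * B j k = 0) : cm A B i k = 0 :=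
  finsum_eq_zero_of_forall_eq_zero h

theorem cm_row {A : Matrix I J S} (B : Matrix J L S) (i : I) (k : L) (s : Finset J)
    (h : ∀ j, A i j ≠ 0 → j ∈ s) : cm A B i k = ∑ j ∈ s, A i j * B j k :=
  cm_eq_sum A B i k s fun j hj => h j fun h0 => hj (by rw [h0, zero_mul])

theorem coeff_cm_ne {A : Matrix I J (MonoidAlgebra R K)} {B : Matrix J L (MonoidAlgebra R K)}
    {i : I} {k : L} {g : K} (h : (cm A B i k).coeff g ≠ 0) :
    ∃ j g₁ g₂, g₁ * g₂ = g ∧ (A i j).coeff g₁ ≠ 0 ∧ (B j k).coeff g₂ ≠ 0 := by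
  by_cases hf : (Function.support fun j => A i j * B j k).Finite
  · rw [cm_eq_sum A B i k hf.toFinset fun j hj => hf.mem_toFinset.2 hj, coeff_sum,
      Finsupp.finsetSum_apply] at h
    obtain ⟨j, -, e⟩ := Finset.exists_ne_zero_of_sum_ne_zero h
    obtain ⟨g₁, g₂, h1, h2, h3⟩ := coeff_mul_ne' e
    exact ⟨j, g₁, g₂, h3, h1, h2⟩
  · have e : cm A B i k = 0 := finsum_of_infinite_support hf
    rw [e] at h
    exact absurd rfl h

theorem cm_assoc {A : Matrix I J S} {B : Matrix J L S} (hA : RowF A) (hB : RowF B)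
    (D : Matrix L M S) : cm (cm A B) D = cm A (cm B D) := by
  classical
  refine Matrix.ext fun i l => ?_
  let s := (hA i).toFinset
  let s' := s.biUnion fun j => (hB j).toFinset
  have hs : ∀ j, A i j ≠ 0 → j ∈ s := fun j hj => (hA i).mem_toFinset.2 hj
  have hs' : ∀ j ∈ s, ∀ k, B j k ≠ 0 → k ∈ s' := fun j hj k hk =>
    Finset.mem_biUnion.2 ⟨j, hj, (hB j).mem_toFinset.2 hk⟩
  have h1 : ∀ k, cm A B i k ≠ 0 → k ∈ s' := fun k hk => by
    rw [cm_row B i k s hs] at hk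
    obtain ⟨j, hj, h0⟩ := Finset.exists_ne_zero_of_sum_ne_zero hk
    exact hs' j hj k fun h => h0 (by rw [h, mul_zero])
  rw [cm_row D i l s' h1, cm_row (cm B D) i l s hs]
  have h2 : ∀ k ∈ s', cm A B i k * D k l = ∑ j ∈ s, A i j * B j k * D k l := fun k _ => by
    rw [cm_row B i k s hs, Finset.sum_mul]
  rw [Finset.sum_congr rfl h2, Finset.sum_comm]
  refine Finset.sum_congr rfl fun j hj => ?_
  rw [cm_row D j l s' (hs' j hj), Finset.mul_sum]
  exact Finset.sum_congr rfl fun k _ => mul_assoc _ _ _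

theorem cm_add {A : Matrix I J S} (hA : RowF A) (B D : Matrix J L S) :
    cm A (B + D) = cm A B + cm A D := by
  refine Matrix.ext fun i k => ?_
  have hs : ∀ j, A i j ≠ 0 → j ∈ (hA i).toFinset := fun j hj => (hA i).mem_toFinset.2 hj
  rw [Matrix.add_apply, cm_row _ i k _ hs, cm_row _ i k _ hs, cm_row _ i k _ hs,
    ← Finset.sum_add_distrib]
  exact Finset.sum_congr rfl fun j _ => by rw [Matrix.add_apply, mul_add]

theorem add_cm {A B : Matrix I J S} (hA : RowF A) (hB : RowF B) (D : Matrix J L S) :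
    cm (A + B) D = cm A D + cm B D := by
  classical
  refine Matrix.ext fun i k => ?_
  let s := (hA i).toFinset ∪ (hB i).toFinset
  have h1 : ∀ j, A i j ≠ 0 → j ∈ s := fun j hj =>
    Finset.mem_union_left _ ((hA i).mem_toFinset.2 hj)
  have h2 : ∀ j, B i j ≠ 0 → j ∈ s := fun j hj =>
    Finset.mem_union_right _ ((hB i).mem_toFinset.2 hj)
  have h3 : ∀ j, (A + B) i j ≠ 0 → j ∈ s := fun j hj => by
    by_cases h : A i j = 0
    · refine h2 j fun h' => hj ?_
      rw [Matrix.add_apply, h, h', add_zero]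
    · exact h1 j h
  rw [Matrix.add_apply, cm_row _ i k _ h1, cm_row _ i k _ h2, cm_row _ i k _ h3,
    ← Finset.sum_add_distrib]
  exact Finset.sum_congr rfl fun j _ => by rw [Matrix.add_apply, add_mul]

theorem map_cm {A : Matrix I J S} (hA : RowF A) (B : Matrix J L S) {T : Type} [AddCommGroup T]
    (f : S →+ T) (i : I) (k : L) : f (cm A B i k) = ∑ᶠ j, f (A i j * B j k) := by
  refine AddMonoidHom.map_finsum f ((hA i).subset fun j hj e => hj ?_)
  show A i j * B j k = 0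
  rw [e, zero_mul]

theorem one_cm [DecidableEq I] (A : Matrix I J S) : cm 1 A = A := by
  refine Matrix.ext fun i j => ?_
  rw [cm_single _ _ _ _ i, Matrix.one_apply_eq, one_mul]
  intro k hk
  rw [Matrix.one_apply_ne' hk, zero_mul]

theorem cm_one [DecidableEq J] (A : Matrix I J S) : cm A 1 = A := by
  refine Matrix.ext fun i j => ?_
  rw [cm_single _ _ _ _ j, Matrix.one_apply_eq, mul_one]
  intro k hk
  rw [Matrix.one_apply_ne hk, mul_zero]

theorem cols_cm (A : Matrix M I S) (B : Matrix M J S) (hA : RowF A) (hB : RowF B)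
    (C : Matrix (I ⊕ J) L S) :
    cm (Matrix.fromCols A B) C = cm A C.toRows₁ + cm B C.toRows₂ := by
  classical
  refine Matrix.ext fun i k => ?_
  rw [cm_row C i k ((hA i).toFinset.disjSum (hB i).toFinset) (by
    rintro (j | j) hj
    · exact Finset.inl_mem_disjSum.2 ((hA i).mem_toFinset.2 hj)
    · exact Finset.inr_mem_disjSum.2 ((hB i).mem_toFinset.2 hj)), Finset.sum_disjSum,
    Matrix.add_apply, cm_row _ i k _ fun j hj => (hA i).mem_toFinset.2 hj,
    cm_row _ i k _ fun j hj => (hB i).mem_toFinset.2 hj]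
  rfl

theorem rows_cm (A : Matrix I M S) (B : Matrix J M S) (C : Matrix M L S) :
    cm (Matrix.fromRows A B) C = Matrix.fromRows (cm A C) (cm B C) := by
  refine Matrix.ext ?_
  rintro (i | i) k <;> rfl

theorem cm_cols (C : Matrix L M S) (A : Matrix M I S) (B : Matrix M J S) :
    cm C (Matrix.fromCols A B) = Matrix.fromCols (cm C A) (cm C B) := by
  refine Matrix.ext ?_
  rintro k (i | i) <;> rfl

theorem zero_cm (C : Matrix J L S) : cm (0 : Matrix I J S) C = 0 :=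
  Matrix.ext fun i k => cm_zero _ _ _ _ fun _ => zero_mul _

theorem cm_zero' (C : Matrix I J S) : cm C (0 : Matrix J L S) = 0 :=
  Matrix.ext fun i k => cm_zero _ _ _ _ fun _ => mul_zero _

theorem rowF_one [DecidableEq I] : RowF (1 : Matrix I I S) := fun i =>
  (Set.finite_singleton i).subset fun j hj => by
    by_contra e
    exact hj (Matrix.one_apply_ne' e)

theorem rowF_zero : RowF (0 : Matrix I J S) := fun i =>
  Set.finite_empty.subset fun j hj => hj rfl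

theorem total_cm [DecidableEq I] [DecidableEq J] [DecidableEq (I ⊕ J)] :
    cm (Matrix.fromRows (1 : Matrix I I S) (0 : Matrix J I S)) (Matrix.fromCols 1 0) +
      cm (Matrix.fromRows (0 : Matrix I J S) (1 : Matrix J J S)) (Matrix.fromCols 0 1) =
        (1 : Matrix (I ⊕ J) (I ⊕ J) S) := by
  rw [rows_cm, rows_cm, one_cm, one_cm, zero_cm, zero_cm]
  refine Matrix.ext ?_
  rintro (i | i) (j | j) <;> simp [Matrix.one_apply]

theorem rows_eq_cm [DecidableEq I] [DecidableEq J] (A : Matrix I L S) (B : Matrix J L S) :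
    cm (Matrix.fromRows 1 0) A + cm (Matrix.fromRows 0 1) B = Matrix.fromRows A B := by
  rw [rows_cm, rows_cm, one_cm, one_cm, zero_cm, zero_cm]
  refine Matrix.ext ?_
  rintro (i | i) j <;> simp

theorem cols_eq_cm [DecidableEq I] [DecidableEq J] (A : Matrix L I S) (B : Matrix L J S) :
    cm A (Matrix.fromCols 1 0) + cm B (Matrix.fromCols 0 1) = Matrix.fromCols A B := by
  rw [cm_cols, cm_cols, cm_one, cm_one, cm_zero', cm_zero']
  refine Matrix.ext ?_
  rintro i (j | j) <;> simp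

theorem one_ne [DecidableEq I] {i j : I} {g : K}
    (h : ((1 : Matrix I I (MonoidAlgebra R K)) i j).coeff g ≠ 0) : i = j ∧ g = 1 := by
  by_cases e : i = j
  · subst e
    refine ⟨rfl, by_contra fun k => h ?_⟩
    rw [Matrix.one_apply_eq, one_def, coeff_single, Finsupp.single_eq_of_ne k]
  · rw [Matrix.one_apply_ne e] at h
    exact absurd rfl h

end Mat

instance obAdd : Add (Ob X) := ⟨Ob.sum⟩

/-- the controlled matrices -/
def ctrSub (R : Type) [Ring R] (ρ : K →* Equiv.Perm X) (a b : Ob X) :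
    AddSubgroup (Matrix a.I b.I (MonoidAlgebra R K)) where
  carrier := {A | Ctr ρ a b A}
  zero_mem' := ctS_bot.mono fun _ _ _ e => e rfl
  add_mem' := fun {A B} h h' => (CtS.or h h').mono fun i j g e => by
    by_contra hn
    rw [not_or, not_not, not_not] at hn
    exact e (by rw [Matrix.add_apply, coeff_add, Finsupp.add_apply, hn.1, hn.2, add_zero])
  neg_mem' := fun {A} h => CtS.mono h fun i j g e k => e (by
    rw [Matrix.neg_apply, coeff_neg, Finsupp.neg_apply, k, neg_zero])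

open Classical in
/-- the category of controlled matrices -/
noncomputable def OA (R : Type) [Ring R] (ρ : K →* Equiv.Perm X) : ACat (Ob X) where
  Hom a b := ctrSub R ρ a b
  acg a b := inferInstance
  mul A B := ⟨cm A.1 B.1, (CtS.comp A.2 B.2).mono fun _ _ _ e => coeff_cm_ne e⟩
  one a := ⟨1, ctS_one fun i j g e => by
    obtain ⟨rfl, rfl⟩ := one_ne e
    exact ⟨rfl, rfl, rfl⟩⟩
  inl a b := ⟨Matrix.fromCols 1 0, ctS_one (b := a.sum b) (by
    rintro i (j | j) g e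
    · obtain ⟨rfl, rfl⟩ := one_ne (i := i) (j := j) e
      exact ⟨rfl, rfl, rfl⟩
    · exact absurd rfl e)⟩
  inr a b := ⟨Matrix.fromCols 0 1, ctS_one (b := a.sum b) (by
    rintro i (j | j) g e
    · exact absurd rfl e
    · obtain ⟨rfl, rfl⟩ := one_ne (i := i) (j := j) e
      exact ⟨rfl, rfl, rfl⟩)⟩
  fst a b := ⟨Matrix.fromRows 1 0, ctS_one (a := a.sum b) (by
    rintro (i | i) j g e
    · obtain ⟨rfl, rfl⟩ := one_ne (i := i) (j := j) e
      exact ⟨rfl, rfl, rfl⟩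
    · exact absurd rfl e)⟩
  snd a b := ⟨Matrix.fromRows 0 1, ctS_one (a := a.sum b) (by
    rintro (i | i) j g e
    · exact absurd rfl e
    · obtain ⟨rfl, rfl⟩ := one_ne (i := i) (j := j) e
      exact ⟨rfl, rfl, rfl⟩)⟩
  mul_assoc A B D := Subtype.ext (cm_assoc (rowF_of_ctr A.2) (rowF_of_ctr B.2) D.1)
  one_mul A := Subtype.ext (one_cm A.1)
  mul_one A := Subtype.ext (cm_one A.1)
  mul_add A B D := Subtype.ext (cm_add (rowF_of_ctr A.2) B.1 D.1)
  add_mul A B D := Subtype.ext (add_cm (rowF_of_ctr A.2) (rowF_of_ctr B.2) D.1)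
  inl_inl a b := Subtype.ext ((cols_cm _ _ rowF_one rowF_zero _).trans (by
    rw [zero_cm, add_zero, one_cm]; rfl))
  inr_inr a b := Subtype.ext ((cols_cm _ _ rowF_zero rowF_one _).trans (by
    rw [zero_cm, zero_add, one_cm]; rfl))
  inl_inr a b := Subtype.ext ((cols_cm _ _ rowF_one rowF_zero _).trans (by
    rw [zero_cm, add_zero, one_cm]; rfl))
  inr_inl a b := Subtype.ext ((cols_cm _ _ rowF_zero rowF_one _).trans (by
    rw [zero_cm, zero_add, one_cm]; rfl))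
  total a b := Subtype.ext (@total_cm a.I b.I _ _ _ _ fun _ _ => Classical.propDecidable _)

variable {I J L M : Ob X}

/-- the matrix of a morphism -/
def val (A : (OA R ρ).Hom I J) : Matrix I.I J.I (MonoidAlgebra R K) :=
  Subtype.val (p := Ctr ρ I J) A

/-- the morphism of a controlled matrix -/
def mk (A : Matrix I.I J.I (MonoidAlgebra R K)) (h : Ctr ρ I J A) : (OA R ρ).Hom I J :=
  (⟨A, h⟩ : ctrSub R ρ I J)

theorem val_ctr (A : (OA R ρ).Hom I J) : Ctr ρ I J (val A) := Subtype.property (p := Ctr ρ I J) A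

theorem val_fin (A : (OA R ρ).Hom I J) : RowF (val A) := rowF_of_ctr (val_ctr A)

@[simp] theorem val_mk (A : Matrix I.I J.I (MonoidAlgebra R K)) (h : Ctr ρ I J A) :
    val (mk A h) = A := rfl

theorem val_inj {A B : (OA R ρ).Hom I J} (h : val A = val B) : A = B := Subtype.ext h

theorem val_add (A B : (OA R ρ).Hom I J) : val (A + B) = val A + val B := rfl
theorem val_neg (A : (OA R ρ).Hom I J) : val (-A) = -val A := rfl
theorem val_sub (A B : (OA R ρ).Hom I J) : val (A - B) = val A - val B := rfl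
theorem val_zero : val (0 : (OA R ρ).Hom I J) = 0 := rfl
theorem val_zsmul (n : ℤ) (A : (OA R ρ).Hom I J) : val (n • A) = n • val A := rfl
theorem val_mul (A : (OA R ρ).Hom I J) (B : (OA R ρ).Hom J L) :
    val (A * B) = cm (val A) (val B) := rfl
open Classical in
theorem val_one : val (1 : (OA R ρ).Hom I I) = 1 := rfl

theorem val_fromRows (a : (OA R ρ).Hom I L) (b : (OA R ρ).Hom J L) :
    val (fromRows a b) = Matrix.fromRows (val a) (val b) := by
  classical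
  exact rows_eq_cm _ _

theorem val_fromCols (a : (OA R ρ).Hom L I) (b : (OA R ρ).Hom L J) :
    val (fromCols a b) = Matrix.fromCols (val a) (val b) := by
  classical
  exact cols_eq_cm _ _

theorem val_fromBlocks (a : (OA R ρ).Hom I L) (b : (OA R ρ).Hom I M) (c : (OA R ρ).Hom J L)
    (d : (OA R ρ).Hom J M) :
    val (fromBlocks a b c d) = Matrix.fromBlocks (val a) (val b) (val c) (val d) := by
  rw [fromBlocks, val_fromRows, val_fromCols, val_fromCols]
  exact Matrix.fromRows_fromCols_eq_fromBlocks _ _ _ _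

end Pool.Agent.Work.MP_9d1ffa_al.Dg
end

-- merged part: Pool.Agent.Work.MP_9d1ffa_al.Dg.DN
section
/-! Coefficients, supports, filters and monomial morphisms. -/

namespace Pool.Agent.Work.MP_9d1ffa_al.Dg

open MonoidAlgebra

set_option linter.unusedSectionVars false
set_option linter.unusedVariables false

variable {X K R : Type} [Group K] [Ring R] {ρ : K →* Equiv.Perm X} {I J L M : Ob X}

/-- the coefficients of a morphism -/
def cf (A : (OA R ρ).Hom I J) (i : I.I) (j : J.I) (g : K) : R := (val A i j).coeff g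

theorem hom_ext {A B : (OA R ρ).Hom I J} (h : ∀ i j g, cf A i j g = cf B i j g) : A = B :=
  val_inj (Matrix.ext fun i j => MonoidAlgebra.coeff_injective (Finsupp.ext (h i j)))

theorem cts (A : (OA R ρ).Hom I J) : CtS ρ I J fun i j g => cf A i j g ≠ 0 := val_ctr A

theorem val_ne {A : (OA R ρ).Hom I J} {i : I.I} {j : J.I} :
    val A i j ≠ 0 ↔ ∃ g, cf A i j g ≠ 0 := ne_iff

section
variable (A B : (OA R ρ).Hom I J) (i : I.I) (j : J.I) (g : K)

@[simp] theorem cf_add : cf (A + B) i j g = cf A i j g + cf B i j g := rfl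
@[simp] theorem cf_neg : cf (-A) i j g = -cf A i j g := rfl
@[simp] theorem cf_sub : cf (A - B) i j g = cf A i j g - cf B i j g := rfl
@[simp] theorem cf_zero : cf (0 : (OA R ρ).Hom I J) i j g = 0 := rfl
@[simp] theorem cf_zsmul (n : ℤ) : cf (n • A) i j g = n • cf A i j g := rfl

end

open Classical in
theorem cf_one (i j : I.I) (g : K) :
    cf (1 : (OA R ρ).Hom I I) i j g = if i = j ∧ g = 1 then 1 else 0 := by
  unfold cf
  rw [val_one]
  by_cases e : i = j
  · subst e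
    rw [Matrix.one_apply_eq, one_def, coeff_single, Finsupp.single_apply]
    simp [eq_comm]
  · rw [Matrix.one_apply_ne e, if_neg fun h => e h.1]
    rfl

theorem cf_one_ne {i j : I.I} {g : K} (h : cf (1 : (OA R ρ).Hom I I) i j g ≠ 0) : i = j ∧ g = 1 := by
  by_contra e
  exact h (by rw [cf_one, if_neg e])

theorem cf_mul_ne {A : (OA R ρ).Hom I J} {B : (OA R ρ).Hom J L} {i : I.I} {k : L.I} {g : K}
    (h : cf (A * B) i k g ≠ 0) : ∃ j g₁ g₂, g₁ * g₂ = g ∧ cf A i j g₁ ≠ 0 ∧ cf B j k g₂ ≠ 0 :=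
  coeff_cm_ne h

section Blocks

variable (a : (OA R ρ).Hom I L) (b : (OA R ρ).Hom J L) (a' : (OA R ρ).Hom L I)
  (b' : (OA R ρ).Hom L J) (g : K)

@[simp] theorem cf_rows_inl (i : I.I) (k : L.I) : cf (fromRows a b) (Sum.inl i) k g = cf a i k g := by
  unfold cf; rw [val_fromRows]; rfl
@[simp] theorem cf_rows_inr (i : J.I) (k : L.I) : cf (fromRows a b) (Sum.inr i) k g = cf b i k g := by
  unfold cf; rw [val_fromRows]; rfl
@[simp] theorem cf_cols_inl (k : L.I) (i : I.I) :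
    cf (fromCols a' b') k (Sum.inl i) g = cf a' k i g := by
  unfold cf; rw [val_fromCols]; rfl
@[simp] theorem cf_cols_inr (k : L.I) (i : J.I) :
    cf (fromCols a' b') k (Sum.inr i) g = cf b' k i g := by
  unfold cf; rw [val_fromCols]; rfl

variable (p : (OA R ρ).Hom I L) (q : (OA R ρ).Hom I M) (r : (OA R ρ).Hom J L)
  (s : (OA R ρ).Hom J M)

@[simp] theorem cf_blocks₁₁ (i : I.I) (k : L.I) :
    cf (fromBlocks p q r s) (Sum.inl i) (Sum.inl k) g = cf p i k g := by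
  unfold cf; rw [val_fromBlocks]; rfl
@[simp] theorem cf_blocks₁₂ (i : I.I) (k : M.I) :
    cf (fromBlocks p q r s) (Sum.inl i) (Sum.inr k) g = cf q i k g := by
  unfold cf; rw [val_fromBlocks]; rfl
@[simp] theorem cf_blocks₂₁ (i : J.I) (k : L.I) :
    cf (fromBlocks p q r s) (Sum.inr i) (Sum.inl k) g = cf r i k g := by
  unfold cf; rw [val_fromBlocks]; rfl
@[simp] theorem cf_blocks₂₂ (i : J.I) (k : M.I) :
    cf (fromBlocks p q r s) (Sum.inr i) (Sum.inr k) g = cf s i k g := by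
  unfold cf; rw [val_fromBlocks]; rfl

end Blocks

/-- the morphism with prescribed coefficients -/
noncomputable def ofCf (c : I.I → J.I → K → R) (h : CtS ρ I J fun i j g => c i j g ≠ 0) :
    (OA R ρ).Hom I J :=
  mk (Matrix.of fun i j => MonoidAlgebra.ofCoeff (Finsupp.ofSupportFinite (c i j)
    (h.1.choose.finite_toSet.subset fun g hg => h.1.choose_spec i j g hg))) h

@[simp] theorem cf_ofCf (c : I.I → J.I → K → R) (h : CtS ρ I J fun i j g => c i j g ≠ 0)
    (i : I.I) (j : J.I) (g : K) : cf (ofCf c h) i j g = c i j g := rfl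

/-- all nonzero coefficients belong to `S` -/
def On (S : I.I → J.I → K → Prop) (A : (OA R ρ).Hom I J) : Prop :=
  ∀ i j g, cf A i j g ≠ 0 → S i j g

section On

variable {S S' T : I.I → J.I → K → Prop} {A B : (OA R ρ).Hom I J}

theorem On.mono (h : On S A) (k : ∀ i j g, S i j g → S' i j g) : On S' A :=
  fun i j g e => k i j g (h i j g e)

theorem On.and (h : On S A) (h' : On S' A) : On (fun i j g => S i j g ∧ S' i j g) A :=
  fun i j g e => ⟨h i j g e, h' i j g e⟩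

theorem on_zero : On S (0 : (OA R ρ).Hom I J) := fun _ _ _ e => absurd rfl e

theorem on_true (A : (OA R ρ).Hom I J) : On (fun _ _ _ => True) A := fun _ _ _ _ => trivial

theorem On.add (h : On S A) (h' : On S B) : On S (A + B) := fun i j g e => by
  by_contra k
  refine e ?_
  rw [cf_add, of_not_not (mt (h i j g) k), of_not_not (mt (h' i j g) k), add_zero]

theorem On.neg (h : On S A) : On S (-A) := fun i j g e => h i j g fun k => e (by simp [k])

theorem On.sub (h : On S A) (h' : On S B) : On S (A - B) := by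
  rw [sub_eq_add_neg]
  exact h.add h'.neg

theorem On.zsmul (h : On S A) (n : ℤ) : On S (n • A) :=
  fun i j g e => h i j g fun k => e (by simp [k])

theorem On.mul {T : J.I → L.I → K → Prop} {U : I.I → L.I → K → Prop} {D : (OA R ρ).Hom J L}
    (h : On S A) (h' : On T D) (k : ∀ i j l g g', S i j g → T j l g' → U i l (g * g')) :
    On U (A * D) := fun i l g e => by
  obtain ⟨j, g₁, g₂, rfl, h1, h2⟩ := cf_mul_ne e
  exact k _ _ _ _ _ (h _ _ _ h1) (h' _ _ _ h2)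

theorem on_one {S : I.I → I.I → K → Prop} (h : ∀ i, S i i 1) : On S (1 : (OA R ρ).Hom I I) :=
  fun i j g e => by
    obtain ⟨rfl, rfl⟩ := cf_one_ne e
    exact h i

theorem On.eq_zero (h : On S A) (k : ∀ i j g, ¬ S i j g) : A = 0 :=
  hom_ext fun i j g => by_contra fun e => k i j g (h i j g e)

theorem on_fromRows {S : (I + J).I → L.I → K → Prop} {a : (OA R ρ).Hom I L} {b : (OA R ρ).Hom J L} :
    On S (fromRows a b) ↔ On (fun i => S (Sum.inl i)) a ∧ On (fun i => S (Sum.inr i)) b :=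
  ⟨fun h => ⟨fun i k g e => h _ k g (by simpa using e), fun i k g e => h _ k g (by simpa using e)⟩,
    fun h => by
      rintro (i | i) k g e
      exacts [h.1 i k g (by simpa using e), h.2 i k g (by simpa using e)]⟩

theorem on_fromCols {S : L.I → (I + J).I → K → Prop} {a : (OA R ρ).Hom L I} {b : (OA R ρ).Hom L J} :
    On S (fromCols a b) ↔
      On (fun k i => S k (Sum.inl i)) a ∧ On (fun k i => S k (Sum.inr i)) b :=
  ⟨fun h => ⟨fun i k g e => h _ _ g (by simpa using e), fun i k g e => h _ _ g (by simpa using e)⟩,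
    fun h => by
      rintro k (i | i) g e
      exacts [h.1 k i g (by simpa using e), h.2 k i g (by simpa using e)]⟩

theorem on_fromBlocks {S : (I + J).I → (L + M).I → K → Prop} {a : (OA R ρ).Hom I L}
    {b : (OA R ρ).Hom I M} {c : (OA R ρ).Hom J L} {d : (OA R ρ).Hom J M} :
    On S (fromBlocks a b c d) ↔ On (fun i k => S (Sum.inl i) (Sum.inl k)) a ∧
      On (fun i k => S (Sum.inl i) (Sum.inr k)) b ∧ On (fun i k => S (Sum.inr i) (Sum.inl k)) c ∧
      On (fun i k => S (Sum.inr i) (Sum.inr k)) d := by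
  simp only [fromBlocks, on_fromRows, on_fromCols, and_assoc]

open Classical in
/-- the part of a morphism with coefficients in `S` -/
noncomputable def fl (S : I.I → J.I → K → Prop) (A : (OA R ρ).Hom I J) : (OA R ρ).Hom I J :=
  ofCf (fun i j g => if S i j g then cf A i j g else 0) ((cts A).mono fun i j g e k => e (by
    rw [k, ite_self]))

open Classical in
theorem cf_fl (S : I.I → J.I → K → Prop) (A : (OA R ρ).Hom I J) (i : I.I) (j : J.I) (g : K) :
    cf (fl S A) i j g = if S i j g then cf A i j g else 0 := rfl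

theorem on_fl (S : I.I → J.I → K → Prop) (A : (OA R ρ).Hom I J) : On S (fl S A) :=
  fun i j g e => by_contra fun k => e (by rw [cf_fl, if_neg k])

theorem On.fl (h : On S A) (T : I.I → J.I → K → Prop) : On S (fl T A) :=
  fun i j g e => h i j g fun k => e (by rw [cf_fl, k, ite_self])

theorem On.fl_eq (h : On S A) : Dg.fl S A = A := hom_ext fun i j g => by
  rw [cf_fl]
  split_ifs with k
  exacts [rfl, (of_not_not (mt (h i j g) k)).symm]

theorem On.fl_zero (h : On S A) (k : ∀ i j g, S i j g → ¬ T i j g) : Dg.fl T A = 0 :=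
  ((h.fl T).and (on_fl T A)).eq_zero fun i j g e => k i j g e.1 e.2

theorem fl_add (S : I.I → J.I → K → Prop) (A B : (OA R ρ).Hom I J) :
    fl S (A + B) = fl S A + fl S B := hom_ext fun i j g => by
  simp only [cf_fl, cf_add]
  split_ifs <;> simp

theorem fl_neg (S : I.I → J.I → K → Prop) (A : (OA R ρ).Hom I J) : fl S (-A) = -fl S A :=
  hom_ext fun i j g => by
    simp only [cf_fl, cf_neg]
    split_ifs <;> simp

theorem fl_sub (S : I.I → J.I → K → Prop) (A B : (OA R ρ).Hom I J) :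
    fl S (A - B) = fl S A - fl S B := by rw [sub_eq_add_neg, fl_add, fl_neg, sub_eq_add_neg]

theorem fl_zsmul (S : I.I → J.I → K → Prop) (n : ℤ) (A : (OA R ρ).Hom I J) :
    fl S (n • A) = n • fl S A := hom_ext fun i j g => by
  simp only [cf_fl, cf_zsmul]
  split_ifs <;> simp

theorem fl_add_not (S : I.I → J.I → K → Prop) (A : (OA R ρ).Hom I J) :
    fl S A + fl (fun i j g => ¬ S i j g) A = A := hom_ext fun i j g => by
  simp only [cf_fl, cf_add]
  split_ifs <;> simp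

theorem fl_mul_left {T : J.I → L.I → K → Prop} {U : I.I → L.I → K → Prop} (h : On S A)
    (D : (OA R ρ).Hom J L) (k : ∀ i j l g g', S i j g → (U i l (g * g') ↔ T j l g')) :
    fl U (A * D) = A * fl T D := by
  conv_lhs => rw [← fl_add_not T D, Hm.mul_add, fl_add]
  rw [(h.mul (on_fl T D) fun i j l g g' a b => (k i j l g g' a).2 b).fl_eq,
    (h.mul (U := fun i l g => ¬ U i l g) (on_fl _ D)
      fun i j l g g' a b c => b ((k i j l g g' a).1 c)).fl_zero fun _ _ _ e => e, add_zero]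

theorem fl_mul_right {T : J.I → L.I → K → Prop} {U : I.I → L.I → K → Prop} (A : (OA R ρ).Hom I J)
    {D : (OA R ρ).Hom J L} (h : On T D) (k : ∀ i j l g g', T j l g' → (U i l (g * g') ↔ S i j g)) :
    fl U (A * D) = fl S A * D := by
  conv_lhs => rw [← fl_add_not S A, Hm.add_mul, fl_add]
  rw [((on_fl S A).mul h fun i j l g g' a b => (k i j l g g' b).2 a).fl_eq,
    ((on_fl _ A).mul (U := fun i l g => ¬ U i l g) h
      fun i j l g g' a b c => a ((k i j l g g' b).1 c)).fl_zero fun _ _ _ e => e, add_zero]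

end On

section Pm

variable {e : I.I → J.I} {γ : I.I → K} {s : I.I → ℤˣ}

theorem mono_ne {I J : Type} {e : I → J} {γ : I → K} {s : I → ℤˣ} {i : I} {j : J} {g : K}
    (h : (mono R e γ s i j).coeff g ≠ 0) : e i = j ∧ γ i = g := by
  unfold mono at h
  rw [Matrix.of_apply] at h
  split_ifs at h with k
  · refine ⟨k, by_contra fun k' => h ?_⟩
    rw [coeff_single, Finsupp.single_eq_of_ne' k']
  · exact absurd rfl h

/-- `u` is the monomial morphism of `e`, `γ` and `s` -/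
def IsPm (u : (OA R ρ).Hom I J) (e : I.I → J.I) (γ : I.I → K) (s : I.I → ℤˣ) : Prop :=
  val u = mono R e γ s

/-- a monomial morphism -/
noncomputable def pm (R : Type) [Ring R] (e : I.I → J.I) (γ : I.I → K) (s : I.I → ℤˣ)
    (h : CtS ρ I J fun i j g => e i = j ∧ γ i = g) : (OA R ρ).Hom I J :=
  mk (mono R e γ s) (h.mono fun _ _ _ k => mono_ne k)

theorem isPm_pm (h : CtS ρ I J fun i j g => e i = j ∧ γ i = g) : IsPm (pm R e γ s h) e γ s := rfl

/-- a monomial morphism that preserves heights and positions -/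
theorem exists_pm (R : Type) [Ring R] (ρ : K →* Equiv.Perm X) (e : I.I → J.I) (s : I.I → ℤˣ)
    (h1 : ∀ i, J.t (e i) = I.t i) (h2 : ∀ i, J.x (e i) = I.x i) :
    ∃ u : (OA R ρ).Hom I J, IsPm u e (fun _ => 1) s :=
  ⟨_, isPm_pm (ctS_one (by
    rintro i _ _ ⟨rfl, rfl⟩
    exact ⟨rfl, h1 i, h2 i⟩))⟩

variable {u : (OA R ρ).Hom I J}

open Classical in
theorem IsPm.cf (h : IsPm u e γ s) (i : I.I) (j : J.I) (g : K) :
    cf u i j g = if e i = j ∧ γ i = g then ((s i : ℤ) : R) else 0 := by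
  unfold Dg.cf
  rw [h, mono, Matrix.of_apply]
  by_cases k : e i = j
  · rw [if_pos k, coeff_single, Finsupp.single_apply]
    simp [k]
  · rw [if_neg k, if_neg fun a => k a.1]
    rfl

theorem isPm_of_cf [∀ i j g, Decidable (e i = j ∧ γ i = g)]
    (h : ∀ i j g, cf u i j g = if e i = j ∧ γ i = g then ((s i : ℤ) : R) else 0) :
    IsPm u e γ s := by
  classical
  refine Matrix.ext fun i j => MonoidAlgebra.coeff_injective (Finsupp.ext fun g => ?_)
  refine (h i j g).trans ?_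
  rw [mono, Matrix.of_apply]
  by_cases k : e i = j
  · rw [if_pos k, coeff_single, Finsupp.single_apply]
    simp [k]
  · rw [if_neg k, if_neg fun a => k a.1]
    rfl

theorem IsPm.on (h : IsPm u e γ s) : On (fun i j g => e i = j ∧ γ i = g) u :=
  fun i j g k => mono_ne (R := R) (s := s) (by rw [← h]; exact k)

theorem IsPm.uniq {v : (OA R ρ).Hom I J} (h : IsPm u e γ s) (h' : IsPm v e γ s) : u = v :=
  val_inj (h.trans h'.symm)

theorem isPm_one : IsPm (1 : (OA R ρ).Hom I I) id (fun _ => 1) fun _ => 1 := by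
  classical
  refine isPm_of_cf fun i j g => ?_
  rw [cf_one]
  simp [eq_comm]

theorem IsPm.neg (h : IsPm u e γ s) : IsPm (-u) e γ fun i => -s i := by
  classical
  refine isPm_of_cf fun i j g => ?_
  rw [cf_neg, h.cf]
  split_ifs <;> simp

theorem IsPm.cf_mul (h : IsPm u e γ s) (A : (OA R ρ).Hom J L) (i : I.I) (k : L.I) (g : K) :
    Dg.cf (u * A) i k g = (s i : ℤ) • Dg.cf A (e i) k ((γ i)⁻¹ * g) := by
  unfold Dg.cf
  rw [val_mul, h, cm_single _ _ _ _ (e i) fun j hj => by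
    rw [mono, Matrix.of_apply, if_neg hj.symm, zero_mul], mono, Matrix.of_apply, if_pos rfl,
    coeff_single_mul_apply, zsmul_eq_mul]

theorem IsPm.mul_cf (h : IsPm u e γ s) (A : (OA R ρ).Hom L I) (k : L.I) (i : I.I) (g : K)
    (he : ∀ i', e i' = e i → Dg.cf A k i' (g * (γ i')⁻¹) ≠ 0 → i' = i) :
    Dg.cf (A * u) k (e i) g = (s i : ℤ) • Dg.cf A k i (g * (γ i)⁻¹) := by
  classical
  have key : ∀ j, (val A k j * mono R e γ s j (e i)).coeff g =
      if e j = e i then (s j : ℤ) • Dg.cf A k j (g * (γ j)⁻¹) else 0 := fun j => by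
    rw [mono, Matrix.of_apply]
    split_ifs
    · rw [coeff_mul_single_apply, zsmul_eq_mul', Dg.cf]
    · rw [mul_zero]; rfl
  have := map_cm (val_fin A) (mono R e γ s)
    ((Finsupp.applyAddHom g).comp (coeffAddEquiv (R := R) (M := K)).toAddMonoidHom) k (e i)
  unfold Dg.cf at *
  rw [val_mul, h]
  refine this.trans ((finsum_congr key).trans ((finsum_eq_single _ i fun j hj => ?_).trans
    (if_pos rfl)))
  split_ifs with c
  · rw [of_not_not (mt (he j c) hj), smul_zero]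
  · rfl

theorem IsPm.mul {v : (OA R ρ).Hom J L} {e' : J.I → L.I} {γ' : J.I → K} {s' : J.I → ℤˣ}
    (h : IsPm u e γ s) (h' : IsPm v e' γ' s') :
    IsPm (u * v) (e' ∘ e) (fun i => γ i * γ' (e i)) fun i => s i * s' (e i) := by
  classical
  refine isPm_of_cf fun i k g => ?_
  rw [h.cf_mul, h'.cf]
  simp only [Function.comp, eq_inv_mul_iff_mul_eq]
  split_ifs <;> simp

theorem IsPm.congr {e' : I.I → J.I} {γ' : I.I → K} {s' : I.I → ℤˣ} (h : IsPm u e γ s)
    (h1 : ∀ i, e i = e' i) (h2 : ∀ i, γ i = γ' i) (h3 : ∀ i, s i = s' i) : IsPm u e' γ' s' := by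
  obtain rfl : e = e' := funext h1
  obtain rfl : γ = γ' := funext h2
  obtain rfl : s = s' := funext h3
  exact h

theorem IsPm.rows {v : (OA R ρ).Hom L J} {e' : L.I → J.I} {γ' : L.I → K} {s' : L.I → ℤˣ}
    (h : IsPm u e γ s) (h' : IsPm v e' γ' s') :
    IsPm (fromRows u v) (Sum.elim e e') (Sum.elim γ γ') (Sum.elim s s') := by
  classical
  refine isPm_of_cf ?_
  rintro (i | i) j g
  · rw [cf_rows_inl, h.cf]; rfl
  · rw [cf_rows_inr, h'.cf]; rfl

theorem IsPm.inl (h : IsPm u e γ s) (L : Ob X) :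
    IsPm (fromCols u (0 : (OA R ρ).Hom I L)) (Sum.inl ∘ e) γ s := by
  classical
  refine isPm_of_cf ?_
  rintro i (j | j) g
  · rw [cf_cols_inl, h.cf]
    exact if_congr (and_congr_left' Sum.inl_injective.eq_iff.symm) rfl rfl
  · rw [cf_cols_inr, if_neg fun a => Sum.inl_ne_inr a.1]; rfl

theorem IsPm.inr (h : IsPm u e γ s) (L : Ob X) :
    IsPm (fromCols (0 : (OA R ρ).Hom I L) u) (Sum.inr ∘ e) γ s := by
  classical
  refine isPm_of_cf ?_
  rintro i (j | j) g
  · rw [cf_cols_inl, if_neg fun a => Sum.inr_ne_inl a.1]; rfl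
  · rw [cf_cols_inr, h.cf]
    exact if_congr (and_congr_left' Sum.inr_injective.eq_iff.symm) rfl rfl

theorem IsPm.sum {v : (OA R ρ).Hom L M} {e' : L.I → M.I} {γ' : L.I → K} {s' : L.I → ℤˣ}
    (h : IsPm u e γ s) (h' : IsPm v e' γ' s') :
    IsPm (fromBlocks u 0 0 v) (Sum.map e e') (Sum.elim γ γ') (Sum.elim s s') :=
  ((h.inl M).rows (h'.inr J)).congr (by rintro (i | i) <;> rfl) (fun _ => rfl) fun _ => rfl

/-- the inverse of a monomial isomorphism -/
theorem IsPm.inv {e : I.I ≃ J.I} (h : IsPm u e γ s) : ∃ v : (OA R ρ).Hom J I,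
    IsPm v e.symm (fun j => (γ (e.symm j))⁻¹) (fun j => s (e.symm j)) ∧ u * v = 1 ∧ v * u = 1 := by
  classical
  have k : ∃ v : (OA R ρ).Hom J I,
      IsPm v e.symm (fun j => (γ (e.symm j))⁻¹) fun j => s (e.symm j) := by
    refine ⟨mk (mono R e.symm _ _) ((cts u).inv.mono fun j i g c => ?_), rfl⟩
    obtain ⟨rfl, rfl⟩ := mono_ne c
    rw [h.cf, if_pos ⟨e.apply_symm_apply j, (inv_inv _).symm⟩]
    intro z
    refine c ?_
    rw [mono, Matrix.of_apply, if_pos rfl, z, single_zero]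
    rfl
  obtain ⟨v, hv⟩ := k
  refine ⟨v, hv, ((h.mul hv).congr ?_ ?_ ?_).uniq isPm_one, ((hv.mul h).congr ?_ ?_ ?_).uniq isPm_one⟩
  all_goals intro i; simp

end Pm

end Pool.Agent.Work.MP_9d1ffa_al.Dg
end

-- merged part: Pool.Agent.Work.MP_9d1ffa_al.Dg.DT
section
/-! Degrees, differentials and twisted complexes. -/

namespace Pool.Agent.Work.MP_9d1ffa_al.Dg

open MonoidAlgebra

set_option linter.unusedSectionVars false
set_option linter.unusedVariables false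
set_option linter.unusedSimpArgs false

variable {X K : Type} [Group K] {Λ : DG} {ρ : K →* Equiv.Perm X} {I J L M : Ob X}

/-- the morphism has degree `k` -/
def Gd (k : ℤ) (n : I.I → ℤ) (m : J.I → ℤ) (A : (OA Λ.A ρ).Hom I J) : Prop :=
  ∀ i j g, cf A i j g ∈ Λ.gr (k + n i - m j)

/-- the differential of the coefficients -/
noncomputable def pd (n : I.I → ℤ) (A : (OA Λ.A ρ).Hom I J) : (OA Λ.A ρ).Hom I J :=
  mk (del Λ n (val A)) ((cts A).mono fun i j g e k => e (by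
    change ((n i).negOnePow : ℤ) • Λ.d (cf A i j g) = 0
    rw [k, map_zero, smul_zero]))

theorem cf_pd (n : I.I → ℤ) (A : (OA Λ.A ρ).Hom I J) (i : I.I) (j : J.I) (g : K) :
    cf (pd n A) i j g = ((n i).negOnePow : ℤ) • Λ.d (cf A i j g) := rfl

theorem val_pd (n : I.I → ℤ) (A : (OA Λ.A ρ).Hom I J) : val (pd n A) = del Λ n (val A) := rfl

theorem d_one (Λ : DG) : Λ.d 1 = 0 := by
  have := Λ.leib 0 1 (SetLike.one_mem_graded Λ.gr) 1
  simpa using this

theorem d_int (Λ : DG) (n : ℤ) : Λ.d (n : Λ.A) = 0 := by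
  rw [← zsmul_one n, map_zsmul, d_one, smul_zero]

theorem int_mem (Λ : DG) (n : ℤ) : (n : Λ.A) ∈ Λ.gr 0 := by
  rw [← zsmul_one n]
  exact zsmul_mem (SetLike.one_mem_graded Λ.gr) n

section Gd

variable {k l : ℤ} {n : I.I → ℤ} {m : J.I → ℤ} {r : L.I → ℤ} {A B : (OA Λ.A ρ).Hom I J}

theorem gd_zero : Gd k n m (0 : (OA Λ.A ρ).Hom I J) := fun _ _ _ => zero_mem _

theorem Gd.add (h : Gd k n m A) (h' : Gd k n m B) : Gd k n m (A + B) :=
  fun i j g => add_mem (h i j g) (h' i j g)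

theorem Gd.neg (h : Gd k n m A) : Gd k n m (-A) := fun i j g => neg_mem (h i j g)

theorem Gd.sub (h : Gd k n m A) (h' : Gd k n m B) : Gd k n m (A - B) :=
  fun i j g => sub_mem (h i j g) (h' i j g)

theorem Gd.zsmul (h : Gd k n m A) (c : ℤ) : Gd k n m (c • A) := fun i j g => zsmul_mem (h i j g) c

theorem Gd.shift {k' : ℤ} {n' : I.I → ℤ} {m' : J.I → ℤ} (h : Gd k n m A)
    (e : ∀ i j, k + n i - m j = k' + n' i - m' j) : Gd k' n' m' A := fun i j g => e i j ▸ h i j g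

theorem Gd.fl (h : Gd k n m A) (S : I.I → J.I → K → Prop) : Gd k n m (fl S A) := fun i j g => by
  rw [cf_fl]
  split_ifs
  exacts [h i j g, zero_mem _]

theorem Gd.pd (h : Gd k n m A) : Gd (k + 1) n m (pd n A) := fun i j g => by
  rw [cf_pd, show k + 1 + n i - m j = k + n i - m j + 1 by ring]
  exact zsmul_mem (Λ.deg _ _ (h i j g)) _

theorem IsPm.gd {e : I.I → J.I} {γ : I.I → K} {s : I.I → ℤˣ} (h : IsPm A e γ s)
    (hk : ∀ i, m (e i) = k + n i) : Gd k n m A := fun i j g => by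
  rw [h.cf]
  split_ifs with c
  · rw [← c.1, hk, sub_self]
    exact int_mem Λ _
  · exact zero_mem _

theorem gd_one : Gd 0 n n (1 : (OA Λ.A ρ).Hom I I) := isPm_one.gd fun _ => (zero_add _).symm

theorem cf_mul_eq (A : (OA Λ.A ρ).Hom I J) (D : (OA Λ.A ρ).Hom J L) (i : I.I) :
    ∃ s : Finset (J.I × K), (∀ j g, cf A i j g ≠ 0 → (j, g) ∈ s) ∧
      ∀ s' : Finset (J.I × K), s ⊆ s' → ∀ l g,
        cf (A * D) i l g = ∑ x ∈ s', cf A i x.1 x.2 * cf D x.1 l (x.2⁻¹ * g) := by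
  classical
  obtain ⟨T, hT⟩ := (cts A).1
  refine ⟨(val_fin A i).toFinset ×ˢ T, fun j g e => Finset.mem_product.2
    ⟨(val_fin A i).mem_toFinset.2 (val_ne.2 ⟨g, e⟩), hT i j g e⟩, fun s' hs l g => ?_⟩
  rw [← Finset.sum_subset hs fun x _ hx => by
    rw [of_not_not (mt (fun e => Finset.mem_product.2
      ⟨(val_fin A i).mem_toFinset.2 (val_ne.2 ⟨x.2, e⟩), hT i x.1 x.2 e⟩) hx), zero_mul],
    Finset.sum_product]
  unfold cf
  rw [val_mul, cm_row _ i l _ fun j hj => (val_fin A i).mem_toFinset.2 hj, coeff_sum,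
    Finsupp.finsetSum_apply]
  refine Finset.sum_congr rfl fun j _ => ?_
  rw [coeff_mul_apply_left]
  exact Finsupp.sum_of_support_subset _ (fun g hg => hT i j g (Finsupp.mem_support_iff.1 hg)) _
    fun _ _ => zero_mul _

theorem Gd.mul {D : (OA Λ.A ρ).Hom J L} (h : Gd k n m A) (h' : Gd l m r D) :
    Gd (k + l) n r (A * D) := fun i j g => by
  obtain ⟨s, -, hs⟩ := cf_mul_eq A D i
  rw [hs s subset_rfl]
  refine sum_mem fun x _ => ?_
  have := SetLike.mul_mem_graded (h i x.1 x.2) (h' x.1 j (x.2⁻¹ * g))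
  rwa [show k + n i - m x.1 + (l + m x.1 - r j) = k + l + n i - r j by ring] at this

theorem Gd.mul' {D : (OA Λ.A ρ).Hom J L} {t : ℤ} (h : Gd k n m A) (h' : Gd l m r D)
    (e : k + l = t) : Gd t n r (A * D) := e ▸ h.mul h'

theorem gd_fromRows {a : (OA Λ.A ρ).Hom I L} {b : (OA Λ.A ρ).Hom J L} :
    Gd (I := I + J) k (Sum.elim n m) r (fromRows a b) ↔ Gd k n r a ∧ Gd k m r b :=
  ⟨fun h => ⟨fun i j g => by simpa using h (Sum.inl i) j g,
    fun i j g => by simpa using h (Sum.inr i) j g⟩, fun h => by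
      rintro (i | i) j g
      exacts [by simpa using h.1 i j g, by simpa using h.2 i j g]⟩

theorem gd_fromCols {a : (OA Λ.A ρ).Hom L I} {b : (OA Λ.A ρ).Hom L J} :
    Gd (J := I + J) k r (Sum.elim n m) (fromCols a b) ↔ Gd k r n a ∧ Gd k r m b :=
  ⟨fun h => ⟨fun i j g => by simpa using h i (Sum.inl j) g,
    fun i j g => by simpa using h i (Sum.inr j) g⟩, fun h => by
      rintro i (j | j) g
      exacts [by simpa using h.1 i j g, by simpa using h.2 i j g]⟩

theorem gd_fromBlocks {t : M.I → ℤ} {a : (OA Λ.A ρ).Hom I L} {b : (OA Λ.A ρ).Hom I M}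
    {c : (OA Λ.A ρ).Hom J L} {d : (OA Λ.A ρ).Hom J M} :
    Gd (I := I + J) (J := L + M) k (Sum.elim n m) (Sum.elim r t) (fromBlocks a b c d) ↔
      Gd k n r a ∧ Gd k n t b ∧ Gd k m r c ∧ Gd k m t d := by
  simp only [fromBlocks, gd_fromRows, gd_fromCols, and_assoc]

theorem pd_add (n : I.I → ℤ) (A B : (OA Λ.A ρ).Hom I J) : pd n (A + B) = pd n A + pd n B :=
  hom_ext fun i j g => by simp only [cf_pd, cf_add, map_add, smul_add]

theorem pd_neg (n : I.I → ℤ) (A : (OA Λ.A ρ).Hom I J) : pd n (-A) = -pd n A :=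
  hom_ext fun i j g => by simp only [cf_pd, cf_neg, map_neg, smul_neg]

theorem pd_sub (n : I.I → ℤ) (A B : (OA Λ.A ρ).Hom I J) : pd n (A - B) = pd n A - pd n B :=
  hom_ext fun i j g => by simp only [cf_pd, cf_sub, map_sub, smul_sub]

@[simp] theorem pd_zero (n : I.I → ℤ) : pd n (0 : (OA Λ.A ρ).Hom I J) = 0 :=
  hom_ext fun i j g => by simp only [cf_pd, cf_zero, map_zero, smul_zero]

theorem pd_pd (n : I.I → ℤ) (A : (OA Λ.A ρ).Hom I J) : pd n (pd n A) = 0 :=
  hom_ext fun i j g => by simp only [cf_pd, map_zsmul, Λ.sq, smul_zero, cf_zero]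

theorem pd_shift (n : I.I → ℤ) (A : (OA Λ.A ρ).Hom I J) : pd (fun i => n i - 1) A = -pd n A :=
  hom_ext fun i j g => by
    simp only [cf_pd, cf_neg, Int.negOnePow_sub, Int.negOnePow_one, mul_neg, mul_one,
      Units.val_neg, neg_smul]

theorem IsPm.pd {e : I.I → J.I} {γ : I.I → K} {s : I.I → ℤˣ} (h : IsPm A e γ s) (n : I.I → ℤ) :
    pd n A = 0 := hom_ext fun i j g => by
  rw [cf_pd, h.cf]
  split_ifs
  · rw [d_int, smul_zero]; rfl
  · rw [map_zero, smul_zero]; rfl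

@[simp] theorem pd_one (n : I.I → ℤ) : pd n (1 : (OA Λ.A ρ).Hom I I) = 0 := isPm_one.pd n

theorem On.pd {S : I.I → J.I → K → Prop} (h : On S A) (n : I.I → ℤ) : On S (pd n A) :=
  fun i j g e => h i j g fun c => e (by rw [cf_pd, c, map_zero, smul_zero])

theorem pd_fl (n : I.I → ℤ) (S : I.I → J.I → K → Prop) (A : (OA Λ.A ρ).Hom I J) :
    pd n (fl S A) = fl S (pd n A) := hom_ext fun i j g => by
  simp only [cf_pd, cf_fl]
  split_ifs <;> simp

theorem pd_mul (h : Gd k n m A) (D : (OA Λ.A ρ).Hom J L) :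
    pd n (A * D) = pd n A * D + (k.negOnePow : ℤ) • (A * pd m D) := hom_ext fun i l g => by
  classical
  obtain ⟨s₁, -, h1⟩ := cf_mul_eq A D i
  obtain ⟨s₂, -, h2⟩ := cf_mul_eq (pd n A) D i
  obtain ⟨s₃, -, h3⟩ := cf_mul_eq A (pd m D) i
  rw [cf_add, cf_zsmul, cf_pd, h1 (s₁ ∪ s₂ ∪ s₃) (fun x hx => by simp [hx]),
    h2 (s₁ ∪ s₂ ∪ s₃) (fun x hx => by simp [hx]), h3 (s₁ ∪ s₂ ∪ s₃) (fun x hx => by simp [hx]),
    map_sum, Finset.smul_sum, Finset.smul_sum, ← Finset.sum_add_distrib]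
  refine Finset.sum_congr rfl fun x _ => ?_
  rw [Λ.leib _ _ (h i x.1 x.2), cf_pd, cf_pd, smul_add, smul_mul_assoc, mul_smul_comm, smul_smul,
    smul_smul, ← Units.val_mul, ← Units.val_mul, ← Int.negOnePow_add, ← Int.negOnePow_add]
  congr 3
  rw [Int.negOnePow_eq_iff]
  exact ⟨n i - m x.1, by ring⟩

theorem pd_mul0 (h : Gd 0 n m A) (D : (OA Λ.A ρ).Hom J L) :
    pd n (A * D) = pd n A * D + A * pd m D := by simpa using pd_mul h D

theorem pd_mul1 (h : Gd k n m A) (hk : Odd k) (D : (OA Λ.A ρ).Hom J L) :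
    pd n (A * D) = pd n A * D - A * pd m D := by
  rw [pd_mul h, Int.negOnePow_odd _ hk, sub_eq_add_neg]
  simp

theorem pd_fromRows (a : (OA Λ.A ρ).Hom I L) (b : (OA Λ.A ρ).Hom J L) :
    pd (I := I + J) (Sum.elim n m) (fromRows a b) = fromRows (pd n a) (pd m b) := hom_ext (by
  rintro (i | i) j g <;> simp [cf_pd])

theorem pd_fromCols (a : (OA Λ.A ρ).Hom L I) (b : (OA Λ.A ρ).Hom L J) :
    pd r (fromCols a b) = fromCols (pd r a) (pd r b) := hom_ext (by
  rintro i (j | j) g <;> simp [cf_pd])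

theorem pd_fromBlocks (a : (OA Λ.A ρ).Hom I L) (b : (OA Λ.A ρ).Hom I M) (c : (OA Λ.A ρ).Hom J L)
    (d : (OA Λ.A ρ).Hom J M) : pd (I := I + J) (Sum.elim n m) (fromBlocks a b c d) =
      fromBlocks (pd n a) (pd n b) (pd m c) (pd m d) := by
  simp only [fromBlocks, pd_fromRows, pd_fromCols]

end Gd

/-- the morphism strictly lowers the levels -/
abbrev Lo {R : Type} [Ring R] (l : I.I → ℕ) (m : J.I → ℕ) (A : (OA R ρ).Hom I J) : Prop :=
  On (fun i j _ => m j < l i) A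

/-- the morphism does not raise the levels -/
abbrev Wk {R : Type} [Ring R] (l : I.I → ℕ) (m : J.I → ℕ) (A : (OA R ρ).Hom I J) : Prop :=
  On (fun i j _ => m j ≤ l i) A

/-- a bounded function -/
abbrev Bd {ι : Type} (l : ι → ℕ) : Prop := BddAbove (Set.range l)

theorem bd_iff {ι : Type} {l : ι → ℕ} : Bd l ↔ ∃ N, ∀ i, l i < N :=
  ⟨fun ⟨N, h⟩ => ⟨N + 1, fun i => Nat.lt_succ_of_le (h ⟨i, rfl⟩)⟩, fun ⟨N, h⟩ =>
    ⟨N, by rintro _ ⟨i, rfl⟩; exact (h i).le⟩⟩

theorem lw_iff {R : Type} [Ring R] {l : I.I → ℕ} {m : J.I → ℕ} {A : (OA R ρ).Hom I J} :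
    Lw l m (val A) ↔ Lo l m A :=
  ⟨fun h i j g e => h i j (val_ne.2 ⟨g, e⟩), fun h i j e => (val_ne.1 e).elim (h i j)⟩

theorem Lo.isNilpotent {R : Type} [Ring R] {l : I.I → ℕ} {A : (OA R ρ).Hom I I} (h : Lo l l A)
    (hl : Bd l) : IsNilpotent A := by
  obtain ⟨N, hN⟩ := bd_iff.1 hl
  have key : ∀ n, On (fun i j _ => l j + n ≤ l i) (A ^ n) := fun n => by
    induction n with
    | zero => exact pow_zero A ▸ on_one fun _ => le_rfl
    | succ n ih => exact pow_succ A n ▸ ih.mul h fun i j k _ _ a b => by omega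
  exact ⟨N, (key N).eq_zero fun i j _ e => by have := hN i; omega⟩

/-- a twisted complex -/
structure Tw (Λ : DG) (ρ : K →* Equiv.Perm X) : Type 1 where
  ob : Ob X
  deg : ob.I → ℤ
  δ : (OA Λ.A ρ).Hom ob ob
  gd : Gd 1 deg deg δ
  mc : pd deg δ + δ * δ = 0
  lev : ∃ l : ob.I → ℕ, Bd l ∧ Lo l l δ

/-- controlled matrices between twisted complexes -/
abbrev Mor (a b : Tw Λ ρ) : Type := (OA Λ.A ρ).Hom a.ob b.ob

/-- the differential of an even map -/
noncomputable def D0 (a b : Tw Λ ρ) (f : Mor a b) : Mor a b := pd a.deg f + a.δ * f - f * b.δ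

/-- the differential of an odd map -/
noncomputable def D1 (a b : Tw Λ ρ) (f : Mor a b) : Mor a b := pd a.deg f + a.δ * f + f * b.δ

/-- a chain map -/
structure Ch (a b : Tw Λ ρ) (f : Mor a b) : Prop where
  gd : Gd 0 a.deg b.deg f
  d : D0 a b f = 0

/-- a cocycle of degree one -/
structure Co (a b : Tw Λ ρ) (f : Mor a b) : Prop where
  gd : Gd 1 a.deg b.deg f
  d : D1 a b f = 0

/-- a contractible complex -/
def Contr (a : Tw Λ ρ) : Prop := ∃ Γ : Mor a a, Gd (-1) a.deg a.deg Γ ∧ D1 a a Γ = 1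

section D

variable {a b c : Tw Λ ρ} {f f' : Mor a b} {g : Mor b c} {k : ℤ}

theorem Tw.pd_eq (a : Tw Λ ρ) : pd a.deg a.δ = -(a.δ * a.δ) := eq_neg_of_add_eq_zero_left a.mc

theorem D0_add (f f' : Mor a b) : D0 a b (f + f') = D0 a b f + D0 a b f' := by
  simp only [D0, pd_add, Hm.mul_add, Hm.add_mul]; abel
theorem D1_add (f f' : Mor a b) : D1 a b (f + f') = D1 a b f + D1 a b f' := by
  simp only [D1, pd_add, Hm.mul_add, Hm.add_mul]; abel
theorem D0_neg (f : Mor a b) : D0 a b (-f) = -D0 a b f := by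
  simp only [D0, pd_neg, Hm.mul_neg, Hm.neg_mul]; abel
theorem D1_neg (f : Mor a b) : D1 a b (-f) = -D1 a b f := by
  simp only [D1, pd_neg, Hm.mul_neg, Hm.neg_mul]; abel
theorem D0_sub (f f' : Mor a b) : D0 a b (f - f') = D0 a b f - D0 a b f' := by
  rw [sub_eq_add_neg, D0_add, D0_neg, sub_eq_add_neg]
theorem D1_sub (f f' : Mor a b) : D1 a b (f - f') = D1 a b f - D1 a b f' := by
  rw [sub_eq_add_neg, D1_add, D1_neg, sub_eq_add_neg]
@[simp] theorem D0_zero : D0 a b 0 = 0 := by simp [D0]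
@[simp] theorem D1_zero : D1 a b 0 = 0 := by simp [D1]
@[simp] theorem D0_one : D0 a a 1 = 0 := by simp [D0]

theorem D0_mul0 (h : Gd 0 a.deg b.deg f) (g : Mor b c) :
    D0 a c (f * g) = D0 a b f * g + f * D0 b c g := by
  simp only [D0, pd_mul0 h, Hm.mul_add, Hm.add_mul, Hm.mul_sub, Hm.sub_mul, Hm.mul_assoc]; abel

theorem D1_mul0 (h : Gd 0 a.deg b.deg f) (g : Mor b c) :
    D1 a c (f * g) = D0 a b f * g + f * D1 b c g := by
  simp only [D0, D1, pd_mul0 h, Hm.mul_add, Hm.add_mul, Hm.mul_sub, Hm.sub_mul, Hm.mul_assoc]; abel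

theorem D1_mul1 (h : Gd k a.deg b.deg f) (hk : Odd k) (g : Mor b c) :
    D1 a c (f * g) = D1 a b f * g - f * D0 b c g := by
  simp only [D0, D1, pd_mul1 h hk, Hm.mul_add, Hm.add_mul, Hm.mul_sub, Hm.sub_mul, Hm.mul_assoc]
  abel

theorem D0_mul1 (h : Gd k a.deg b.deg f) (hk : Odd k) (g : Mor b c) :
    D0 a c (f * g) = D1 a b f * g - f * D1 b c g := by
  simp only [D0, D1, pd_mul1 h hk, Hm.mul_add, Hm.add_mul, Hm.mul_sub, Hm.sub_mul, Hm.mul_assoc]
  abel

theorem D0_D1 (h : Gd k a.deg b.deg f) (hk : Odd k) : D0 a b (D1 a b f) = 0 := by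
  simp only [D0, D1, pd_add, pd_pd, pd_mul1 h hk, pd_mul1 a.gd odd_one, Tw.pd_eq, Hm.mul_add,
    Hm.add_mul, Hm.mul_neg, Hm.neg_mul, Hm.mul_assoc]
  abel

theorem D1_D0 (h : Gd 0 a.deg b.deg f) : D1 a b (D0 a b f) = 0 := by
  simp only [D0, D1, pd_add, pd_sub, pd_pd, pd_mul0 h, pd_mul1 a.gd odd_one, Tw.pd_eq, Hm.mul_add,
    Hm.add_mul, Hm.mul_sub, Hm.sub_mul, Hm.mul_neg, Hm.neg_mul, Hm.mul_assoc]
  abel

theorem Gd.D0 (h : Gd k a.deg b.deg f) : Gd (k + 1) a.deg b.deg (D0 a b f) :=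
  (h.pd.add (a.gd.mul' h (add_comm _ _))).sub (h.mul b.gd)

theorem Gd.D1 (h : Gd k a.deg b.deg f) : Gd (k + 1) a.deg b.deg (D1 a b f) :=
  (h.pd.add (a.gd.mul' h (add_comm _ _))).add (h.mul b.gd)

theorem odd_neg_one' : Odd (-1 : ℤ) := odd_one.neg

theorem ch_zero : Ch a b 0 := ⟨gd_zero, D0_zero⟩
theorem ch_one : Ch a a 1 := ⟨gd_one, D0_one⟩
theorem co_zero : Co a b 0 := ⟨gd_zero, D1_zero⟩
theorem Ch.add (h : Ch a b f) (h' : Ch a b f') : Ch a b (f + f') :=
  ⟨h.gd.add h'.gd, by rw [D0_add, h.d, h'.d, add_zero]⟩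
theorem Ch.neg (h : Ch a b f) : Ch a b (-f) := ⟨h.gd.neg, by rw [D0_neg, h.d, neg_zero]⟩
theorem Ch.sub (h : Ch a b f) (h' : Ch a b f') : Ch a b (f - f') :=
  ⟨h.gd.sub h'.gd, by rw [D0_sub, h.d, h'.d, sub_zero]⟩
theorem Ch.mul (h : Ch a b f) (h' : Ch b c g) : Ch a c (f * g) :=
  ⟨h.gd.mul' h'.gd (add_zero _), by
    rw [D0_mul0 h.gd, h.d, h'.d, Hm.zero_mul, Hm.mul_zero, add_zero]⟩
theorem ch_D1 (h : Gd (-1) a.deg b.deg f) : Ch a b (D1 a b f) :=
  ⟨by simpa using h.D1, D0_D1 h odd_neg_one'⟩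
theorem Ch.mul_D1 (h : Ch a b f) (g : Mor b c) : f * D1 b c g = D1 a c (f * g) := by
  rw [D1_mul0 h.gd, h.d, Hm.zero_mul, zero_add]
theorem Ch.D1_mul (h : Ch b c g) (hf : Gd k a.deg b.deg f) (hk : Odd k) :
    D1 a b f * g = D1 a c (f * g) := by
  rw [D1_mul1 hf hk, h.d, Hm.mul_zero, sub_zero]
theorem Ch.mul_co (h : Ch a b f) (h' : Co b c g) : Co a c (f * g) :=
  ⟨h.gd.mul' h'.gd (zero_add _), by rw [← h.mul_D1, h'.d, Hm.mul_zero]⟩
theorem Co.mul_ch (h : Co a b f) (h' : Ch b c g) : Co a c (f * g) :=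
  ⟨h.gd.mul' h'.gd (add_zero _), by rw [← h'.D1_mul h.gd odd_one, h.d, Hm.zero_mul]⟩
theorem IsPm.ch {e : a.ob.I → b.ob.I} {γ : a.ob.I → K} {s : a.ob.I → ℤˣ} (h : IsPm f e γ s)
    (hd : ∀ i, b.deg (e i) = a.deg i) (hc : a.δ * f = f * b.δ) : Ch a b f :=
  ⟨h.gd fun i => by rw [hd, zero_add], by rw [D0, h.pd, hc, zero_add, sub_self]⟩

end D

/-- the shift -/
@[reducible] noncomputable def sh (a : Tw Λ ρ) : Tw Λ ρ where
  ob := a.ob
  deg i := a.deg i - 1
  δ := -a.δ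
  gd := a.gd.neg.shift fun i j => by ring
  mc := by rw [pd_shift, pd_neg, neg_neg, neg_mul_neg]; exact a.mc
  lev := a.lev.imp fun l h => ⟨h.1, h.2.neg⟩

theorem lev_sum {ι κ : Type} {l : ι → ℕ} {m : κ → ℕ} (hl : Bd l) (hm : Bd m) :
    ∃ N, (∀ j, m j < N) ∧ Bd (Sum.elim (fun i => l i + N) m) := by
  obtain ⟨N, hN⟩ := bd_iff.1 hm
  obtain ⟨N', hN'⟩ := bd_iff.1 hl
  refine ⟨N, hN, bd_iff.2 ⟨N' + N, ?_⟩⟩
  rintro (i | i)
  · exact Nat.add_lt_add_right (hN' i) N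
  · exact Nat.lt_add_left N' (hN i)

/-- the twisted sum with the subcomplex `b` and the quotient `a` -/
@[reducible] noncomputable def tsum (a b : Tw Λ ρ) (c : Mor a b) (h : Co a b c) : Tw Λ ρ where
  ob := a.ob + b.ob
  deg := Sum.elim a.deg b.deg
  δ := fromBlocks a.δ c 0 b.δ
  gd := gd_fromBlocks.2 ⟨a.gd, h.gd, gd_zero, b.gd⟩
  mc := by
    have := h.d
    rw [D1, add_assoc] at this
    simp only [pd_fromBlocks, fromBlocks_multiply, fromBlocks_add, Hm.mul_zero, Hm.zero_mul,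
      add_zero, zero_add, pd_zero, a.mc, b.mc, this, fromBlocks_zero]
  lev := by
    obtain ⟨l, hl, h1⟩ := a.lev
    obtain ⟨m, hm, h2⟩ := b.lev
    obtain ⟨N, hN, k⟩ := lev_sum hl hm
    exact ⟨_, k, on_fromBlocks.2 ⟨h1.mono fun i j _ e => Nat.add_lt_add_right e N,
      fun i j _ _ => Nat.lt_add_left _ (hN j), on_zero, h2⟩⟩

noncomputable instance twAdd : Add (Tw Λ ρ) := ⟨fun a b => tsum a b 0 co_zero⟩

theorem add_def (a b : Tw Λ ρ) : a + b = tsum a b 0 co_zero := rfl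

theorem Ch.co {a b : Tw Λ ρ} {f : Mor a b} (h : Ch a b f) : Co (sh a) b f :=
  ⟨h.gd.shift fun i j => by ring, by
    have := h.d
    rw [D0] at this
    rw [D1, pd_shift, Hm.neg_mul, ← neg_eq_zero, ← this]
    abel⟩

theorem Ch.sh {a b : Tw Λ ρ} {f : Mor a b} (h : Ch a b f) : Ch (sh a) (sh b) f :=
  ⟨h.gd.shift fun i j => by ring, by
    have := h.d
    rw [D0] at this
    rw [D0, pd_shift, Hm.neg_mul, Hm.mul_neg, ← neg_eq_zero, ← this]
    abel⟩

/-- the mapping cone -/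
@[reducible] noncomputable def cn {a b : Tw Λ ρ} (f : Mor a b) (h : Ch a b f) : Tw Λ ρ :=
  tsum (sh a) b f h.co

/-- a complex with zero differential -/
@[reducible] noncomputable def fr (Λ : DG) (ρ : K →* Equiv.Perm X) (b : Ob X) (n : b.I → ℤ) :
    Tw Λ ρ where
  ob := b
  deg := n
  δ := 0
  gd := gd_zero
  mc := by simp
  lev := ⟨fun _ => 0, bd_iff.2 ⟨1, fun _ => one_pos⟩, on_zero⟩

/-- an elementary complex -/
@[reducible] noncomputable def el (Λ : DG) (ρ : K →* Equiv.Perm X) (b : Ob X) (n : b.I → ℤ) :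
    Tw Λ ρ := cn (a := fr Λ ρ b n) (b := fr Λ ρ b n) 1 ch_one

section Blocks

variable {a a' b b' e : Tw Λ ρ} {c : Mor a b} {c' : Mor a' b'} (h : Co a b c) (h' : Co a' b' c')

theorem D0_blocks (p : Mor a a') (q : Mor a b') (r : Mor b a') (s : Mor b b') :
    D0 (tsum a b c h) (tsum a' b' c' h') (fromBlocks p q r s) =
      fromBlocks (D0 a a' p + c * r) (D0 a b' q + c * s - p * c') (D0 b a' r)
        (D0 b b' s - r * c') := by
  change pd (I := a.ob + b.ob) (Sum.elim a.deg b.deg) (fromBlocks p q r s) +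
    fromBlocks a.δ c 0 b.δ * fromBlocks p q r s - fromBlocks p q r s * fromBlocks a'.δ c' 0 b'.δ = _
  simp only [D0, pd_fromBlocks, fromBlocks_multiply, fromBlocks_add, fromBlocks_sub, Hm.mul_zero,
    Hm.zero_mul, add_zero, zero_add, fromBlocks_inj]
  refine ⟨?_, ?_, ?_, ?_⟩ <;> first | trivial | abel

theorem D1_blocks (p : Mor a a') (q : Mor a b') (r : Mor b a') (s : Mor b b') :
    D1 (tsum a b c h) (tsum a' b' c' h') (fromBlocks p q r s) =
      fromBlocks (D1 a a' p + c * r) (D1 a b' q + c * s + p * c') (D1 b a' r)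
        (D1 b b' s + r * c') := by
  change pd (I := a.ob + b.ob) (Sum.elim a.deg b.deg) (fromBlocks p q r s) +
    fromBlocks a.δ c 0 b.δ * fromBlocks p q r s + fromBlocks p q r s * fromBlocks a'.δ c' 0 b'.δ = _
  simp only [D1, pd_fromBlocks, fromBlocks_multiply, fromBlocks_add, Hm.mul_zero,
    Hm.zero_mul, add_zero, zero_add, fromBlocks_inj]
  refine ⟨?_, ?_, ?_, ?_⟩ <;> first | trivial | abel

theorem D0_rows (p : Mor a e) (q : Mor b e) :
    D0 (tsum a b c h) e (fromRows p q) = fromRows (D0 a e p + c * q) (D0 b e q) := by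
  change pd (I := a.ob + b.ob) (Sum.elim a.deg b.deg) (fromRows p q) +
    fromBlocks a.δ c 0 b.δ * fromRows p q - fromRows p q * e.δ = _
  simp only [D0, pd_fromRows, fromBlocks_mul_fromRows, fromRows_mul, fromRows_add, fromRows_sub,
    Hm.zero_mul, zero_add, fromRows_ext_iff]
  refine ⟨?_, ?_⟩ <;> first | trivial | abel

theorem D1_rows (p : Mor a e) (q : Mor b e) :
    D1 (tsum a b c h) e (fromRows p q) = fromRows (D1 a e p + c * q) (D1 b e q) := by
  change pd (I := a.ob + b.ob) (Sum.elim a.deg b.deg) (fromRows p q) +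
    fromBlocks a.δ c 0 b.δ * fromRows p q + fromRows p q * e.δ = _
  simp only [D1, pd_fromRows, fromBlocks_mul_fromRows, fromRows_mul, fromRows_add,
    Hm.zero_mul, zero_add, fromRows_ext_iff]
  refine ⟨?_, ?_⟩ <;> first | trivial | abel

theorem D0_cols (p : Mor e a) (q : Mor e b) :
    D0 e (tsum a b c h) (fromCols p q) = fromCols (D0 e a p) (D0 e b q - p * c) := by
  change pd e.deg (fromCols p q) + e.δ * fromCols p q - fromCols p q * fromBlocks a.δ c 0 b.δ = _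
  simp only [D0, pd_fromCols, fromCols_mul_fromBlocks, mul_fromCols, fromCols_add, fromCols_sub,
    Hm.mul_zero, add_zero, fromCols_ext_iff]
  refine ⟨?_, ?_⟩ <;> first | trivial | abel

theorem D1_cols (p : Mor e a) (q : Mor e b) :
    D1 e (tsum a b c h) (fromCols p q) = fromCols (D1 e a p) (D1 e b q + p * c) := by
  change pd e.deg (fromCols p q) + e.δ * fromCols p q + fromCols p q * fromBlocks a.δ c 0 b.δ = _
  simp only [D1, pd_fromCols, fromCols_mul_fromBlocks, mul_fromCols, fromCols_add,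
    Hm.mul_zero, add_zero, fromCols_ext_iff]
  refine ⟨?_, ?_⟩ <;> first | trivial | abel

theorem D0_sh (f : Mor a b) : D0 (sh a) b f = -D1 a b f := by
  simp only [D0, D1, pd_shift, Hm.neg_mul]; abel
theorem D1_sh (f : Mor a b) : D1 (sh a) b f = -D0 a b f := by
  simp only [D0, D1, pd_shift, Hm.neg_mul]; abel
theorem D0_sh' (f : Mor a b) : D0 a (sh b) f = D1 a b f := by
  simp only [D0, D1, Hm.mul_neg]; abel
theorem D1_sh' (f : Mor a b) : D1 a (sh b) f = D0 a b f := by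
  simp only [D0, D1, Hm.mul_neg]; abel

theorem ch_blocks {p : Mor a a'} {q : Mor a b'} {r : Mor b a'} {s : Mor b b'}
    (g1 : Gd 0 a.deg a'.deg p) (g2 : Gd 0 a.deg b'.deg q) (g3 : Gd 0 b.deg a'.deg r)
    (g4 : Gd 0 b.deg b'.deg s) (e1 : D0 a a' p + c * r = 0) (e2 : D0 a b' q + c * s - p * c' = 0)
    (e3 : D0 b a' r = 0) (e4 : D0 b b' s - r * c' = 0) :
    Ch (tsum a b c h) (tsum a' b' c' h') (fromBlocks p q r s) :=
  ⟨gd_fromBlocks.2 ⟨g1, g2, g3, g4⟩, (D0_blocks h h' p q r s).trans (by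
    rw [e1, e2, e3, e4, fromBlocks_zero])⟩

theorem ch_fromRows {p : Mor a e} {q : Mor b e} :
    Ch (a + b) e (fromRows p q) ↔ Ch a e p ∧ Ch b e q := by
  have k := D0_rows (co_zero (a := a) (b := b)) p q
  rw [Hm.zero_mul, add_zero] at k
  constructor
  · rintro ⟨h1, h2⟩
    have := fromRows_ext_iff.1 ((k.symm.trans h2).trans fromRows_zero.symm)
    exact ⟨⟨(gd_fromRows.1 h1).1, this.1⟩, (gd_fromRows.1 h1).2, this.2⟩
  · rintro ⟨h1, h2⟩
    exact ⟨gd_fromRows.2 ⟨h1.gd, h2.gd⟩, k.trans (by rw [h1.d, h2.d, fromRows_zero])⟩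

theorem ch_fromCols {p : Mor e a} {q : Mor e b} :
    Ch e (a + b) (fromCols p q) ↔ Ch e a p ∧ Ch e b q := by
  have k := D0_cols (co_zero (a := a) (b := b)) p q
  rw [Hm.mul_zero, sub_zero] at k
  constructor
  · rintro ⟨h1, h2⟩
    have := fromCols_ext_iff.1 ((k.symm.trans h2).trans fromCols_zero.symm)
    exact ⟨⟨(gd_fromCols.1 h1).1, this.1⟩, (gd_fromCols.1 h1).2, this.2⟩
  · rintro ⟨h1, h2⟩
    exact ⟨gd_fromCols.2 ⟨h1.gd, h2.gd⟩, k.trans (by rw [h1.d, h2.d, fromCols_zero])⟩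

theorem ch_fromBlocks {p : Mor a a'} {q : Mor a b'} {r : Mor b a'} {s : Mor b b'} :
    Ch (a + b) (a' + b') (fromBlocks p q r s) ↔ Ch a a' p ∧ Ch a b' q ∧ Ch b a' r ∧ Ch b b' s :=
  (ch_fromRows (e := a' + b')).trans (by rw [ch_fromCols, ch_fromCols, and_assoc])

end Blocks

end Pool.Agent.Work.MP_9d1ffa_al.Dg
end

-- merged part: Pool.Agent.Work.MP_9d1ffa_al.Dg.DH
section
/-! The homotopy category of twisted complexes. -/

namespace Pool.Agent.Work.MP_9d1ffa_al.Dg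

open MonoidAlgebra

set_option linter.unusedSectionVars false
set_option linter.unusedVariables false
set_option linter.unusedSimpArgs false

variable {X K : Type} [Group K] {Λ : DG} {ρ : K →* Equiv.Perm X}

/-- chain maps -/
def Zs (a b : Tw Λ ρ) : AddSubgroup (Mor a b) where
  carrier := {f | Ch a b f}
  zero_mem' := ch_zero
  add_mem' := Ch.add
  neg_mem' := Ch.neg

/-- null homotopic maps -/
def Nh (a b : Tw Λ ρ) (f : Mor a b) : Prop := ∃ h, Gd (-1) a.deg b.deg h ∧ f = D1 a b h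

section Nh

variable {a b c : Tw Λ ρ} {f f' : Mor a b} {g : Mor b c}

theorem nh_zero : Nh a b 0 := ⟨0, gd_zero, D1_zero.symm⟩

theorem Nh.add (h : Nh a b f) (h' : Nh a b f') : Nh a b (f + f') :=
  let ⟨k, h1, h2⟩ := h
  let ⟨k', h1', h2'⟩ := h'
  ⟨k + k', h1.add h1', by rw [D1_add, h2, h2']⟩

theorem Nh.neg (h : Nh a b f) : Nh a b (-f) :=
  let ⟨k, h1, h2⟩ := h
  ⟨-k, h1.neg, by rw [D1_neg, h2]⟩

theorem Nh.mul_ch (h : Nh a b f) (h' : Ch b c g) : Nh a c (f * g) :=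
  let ⟨k, h1, h2⟩ := h
  ⟨k * g, h1.mul' h'.gd (add_zero _), by rw [h2, h'.D1_mul h1 odd_neg_one']⟩

theorem Ch.mul_nh (h : Ch a b f) (h' : Nh b c g) : Nh a c (f * g) :=
  let ⟨k, h1, h2⟩ := h'
  ⟨f * k, h.gd.mul' h1 (zero_add _), by rw [h2, h.mul_D1]⟩

end Nh

/-- null homotopic chain maps -/
def Bs (a b : Tw Λ ρ) : AddSubgroup (Zs a b) where
  carrier := {f | Nh a b f.1}
  zero_mem' := nh_zero
  add_mem' := Nh.add
  neg_mem' := Nh.neg

/-- the class of a chain map -/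
noncomputable def cls {a b : Tw Λ ρ} (f : Mor a b) (h : Ch a b f) : Zs a b ⧸ Bs a b :=
  QuotientAddGroup.mk ⟨f, h⟩

theorem cls_eq {a b : Tw Λ ρ} {f g : Mor a b} {h : Ch a b f} {h' : Ch a b g} :
    cls f h = cls g h' ↔ Nh a b (f - g) := by
  rw [cls, cls, eq_comm, QuotientAddGroup.eq, neg_add_eq_sub]
  rfl

theorem cls_congr {a b : Tw Λ ρ} {f g : Mor a b} {h : Ch a b f} {h' : Ch a b g} (e : f = g) :
    cls f h = cls g h' := by subst e; rfl

/-- the product of classes -/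
noncomputable def hmul {a b c : Tw Λ ρ} : Zs a b ⧸ Bs a b → Zs b c ⧸ Bs b c → Zs a c ⧸ Bs a c :=
  Quotient.map₂' (fun f g => ⟨f.1 * g.1, Ch.mul f.2 g.2⟩) fun f f' e g g' e' => by
    rw [QuotientAddGroup.leftRel_apply] at e e' ⊢
    have k := (Nh.mul_ch e g.2).add (Ch.mul_nh f'.2 e')
    change Nh a c (-(f.1 * g.1) + f'.1 * g'.1)
    convert k using 1
    change _ = (-f.1 + f'.1) * g.1 + f'.1 * (-g.1 + g'.1)
    simp only [Hm.add_mul, Hm.mul_add, Hm.neg_mul, Hm.mul_neg]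
    abel

/-- the homotopy category -/
noncomputable def HC (Λ : DG) (ρ : K →* Equiv.Perm X) : ACat (Tw Λ ρ) where
  Hom a b := Zs a b ⧸ Bs a b
  acg a b := inferInstance
  mul := hmul
  one a := cls 1 ch_one
  inl a b := cls (fromCols 1 0) (ch_fromCols.2 ⟨ch_one, ch_zero⟩)
  inr a b := cls (fromCols 0 1) (ch_fromCols.2 ⟨ch_zero, ch_one⟩)
  fst a b := cls (fromRows 1 0) (ch_fromRows.2 ⟨ch_one, ch_zero⟩)
  snd a b := cls (fromRows 0 1) (ch_fromRows.2 ⟨ch_zero, ch_one⟩)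
  mul_assoc x y z := Quotient.inductionOn₃' x y z fun f g h =>
    congrArg QuotientAddGroup.mk (Subtype.ext (Hm.mul_assoc f.1 g.1 h.1))
  one_mul x := Quotient.inductionOn' x fun f =>
    congrArg QuotientAddGroup.mk (Subtype.ext (Hm.one_mul f.1))
  mul_one x := Quotient.inductionOn' x fun f =>
    congrArg QuotientAddGroup.mk (Subtype.ext (Hm.mul_one f.1))
  mul_add x y z := Quotient.inductionOn₃' x y z fun f g h =>
    congrArg QuotientAddGroup.mk (Subtype.ext (Hm.mul_add f.1 g.1 h.1))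
  add_mul x y z := Quotient.inductionOn₃' x y z fun f g h =>
    congrArg QuotientAddGroup.mk (Subtype.ext (Hm.add_mul f.1 g.1 h.1))
  inl_inl a b := congrArg QuotientAddGroup.mk (Subtype.ext
    ((fromCols_mul_fromRows (1 : Mor a a) (0 : Mor a b) (1 : Mor a a) 0).trans (by simp)))
  inr_inr a b := congrArg QuotientAddGroup.mk (Subtype.ext
    ((fromCols_mul_fromRows (0 : Mor b a) (1 : Mor b b) 0 (1 : Mor b b)).trans (by simp)))
  inl_inr a b := congrArg QuotientAddGroup.mk (Subtype.ext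
    ((fromCols_mul_fromRows (1 : Mor a a) (0 : Mor a b) 0 (1 : Mor b b)).trans (by simp)))
  inr_inl a b := congrArg QuotientAddGroup.mk (Subtype.ext
    ((fromCols_mul_fromRows (0 : Mor b a) (1 : Mor b b) (1 : Mor a a) 0).trans (by simp)))
  total a b := congrArg QuotientAddGroup.mk (Subtype.ext (show
    fromRows (1 : Mor a a) (0 : Mor b a) * fromCols (1 : Mor a a) (0 : Mor a b) +
      fromRows (0 : Mor a b) (1 : Mor b b) * fromCols (0 : Mor b a) (1 : Mor b b) = 1 by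
        simp [fromRows_mul_fromCols, fromBlocks_add, fromCols_fromRows_eq_fromBlocks]))

/-- homotopy classes of chain maps -/
abbrev Hom (a b : Tw Λ ρ) : Type := (HC Λ ρ).Hom a b

/-- the chain map `f` represents `x` -/
def Rp {a b : Tw Λ ρ} (x : Hom a b) (f : Mor a b) : Prop := ∃ h : Ch a b f, x = cls f h

variable {a a' b b' c : Tw Λ ρ} {x y : Hom a b} {f g : Mor a b}

theorem exists_rp (x : Hom a b) : ∃ f, Rp x f :=
  Quotient.inductionOn' x fun f => ⟨f.1, f.2, rfl⟩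

theorem Ch.exists_rp (h : Ch a b f) : ∃ x : Hom a b, Rp x f := ⟨cls f h, h, rfl⟩

theorem Rp.ch (h : Rp x f) : Ch a b f := h.1

theorem Rp.eq_iff (h : Rp x f) (h' : Rp y g) : x = y ↔ Nh a b (f - g) := by
  obtain ⟨_, rfl⟩ := h
  obtain ⟨_, rfl⟩ := h'
  exact cls_eq

theorem Rp.uniq (h : Rp x f) (h' : Rp y f) : x = y :=
  (h.eq_iff h').2 (by rw [sub_self]; exact nh_zero)

theorem rp_zero : Rp (0 : Hom a b) 0 := ⟨ch_zero, rfl⟩

theorem rp_one : Rp (1 : Hom a a) 1 := ⟨ch_one, rfl⟩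

theorem Rp.eq_zero_iff (h : Rp x f) : x = 0 ↔ Nh a b f := by rw [h.eq_iff rp_zero, sub_zero]

theorem Rp.of_nh (h : Rp x f) (h' : Ch a b g) (k : Nh a b (f - g)) : Rp x g :=
  ⟨h', (h.eq_iff ⟨h', rfl⟩).2 k⟩

theorem Rp.add (h : Rp x f) (h' : Rp y g) : Rp (x + y) (f + g) := by
  obtain ⟨k, rfl⟩ := h
  obtain ⟨k', rfl⟩ := h'
  exact ⟨k.add k', rfl⟩

theorem Rp.neg (h : Rp x f) : Rp (-x) (-f) := by
  obtain ⟨k, rfl⟩ := h
  exact ⟨k.neg, rfl⟩

theorem Rp.sub (h : Rp x f) (h' : Rp y g) : Rp (x - y) (f - g) := by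
  rw [sub_eq_add_neg, sub_eq_add_neg]
  exact h.add h'.neg

theorem Rp.mul {z : Hom b c} {k : Mor b c} (h : Rp x f) (h' : Rp z k) : Rp (x * z) (f * k) := by
  obtain ⟨k, rfl⟩ := h
  obtain ⟨k', rfl⟩ := h'
  exact ⟨k.mul k', rfl⟩

theorem Rp.pow {x : Hom a a} {f : Mor a a} (h : Rp x f) (n : ℕ) : Rp (x ^ n) (f ^ n) := by
  induction n with
  | zero => rw [pow_zero, pow_zero]; exact rp_one
  | succ n ih => rw [pow_succ, pow_succ]; exact ih.mul h

theorem Rp.congr (h : Rp x f) (e : f = g) : Rp x g := e ▸ h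

theorem Rp.fromRows {x : Hom a c} {y : Hom b c} {f : Mor a c} {g : Mor b c} (h : Rp x f)
    (h' : Rp y g) : Rp (a := a + b) (fromRows x y) (fromRows f g) :=
  ((Rp.mul (a := a + b) ⟨_, rfl⟩ h).add (Rp.mul (a := a + b) ⟨_, rfl⟩ h')).congr (show
    Dg.fromRows (1 : Mor a a) (0 : Mor b a) * f + Dg.fromRows (0 : Mor a b) (1 : Mor b b) * g = _ by
      simp)

theorem Rp.fromCols {x : Hom c a} {y : Hom c b} {f : Mor c a} {g : Mor c b} (h : Rp x f)
    (h' : Rp y g) : Rp (b := a + b) (fromCols x y) (fromCols f g) :=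
  ((h.mul (c := a + b) ⟨_, rfl⟩).add (h'.mul (c := a + b) ⟨_, rfl⟩)).congr (show
    f * Dg.fromCols (1 : Mor a a) (0 : Mor a b) + g * Dg.fromCols (0 : Mor b a) (1 : Mor b b) = _ by
      simp)

theorem Rp.fromBlocks {x : Hom a a'} {y : Hom a b'} {z : Hom b a'} {w : Hom b b'} {p : Mor a a'}
    {q : Mor a b'} {r : Mor b a'} {s : Mor b b'} (h1 : Rp x p) (h2 : Rp y q) (h3 : Rp z r)
    (h4 : Rp w s) : Rp (a := a + b) (b := a' + b') (fromBlocks x y z w) (fromBlocks p q r s) :=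
  (h1.fromCols h2).fromRows (h3.fromCols h4)

theorem contr_iff : Contr a ↔ (1 : Hom a a) = 0 :=
  ⟨fun ⟨Γ, h1, h2⟩ => rp_one.eq_zero_iff.2 ⟨Γ, h1, h2.symm⟩, fun h =>
    let ⟨Γ, h1, h2⟩ := rp_one.eq_zero_iff.1 h
    ⟨Γ, h1, h2.symm⟩⟩

/-- Hint: if `g` represents `y`, `f * g - 1 = D1 h` and `g * f - 1 = D1 k`, then
`D1 (fromBlocks h 0 g (-k)) = fromBlocks 1 (h * f - f * k) 0 1 = 1 + N` on the cone (`D1_blocks`,
`D1_sh`, `D0_sh'`, `D1_sh'`), and `N * N = 0`; so `Γ * (1 - N)` is a contraction (`N` is a chain map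
by `ch_D1`, use `Ch.D1_mul`). -/
theorem contr_cn (h : Rp x f) {y : Hom b a} (h1 : x * y = 1) (h2 : y * x = 1) :
    Contr (cn f h.ch) := by
  obtain ⟨g, hg⟩ := exists_rp y
  obtain ⟨p, hp, ep⟩ := ((h.mul hg).eq_iff rp_one).1 h1
  obtain ⟨k, hk, ek⟩ := ((hg.mul h).eq_iff rp_one).1 h2
  have hp' : Gd (-1) (sh a).deg (sh a).deg p := hp.shift fun i j => by ring
  have hg' : Gd (-1) b.deg (sh a).deg g := hg.ch.gd.shift fun i j => by ring
  have G0 : Gd (-1) (cn f h.ch).deg (cn f h.ch).deg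
      (fromBlocks p (0 : Mor a b) g (-k) : Mor (cn f h.ch) (cn f h.ch)) :=
    gd_fromBlocks.2 ⟨hp', gd_zero, hg', hk.neg⟩
  have e11 : D1 (sh a) (sh a) p + f * g = 1 := by
    rw [D1_sh (a := a) (b := sh a), D0_sh' (a := a) (b := a), ← ep]; abel
  have e21 : D1 b (sh a) g = 0 := by rw [D1_sh' (a := b) (b := a), hg.ch.d]
  have e22 : D1 b b (-k) + g * f = 1 := by rw [D1_neg, ← ek]; abel
  have key := D1_blocks (a := sh a) (b := b) (a' := sh a) (b' := b) h.ch.co h.ch.co p 0 g (-k)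
  rw [e11, e21, e22] at key
  generalize D1 (sh a) b 0 + f * -k + p * f = n at key
  have C : Ch (cn f h.ch) (cn f h.ch)
      (1 + 1 - D1 (cn f h.ch) (cn f h.ch) (fromBlocks p (0 : Mor a b) g (-k))) :=
    (ch_one.add ch_one).sub (ch_D1 G0)
  refine ⟨_, G0.mul' C.gd (add_zero _), ?_⟩
  rw [← C.D1_mul G0 odd_neg_one', key]
  have e : ∀ n : Mor a b, fromBlocks (1 : Mor a a) n 0 (1 : Mor b b) *
      (1 + 1 - fromBlocks (1 : Mor a a) n 0 (1 : Mor b b)) = 1 := fun n => by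
    rw [← fromBlocks_one, fromBlocks_add, fromBlocks_sub, fromBlocks_multiply]
    simp
  exact e n

/-- Hint: the lower left block of a contraction is a chain map `g`; the diagonal blocks give the
homotopies. -/
theorem inv_of_contr (h : Rp x f) (k : Contr (cn f h.ch)) :
    ∃ y : Hom b a, x * y = 1 ∧ y * x = 1 := by
  obtain ⟨Γ, G, e⟩ := k
  obtain ⟨p, q, g, s, rfl⟩ := exists_blocks (I := a.ob) (J := b.ob) (K := a.ob) (L := b.ob) Γ
  obtain ⟨hp, -, hg, hs⟩ := gd_fromBlocks.1 G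
  have key := D1_blocks (a := sh a) (b := b) (a' := sh a) (b' := b) h.ch.co h.ch.co p q g s
  obtain ⟨e11, -, e21, e22⟩ := fromBlocks_inj.1
    ((key.symm.trans e).trans (fromBlocks_one (I := a.ob) (J := b.ob)).symm)
  rw [D1_sh (a := a) (b := sh a), D0_sh' (a := a) (b := a)] at e11
  rw [D1_sh' (a := b) (b := a)] at e21
  have cg : Ch b a g := ⟨hg.shift fun i j => by ring, e21⟩
  obtain ⟨y, hy⟩ := cg.exists_rp
  refine ⟨y, ((h.mul hy).eq_iff rp_one).2 ⟨p, hp.shift fun i j => by ring, ?_⟩,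
    ((hy.mul h).eq_iff rp_one).2 ⟨-s, hs.neg, ?_⟩⟩
  · rw [← e11]; abel
  · rw [D1_neg, ← e22]; abel

end Pool.Agent.Work.MP_9d1ffa_al.Dg
end
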