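import Pool.Agent.Work.MP_9d1ffa_al.Dg.DM

/-! Simple isomorphisms of twisted complexes. -/

namespace Pool.Agent.Work.MP_9d1ffa_al.Dg

open MonoidAlgebra

set_option linter.unusedSectionVars false
set_option linter.unusedVariables false
set_option linter.unusedSimpArgs false

variable {X K : Type} [Group K] {Λ : DG} {ρ : K →* Equiv.Perm X} {a a' b b' c : Tw Λ ρ}

/-- a simple isomorphism -/
def SI (a b : Tw Λ ρ) (u : Mor a b) : Prop :=
  ∃ (e : a.ob.I ≃ b.ob.I) (γ : a.ob.I → K) (s : a.ob.I → ℤˣ) (m : Mor a b) (l : b.ob.I → ℕ),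
    IsPm m e γ s ∧ (∀ i, b.deg (e i) = a.deg i) ∧ Ch a b u ∧ Bd l ∧ Lo (l ∘ e) (l ∘ e) a.δ ∧
      Lo l l b.δ ∧ Lo (l ∘ e) l (u - m)

/-- simple equivalence -/
def SE : Tw Λ ρ → Tw Λ ρ → Prop := Relation.EqvGen fun a b => ∃ u, SI a b u

theorem SE.refl (a : Tw Λ ρ) : SE a a := Relation.EqvGen.refl a

theorem SE.symm (h : SE a b) : SE b a := Relation.EqvGen.symm _ _ h

theorem SE.trans (h : SE a b) (h' : SE b c) : SE a c := Relation.EqvGen.trans _ _ _ h h'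

theorem SI.se {u : Mor a b} (h : SI a b u) : SE a b := Relation.EqvGen.rel _ _ ⟨u, h⟩

theorem SI.ch {u : Mor a b} (h : SI a b u) : Ch a b u :=
  let ⟨_, _, _, _, _, _, _, k, _⟩ := h
  k

/-- Hint: with `m'` from `IsPm.inv`, `u = m * (1 + m' * (u - m))` and `m' * (u - m)` is `Lo l l`, hence
nilpotent (`Lo.isNilpotent`); its inverse is a finite geometric sum, of degree zero by `Gd.mul'`;
`D0 v = 0` follows from `D0_mul0` applied to `u * v = 1`. -/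
theorem SI.inv {u : Mor a b} (h : SI a b u) : ∃ v : Mor b a, Ch b a v ∧ u * v = 1 ∧ v * u = 1 := by
  obtain ⟨e, γ, s, m, l, hm, hd, hu, hl, -, -, h3⟩ := h
  obtain ⟨m', hm', e1, e2⟩ := hm.inv
  have g' : Gd 0 b.deg a.deg m' := hm'.gd fun j => by rw [← hd, e.apply_symm_apply, zero_add]
  have g : Gd 0 a.deg b.deg m := hm.gd fun i => by rw [hd, zero_add]
  have lo : Lo l l (-(m' * (u - m))) := On.neg (hm'.on.mul h3 fun i j k _ _ x y => by
    rw [← x.1] at y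
    simpa using y)
  have gn : Gd 0 b.deg b.deg (-(m' * (u - m))) := (g'.mul' (hu.gd.sub g) (add_zero _)).neg
  obtain ⟨N, hN⟩ := lo.isNilpotent hl
  generalize hn : -(m' * (u - m)) = n at lo gn hN
  have gp : ∀ k : ℕ, Gd 0 b.deg b.deg (n ^ k) := fun k => by
    induction k with
    | zero => exact pow_zero n ▸ gd_one
    | succ k ih => exact pow_succ n k ▸ ih.mul' gn (add_zero _)
  have gw : Gd 0 b.deg b.deg (∑ k ∈ Finset.range N, n ^ k) :=
    Finset.sum_induction _ _ (fun _ _ => Gd.add) gd_zero fun k _ => gp k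
  have w1 := mul_neg_geom_sum n N
  have w2 := geom_sum_mul_neg n N
  rw [hN, sub_zero] at w1 w2
  generalize ∑ k ∈ Finset.range N, n ^ k = w at gw w1 w2
  have eu : u = m * (1 - n) := by
    rw [← hn, sub_neg_eq_add, Hm.mul_add, Hm.mul_one, ← Hm.mul_assoc, e1, Hm.one_mul, add_sub_cancel]
  have k1 : u * (w * m') = 1 := by
    rw [eu, Hm.mul_assoc, ← Hm.mul_assoc (1 - n)]
    exact (congrArg (fun x : Mor b b => m * (x * m')) w1).trans (by rw [Hm.one_mul, e1])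
  have k2 : (w * m') * u = 1 := by
    rw [eu, Hm.mul_assoc, ← Hm.mul_assoc m', e2, Hm.one_mul]
    exact w2
  refine ⟨w * m', ⟨gw.mul' g' (add_zero _), ?_⟩, k1, k2⟩
  have := D0_mul0 hu.gd (w * m')
  rw [k1, D0_one, hu.d, Hm.zero_mul, zero_add] at this
  rw [← Hm.one_mul (D0 b a _), ← k2, Hm.mul_assoc, ← this, Hm.mul_zero]

/-- Hint: take `l` from `b.lev` with bound `N` and use the level `N * w + l`.  From `D0 u = 0` and
`pd m = 0`: `a.δ * m = m * b.δ + (u - m) * b.δ - pd (u - m) - a.δ * (u - m)`; multiply by the inverse of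
`m` and use `On.mul` with `IsPm.on`. -/
theorem si_of_weak {u m : Mor a b} {e : a.ob.I ≃ b.ob.I} {γ : a.ob.I → K} {s : a.ob.I → ℤˣ}
    (hm : IsPm m e γ s) (hd : ∀ i, b.deg (e i) = a.deg i) (hu : Ch a b u) (w : b.ob.I → ℕ)
    (hw : Bd w) (h1 : Wk (w ∘ e) (w ∘ e) a.δ) (h2 : Wk w w b.δ) (h3 : Lo (w ∘ e) w (u - m)) :
    SI a b u := by
  obtain ⟨l, hl, h4⟩ := b.lev
  obtain ⟨N, hN⟩ := bd_iff.1 hl
  obtain ⟨N', hN'⟩ := bd_iff.1 hw
  obtain ⟨m', hm', e1, -⟩ := hm.inv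
  have lt : ∀ i j, w j < w i → N * w j + l j < N * w i + l i := fun i j h => by
    have := hN j
    have := Nat.mul_le_mul_left N (Nat.succ_le_of_lt h)
    rw [Nat.mul_succ] at this
    omega
  have k2 : Lo (fun j => N * w j + l j) (fun j => N * w j + l j) b.δ :=
    (h2.and h4).mono fun i j _ h => by
      have := Nat.mul_le_mul_left N h.1
      have := h.2
      show N * w j + l j < N * w i + l i
      omega
  have k3 : Lo ((fun j => N * w j + l j) ∘ e) (fun j => N * w j + l j) (u - m) :=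
    h3.mono fun i j _ h => lt _ _ h
  have eq : a.δ * m = m * b.δ + (u - m) * b.δ - pd a.deg (u - m) - a.δ * (u - m) := by
    have := hu.d
    rw [D0] at this
    rw [pd_sub, hm.pd, Hm.sub_mul, Hm.mul_sub, ← sub_eq_zero]
    exact Eq.trans (by abel) this
  have k1 : Lo ((fun j => N * w j + l j) ∘ e) (fun j => N * w j + l j) (a.δ * m) := by
    rw [eq]
    refine On.sub (On.sub (On.add (hm.on.mul k2 fun i j k _ _ x y => ?_)
      (k3.mul k2 fun i j k _ _ x y => lt_trans y x)) (k3.pd _))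
      (h1.mul h3 fun i j k _ _ x y => lt _ _ (lt_of_lt_of_le y x))
    rw [← x.1] at y
    exact y
  refine ⟨e, γ, s, m, fun j => N * w j + l j, hm, hd, hu, bd_iff.2 ⟨N * N' + N, fun j => ?_⟩, ?_,
    k2, k3⟩
  · have := Nat.mul_le_mul_left N (hN' j).le
    have := hN j
    omega
  · rw [← Hm.mul_one a.δ, ← e1, ← Hm.mul_assoc]
    refine k1.mul hm'.on fun i j k _ _ x y => ?_
    rw [← y.1]
    simpa using x

theorem si_pm {m : Mor a b} {e : a.ob.I ≃ b.ob.I} {γ : a.ob.I → K} {s : a.ob.I → ℤˣ}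
    (hm : IsPm m e γ s) (hd : ∀ i, b.deg (e i) = a.deg i) (hc : a.δ * m = m * b.δ) : SI a b m :=
  si_of_weak hm hd (hm.ch hd hc) (fun _ => 0) (bd_iff.2 ⟨1, fun _ => one_pos⟩)
    (fun _ _ _ _ => le_rfl) (fun _ _ _ _ => le_rfl) (by rw [sub_self]; exact on_zero)

theorem si_one (a : Tw Λ ρ) : SI a a 1 :=
  si_pm (e := Equiv.refl _) isPm_one (fun _ => rfl) (by rw [Hm.mul_one, Hm.one_mul])

theorem si_neg_one (a : Tw Λ ρ) : SI a a (-1) :=
  si_pm (e := Equiv.refl _) isPm_one.neg (fun _ => rfl) (by simp)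

theorem SI.sh {u : Mor a b} (h : SI a b u) : SI (sh a) (sh b) u := by
  obtain ⟨e, γ, s, m, l, hm, hd, hu, hl, h1, h2, h3⟩ := h
  exact ⟨e, γ, s, m, l, hm, fun i => congrArg (· - 1) (hd i), hu.sh, hl, h1.neg, h2.neg, h3⟩

/-- Hint: `Equiv.sumCongr`, `IsPm.sum`, `lev_sum`, `ch_blocks`, `on_fromBlocks`. -/
theorem SI.tsum {u : Mor a a'} {v : Mor b b'} {f : Mor a b} {f' : Mor a' b'} (h : Co a b f)
    (h' : Co a' b' f') (hu : SI a a' u) (hv : SI b b' v) (e : u * f' = f * v) :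
    SI (tsum a b f h) (tsum a' b' f' h') (fromBlocks u 0 0 v) := by
  obtain ⟨e₁, γ₁, s₁, m₁, l₁, hm₁, hd₁, c₁, hl₁, p₁, q₁, r₁⟩ := hu
  obtain ⟨e₂, γ₂, s₂, m₂, l₂, hm₂, hd₂, c₂, hl₂, p₂, q₂, r₂⟩ := hv
  obtain ⟨N, hN, k⟩ := lev_sum hl₁ hl₂
  refine ⟨Equiv.sumCongr e₁ e₂, Sum.elim γ₁ γ₂, Sum.elim s₁ s₂, fromBlocks m₁ 0 0 m₂, _,
    hm₁.sum hm₂, ?_, ch_blocks h h' c₁.gd gd_zero gd_zero c₂.gd (by simp [c₁.d]) (by simp [e])
      D0_zero (by simp [c₂.d]), k,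
    on_fromBlocks.2 ⟨p₁.mono fun i j _ x => Nat.add_lt_add_right x N,
      fun i j _ _ => Nat.lt_add_left _ (hN _), on_zero, p₂⟩,
    on_fromBlocks.2 ⟨q₁.mono fun i j _ x => Nat.add_lt_add_right x N,
      fun i j _ _ => Nat.lt_add_left _ (hN _), on_zero, q₂⟩, ?_⟩
  · rintro (i | i)
    exacts [hd₁ i, hd₂ i]
  · have : fromBlocks u (0 : Mor a b') (0 : Mor b a') v - fromBlocks m₁ 0 0 m₂ =
        fromBlocks (u - m₁) 0 0 (v - m₂) := by rw [fromBlocks_sub, sub_zero, sub_zero]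
    exact this ▸ on_fromBlocks.2 ⟨r₁.mono fun i j _ x => Nat.add_lt_add_right x N, on_zero,
      on_zero, r₂⟩

/-- Hint: `si_of_weak` with `m = 1` and `w = Sum.elim (fun _ => 1) (fun _ => 0)`. -/
theorem si_tw {f f' k : Mor a b} (h : Co a b f) (h' : Co a b f') (hk : Gd 0 a.deg b.deg k)
    (e : f' = f + D0 a b k) : SI (tsum a b f h) (tsum a b f' h') (fromBlocks 1 k 0 1) := by
  have w : Bd (Sum.elim (fun _ : a.ob.I => 1) fun _ : b.ob.I => 0) :=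
    bd_iff.2 ⟨2, by rintro (i | i) <;> simp⟩
  have q : fromBlocks (1 : Mor a a) k (0 : Mor b a) (1 : Mor b b) - 1 = fromBlocks 0 k 0 0 := by
    rw [← fromBlocks_one, fromBlocks_sub, sub_self, sub_self, sub_self, sub_zero]
  refine si_of_weak (m := 1) (e := Equiv.refl _) isPm_one (fun _ => rfl)
    (ch_blocks h h' gd_one hk gd_zero gd_one (by simp) ?_ D0_zero (by simp)) _ w
    (on_fromBlocks.2 ⟨fun _ _ _ _ => le_rfl, fun _ _ _ _ => Nat.zero_le _, on_zero,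
      fun _ _ _ _ => le_rfl⟩)
    (on_fromBlocks.2 ⟨fun _ _ _ _ => le_rfl, fun _ _ _ _ => Nat.zero_le _, on_zero,
      fun _ _ _ _ => le_rfl⟩)
    (q ▸ on_fromBlocks.2 ⟨on_zero, fun _ _ _ _ => one_pos, on_zero, on_zero⟩)
  rw [Hm.mul_one, Hm.one_mul, e]
  abel

theorem si_upper {k : Mor a b} (hk : Ch a b k) : SI (a + b) (a + b) (fromBlocks 1 k 0 1) :=
  si_tw co_zero co_zero hk.gd (by rw [hk.d, add_zero])

/-- Hint: `si_of_weak` with `m = 1` and `w = Sum.elim (fun _ => 0) (fun _ => 1)`. -/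
theorem si_lower {k : Mor b a} (hk : Ch b a k) : SI (a + b) (a + b) (fromBlocks 1 0 k 1) := by
  have w : Bd (Sum.elim (fun _ : a.ob.I => 0) fun _ : b.ob.I => 1) :=
    bd_iff.2 ⟨2, by rintro (i | i) <;> simp⟩
  have q : fromBlocks (1 : Mor a a) (0 : Mor a b) k (1 : Mor b b) - 1 = fromBlocks 0 0 k 0 := by
    rw [← fromBlocks_one, fromBlocks_sub, sub_self, sub_self, sub_self, sub_zero]
  exact si_of_weak (m := 1) (e := Equiv.refl _) isPm_one (fun _ => rfl)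
    (ch_fromBlocks.2 ⟨ch_one, ch_zero, hk, ch_one⟩) _ w
    (on_fromBlocks.2 ⟨fun _ _ _ _ => le_rfl, on_zero, on_zero, fun _ _ _ _ => le_rfl⟩)
    (on_fromBlocks.2 ⟨fun _ _ _ _ => le_rfl, on_zero, on_zero, fun _ _ _ _ => le_rfl⟩)
    (q ▸ on_fromBlocks.2 ⟨on_zero, on_zero, fun _ _ _ _ => one_pos, on_zero⟩)

/-- Hint: `exists_pm`, `si_pm`; compare coefficients with `IsPm.cf_mul` and `IsPm.mul_cf`. -/
theorem se_sgn (e : a.ob.I ≃ b.ob.I) (s : a.ob.I → ℤˣ) (h1 : ∀ i, b.ob.t (e i) = a.ob.t i)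
    (h2 : ∀ i, b.ob.x (e i) = a.ob.x i) (h3 : ∀ i, b.deg (e i) = a.deg i)
    (h4 : ∀ i j g, (s j : ℤ) • cf a.δ i j g = (s i : ℤ) • cf b.δ (e i) (e j) g) : SE a b := by
  obtain ⟨m, hm⟩ := exists_pm Λ.A ρ e s h1 h2
  refine (si_pm hm h3 (hom_ext fun i j g => ?_)).se
  obtain ⟨j, rfl⟩ := e.surjective j
  rw [hm.mul_cf _ _ _ _ fun i' h _ => e.injective h, hm.cf_mul, inv_one, mul_one, one_mul, h4]

theorem se_perm (e : a.ob.I ≃ b.ob.I) (h1 : ∀ i, b.ob.t (e i) = a.ob.t i)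
    (h2 : ∀ i, b.ob.x (e i) = a.ob.x i) (h3 : ∀ i, b.deg (e i) = a.deg i)
    (h4 : ∀ i j g, cf a.δ i j g = cf b.δ (e i) (e j) g) : SE a b :=
  se_sgn e (fun _ => 1) h1 h2 h3 fun i j g => by rw [h4]

/-- A complex whose differential is a signed matching up to terms that lower a level.
Hint: with `m₁ = m.toRows₁` the map `u = fromRows m₁ (m₁ * a.δ)` is a chain map from `el` to `a`
(`D0_rows`, `pd_mul1`, `Tw.pd_eq`; `m₁` has degree `-1` from `n`), `u - m = fromRows 0 (m₁ * a.δ - m₂)`;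
apply `si_of_weak`; `a.δ` does not raise `w` because `a.δ = m' * (m * a.δ)`. -/
theorem se_match (U : Ob X) (n : U.I → ℤ) {m : Mor (el Λ ρ U n) a} {e : (U + U).I ≃ a.ob.I}
    {γ : (U + U).I → K} {s : (U + U).I → ℤˣ} (hm : IsPm m e γ s)
    (hd : ∀ i, a.deg (e i) = (el Λ ρ U n).deg i) (w : a.ob.I → ℕ) (hw : Bd w)
    (h1 : ∀ i, w (e (Sum.inl i)) = w (e (Sum.inr i)))
    (h2 : Lo (w ∘ e) w (m * a.δ - (el Λ ρ U n).δ * m)) : SE (el Λ ρ U n) a := by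
  obtain ⟨m', hm', -, e2⟩ := hm.inv
  have hδ : Wk (w ∘ e) (w ∘ e) (el Λ ρ U n).δ :=
    on_fromBlocks.2 ⟨On.neg on_zero, on_one fun i => (h1 i).ge, on_zero, on_zero⟩
  have wa : Wk w w a.δ := by
    have k : Wk (w ∘ e) w (m * a.δ) := by
      rw [← sub_add_cancel (m * a.δ) ((el Λ ρ U n).δ * m)]
      refine On.add (h2.mono fun _ _ _ x => x.le) (hδ.mul hm.on fun i j k _ _ x y => ?_)
      rw [← y.1]
      exact x
    rw [← Hm.one_mul a.δ, ← e2, Hm.mul_assoc]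
    refine hm'.on.mul k fun i j k _ _ x y => ?_
    rw [← x.1] at y
    simpa using y
  have g := hm.gd (k := 0) (n := (el Λ ρ U n).deg) (m := a.deg) fun i => by rw [hd, zero_add]
  have p := hm.pd (el Λ ρ U n).deg
  obtain ⟨m₁, m₂, rfl⟩ := exists_rows (I := U) (J := U) m
  have g₁ : Gd (-1) n a.deg m₁ := (gd_fromRows.1 g).1.shift fun i j => by ring
  have p₁ : pd n m₁ = 0 := by
    have := (fromRows_ext_iff.1 (((pd_fromRows (n := fun i => n i - 1) (m := n) m₁ m₂).symm.trans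
      p).trans fromRows_zero.symm)).1
    rwa [pd_shift, neg_eq_zero] at this
  have c : Ch (el Λ ρ U n) a (fromRows m₁ (m₁ * a.δ)) := by
    refine ⟨gd_fromRows.2 ⟨(gd_fromRows.1 g).1, g₁.mul' a.gd (neg_add_cancel _)⟩,
      (D0_rows (a := sh (fr Λ ρ U n)) (b := fr Λ ρ U n) (e := a)
        (ch_one (a := fr Λ ρ U n)).co m₁ (m₁ * a.δ)).trans ?_⟩
    have i1 : D0 (sh (fr Λ ρ U n)) a m₁ + (1 : (OA Λ.A ρ).Hom U U) * (m₁ * a.δ) = 0 := by
      rw [D0_sh]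
      change -(pd n m₁ + (0 : (OA Λ.A ρ).Hom U U) * m₁ + m₁ * a.δ) + _ = _
      rw [p₁, Hm.zero_mul, Hm.one_mul]
      abel
    have i2 : D0 (fr Λ ρ U n) a (m₁ * a.δ) = 0 := by
      change pd n (m₁ * a.δ) + (0 : (OA Λ.A ρ).Hom U U) * (m₁ * a.δ) - m₁ * a.δ * a.δ = 0
      rw [pd_mul1 g₁ odd_neg_one', p₁, Tw.pd_eq, Hm.zero_mul, Hm.zero_mul, Hm.mul_neg, Hm.mul_assoc]
      abel
    exact (congrArg₂ fromRows i1 i2).trans fromRows_zero
  have q : fromRows m₁ m₂ * a.δ - fromBlocks (-(0 : (OA Λ.A ρ).Hom U U)) 1 0 0 * fromRows m₁ m₂ =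
      fromRows (m₁ * a.δ - m₂) (m₂ * a.δ) := by
    simp [fromBlocks_mul_fromRows]
  have q' : fromRows m₁ (m₁ * a.δ) - fromRows m₁ m₂ = fromRows 0 (m₁ * a.δ - m₂) := by simp
  have h3 : Lo (I := U + U) (w ∘ e) w (fromRows (m₁ * a.δ - m₂) (m₂ * a.δ)) := q ▸ h2
  refine (si_of_weak hm hd c w hw hδ wa ?_).se
  exact q' ▸ on_fromRows.2 ⟨on_zero, (on_fromRows.1 h3).1.mono fun i j _ x => lt_of_lt_of_eq x (h1 i)⟩

end Pool.Agent.Work.MP_9d1ffa_al.Dg
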