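import Pool.Agent.Work.MP_9d1ffa_al.Dg.DM

/-! The sum of all shifts of an object, moved slowly to points. -/

namespace Pool.Agent.Work.MP_9d1ffa_al.Dg

open MonoidAlgebra

set_option linter.unusedSectionVars false
set_option linter.unusedVariables false

variable {X G V : Type} [Group G] [MulAction G V] {ρ : G →* Equiv.Perm X}

/-- the weight of the original position -/
noncomputable def BSw_w (t n : ℕ) : ℝ := ((t : ℝ) + 1) / ((t : ℝ) + n + 1)

theorem BSw_w0 (t n : ℕ) : 0 ≤ BSw_w t n := by unfold BSw_w; positivity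

theorem BSw_w1 (t n : ℕ) : BSw_w t n ≤ 1 := by
  unfold BSw_w
  rw [div_le_one (by positivity)]
  have : (0 : ℝ) ≤ n := by positivity
  linarith

theorem BSw_wz (t : ℕ) : BSw_w t 0 = 1 := by
  unfold BSw_w
  rw [Nat.cast_zero, add_zero, div_self (by positivity)]

theorem BSw_step (t n : ℕ) : |BSw_w t (n + 1) - BSw_w t n| ≤ 1 / ((t : ℝ) + (n + 1 : ℕ) + 1) := by
  have h := BSw_w1 t n
  have h0 := BSw_w0 t n
  have e : BSw_w t (n + 1) - BSw_w t n = -(BSw_w t n / ((t : ℝ) + (n + 1 : ℕ) + 1)) := by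
    unfold BSw_w
    push_cast
    field_simp
    ring
  rw [e, abs_neg, abs_of_nonneg (by positivity)]
  exact div_le_div_of_nonneg_right h (by positivity)

theorem BSw_diff {t s c : ℕ} (n : ℕ) (h1 : t ≤ s + c) (h2 : s ≤ t + c) :
    |BSw_w t n - BSw_w s n| ≤ c / ((t : ℝ) + n + 1) := by
  have e : BSw_w t n - BSw_w s n =
      ((t : ℝ) - s) / ((t : ℝ) + n + 1) * (n / ((s : ℝ) + n + 1)) := by
    unfold BSw_w
    field_simp
    ring
  have a1 : |(t : ℝ) - s| ≤ c := by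
    have b1 : (t : ℝ) ≤ s + c := by exact_mod_cast h1
    have b2 : (s : ℝ) ≤ t + c := by exact_mod_cast h2
    rw [abs_le]
    constructor <;> linarith
  have a2 : (n : ℝ) / ((s : ℝ) + n + 1) ≤ 1 := by
    rw [div_le_one (by positivity)]
    have : (0 : ℝ) ≤ s := by positivity
    linarith
  rw [e, abs_mul, abs_div, abs_of_nonneg (a := (n : ℝ) / _) (by positivity),
    abs_of_nonneg (a := (t : ℝ) + n + 1) (by positivity)]
  calc _ ≤ |(t : ℝ) - s| / ((t : ℝ) + n + 1) * 1 := by gcongr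
    _ ≤ _ := by rw [mul_one]; gcongr

theorem BSw_small (C : ℝ) {δ : ℝ} (hδ : 0 < δ) :
    ∃ N : ℕ, ∀ t n : ℕ, N ≤ t + n → C / ((t : ℝ) + n + 1) ≤ δ := by
  obtain ⟨N, hN⟩ := exists_nat_ge (C / δ)
  refine ⟨N, fun t n h => ?_⟩
  have : (N : ℝ) ≤ t + n := by exact_mod_cast h
  rw [div_le_iff₀ (by positivity)]
  rw [div_le_iff₀ hδ] at hN
  nlinarith

/-- the shift -/
def swE {I : Type} : I × ℕ → I ⊕ I × ℕ
  | (i, 0) => Sum.inl i
  | (i, n + 1) => Sum.inr (i, n)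

theorem swE_bij {I : Type} : Function.Bijective (swE : I × ℕ → I ⊕ I × ℕ) := by
  constructor
  · rintro ⟨i, _ | n⟩ ⟨j, _ | m⟩ h <;> simp_all [swE]
  · rintro (i | ⟨i, n⟩)
    exacts [⟨(i, 0), rfl⟩, ⟨(i, n + 1), rfl⟩]

theorem RS_pos (z y : X) : 0 ≤ Finsupp.single z (1 : ℝ) y := by
  classical
  rw [Finsupp.single_apply]
  split_ifs
  exacts [zero_le_one, le_rfl]

theorem RS_two {μ : X →₀ ℝ} (h : l1 μ = 1) (z : X) : l1 (μ - Finsupp.single z 1) ≤ 2 := by
  rw [sub_eq_add_neg]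
  refine (l1_add_le _ _).trans ?_
  rw [l1_neg, h, l1_single]
  norm_num

theorem RS_two' {μ ν : X →₀ ℝ} (h : l1 μ = 1) (h' : l1 ν = 1) : l1 (μ - ν) ≤ 2 := by
  rw [sub_eq_add_neg]
  refine (l1_add_le _ _).trans ?_
  rw [l1_neg, h, h']
  norm_num

/-- the sum of all shifts of an object, moved slowly to the points `φ i` -/
noncomputable def swP (a : Ob X) (φ : a.I → X) (h : (Set.range φ).Finite) : Ob X where
  I := a.I × ℕ
  t p := a.t p.1 + p.2
  x p := BSw_w (a.t p.1) p.2 • a.x p.1 + (1 - BSw_w (a.t p.1) p.2) • Finsupp.single (φ p.1) 1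
  fin n := ((a.fin n).prod (Set.finite_Iic n)).subset fun p (hp : a.t p.1 + p.2 ≤ n) =>
    ⟨show a.t p.1 ≤ n by omega, show p.2 ≤ n by omega⟩
  pos p y := add_nonneg (mul_nonneg (BSw_w0 _ _) (a.pos _ y))
    (mul_nonneg (sub_nonneg.2 (BSw_w1 _ _)) (RS_pos _ y))
  tot p := by
    rw [l1_add_pos (fun y => mul_nonneg (BSw_w0 _ _) (a.pos _ y))
      fun y => mul_nonneg (sub_nonneg.2 (BSw_w1 _ _)) (RS_pos _ y), l1_smul,
      l1_smul, l1_single, a.tot, abs_of_nonneg (BSw_w0 _ _),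
      abs_of_nonneg (sub_nonneg.2 (BSw_w1 _ _)), abs_one]
    ring
  cpt := by
    classical
    obtain ⟨F, hF⟩ := a.cpt
    refine ⟨F ∪ h.toFinset, fun p y hy => Finset.mem_union.2 ?_⟩
    rcases Finset.mem_union.1 (Finsupp.support_add hy) with k | k
    · exact Or.inl (hF _ y (Finsupp.support_smul k))
    · have := Finset.mem_singleton.1 (Finsupp.support_single_subset (Finsupp.support_smul k))
      exact Or.inr (h.mem_toFinset.2 ⟨p.1, this.symm⟩)

theorem cts_swE (ρ : G →* Equiv.Perm X) (a : Ob X) (φ : a.I → X) (h : (Set.range φ).Finite) :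
    CtS ρ (swP a φ h) (a + swP a φ h) fun i j g => swE i = j ∧ 1 = g := by
  refine ⟨⟨{1}, fun _ _ _ e => Finset.mem_singleton.2 e.2.symm⟩, ⟨1, ?_⟩, fun δ hδ => ?_⟩
  · rintro ⟨i, _ | n⟩ _ _ ⟨rfl, rfl⟩
    · exact ⟨show a.t i + 0 ≤ a.t i + 1 by omega, show a.t i ≤ a.t i + 0 + 1 by omega⟩
    · exact ⟨show a.t i + (n + 1) ≤ a.t i + n + 1 by omega,
        show a.t i + n ≤ a.t i + (n + 1) + 1 by omega⟩
  · obtain ⟨N, hN⟩ := BSw_small 2 hδ
    refine ⟨N, ?_⟩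
    rintro ⟨i, _ | n⟩ _ _ hi ⟨rfl, rfl⟩ <;> rw [mapDomain_rho_one]
    · have : (swP a φ h).x (i, 0) = a.x i := by simp [swP, BSw_wz]
      rw [this]
      change l1 (a.x i - a.x i) ≤ δ
      rw [sub_self, l1_zero]
      exact hδ.le
    · have e : (swP a φ h).x (i, n + 1) - (swP a φ h).x (i, n) =
          (BSw_w (a.t i) (n + 1) - BSw_w (a.t i) n) • (a.x i - Finsupp.single (φ i) 1) := by
        simp only [swP]
        module
      change l1 ((swP a φ h).x (i, n + 1) - (swP a φ h).x (i, n)) ≤ δ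
      rw [e, l1_smul]
      refine le_trans ?_ (hN (a.t i) (n + 1) hi)
      exact (mul_le_mul (BSw_step _ _) (RS_two (a.tot i) _) (l1_nonneg _)
        (by positivity)).trans_eq (by ring)

theorem cts_swN {a b : Ob X} {φ : a.I → X} {φ' : b.I → X} (h : (Set.range φ).Finite)
    (h' : (Set.range φ').Finite) {A : a.I → b.I → G → Prop} (hA : CtS ρ a b A)
    (e : ∀ i j g, A i j g → φ i = ρ g (φ' j)) :
    CtS ρ (swP a φ h) (swP b φ' h') fun p q g => p.2 = q.2 ∧ A p.1 q.1 g := by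
  obtain ⟨⟨S, h1⟩, ⟨c, h2⟩, h3⟩ := hA
  refine ⟨⟨S, fun p q g e => h1 _ _ g e.2⟩, ⟨c, fun p q g e => ?_⟩, fun δ hδ => ?_⟩
  · have := h2 _ _ g e.2
    have := e.1
    simp only [swP]
    omega
  · obtain ⟨n₀, hn⟩ := h3 (δ / 3) (by positivity)
    obtain ⟨N, hN⟩ := BSw_small (2 * n₀ + 2 * c) (δ := δ / 3) (by positivity)
    refine ⟨N, ?_⟩
    rintro ⟨i, n⟩ ⟨j, m⟩ g hi e0
    obtain ⟨rfl, e'⟩ : n = m ∧ A i j g := e0
    have hc := h2 _ _ g e'
    have k1 := hN (a.t i) n hi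
    have k2 := BSw_diff n hc.1 hc.2
    have t1 : l1 ((b.x j).mapDomain (ρ g)) = 1 := (l1_mapDomain_perm _ _).trans (b.tot j)
    have e1 : (swP a φ h).x (i, n) - ((swP b φ' h').x (j, n)).mapDomain (ρ g) =
        BSw_w (a.t i) n • (a.x i - (b.x j).mapDomain (ρ g)) +
          (BSw_w (a.t i) n - BSw_w (b.t j) n) •
            ((b.x j).mapDomain (ρ g) - Finsupp.single (φ i) 1) := by
      simp only [swP, Finsupp.mapDomain_add, Finsupp.mapDomain_smul, Finsupp.mapDomain_single,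
        ← e i j g e']
      module
    have k3 : BSw_w (a.t i) n * l1 (a.x i - (b.x j).mapDomain (ρ g)) ≤
        δ / 3 + 2 * n₀ / ((a.t i : ℝ) + n + 1) := by
      by_cases ht : n₀ ≤ a.t i
      · have k4 := mul_le_mul (BSw_w1 (a.t i) n) (hn i j g ht e') (l1_nonneg _) zero_le_one
        have : (0 : ℝ) ≤ 2 * n₀ / ((a.t i : ℝ) + n + 1) := by positivity
        linarith
      · have k4 : BSw_w (a.t i) n ≤ n₀ / ((a.t i : ℝ) + n + 1) := by
          have : (a.t i : ℝ) + 1 ≤ n₀ := by exact_mod_cast not_le.1 ht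
          unfold BSw_w
          gcongr
        have k5 := mul_le_mul k4 (RS_two' (a.tot i) t1) (l1_nonneg _) (by positivity)
        have : 2 * (n₀ : ℝ) / ((a.t i : ℝ) + n + 1) = n₀ / ((a.t i : ℝ) + n + 1) * 2 := by ring
        linarith
    have k6 := mul_le_mul k2 (RS_two t1 (φ i)) (l1_nonneg _) (by positivity)
    rw [e1]
    refine (l1_add_le _ _).trans ?_
    rw [l1_smul, l1_smul, abs_of_nonneg (BSw_w0 _ _)]
    have : (2 * (n₀ : ℝ) + 2 * c) / ((a.t i : ℝ) + n + 1) =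
      2 * n₀ / ((a.t i : ℝ) + n + 1) + c / ((a.t i : ℝ) + n + 1) * 2 := by ring
    linarith

theorem exists_eqv (h : ∀ y, ∃ v : V, ∀ g, ρ g y = y → g • v = v) :
    ∃ π : X → V, ∀ g y, π (ρ g y) = g • π y := by
  choose v hv using h
  let r : Setoid X := ⟨fun y z => ∃ g, ρ g y = z, fun y => ⟨1, by simp⟩,
    fun ⟨g, e⟩ => ⟨g⁻¹, by simp [← e]⟩, fun ⟨g, e⟩ ⟨g', e'⟩ => ⟨g' * g, by simp [← e', ← e]⟩⟩
  choose γ hγ using fun y => (Quotient.mk_out (s := r) y : ∃ g, ρ g (Quotient.mk r y).out = y)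
  refine ⟨fun y => γ y • v (Quotient.mk r y).out, fun g y => ?_⟩
  have e : Quotient.mk r (ρ g y) = Quotient.mk r y := (Quotient.sound (s := r) ⟨g, rfl⟩).symm
  have e1 := hγ (ρ g y)
  beta_reduce
  rw [e] at e1 ⊢
  have := hv (Quotient.mk r y).out ((γ (ρ g y))⁻¹ * (g * γ y)) (by
    rw [map_mul, map_mul, map_inv, Equiv.Perm.mul_apply, Equiv.Perm.mul_apply, hγ,
      Equiv.Perm.inv_eq_iff_eq, e1])
  rw [mul_smul, inv_smul_eq_iff, mul_smul] at this
  exact this.symm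

end Pool.Agent.Work.MP_9d1ffa_al.Dg
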