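import Pool.Agent.Work.MP_9d1ffa_al.Dg.DM
import Pool.Agent.Work.MP_9d1ffa_al.Basic
import Pool.Agent.Work.MP_9d1ffa_al.Dg.DS
import Pool.Agent.Work.MP_9d1ffa_al.Geo
import Pool.Agent.Work.MP_9d1ffa_al.Dg.DW0
import Pool.Agent.Work.MP_9d1ffa_al.Walls

-- merged part: Pool.Agent.Work.MP_9d1ffa_al.Dg.DL
section
/-! Complexes whose basis elements carry labels, and supports of homotopy classes. -/

namespace Pool.Agent.Work.MP_9d1ffa_al.Dg

open MonoidAlgebra

set_option linter.unusedSectionVars false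
set_option linter.unusedVariables false
set_option linter.unusedSimpArgs false

variable {X K P Q S : Type} [Group K] [MulAction K P] [MulAction K Q] [MulAction K S] {Λ : DG}
  {ρ : K →* Equiv.Perm X} {a a' b b' c : Tw Λ ρ}

theorem inv_compl {R : P → Q → Prop} (h : Inv K R) : Inv K fun x y => ¬ R x y :=
  fun g x y k e => k ((h.iff g x y).1 e)

theorem inv_and {R R' : P → Q → Prop} (h : Inv K R) (h' : Inv K R') :
    Inv K fun x y => R x y ∧ R' x y := fun g x y k => ⟨h g x y k.1, h' g x y k.2⟩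

/-- a relation between labels, read as a relation between basis elements -/
abbrev rel {ι κ : Type} (p : ι → P) (q : κ → Q) (R : P → Q → Prop) : ι → κ → K → Prop :=
  fun i j g => R (p i) (g • q j)

theorem On.rmul {A : Type} [Ring A] {I J L : Ob X} {p : I.I → P} {q : J.I → Q} {r : L.I → S}
    {R : P → Q → Prop} {T : Q → S → Prop} {U : P → S → Prop} {f : (OA A ρ).Hom I J}
    {g : (OA A ρ).Hom J L} (h : On (rel p q R) f) (h' : On (rel q r T) g) (hT : Inv K T)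
    (k : ∀ x y z, R x y → T y z → U x z) : On (rel p r U) (f * g) :=
  h.mul h' fun i j l g g' e e' => k _ _ _ e (by
    have := hT g _ _ e'
    rwa [smul_smul] at this)

/-- finitely many labels occur and the differential preserves them -/
structure Lc (a : Tw Λ ρ) (p : a.ob.I → P) : Prop where
  fin : (Set.range p).Finite
  loc : On (rel p p Eq) a.δ

theorem fin_elim {A B : Type} {p : A → P} {q : B → P} (hp : (Set.range p).Finite)
    (hq : (Set.range q).Finite) : (Set.range (Sum.elim p q)).Finite :=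
  (hp.union hq).subset (Set.Sum.elim_range p q).subset

theorem fin_comp {A : Type} {p : A → P} (hp : (Set.range p).Finite) (f : P → Q) :
    (Set.range fun i => f (p i)).Finite :=
  (hp.image f).subset (by
    rintro _ ⟨i, rfl⟩
    exact ⟨_, ⟨i, rfl⟩, rfl⟩)

theorem Lc.tsum {p : a.ob.I → P} {q : b.ob.I → P} (ha : Lc a p) (hb : Lc b q) {e : Mor a b}
    (h : Co a b e) (he : On (rel p q Eq) e) : Lc (tsum a b e h) (Sum.elim p q) :=
  ⟨fin_elim ha.fin hb.fin, on_fromBlocks.2 ⟨ha.loc, he, on_zero, hb.loc⟩⟩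

theorem Lc.sum {p : a.ob.I → P} {q : b.ob.I → P} (ha : Lc a p) (hb : Lc b q) :
    Lc (a + b) (Sum.elim p q) := ha.tsum hb co_zero on_zero

theorem Lc.sh {p : a.ob.I → P} (ha : Lc a p) : Lc (sh a) p := ⟨ha.fin, ha.loc.neg⟩

theorem Lc.map {p : a.ob.I → P} (ha : Lc a p) (φ : P → Q)
    (hφ : ∀ (g : K) x, φ (g • x) = g • φ x) : Lc a fun i => φ (p i) :=
  ⟨fin_comp ha.fin φ, ha.loc.mono fun i j g e => (congrArg φ e).trans (hφ g _)⟩

variable {p : a.ob.I → P} {q : b.ob.I → Q} {r : c.ob.I → S} {R R' R₁ R₂ : P → Q → Prop}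
  {x y : Hom a b} {f : Mor a b}

theorem D0_fl (ha : Lc a p) (hb : Lc b q) (hR : Inv K R) (f : Mor a b) :
    D0 a b (fl (rel p q R) f) = fl (rel p q R) (D0 a b f) := by
  rw [D0, D0, fl_sub, fl_add, pd_fl,
    fl_mul_left (T := rel p q R) ha.loc f fun i j l g g' e => by
      rw [rel, rel, show p i = g • p j from e, mul_smul, hR.iff],
    fl_mul_right (S := rel p q R) f hb.loc fun i j l g g' e => by
      rw [rel, rel, show q j = g' • q l from e, mul_smul]]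

theorem D1_fl (ha : Lc a p) (hb : Lc b q) (hR : Inv K R) (f : Mor a b) :
    D1 a b (fl (rel p q R) f) = fl (rel p q R) (D1 a b f) := by
  rw [D1, D1, fl_add, fl_add, pd_fl,
    fl_mul_left (T := rel p q R) ha.loc f fun i j l g g' e => by
      rw [rel, rel, show p i = g • p j from e, mul_smul, hR.iff],
    fl_mul_right (S := rel p q R) f hb.loc fun i j l g g' e => by
      rw [rel, rel, show q j = g' • q l from e, mul_smul]]

theorem fl_zero {A : Type} [Ring A] {I J : Ob X} (T : I.I → J.I → K → Prop) :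
    fl T (0 : (OA A ρ).Hom I J) = 0 := on_zero.fl_eq

theorem Ch.fl (h : Ch a b f) (ha : Lc a p) (hb : Lc b q) (hR : Inv K R) :
    Ch a b (fl (rel p q R) f) := ⟨h.gd.fl _, by rw [D0_fl ha hb hR, h.d, fl_zero]⟩

theorem Nh.fl (h : Nh a b f) (ha : Lc a p) (hb : Lc b q) (hR : Inv K R) :
    Nh a b (fl (rel p q R) f) :=
  let ⟨k, h1, h2⟩ := h
  ⟨_, h1.fl (rel p q R), by rw [D1_fl ha hb hR, h2]⟩

/-- the class has a representative that moves labels along `R` -/
def HOn (p : a.ob.I → P) (q : b.ob.I → Q) (R : P → Q → Prop) (x : Hom a b) : Prop :=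
  ∃ f, Rp x f ∧ On (rel p q R) f

theorem HOn.mono' (h : HOn p q R x) (k : ∀ i j (g : K), R (p i) (g • q j) → R' (p i) (g • q j)) :
    HOn p q R' x :=
  let ⟨f, h1, h2⟩ := h
  ⟨f, h1, h2.mono k⟩

theorem HOn.mono (h : HOn p q R x) (k : ∀ s t, R s t → R' s t) : HOn p q R' x :=
  h.mono' fun _ _ _ => k _ _

/-- relabelling along equivariant maps -/
theorem HOn.map {P' Q' : Type} [MulAction K P'] [MulAction K Q'] {T : P' → Q' → Prop}
    (h : HOn p q R x) (φ : P → P') (ψ : Q → Q') (hψ : ∀ (g : K) t, ψ (g • t) = g • ψ t)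
    (k : ∀ s t, R s t → T (φ s) (ψ t)) : HOn (fun i => φ (p i)) (fun j => ψ (q j)) T x :=
  let ⟨f, h1, h2⟩ := h
  ⟨f, h1, h2.mono fun i j g e => by
    have := k _ _ e
    rwa [hψ] at this⟩

theorem hOn_true (p : a.ob.I → P) (q : b.ob.I → Q) (x : Hom a b) : HOn p q (fun _ _ => True) x :=
  let ⟨f, h⟩ := exists_rp x
  ⟨f, h, on_true f⟩

theorem hOn_zero : HOn p q R (0 : Hom a b) := ⟨0, rp_zero, on_zero⟩

theorem hOn_one : HOn p p Eq (1 : Hom a a) := ⟨1, rp_one, on_one fun i => (one_smul K _).symm⟩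

theorem HOn.add (h : HOn p q R x) (h' : HOn p q R y) : HOn p q R (x + y) :=
  let ⟨_, h1, h2⟩ := h
  let ⟨_, k1, k2⟩ := h'
  ⟨_, h1.add k1, h2.add k2⟩

theorem HOn.neg (h : HOn p q R x) : HOn p q R (-x) :=
  let ⟨_, h1, h2⟩ := h
  ⟨_, h1.neg, h2.neg⟩

theorem HOn.sub (h : HOn p q R x) (h' : HOn p q R y) : HOn p q R (x - y) := by
  rw [sub_eq_add_neg]
  exact h.add h'.neg

theorem HOn.mul {T : Q → S → Prop} {U : P → S → Prop} {z : Hom b c} (h : HOn p q R x)
    (h' : HOn q r T z) (hT : Inv K T) (k : ∀ s t u, R s t → T t u → U s u) : HOn p r U (x * z) :=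
  let ⟨_, h1, h2⟩ := h
  let ⟨_, k1, k2⟩ := h'
  ⟨_, h1.mul k1, h2.rmul k2 hT k⟩

theorem HOn.eq_zero (h : HOn p q R x) (k : ∀ s t, ¬ R s t) : x = 0 := by
  obtain ⟨f, h1, h2⟩ := h
  exact h1.uniq (rp_zero.congr (h2.eq_zero fun _ _ _ => k _ _).symm)

theorem HOn.fromRows {p' : a'.ob.I → P} {y : Hom a' b} (h : HOn p q R x) (h' : HOn p' q R y) :
    HOn (a := a + a') (Sum.elim p p') q R (fromRows x y) :=
  let ⟨_, h1, h2⟩ := h
  let ⟨_, k1, k2⟩ := h'
  ⟨_, h1.fromRows k1, on_fromRows.2 ⟨h2, k2⟩⟩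

theorem HOn.fromCols {q' : b'.ob.I → Q} {y : Hom a b'} (h : HOn p q R x) (h' : HOn p q' R y) :
    HOn (b := b + b') p (Sum.elim q q') R (fromCols x y) :=
  let ⟨_, h1, h2⟩ := h
  let ⟨_, k1, k2⟩ := h'
  ⟨_, h1.fromCols k1, on_fromCols.2 ⟨h2, k2⟩⟩

theorem HOn.fromBlocks {p' : a'.ob.I → P} {q' : b'.ob.I → Q} {y : Hom a b'} {z : Hom a' b}
    {w : Hom a' b'} (h1 : HOn p q R x) (h2 : HOn p q' R y) (h3 : HOn p' q R z)
    (h4 : HOn p' q' R w) :
    HOn (a := a + a') (b := b + b') (Sum.elim p p') (Sum.elim q q') R (fromBlocks x y z w) :=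
  (h1.fromCols h2).fromRows (h3.fromCols h4)

/-- only finitely many pairs of labels occur -/
theorem exists_fin (hp : (Set.range p).Finite) (hq : (Set.range q).Finite) (x : Hom a b) :
    ∃ s : Finset (P × Q), HOn p q (fun u v => (u, v) ∈ s) x := by
  obtain ⟨f, h⟩ := exists_rp x
  obtain ⟨T, hT⟩ := (cts f).1
  have k := hp.prod (T.finite_toSet.image2 (fun (g : K) (v : Q) => g • v) hq)
  exact ⟨k.toFinset, f, h, fun i j g e => k.mem_toFinset.2
    ⟨⟨i, rfl⟩, Set.mem_image2_of_mem (hT i j g e) ⟨j, rfl⟩⟩⟩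

theorem exists_bound (hp : (Set.range p).Finite) (hq : (Set.range q).Finite) (ω : P → Q → ℕ)
    (x : Hom a b) : ∃ N, HOn p q (fun u v => ω u v < N) x := by
  obtain ⟨s, h⟩ := exists_fin hp hq x
  exact ⟨s.sup (fun θ => ω θ.1 θ.2) + 1, h.mono fun u v e =>
    Nat.lt_succ_of_le (Finset.le_sup (f := fun θ : P × Q => ω θ.1 θ.2) e)⟩

open Classical in
/-- the part of a class that moves labels along `R` -/
noncomputable def hfil (p : a.ob.I → P) (q : b.ob.I → Q) (R : P → Q → Prop) (x : Hom a b) :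
    Hom a b :=
  if h : ∃ y : Hom a b, ∀ f, Rp x f → Rp y (fl (rel p q R) f) then h.choose else 0

section

variable (ha : Lc a p) (hb : Lc b q)
include ha hb

theorem Rp.hfil (h : Rp x f) (hR : Inv K R) : Rp (hfil p q R x) (fl (rel p q R) f) := by
  have k : ∃ y : Hom a b, ∀ f, Rp x f → Rp y (fl (rel p q R) f) := by
    obtain ⟨y, hy⟩ := (h.ch.fl ha hb hR).exists_rp
    refine ⟨y, fun g hg => hy.of_nh (hg.ch.fl ha hb hR) ?_⟩
    rw [← fl_sub]
    exact ((h.eq_iff hg).1 rfl).fl ha hb hR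
  rw [Dg.hfil, dif_pos k]
  exact k.choose_spec f h

theorem HOn.hfil (h : HOn p q R' x) (hR : Inv K R) :
    HOn p q (fun s t => R' s t ∧ R s t) (hfil p q R x) :=
  let ⟨f, h1, h2⟩ := h
  ⟨_, h1.hfil ha hb hR, (h2.fl _).and (on_fl _ f)⟩

theorem hOn_hfil (hR : Inv K R) (x : Hom a b) : HOn p q R (hfil p q R x) :=
  ((hOn_true p q x).hfil ha hb hR).mono fun _ _ e => e.2

theorem HOn.hfil_eq (h : HOn p q R x) (hR : Inv K R) : Dg.hfil p q R x = x :=
  let ⟨f, h1, h2⟩ := h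
  (h1.hfil ha hb hR).uniq (h1.congr h2.fl_eq.symm)

theorem HOn.hfil_zero (h : HOn p q R' x) (hR : Inv K R) (k : ∀ s t, R' s t → ¬ R s t) :
    Dg.hfil p q R x = 0 := (h.hfil ha hb hR).eq_zero fun s t e => k s t e.1 e.2

theorem HOn.and (h : HOn p q R' x) (h' : HOn p q R x) (hR : Inv K R) :
    HOn p q (fun s t => R' s t ∧ R s t) x := by
  have := h.hfil ha hb hR
  rwa [h'.hfil_eq ha hb hR] at this

theorem hfil_add (hR : Inv K R) (x y : Hom a b) :
    hfil p q R (x + y) = hfil p q R x + hfil p q R y := by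
  obtain ⟨f, h⟩ := exists_rp x
  obtain ⟨g, h'⟩ := exists_rp y
  exact ((h.add h').hfil ha hb hR).uniq
    (((h.hfil ha hb hR).add (h'.hfil ha hb hR)).congr (fl_add _ _ _).symm)

theorem hfil_neg (hR : Inv K R) (x : Hom a b) : hfil p q R (-x) = -hfil p q R x := by
  obtain ⟨f, h⟩ := exists_rp x
  exact (h.neg.hfil ha hb hR).uniq ((h.hfil ha hb hR).neg.congr (fl_neg _ _).symm)

theorem hfil_sub (hR : Inv K R) (x y : Hom a b) :
    hfil p q R (x - y) = hfil p q R x - hfil p q R y := by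
  rw [sub_eq_add_neg, hfil_add ha hb hR, hfil_neg ha hb hR, sub_eq_add_neg]

theorem hfil_zero (hR : Inv K R) : hfil p q R (0 : Hom a b) = 0 := hOn_zero.hfil_eq ha hb hR

theorem hfil_add_not (hR : Inv K R) (x : Hom a b) :
    hfil p q R x + hfil p q (fun s t => ¬ R s t) x = x := by
  obtain ⟨f, h⟩ := exists_rp x
  exact ((h.hfil ha hb hR).add (h.hfil ha hb (inv_compl hR))).uniq
    (h.congr (fl_add_not _ f).symm)

theorem HOn.hfil_congr (h : HOn p q R x) (h1 : Inv K R₁) (h2 : Inv K R₂)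
    (k : ∀ s t, R s t → (R₁ s t ↔ R₂ s t)) : Dg.hfil p q R₁ x = Dg.hfil p q R₂ x := by
  classical
  obtain ⟨f, e, h⟩ := h
  refine (e.hfil ha hb h1).uniq ((e.hfil ha hb h2).congr (hom_ext fun i j g => ?_))
  rw [cf_fl, cf_fl]
  by_cases z : cf f i j g = 0
  · rw [z, ite_self, ite_self]
  · exact if_congr (k _ _ (h i j g z)).symm rfl rfl

end

theorem hfil_mul_left (ha : Lc a p) (hb : Lc b q) (hc : Lc c r) {T : Q → S → Prop}
    {U : P → S → Prop} (h : HOn p q R x) (z : Hom b c) (hT : Inv K T) (hU : Inv K U)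
    (k : ∀ s t u, R s t → (U s u ↔ T t u)) : hfil p r U (x * z) = x * hfil q r T z := by
  obtain ⟨f, h1, h2⟩ := h
  obtain ⟨g, h'⟩ := exists_rp z
  refine ((h1.mul h').hfil ha hc hU).uniq ((h1.mul (h'.hfil hb hc hT)).congr
    (fl_mul_left h2 g fun i j l g g' e => ?_).symm)
  rw [rel, rel, k _ _ _ e, mul_smul, hT.iff]

theorem hfil_mul_right (ha : Lc a p) (hb : Lc b q) (hc : Lc c r) {T : Q → S → Prop}
    {U : P → S → Prop} (x : Hom a b) {z : Hom b c} (h : HOn q r T z) (hT : Inv K T) (hR : Inv K R)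
    (hU : Inv K U) (k : ∀ s t u, T t u → (U s u ↔ R s t)) :
    hfil p r U (x * z) = hfil p q R x * z := by
  obtain ⟨f, h'⟩ := exists_rp x
  obtain ⟨g, h1, h2⟩ := h
  refine ((h'.mul h1).hfil ha hc hU).uniq (((h'.hfil ha hb hR).mul h1).congr
    (fl_mul_right f h2 fun i j l g g' e => ?_).symm)
  rw [rel, rel, mul_smul]
  exact k _ _ _ (hT g _ _ e)

end Pool.Agent.Work.MP_9d1ffa_al.Dg
end

-- merged part: Pool.Agent.Work.MP_9d1ffa_al.Dg.DI
section
/-! Complexes with trivial torsion. -/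

namespace Pool.Agent.Work.MP_9d1ffa_al.Dg

open MonoidAlgebra

set_option linter.unusedSectionVars false
set_option linter.unusedVariables false
set_option linter.unusedSimpArgs false

variable {X K : Type} [Group K] {Λ : DG} {ρ : K →* Equiv.Perm X} {a a' b b' c : Tw Λ ρ}

/-- simply equivalent to an elementary complex -/
def IsEl (c : Tw Λ ρ) : Prop := ∃ (b : Ob X) (n : b.I → ℤ), SE c (el Λ ρ b n)

/-- stably simply equivalent to an elementary complex -/
def Sim (a : Tw Λ ρ) : Prop := ∃ c, IsEl c ∧ IsEl (a + c)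

theorem DI_add_left (h : SE a a') (b : Tw Λ ρ) : SE (a + b) (a' + b) := by
  have k : Relation.EqvGen (fun a b => ∃ u, SI a b u) a a' := h
  clear h
  induction k with
  | rel x y h =>
    obtain ⟨u, hu⟩ := h
    exact (SI.tsum co_zero co_zero hu (si_one b) (by rw [Hm.mul_zero, Hm.zero_mul])).se
  | refl x => exact SE.refl _
  | symm x y _ ih => exact ih.symm
  | trans x y z _ _ ih ih' => exact ih.trans ih'

theorem DI_add_right (a : Tw Λ ρ) (h : SE b b') : SE (a + b) (a + b') := by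
  have k : Relation.EqvGen (fun a b => ∃ u, SI a b u) b b' := h
  clear h
  induction k with
  | rel x y h =>
    obtain ⟨u, hu⟩ := h
    exact (SI.tsum co_zero co_zero (si_one a) hu (by rw [Hm.mul_zero, Hm.zero_mul])).se
  | refl x => exact SE.refl _
  | symm x y _ ih => exact ih.symm
  | trans x y z _ _ ih ih' => exact ih.trans ih'

theorem DI_cf11 (a b : Tw Λ ρ) (i j : a.ob.I) (g : K) :
    cf (a + b).δ (Sum.inl i) (Sum.inl j) g = cf a.δ i j g := cf_blocks₁₁ g a.δ 0 0 b.δ i j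

theorem DI_cf12 (a b : Tw Λ ρ) (i : a.ob.I) (j : b.ob.I) (g : K) :
    cf (a + b).δ (Sum.inl i) (Sum.inr j) g = 0 := cf_blocks₁₂ g a.δ 0 0 b.δ i j

theorem DI_cf21 (a b : Tw Λ ρ) (i : b.ob.I) (j : a.ob.I) (g : K) :
    cf (a + b).δ (Sum.inr i) (Sum.inl j) g = 0 := cf_blocks₂₁ g a.δ 0 0 b.δ i j

theorem DI_cf22 (a b : Tw Λ ρ) (i j : b.ob.I) (g : K) :
    cf (a + b).δ (Sum.inr i) (Sum.inr j) g = cf b.δ i j g := cf_blocks₂₂ g a.δ 0 0 b.δ i j

theorem DI_el11 (U : Ob X) (n : U.I → ℤ) (i j : U.I) (g : K) :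
    cf (el Λ ρ U n).δ (Sum.inl i) (Sum.inl j) g = 0 :=
  (cf_blocks₁₁ g (-0 : (OA Λ.A ρ).Hom U U) 1 0 0 i j).trans (by rw [neg_zero]; rfl)

theorem DI_el12 (U : Ob X) (n : U.I → ℤ) (i j : U.I) (g : K) :
    cf (el Λ ρ U n).δ (Sum.inl i) (Sum.inr j) g = cf (1 : (OA Λ.A ρ).Hom U U) i j g :=
  cf_blocks₁₂ g (-0 : (OA Λ.A ρ).Hom U U) 1 0 0 i j

theorem DI_el21 (U : Ob X) (n : U.I → ℤ) (i j : U.I) (g : K) :
    cf (el Λ ρ U n).δ (Sum.inr i) (Sum.inl j) g = 0 :=
  cf_blocks₂₁ g (-0 : (OA Λ.A ρ).Hom U U) 1 0 0 i j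

theorem DI_el22 (U : Ob X) (n : U.I → ℤ) (i j : U.I) (g : K) :
    cf (el Λ ρ U n).δ (Sum.inr i) (Sum.inr j) g = 0 :=
  cf_blocks₂₂ g (-0 : (OA Λ.A ρ).Hom U U) 1 0 0 i j

theorem DI_one11 (U V : Ob X) (i j : U.I) (g : K) :
    cf (1 : (OA Λ.A ρ).Hom (U + V) (U + V)) (Sum.inl i) (Sum.inl j) g =
      cf (1 : (OA Λ.A ρ).Hom U U) i j g := by
  rw [← fromBlocks_one]; exact cf_blocks₁₁ g _ _ _ _ i j

theorem DI_one12 (U V : Ob X) (i : U.I) (j : V.I) (g : K) :
    cf (1 : (OA Λ.A ρ).Hom (U + V) (U + V)) (Sum.inl i) (Sum.inr j) g = 0 := by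
  rw [← fromBlocks_one]; exact cf_blocks₁₂ g _ _ _ _ i j

theorem DI_one21 (U V : Ob X) (i : V.I) (j : U.I) (g : K) :
    cf (1 : (OA Λ.A ρ).Hom (U + V) (U + V)) (Sum.inr i) (Sum.inl j) g = 0 := by
  rw [← fromBlocks_one]; exact cf_blocks₂₁ g _ _ _ _ i j

theorem DI_one22 (U V : Ob X) (i j : V.I) (g : K) :
    cf (1 : (OA Λ.A ρ).Hom (U + V) (U + V)) (Sum.inr i) (Sum.inr j) g =
      cf (1 : (OA Λ.A ρ).Hom V V) i j g := by
  rw [← fromBlocks_one]; exact cf_blocks₂₂ g _ _ _ _ i j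

/-- Hint: induction on `EqvGen`, `SI.tsum` with `si_one`. -/
theorem SE.add (h : SE a a') (h' : SE b b') : SE (a + b) (a' + b') := by
  exact (DI_add_left h b).trans (DI_add_right a' h')

/-- Hint: `se_perm (Equiv.sumComm _ _)`; `rintro (i | i) (j | j) g`, `cf_blocks` lemmas. -/
theorem se_comm (a b : Tw Λ ρ) : SE (a + b) (b + a) := by
  refine se_perm (a := a + b) (b := b + a) (Equiv.sumComm a.ob.I b.ob.I) ?_ ?_ ?_ ?_
  · rintro (i | i) <;> rfl
  · rintro (i | i) <;> rfl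
  · rintro (i | i) <;> rfl
  · rintro (i | i) (j | j) g
    · exact (DI_cf11 a b i j g).trans (DI_cf22 b a i j g).symm
    · exact (DI_cf12 a b i j g).trans (DI_cf21 b a i j g).symm
    · exact (DI_cf21 a b i j g).trans (DI_cf12 b a i j g).symm
    · exact (DI_cf22 a b i j g).trans (DI_cf11 b a i j g).symm

theorem se_assoc (a b c : Tw Λ ρ) : SE (a + b + c) (a + (b + c)) := by
  refine se_perm (a := a + b + c) (b := a + (b + c)) (Equiv.sumAssoc a.ob.I b.ob.I c.ob.I)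
    ?_ ?_ ?_ ?_
  · rintro ((i | i) | i) <;> rfl
  · rintro ((i | i) | i) <;> rfl
  · rintro ((i | i) | i) <;> rfl
  · rintro ((i | i) | i) ((j | j) | j) g
    · exact ((DI_cf11 (a + b) c _ _ g).trans (DI_cf11 a b i j g)).trans
        (DI_cf11 a (b + c) i j g).symm
    · exact ((DI_cf11 (a + b) c _ _ g).trans (DI_cf12 a b i j g)).trans
        (DI_cf12 a (b + c) i (Sum.inl j) g).symm
    · exact (DI_cf12 (a + b) c (Sum.inl i) j g).trans (DI_cf12 a (b + c) i (Sum.inr j) g).symm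
    · exact ((DI_cf11 (a + b) c _ _ g).trans (DI_cf21 a b i j g)).trans
        (DI_cf21 a (b + c) (Sum.inl i) j g).symm
    · exact ((DI_cf11 (a + b) c _ _ g).trans (DI_cf22 a b i j g)).trans
        ((DI_cf22 a (b + c) _ _ g).trans (DI_cf11 b c i j g)).symm
    · exact (DI_cf12 (a + b) c (Sum.inr i) j g).trans
        ((DI_cf22 a (b + c) _ _ g).trans (DI_cf12 b c i j g)).symm
    · exact (DI_cf21 (a + b) c i (Sum.inl j) g).trans (DI_cf21 a (b + c) (Sum.inr i) j g).symm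
    · exact (DI_cf21 (a + b) c i (Sum.inr j) g).trans
        ((DI_cf22 a (b + c) _ _ g).trans (DI_cf21 b c i j g)).symm
    · exact (DI_cf22 (a + b) c i j g).trans
        ((DI_cf22 a (b + c) _ _ g).trans (DI_cf22 b c i j g)).symm

theorem DI_four (a b c d : Tw Λ ρ) : SE (a + b + (c + d)) (a + c + (b + d)) :=
  (se_assoc a b (c + d)).trans (((SE.refl a).add ((se_assoc b c d).symm.trans
    (((se_comm b c).add (SE.refl d)).trans (se_assoc c b d)))).trans (se_assoc a c (b + d)).symm)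

theorem DI_el_add (U V : Ob X) (m : U.I → ℤ) (n : V.I → ℤ) :
    SE (el Λ ρ U m + el Λ ρ V n) (el Λ ρ (U + V) (Sum.elim m n)) := by
  refine se_perm (a := el Λ ρ U m + el Λ ρ V n) (b := el Λ ρ (U + V) (Sum.elim m n))
    (Equiv.sumSumSumComm U.I U.I V.I V.I) ?_ ?_ ?_ ?_
  · rintro ((i | i) | (i | i)) <;> rfl
  · rintro ((i | i) | (i | i)) <;> rfl
  · rintro ((i | i) | (i | i)) <;> rfl
  · have e11 := DI_el11 (Λ := Λ) (ρ := ρ) (U + V) (Sum.elim m n)
    have e12 := DI_el12 (Λ := Λ) (ρ := ρ) (U + V) (Sum.elim m n)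
    have e21 := DI_el21 (Λ := Λ) (ρ := ρ) (U + V) (Sum.elim m n)
    have e22 := DI_el22 (Λ := Λ) (ρ := ρ) (U + V) (Sum.elim m n)
    have c11 := DI_cf11 (el Λ ρ U m) (el Λ ρ V n)
    have c12 := DI_cf12 (el Λ ρ U m) (el Λ ρ V n)
    have c21 := DI_cf21 (el Λ ρ U m) (el Λ ρ V n)
    have c22 := DI_cf22 (el Λ ρ U m) (el Λ ρ V n)
    rintro ((i | i) | (i | i)) ((j | j) | (j | j)) g
    · exact ((c11 _ _ g).trans (DI_el11 U m i j g)).trans (e11 (Sum.inl i) (Sum.inl j) g).symm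
    · exact ((c11 _ _ g).trans (DI_el12 U m i j g)).trans
        ((e12 (Sum.inl i) (Sum.inl j) g).trans (DI_one11 U V i j g)).symm
    · exact (c12 (Sum.inl i) (Sum.inl j) g).trans (e11 (Sum.inl i) (Sum.inr j) g).symm
    · exact (c12 (Sum.inl i) (Sum.inr j) g).trans
        ((e12 (Sum.inl i) (Sum.inr j) g).trans (DI_one12 U V i j g)).symm
    · exact ((c11 _ _ g).trans (DI_el21 U m i j g)).trans (e21 (Sum.inl i) (Sum.inl j) g).symm
    · exact ((c11 _ _ g).trans (DI_el22 U m i j g)).trans (e22 (Sum.inl i) (Sum.inl j) g).symm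
    · exact (c12 (Sum.inr i) (Sum.inl j) g).trans (e21 (Sum.inl i) (Sum.inr j) g).symm
    · exact (c12 (Sum.inr i) (Sum.inr j) g).trans (e22 (Sum.inl i) (Sum.inr j) g).symm
    · exact (c21 (Sum.inl i) (Sum.inl j) g).trans (e11 (Sum.inr i) (Sum.inl j) g).symm
    · exact (c21 (Sum.inl i) (Sum.inr j) g).trans
        ((e12 (Sum.inr i) (Sum.inl j) g).trans (DI_one21 U V i j g)).symm
    · exact ((c22 _ _ g).trans (DI_el11 V n i j g)).trans (e11 (Sum.inr i) (Sum.inr j) g).symm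
    · exact ((c22 _ _ g).trans (DI_el12 V n i j g)).trans
        ((e12 (Sum.inr i) (Sum.inr j) g).trans (DI_one22 U V i j g)).symm
    · exact (c21 (Sum.inr i) (Sum.inl j) g).trans (e21 (Sum.inr i) (Sum.inl j) g).symm
    · exact (c21 (Sum.inr i) (Sum.inr j) g).trans (e22 (Sum.inr i) (Sum.inl j) g).symm
    · exact ((c22 _ _ g).trans (DI_el21 V n i j g)).trans (e21 (Sum.inr i) (Sum.inr j) g).symm
    · exact ((c22 _ _ g).trans (DI_el22 V n i j g)).trans (e22 (Sum.inr i) (Sum.inr j) g).symm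

/-- Hint: `se_perm (Equiv.sumSumSumComm ..)` with the object `b + c` and `Sum.elim m n`; `cf_one`. -/
theorem IsEl.add (h : IsEl a) (h' : IsEl b) : IsEl (a + b) := by
  obtain ⟨U, m, k⟩ := h
  obtain ⟨V, n, k'⟩ := h'
  exact ⟨U + V, Sum.elim m n, (k.add k').trans (DI_el_add U V m n)⟩

theorem IsEl.of_se (h : IsEl b) (e : SE a b) : IsEl a :=
  let ⟨c, n, k⟩ := h
  ⟨c, n, e.trans k⟩

theorem IsEl.sim (h : IsEl a) : Sim a := ⟨a, h, h.add h⟩

theorem Sim.of_se (h : Sim b) (e : SE a b) : Sim a :=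
  let ⟨c, h1, h2⟩ := h
  ⟨c, h1, h2.of_se (e.add (SE.refl c))⟩

theorem SE.sim_iff (e : SE a b) : Sim a ↔ Sim b := ⟨fun h => h.of_se e.symm, fun h => h.of_se e⟩

theorem Sim.add (h : Sim a) (h' : Sim b) : Sim (a + b) := by
  obtain ⟨c, h1, h2⟩ := h
  obtain ⟨d, k1, k2⟩ := h'
  exact ⟨c + d, h1.add k1, (h2.add k2).of_se (DI_four a b c d)⟩

/-- Hint: with `IsEl c`, `IsEl (a + c)`, `IsEl c'`, `IsEl (a + b + c')` use the complex `(a + c) + c'`. -/
theorem Sim.cancel (h : Sim a) (h' : Sim (a + b)) : Sim b := by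
  obtain ⟨c, h1, h2⟩ := h
  obtain ⟨d, k1, k2⟩ := h'
  refine ⟨a + c + d, h2.add k1, (k2.add h1).of_se ?_⟩
  exact (se_assoc b (a + c) d).symm.trans ((((se_assoc b a c).symm.trans
    ((se_comm b a).add (SE.refl c))).add (SE.refl d)).trans ((se_assoc (a + b) c d).trans
      (((SE.refl (a + b)).add (se_comm c d)).trans (se_assoc (a + b) d c).symm)))

theorem Sim.cancel' (h : Sim b) (h' : Sim (a + b)) : Sim a := h.cancel (h'.of_se (se_comm b a))

theorem DI_contr {u : Mor a b} {v : Mor b a} (hu : Ch a b u) (hv : Ch b a v) (e : v * u = 1)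
    (h : Contr a) : Contr b := by
  obtain ⟨Γ, h1, h2⟩ := h
  have k : Gd (-1) b.deg a.deg (v * Γ) := hv.gd.mul' h1 (zero_add _)
  refine ⟨v * Γ * u, k.mul' hu.gd (add_zero _), ?_⟩
  rw [← hu.D1_mul k odd_neg_one', ← hv.mul_D1, h2, Hm.mul_one, e]

/-- Hint: `SI.inv`, the contraction `v * Γ * u`, `Ch.mul_D1`, `Ch.D1_mul`. -/
theorem SE.contr_iff (e : SE a b) : Contr a ↔ Contr b := by
  have k : Relation.EqvGen (fun a b => ∃ u, SI a b u) a b := e
  clear e
  induction k with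
  | rel x y h =>
    obtain ⟨u, hu⟩ := h
    obtain ⟨v, hv, e1, e2⟩ := hu.inv
    exact ⟨DI_contr hu.ch hv e2, DI_contr hv hu.ch e1⟩
  | refl x => exact Iff.rfl
  | symm x y _ ih => exact ih.symm
  | trans x y z _ _ ih ih' => exact ih.trans ih'

/-- Hint: `exists_blocks`, `gd_fromBlocks`, `D1_blocks co_zero co_zero`. -/
theorem contr_add : Contr (a + b) ↔ Contr a ∧ Contr b := by
  constructor
  · rintro ⟨Γ, h1, h2⟩
    obtain ⟨p, q, r, s, rfl⟩ := exists_blocks (I := a.ob) (J := b.ob) (K := a.ob) (L := b.ob) Γ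
    obtain ⟨g1, -, -, g4⟩ := gd_fromBlocks.1 h1
    have k := ((D1_blocks (co_zero (a := a) (b := b)) (co_zero (a := a) (b := b))
      p q r s).symm.trans h2).trans (fromBlocks_one (I := a.ob) (J := b.ob)).symm
    obtain ⟨k1, -, -, k4⟩ := fromBlocks_inj.1 k
    rw [Hm.zero_mul, add_zero] at k1
    rw [Hm.mul_zero, add_zero] at k4
    exact ⟨⟨p, g1, k1⟩, ⟨s, g4, k4⟩⟩
  · rintro ⟨⟨p, g1, k1⟩, ⟨s, g4, k4⟩⟩
    refine ⟨fromBlocks p 0 0 s, gd_fromBlocks.2 ⟨g1, gd_zero, gd_zero, g4⟩, ?_⟩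
    refine (D1_blocks (co_zero (a := a) (b := b)) (co_zero (a := a) (b := b)) p 0 0 s).trans ?_
    refine Eq.trans ?_ (fromBlocks_one (I := a.ob) (J := b.ob))
    rw [k1, k4, D1_zero, D1_zero]
    simp only [Hm.mul_zero, Hm.zero_mul, add_zero]

theorem contr_sh : Contr (sh a) ↔ Contr a := by
  have key : ∀ Γ : Mor a a, D1 (sh a) (sh a) Γ = -D1 a a Γ := fun Γ =>
    (D1_sh (a := a) (b := sh a) Γ).trans (congrArg Neg.neg (D0_sh' (a := a) (b := a) Γ))
  constructor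
  · rintro ⟨Γ, h1, h2⟩
    refine ⟨-Γ, h1.neg.shift fun i j => by ring, ?_⟩
    exact (D1_neg (a := a) (b := a) Γ).trans ((key Γ).symm.trans h2)
  · rintro ⟨Γ, h1, h2⟩
    refine ⟨-Γ, h1.neg.shift fun i j => by ring, ?_⟩
    refine (key (-Γ)).trans ?_
    rw [D1_neg, neg_neg]
    exact h2

theorem contr_el (U : Ob X) (n : U.I → ℤ) : Contr (el Λ ρ U n) := by
  refine ⟨fromBlocks (0 : (OA Λ.A ρ).Hom U U) 0 1 0,
    gd_fromBlocks.2 ⟨gd_zero, gd_zero, (gd_one (n := n)).shift fun i j => by ring, gd_zero⟩, ?_⟩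
  refine (D1_blocks (a := sh (fr Λ ρ U n)) (b := fr Λ ρ U n) (a' := sh (fr Λ ρ U n))
    (b' := fr Λ ρ U n) (Ch.co ch_one) (Ch.co ch_one) 0 0 1 0).trans ?_
  refine Eq.trans ?_ (fromBlocks_one (I := U) (J := U))
  have k : D1 (fr Λ ρ U n) (sh (fr Λ ρ U n)) (1 : (OA Λ.A ρ).Hom U U) = 0 :=
    (D1_sh' (a := fr Λ ρ U n) (b := fr Λ ρ U n) 1).trans D0_one
  refine fromBlocks_inj.2 ⟨?_, ?_, k, ?_⟩
  · rw [D1_zero, zero_add]; exact Hm.one_mul _
  · rw [D1_zero, zero_add, Hm.mul_zero, Hm.zero_mul, add_zero]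
  · rw [D1_zero, zero_add]; exact Hm.one_mul _

theorem Sim.contr (h : Sim a) : Contr a :=
  let ⟨_, _, U, n, k⟩ := h
  (contr_add.1 (k.contr_iff.2 (contr_el U n))).1

/-- Hint: `si_tw` with `k = -(Γ * f)` (`D0_mul1`) or `k = f * Γ` (`D0_mul1` with `h.gd`). -/
theorem se_split {f : Mor a b} (h : Co a b f) (k : Contr a ∨ Contr b) :
    SE (tsum a b f h) (a + b) := by
  rcases k with ⟨Γ, h1, h2⟩ | ⟨Γ, h1, h2⟩
  · refine (si_tw (k := -(Γ * f)) h co_zero (h1.mul' h.gd (neg_add_cancel 1)).neg ?_).se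
    rw [D0_neg, D0_mul1 h1 odd_neg_one', h2, h.d, Hm.one_mul, Hm.mul_zero, sub_zero,
      add_neg_cancel]
  · refine (si_tw (k := f * Γ) h co_zero (h.gd.mul' h1 (add_neg_cancel 1)) ?_).se
    rw [D0_mul1 h.gd odd_one, h2, h.d, Hm.mul_one, Hm.zero_mul, zero_sub, add_neg_cancel]

theorem Sim.tsum_left {f : Mor a b} (h : Co a b f) (k : Sim a) : Sim (tsum a b f h) ↔ Sim b :=
  (se_split h (Or.inl k.contr)).sim_iff.trans ⟨k.cancel, k.add⟩

theorem Sim.tsum_right {f : Mor a b} (h : Co a b f) (k : Sim b) : Sim (tsum a b f h) ↔ Sim a :=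
  (se_split h (Or.inr k.contr)).sim_iff.trans ⟨k.cancel', fun e => e.add k⟩

/-- Hint: `se_match a.ob a.deg` with `m = 1`, `e = Equiv.refl _`, `w = Sum.elim l l`. -/
theorem sim_cn_one (a : Tw Λ ρ) : Sim (cn (1 : Mor a a) ch_one) := by
  obtain ⟨l, hl, h1⟩ := a.lev
  refine IsEl.sim ⟨a.ob, a.deg, SE.symm ?_⟩
  refine se_match (a := cn (1 : Mor a a) ch_one) a.ob a.deg
    (m := (1 : (OA Λ.A ρ).Hom (a.ob + a.ob) (a.ob + a.ob))) (e := Equiv.refl _) isPm_one
    (fun _ => rfl) (Sum.elim l l) ?_ (fun _ => rfl) ?_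
  · obtain ⟨N, hN⟩ := bd_iff.1 hl
    refine bd_iff.2 ⟨N, ?_⟩
    rintro (i | i) <;> exact hN i
  · change Lo (I := a.ob + a.ob) (J := a.ob + a.ob) (Sum.elim l l) (Sum.elim l l)
      ((1 : (OA Λ.A ρ).Hom (a.ob + a.ob) (a.ob + a.ob)) * fromBlocks (-a.δ) 1 0 a.δ -
        fromBlocks (-0 : (OA Λ.A ρ).Hom a.ob a.ob) 1 0 0 *
          (1 : (OA Λ.A ρ).Hom (a.ob + a.ob) (a.ob + a.ob)))
    rw [Hm.one_mul, Hm.mul_one, fromBlocks_sub, neg_zero, sub_zero, sub_self, sub_zero, sub_zero]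
    exact on_fromBlocks.2 ⟨h1.neg, on_zero, on_zero, h1⟩

theorem Sim.sh (h : Sim a) : Sim (sh a) := (h.tsum_right _).1 (sim_cn_one a)

/-- an absorbed contractible complex -/
theorem sim_of_absorb (h : Contr b) (e : SE b (a + b)) : Sim a := by
  have k : Sim (Dg.sh b + b) := (se_split _ (Or.inr h)).sim_iff.1 (sim_cn_one b)
  have k' : Sim (b + Dg.sh b) := k.of_se (se_comm _ _)
  exact k'.cancel' (k'.of_se ((se_assoc _ _ _).symm.trans (e.symm.add (SE.refl _))))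

end Pool.Agent.Work.MP_9d1ffa_al.Dg
end

-- merged part: Pool.Agent.Work.MP_9d1ffa_al.Dg.DZ
section
/-! Homotopy classes with trivial torsion. -/

namespace Pool.Agent.Work.MP_9d1ffa_al.Dg

open MonoidAlgebra

set_option linter.unusedSectionVars false
set_option linter.unusedVariables false
set_option linter.unusedSimpArgs false

variable {X K : Type} [Group K] {Λ : DG} {ρ : K →* Equiv.Perm X} {a a' b b' c : Tw Λ ρ}

/-- the mapping cone has trivial torsion -/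
def Tz (x : Hom a b) : Prop := ∃ (f : Mor a b) (h : Rp x f), Sim (cn f h.ch)

/-- Hint: two representatives differ by `D1 a b k`; use `si_tw` with `± k` and `D0_sh`. -/
theorem tz_iff {x : Hom a b} {f : Mor a b} (h : Rp x f) : Tz x ↔ Sim (cn f h.ch) := by
  refine ⟨?_, fun s => ⟨f, h, s⟩⟩
  rintro ⟨g, hg, s⟩
  obtain ⟨k, hk, e⟩ := (h.eq_iff hg).1 rfl
  have hk' : Gd 0 (sh a).deg b.deg k := hk.shift fun i j => by
    show -1 + a.deg i - b.deg j = 0 + (a.deg i - 1) - b.deg j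
    ring
  have e' : g = f + D0 (sh a) b k := by
    rw [D0_sh, ← e]
    abel
  exact s.of_se (si_tw (a := sh a) h.ch.co hg.ch.co hk' e').se

theorem Tz.inv {x : Hom a b} (h : Tz x) : ∃ y : Hom b a, x * y = 1 ∧ y * x = 1 :=
  let ⟨_, k, e⟩ := h
  inv_of_contr k e.contr

/-- Hint: `SI.tsum` with `hu.sh` and `si_one b`, from `cn (u * f)` to `cn f`. -/
theorem tz_si_mul {x : Hom a b} {y : Hom a' a} {u : Mor a' a} (hy : Rp y u) (hu : SI a' a u) :
    Tz (y * x) ↔ Tz x := by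
  obtain ⟨f, hf⟩ := exists_rp x
  rw [tz_iff (hy.mul hf), tz_iff hf]
  exact (SI.tsum (hy.mul hf).ch.co hf.ch.co hu.sh (si_one b) (Hm.mul_one _).symm).se.sim_iff

/-- Hint: `SI.tsum` with `si_one (sh a)` and `hu`, from `cn f` to `cn (f * u)`. -/
theorem tz_mul_si {x : Hom a b} {y : Hom b b'} {u : Mor b b'} (hy : Rp y u) (hu : SI b b' u) :
    Tz (x * y) ↔ Tz x := by
  obtain ⟨f, hf⟩ := exists_rp x
  rw [tz_iff (hf.mul hy), tz_iff hf]
  exact (SI.tsum hf.ch.co (hf.mul hy).ch.co (si_one (sh a)) hu (Hm.one_mul _)).se.sim_iff.symm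

theorem tz_one : Tz (1 : Hom a a) := ⟨1, rp_one, sim_cn_one a⟩

theorem tz_of_si {x : Hom a b} {u : Mor a b} (hx : Rp x u) (hu : SI a b u) : Tz x := by
  have := (tz_si_mul (x := (1 : Hom b b)) hx hu).2 tz_one
  rwa [Hm.mul_one] at this

theorem tz_neg {x : Hom a b} : Tz (-x) ↔ Tz x := by
  have := tz_si_mul (x := x) rp_one.neg (si_neg_one a)
  rwa [Hm.neg_mul, Hm.one_mul] at this

/-- Hint: `si_pm` with `Equiv.sumComm`; `(isPm_one.inr _).rows (isPm_one.inl _)`. -/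
theorem si_swap (a b : Tw Λ ρ) : SI (a + b) (b + a) (fromBlocks 0 1 1 0) := by
  have hm : IsPm (fromBlocks (0 : Mor a b) (1 : Mor a a) (1 : Mor b b) (0 : Mor b a))
      (Equiv.sumComm a.ob.I b.ob.I) (fun _ => 1) fun _ => 1 :=
    ((isPm_one.inr b.ob).rows (isPm_one.inl a.ob)).congr (by rintro (i | i) <;> rfl)
      (by rintro (i | i) <;> rfl) (by rintro (i | i) <;> rfl)
  have hc : fromBlocks a.δ (0 : Mor a b) (0 : Mor b a) b.δ *
      fromBlocks (0 : Mor a b) (1 : Mor a a) (1 : Mor b b) (0 : Mor b a) =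
      fromBlocks (0 : Mor a b) (1 : Mor a a) (1 : Mor b b) (0 : Mor b a) *
        fromBlocks b.δ (0 : Mor b a) (0 : Mor a b) a.δ := by
    simp [fromBlocks_multiply]
  exact si_pm (a := a + b) (b := b + a) (e := Equiv.sumComm a.ob.I b.ob.I) hm
    (by rintro (i | i) <;> rfl) hc

theorem DZ_perm {R : Type} [Ring R] {I J L M : Ob X} (a₁ : (OA R ρ).Hom I I)
    (a₂ : (OA R ρ).Hom I J) (a₃ : (OA R ρ).Hom J I) (a₄ : (OA R ρ).Hom J J)
    (b₁ : (OA R ρ).Hom I L) (b₂ : (OA R ρ).Hom I M) (b₃ : (OA R ρ).Hom J L)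
    (b₄ : (OA R ρ).Hom J M) (c₁ : (OA R ρ).Hom L I) (c₂ : (OA R ρ).Hom L J)
    (c₃ : (OA R ρ).Hom M I) (c₄ : (OA R ρ).Hom M J) (d₁ : (OA R ρ).Hom L L)
    (d₂ : (OA R ρ).Hom L M) (d₃ : (OA R ρ).Hom M L) (d₄ : (OA R ρ).Hom M M)
    (i j : (I.I ⊕ J.I) ⊕ (L.I ⊕ M.I)) (t : K) :
    cf (I := (I + J) + (L + M)) (J := (I + J) + (L + M))
      (fromBlocks (fromBlocks a₁ a₂ a₃ a₄) (fromBlocks b₁ b₂ b₃ b₄) (fromBlocks c₁ c₂ c₃ c₄)
        (fromBlocks d₁ d₂ d₃ d₄)) i j t =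
    cf (I := (I + L) + (J + M)) (J := (I + L) + (J + M))
      (fromBlocks (fromBlocks a₁ b₁ c₁ d₁) (fromBlocks a₂ b₂ c₂ d₂) (fromBlocks a₃ b₃ c₃ d₃)
        (fromBlocks a₄ b₄ c₄ d₄))
      (Equiv.sumSumSumComm _ _ _ _ i) (Equiv.sumSumSumComm _ _ _ _ j) t := by
  rcases i with (i | i) | (i | i) <;> rcases j with (j | j) | (j | j)
  · exact ((cf_blocks₁₁ ..).trans (cf_blocks₁₁ ..)).trans
      ((cf_blocks₁₁ ..).trans (cf_blocks₁₁ ..)).symm
  · exact ((cf_blocks₁₁ ..).trans (cf_blocks₁₂ ..)).trans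
      ((cf_blocks₁₂ ..).trans (cf_blocks₁₁ ..)).symm
  · exact ((cf_blocks₁₂ ..).trans (cf_blocks₁₁ ..)).trans
      ((cf_blocks₁₁ ..).trans (cf_blocks₁₂ ..)).symm
  · exact ((cf_blocks₁₂ ..).trans (cf_blocks₁₂ ..)).trans
      ((cf_blocks₁₂ ..).trans (cf_blocks₁₂ ..)).symm
  · exact ((cf_blocks₁₁ ..).trans (cf_blocks₂₁ ..)).trans
      ((cf_blocks₂₁ ..).trans (cf_blocks₁₁ ..)).symm
  · exact ((cf_blocks₁₁ ..).trans (cf_blocks₂₂ ..)).trans
      ((cf_blocks₂₂ ..).trans (cf_blocks₁₁ ..)).symm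
  · exact ((cf_blocks₁₂ ..).trans (cf_blocks₂₁ ..)).trans
      ((cf_blocks₂₁ ..).trans (cf_blocks₁₂ ..)).symm
  · exact ((cf_blocks₁₂ ..).trans (cf_blocks₂₂ ..)).trans
      ((cf_blocks₂₂ ..).trans (cf_blocks₁₂ ..)).symm
  · exact ((cf_blocks₂₁ ..).trans (cf_blocks₁₁ ..)).trans
      ((cf_blocks₁₁ ..).trans (cf_blocks₂₁ ..)).symm
  · exact ((cf_blocks₂₁ ..).trans (cf_blocks₁₂ ..)).trans
      ((cf_blocks₁₂ ..).trans (cf_blocks₂₁ ..)).symm
  · exact ((cf_blocks₂₂ ..).trans (cf_blocks₁₁ ..)).trans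
      ((cf_blocks₁₁ ..).trans (cf_blocks₂₂ ..)).symm
  · exact ((cf_blocks₂₂ ..).trans (cf_blocks₁₂ ..)).trans
      ((cf_blocks₁₂ ..).trans (cf_blocks₂₂ ..)).symm
  · exact ((cf_blocks₂₁ ..).trans (cf_blocks₂₁ ..)).trans
      ((cf_blocks₂₁ ..).trans (cf_blocks₂₁ ..)).symm
  · exact ((cf_blocks₂₁ ..).trans (cf_blocks₂₂ ..)).trans
      ((cf_blocks₂₂ ..).trans (cf_blocks₂₁ ..)).symm
  · exact ((cf_blocks₂₂ ..).trans (cf_blocks₂₁ ..)).trans
      ((cf_blocks₂₁ ..).trans (cf_blocks₂₂ ..)).symm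
  · exact ((cf_blocks₂₂ ..).trans (cf_blocks₂₂ ..)).trans
      ((cf_blocks₂₂ ..).trans (cf_blocks₂₂ ..)).symm

/-- The cone of a triangular map is a twisted sum of cones.  Hint: `se_perm (Equiv.sumSumSumComm ..)`. -/
theorem se_cn_upper {f : Mor a a'} {g : Mor a b'} {k : Mor b b'} (hf : Ch a a' f) (hg : Ch a b' g)
    (hk : Ch b b' k) : ∃ (e : Mor (cn f hf) (cn k hk)) (he : Co (cn f hf) (cn k hk) e),
      SE (cn (a := a + b) (b := a' + b') (fromBlocks f g 0 k) (ch_fromBlocks.2 ⟨hf, hg, ch_zero, hk⟩))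
        (tsum (cn f hf) (cn k hk) e he) := by
  have he : Co (cn f hf) (cn k hk)
      (fromBlocks (0 : Mor a b) g (0 : Mor a' b) (0 : Mor a' b')) := by
    refine ⟨gd_fromBlocks.2 ⟨gd_zero, hg.co.gd, gd_zero, gd_zero⟩, ?_⟩
    refine (D1_blocks hf.co hk.co (0 : Mor (sh a) (sh b)) g (0 : Mor a' (sh b))
      (0 : Mor a' b')).trans ?_
    rw [hg.co.d, D1_zero, D1_zero, D1_zero, Hm.mul_zero, Hm.mul_zero, Hm.zero_mul, Hm.zero_mul]
    simp only [add_zero, fromBlocks_zero]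
  refine ⟨_, he, se_perm (Equiv.sumSumSumComm a.ob.I b.ob.I a'.ob.I b'.ob.I) ?_ ?_ ?_ ?_⟩
  · rintro ((i | i) | (i | i)) <;> rfl
  · rintro ((i | i) | (i | i)) <;> rfl
  · rintro ((i | i) | (i | i)) <;> rfl
  · intro i j t
    have h4 := DZ_perm (-a.δ) (0 : Mor a b) (0 : Mor b a) (-b.δ) f g (0 : Mor b a') k
      (0 : Mor a' a) (0 : Mor a' b) (0 : Mor b' a) (0 : Mor b' b) a'.δ (0 : Mor a' b')
      (0 : Mor b' a') b'.δ i j t
    have e1 : fromBlocks (-a.δ) (0 : Mor a b) (0 : Mor b a) (-b.δ) =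
        -fromBlocks a.δ (0 : Mor a b) (0 : Mor b a) b.δ := by
      rw [fromBlocks_neg, neg_zero, neg_zero]
    rw [e1, fromBlocks_zero, fromBlocks_zero] at h4
    exact h4

section

variable {x : Hom a a'} {y : Hom a b'} {z : Hom b a'} {w : Hom b b'}

theorem tz_swap_rows : Tz (fromBlocks z w x y) ↔ Tz (fromBlocks x y z w) := by
  have := tz_si_mul (x := fromBlocks x y z w)
    (Rp.fromBlocks rp_zero rp_one rp_one rp_zero) (si_swap b a)
  rw [fromBlocks_multiply] at this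
  simpa using this

theorem tz_swap_cols : Tz (fromBlocks y x w z) ↔ Tz (fromBlocks x y z w) := by
  have := tz_mul_si (x := fromBlocks x y z w)
    (Rp.fromBlocks rp_zero rp_one rp_one rp_zero) (si_swap a' b')
  rw [fromBlocks_multiply] at this
  simpa using this

/-- Hint: `se_cn_upper`, `tz_iff` with `Rp.fromBlocks`, `Sim.tsum_left`. -/
theorem Tz.upper_left (h : Tz x) : Tz (fromBlocks x y 0 w) ↔ Tz w := by
  obtain ⟨f, hf⟩ := exists_rp x
  obtain ⟨g, hg⟩ := exists_rp y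
  obtain ⟨k, hk⟩ := exists_rp w
  obtain ⟨e, he, s⟩ := se_cn_upper hf.ch hg.ch hk.ch
  rw [tz_iff (Rp.fromBlocks hf hg rp_zero hk), tz_iff hk]
  exact s.sim_iff.trans (Sim.tsum_left he ((tz_iff hf).1 h))

theorem Tz.upper_right (h : Tz w) : Tz (fromBlocks x y 0 w) ↔ Tz x := by
  obtain ⟨f, hf⟩ := exists_rp x
  obtain ⟨g, hg⟩ := exists_rp y
  obtain ⟨k, hk⟩ := exists_rp w
  obtain ⟨e, he, s⟩ := se_cn_upper hf.ch hg.ch hk.ch
  rw [tz_iff (Rp.fromBlocks hf hg rp_zero hk), tz_iff hf]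
  exact s.sim_iff.trans (Sim.tsum_right he ((tz_iff hk).1 h))

theorem Tz.lower_left (h : Tz x) : Tz (fromBlocks x 0 z w) ↔ Tz w :=
  tz_swap_rows.symm.trans (tz_swap_cols.symm.trans h.upper_right)

theorem Tz.lower_right (h : Tz w) : Tz (fromBlocks x 0 z w) ↔ Tz x :=
  tz_swap_rows.symm.trans (tz_swap_cols.symm.trans h.upper_left)

theorem tz_block : Tz (fromBlocks x 0 0 (1 : Hom c c)) ↔ Tz x := tz_one.upper_right

theorem tz_block' : Tz (fromBlocks (1 : Hom c c) 0 0 x) ↔ Tz x := tz_one.upper_left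

end

theorem tz_upper (x : Hom a b) : Tz (fromBlocks (1 : Hom a a) x 0 (1 : Hom b b)) :=
  tz_one.upper_left.2 tz_one

theorem tz_lower (x : Hom b a) : Tz (fromBlocks (1 : Hom a a) 0 x (1 : Hom b b)) :=
  tz_one.lower_left.2 tz_one

/-- Hint: multiply `fromBlocks x 0 1 y` from the left by `fromBlocks 1 (-x) 0 1` and from the right by
`fromBlocks 1 (-y) 0 1` (`tz_si_mul`, `tz_mul_si`, `si_upper`); the result is `fromBlocks 0 (-(x * y)) 1 0`;
finish with `tz_swap_cols`, `tz_block`, `tz_neg`. -/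
theorem tz_comp (x : Hom a b) (y : Hom b c) : Tz (fromBlocks x 0 (1 : Hom b b) y) ↔ Tz (x * y) := by
  obtain ⟨f, hf⟩ := exists_rp x
  obtain ⟨g, hg⟩ := exists_rp y
  have h1 := tz_si_mul (x := fromBlocks x 0 (1 : Hom b b) y)
    (Rp.fromBlocks rp_one hf.neg rp_zero rp_one) (si_upper hf.ch.neg)
  have h2 := tz_mul_si (x := fromBlocks (1 : Hom a a) (-x) 0 (1 : Hom b b) *
    fromBlocks x 0 (1 : Hom b b) y) (Rp.fromBlocks rp_one hg.neg rp_zero rp_one)
    (si_upper hg.ch.neg)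
  have e : fromBlocks (1 : Hom a a) (-x) 0 (1 : Hom b b) * fromBlocks x 0 (1 : Hom b b) y *
      fromBlocks (1 : Hom b b) (-y) 0 (1 : Hom c c) =
      fromBlocks 0 (-(x * y)) (1 : Hom b b) 0 := by
    simp [fromBlocks_multiply]
  rw [e] at h2
  exact h1.symm.trans (h2.symm.trans (tz_swap_cols.trans (tz_block.trans tz_neg)))

theorem Tz.mul_left {x : Hom a b} (h : Tz x) (y : Hom b c) : Tz (x * y) ↔ Tz y :=
  (tz_comp x y).symm.trans h.lower_left

theorem Tz.mul_right {y : Hom b c} (h : Tz y) (x : Hom a b) : Tz (x * y) ↔ Tz x :=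
  (tz_comp x y).symm.trans h.lower_right

theorem Tz.mul {x : Hom a b} {y : Hom b c} (h : Tz x) (h' : Tz y) : Tz (x * y) :=
  (h.mul_left y).2 h'

theorem tz_swap (u : Hom a b) (w : Hom b a) (h : Tz (1 + w * u)) : Tz (1 + u * w) := by
  have := ((tz_lower w).mul (tz_block'.2 h)).mul (tz_upper (-u))
  have e : fromBlocks (1 : Hom a a) 0 w (1 : Hom b b) * fromBlocks (1 : Hom a a) 0 0 (1 + w * u) *
      fromBlocks (1 : Hom a a) (-u) 0 (1 : Hom b b) = fromBlocks (1 : Hom a a) (-u) 0 (1 : Hom b b) *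
        (fromBlocks (1 + u * w) 0 0 (1 : Hom b b) * fromBlocks (1 : Hom a a) 0 w (1 : Hom b b)) := by
    simp [fromBlocks_multiply]
  rw [e] at this
  exact tz_block.1 (((tz_lower w).mul_right _).1 (((tz_upper (-u)).mul_left _).1 this))

end Pool.Agent.Work.MP_9d1ffa_al.Dg
end

-- merged part: Pool.Agent.Work.MP_9d1ffa_al.Dg.DV
section
/-! Segments of a tree that move forward by a given distance. -/

namespace Pool.Agent.Work.MP_9d1ffa_al.Dg

open MulAction Pool.Agent.Work.MP_904812_al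

set_option linter.unusedSectionVars false
set_option linter.unusedVariables false

/-- positions, forward moves with weights, and hulls -/
structure Mach2 (K : Type) [Group K] {P : Type} [MulAction K P] (mv : ℕ → P → P → Prop)
    (hull : P → P → P) : Prop where
  inv : ∀ n, Inv K (mv n)
  tr : ∀ {n m a b c}, mv n a b → mv m b c → mv (n + m) a c
  wt : ∀ {n m a b}, mv n a b → mv m a b → n = m
  mid : ∀ {n m m' a b b' c}, mv n a b → mv m b c → mv n a b' → mv m' b' c → b = b'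
  eqv : ∀ (g : K) a b, hull (g • a) (g • b) = g • hull a b
  step : ∀ {n a b c}, mv n a b → mv n b c → mv n (hull a b) (hull b c)

variable {K V : Type} [Group K] [MulAction K V] {d : V → V → ℤ}

/-- the segment `τ` arises from the nondegenerate segment `σ` by a forward move of length `n` -/
def Mv (d : V → V → ℤ) (n : ℕ) (σ τ : V × V) : Prop :=
  σ.1 ≠ σ.2 ∧ d σ.1 τ.1 = n ∧ d τ.1 τ.2 = d σ.1 σ.2 ∧ Bt d σ.1 τ.1 τ.2 ∧ Bt d σ.1 σ.2 τ.2

theorem Mv.ne (h : Tr d) {n : ℕ} {σ τ : V × V} (a : Mv d n σ τ) : τ.1 ≠ τ.2 := fun e => by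
  have p := h.pos a.1
  have z := h.self τ.1
  have := a.2.2.1
  rw [← e] at this
  omega

theorem Mv.trans (h : Tr d) {n m : ℕ} {a b c : V × V} (x : Mv d n a b) (y : Mv d m b c) :
    Mv d (n + m) a c ∧ Bt d a.1 b.1 c.2 ∧ Bt d a.1 b.2 c.2 := by
  obtain ⟨a1, a2, a3, a4, a5⟩ := x
  obtain ⟨b1, b2, b3, b4, b5⟩ := y
  obtain ⟨o1, o2⟩ := geo_overlap h a4 b5 b1
  obtain ⟨o3, o4⟩ := h.bt_trans' o1 b4
  refine ⟨⟨a1, ?_, b3.trans a3, o4, (h.bt_trans a5 o2).1⟩, o1, o2⟩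
  simp only [Bt] at o3
  push_cast
  omega

theorem mach2_tree (h : Tr d) (iso : ∀ (g : K) x y, d (g • x) (g • y) = d x y) :
    Mach2 K (Mv d) fun σ τ : V × V => (σ.1, τ.2) where
  inv n := by
    rintro g σ τ ⟨a1, a2, a3, a4, a5⟩
    refine ⟨?_, ?_, ?_, ?_, ?_⟩
    · simpa using a1
    · simpa [iso] using a2
    · simpa [iso] using a3
    · simpa [Bt, iso] using a4
    · simpa [Bt, iso] using a5
  tr x y := (x.trans h y).1
  wt x y := by
    have := x.2.1.symm.trans y.2.1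
    exact_mod_cast this
  mid := fun {n m m' a b b' c} x y x' y' => by
    obtain ⟨-, o1, o2⟩ := x.trans h y
    obtain ⟨-, o3, o4⟩ := x'.trans h y'
    refine Prod.ext (h.bt_uniq o1 o3 (x.2.1.trans x'.2.1.symm)) (h.bt_uniq o2 o4 ?_)
    have e1 := x.2.2.2.1
    have e2 := x'.2.2.2.1
    have e3 := x.2.1
    have e4 := x'.2.1
    have e5 := x.2.2.1
    have e6 := x'.2.2.1
    simp only [Bt] at e1 e2
    omega
  eqv g a b := rfl
  step := fun {n a b c} x y => by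
    obtain ⟨-, o1, o2⟩ := x.trans h y
    have k := x.ne h
    obtain ⟨a1, a2, a3, a4, a5⟩ := x
    obtain ⟨b1, b2, b3, b4, b5⟩ := y
    refine ⟨fun e => ?_, a2, ?_, o1, o2⟩
    · have p := h.pos k
      have n1 := h.nonneg a.1 b.1
      have z := h.self b.2
      have e' : a.1 = b.2 := e
      simp only [Bt] at a4
      rw [e'] at a4 n1
      omega
    · simp only [Bt] at a4 b4 ⊢
      omega

theorem cone_mv (h : Tr d) {σ τ : V × V} (a : cone d σ τ) : ∃ n, 1 ≤ n ∧ Mv d n σ τ := by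
  obtain ⟨a1, a2, a3, a4, a5⟩ := a
  have c1 := adj_cases h a1 τ.1
  have c2 := adj_cases h a1 τ.2
  have c3 := adj_cases h a2 σ.2
  have s1 := h.symm τ.1 σ.1
  have s2 := h.symm τ.1 σ.2
  have s3 := h.symm τ.2 σ.1
  have s4 := h.symm τ.2 σ.2
  have n1 := h.nonneg τ.1 σ.2
  have z := h.self σ.1
  refine ⟨(d σ.1 τ.1).toNat, by omega, fun e => ?_, by omega, by omega, ?_, ?_⟩
  · rw [← e] at a1
    omega
  · simp only [Bt]
    omega
  · simp only [Bt]
    omega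

theorem cone_mv_one (h : Tr d) {σ τ : V × V} (a : cone d σ τ) (e : σ.2 = τ.1 ∨ σ.2 = τ.2) :
    Mv d 1 σ τ := by
  obtain ⟨n, -, k⟩ := cone_mv h a
  have e' : σ.2 = τ.1 := e.resolve_right fun c => by
    have a5 := a.2.2.2.2
    have := h.nonneg σ.2 τ.1
    rw [← c, h.self] at a5
    omega
  exact ⟨k.1, by rw [← e', a.1]; rfl, k.2.2⟩

end Pool.Agent.Work.MP_9d1ffa_al.Dg
end

-- merged part: Pool.Agent.Work.MP_9d1ffa_al.Dg.DE
section
/-! Filtered powers of a class that moves labels forward. -/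

namespace Pool.Agent.Work.MP_9d1ffa_al.Dg

open MonoidAlgebra

set_option linter.unusedSectionVars false
set_option linter.unusedVariables false
set_option linter.unusedSimpArgs false

variable {X K P Q S : Type} [Group K] [MulAction K P] [MulAction K Q] [MulAction K S] {Λ : DG}
  {ρ : K →* Equiv.Perm X} {a b c : Tw Λ ρ}

/-- Hint: write `z = hfil T z + hfil (¬ T) z` (`hfil_add_not`), use `HOn.hfil`, `HOn.mul`, `HOn.hfil_eq`,
`HOn.hfil_zero`. -/
theorem hfil_mul_both {p : a.ob.I → P} {q : b.ob.I → Q} {r : c.ob.I → S} (ha : Lc a p)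
    (hb : Lc b q) (hc : Lc c r) {R : P → Q → Prop} {T T' : Q → S → Prop} {U : P → S → Prop}
    {x : Hom a b} {z : Hom b c} (h : HOn p q R x) (h' : HOn q r T' z) (hT : Inv K T)
    (hT' : Inv K T') (hU : Inv K U) (k : ∀ s t u, R s t → T' t u → (U s u ↔ T t u)) :
    hfil p r U (x * z) = x * hfil q r T z := by
  have k1 : HOn p r U (x * hfil q r T z) :=
    h.mul (h'.hfil hb hc hT) (inv_and hT' hT) fun s t u e e' => (k s t u e e'.1).2 e'.2
  have k2 : HOn p r (fun s u => ¬ U s u) (x * hfil q r (fun s t => ¬ T s t) z) :=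
    h.mul (h'.hfil hb hc (inv_compl hT)) (inv_and hT' (inv_compl hT)) fun s t u e e' c =>
      e'.2 ((k s t u e e'.1).1 c)
  have e : x * z = x * hfil q r T z + x * hfil q r (fun s t => ¬ T s t) z := by
    rw [← Hm.mul_add, hfil_add_not hb hc hT]
  rw [e, hfil_add ha hc hU, k1.hfil_eq ha hc hU, k2.hfil_zero ha hc hU fun _ _ c => c, add_zero]

variable {mv : ℕ → P → P → Prop} {hull : P → P → P} {p : a.ob.I → P}

theorem HOn.pow (M : Mach2 K mv hull) {ω : ℕ} {ν : Hom a a} (h : HOn p p (mv ω) ν) (n : ℕ) :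
    HOn p p (mv ((n + 1) * ω)) (ν ^ (n + 1)) := by
  induction n with
  | zero => simpa using h
  | succ n ih =>
    rw [pow_succ, add_mul (n + 1), one_mul]
    exact ih.mul h (M.inv _) fun _ _ _ => M.tr

/-- Hint: `ν + μ + ν * μ = 0`.  Show `hfil (mv (n + 1)) μ = (-ν) ^ (n + 1)` by induction, filtering this identity with
`hfil_mul_both` (`T = mv n`, `M.tr`, `M.wt`).  By `exists_fin` only finitely many pairs of labels occur in `μ`, each
with at most one weight (`M.wt`), so the filter vanishes for large `n` (`HOn.hfil_zero`). -/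
theorem nil_of_cone (M : Mach2 K mv hull) (ha : Lc a p) {ν μ : Hom a a} (hν : HOn p p (mv 1) ν)
    (hμ : HOn p p (fun s t => ∃ n, 1 ≤ n ∧ mv n s t) μ) (e : (1 + ν) * (1 + μ) = 1) :
    IsNilpotent ν := by
  classical
  have e' : μ = -ν - ν * μ := by
    rw [Hm.add_mul, Hm.mul_add, Hm.mul_add, Hm.one_mul, Hm.one_mul, Hm.mul_one] at e
    have : μ + (ν + ν * μ) = 0 := add_eq_left.1 ((add_assoc _ _ _).symm.trans e)
    exact (eq_neg_of_add_eq_zero_left this).trans (neg_add' _ _)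
  have iμ : Inv K fun s t => ∃ n, 1 ≤ n ∧ mv n s t := fun g s t ⟨n, h1, h2⟩ =>
    ⟨n, h1, M.inv n g s t h2⟩
  have h1 : ∀ n, hfil p p (mv (n + 1)) μ = -hfil p p (mv (n + 1)) ν - ν * hfil p p (mv n) μ := by
    intro n
    have k := hfil_mul_both ha ha ha hν hμ (M.inv n) iμ (M.inv (n + 1)) (by
      rintro s t u c ⟨m, -, c'⟩
      refine ⟨fun d => ?_, fun d => add_comm 1 n ▸ M.tr c d⟩
      have : n = m := by
        have := M.wt d (M.tr c c')
        omega
      exact this ▸ c')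
    rw [← k, ← hfil_neg ha ha (M.inv _), ← hfil_sub ha ha (M.inv _), ← e']
  have h2 : ∀ n, hfil p p (mv (n + 1)) μ = (-ν) ^ (n + 1) := by
    intro n
    induction n with
    | zero =>
      rw [h1, hν.hfil_eq ha ha (M.inv _), hμ.hfil_zero ha ha (M.inv 0) (by
        rintro s t ⟨m, c, c'⟩ d
        have := M.wt c' d
        omega), Hm.mul_zero, sub_zero, zero_add, pow_one]
    | succ n ih =>
      rw [h1, ih, hν.hfil_zero ha ha (M.inv _) (fun s t c d => by
        have := M.wt c d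
        omega), neg_zero, zero_sub, pow_succ' (-ν) (n + 1)]
      exact (Hm.neg_mul _ _).symm
  obtain ⟨N, hN⟩ := exists_bound ha.fin ha.fin
    (fun u v => if h : ∃ n, mv n u v then h.choose else 0) μ
  have h3 := hN.hfil_zero ha ha (M.inv (N + 1)) fun s t c d => by
    have k : ∃ n, mv n s t := ⟨_, d⟩
    rw [dif_pos k] at c
    have := M.wt k.choose_spec d
    omega
  exact isNilpotent_neg_iff.1 ⟨N + 1, (h2 N).symm.trans h3⟩

/-- the span of the filtered powers of `ν` with exponent at least `w` -/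
noncomputable def LJ (p : a.ob.I → P) (ν : Hom a a) (w : ℕ) : AddSubgroup (Hom a a) :=
  AddSubgroup.closure {x | ∃ (n : ℕ) (R : P → P → Prop), w ≤ n ∧ Inv K R ∧ x = hfil p p R (ν ^ n)}

section

variable {ω w w' : ℕ} {ν x y : Hom a a}

theorem LJ.anti (h : w ≤ w') (hx : x ∈ LJ p ν w') : x ∈ LJ p ν w :=
  AddSubgroup.closure_mono (by
    rintro _ ⟨n, R, h1, h2⟩
    exact ⟨n, R, h.trans h1, h2⟩) hx

theorem LJ.self (ha : Lc a p) : ν ∈ LJ p ν 1 :=
  AddSubgroup.subset_closure ⟨1, fun _ _ => True, le_rfl, fun _ _ _ _ => trivial, by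
    rw [pow_one, (hOn_true p p ν).hfil_eq ha ha fun _ _ _ _ => trivial]⟩

theorem DE_hfil_hfil (ha : Lc a p) {R R' : P → P → Prop} (hR : Inv K R) (hR' : Inv K R')
    (x : Hom a a) : hfil p p R (hfil p p R' x) = hfil p p (fun s t => R' s t ∧ R s t) x := by
  obtain ⟨f, h⟩ := exists_rp x
  refine ((h.hfil ha ha hR').hfil ha ha hR).uniq
    ((h.hfil ha ha (inv_and hR' hR)).congr (hom_ext fun i j g => ?_))
  rw [cf_fl, cf_fl, cf_fl]
  by_cases h1 : R (p i) (g • p j) <;> by_cases h2 : R' (p i) (g • p j) <;> simp [rel, h1, h2]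

/-- Hint: closure induction; `hfil R (hfil R' x) = hfil (R' ∧ R) x` by `Rp.hfil` twice, or by splitting `x`. -/
theorem LJ.hfil (ha : Lc a p) {R : P → P → Prop} (hR : Inv K R) (hx : x ∈ LJ p ν w) :
    hfil p p R x ∈ LJ p ν w := by
  induction hx using AddSubgroup.closure_induction with
  | mem x hx =>
    obtain ⟨n, R', h1, h2, rfl⟩ := hx
    exact AddSubgroup.subset_closure ⟨n, _, h1, inv_and h2 hR, DE_hfil_hfil ha hR h2 _⟩
  | zero => rw [hfil_zero ha ha hR]; exact zero_mem _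
  | add x y _ _ h1 h2 => rw [hfil_add ha ha hR]; exact add_mem h1 h2
  | neg x _ h1 => rw [hfil_neg ha ha hR]; exact neg_mem h1

theorem LJ.eq_zero (ha : Lc a p) {N : ℕ} (hN : ν ^ N = 0) (h : N ≤ w) (hx : x ∈ LJ p ν w) :
    x = 0 := by
  induction hx using AddSubgroup.closure_induction with
  | mem x hx =>
    obtain ⟨n, R', h1, h2, rfl⟩ := hx
    rw [pow_eq_zero_of_le (h.trans h1) hN, hfil_zero ha ha h2]
  | zero => rfl
  | add x y _ _ h1 h2 => rw [h1, h2, add_zero]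
  | neg x _ h1 => rw [h1, neg_zero]

theorem LJ.on (M : Mach2 K mv hull) (ha : Lc a p) (hω : 1 ≤ ω) (hν : HOn p p (mv ω) ν)
    (hw : 1 ≤ w) (hx : x ∈ LJ p ν w) : HOn p p (fun s t => ∃ n, 1 ≤ n ∧ mv n s t) x := by
  induction hx using AddSubgroup.closure_induction with
  | mem x hx =>
    obtain ⟨n, R', h1, h2, rfl⟩ := hx
    obtain ⟨m, rfl⟩ : ∃ m, n = m + 1 := ⟨n - 1, by omega⟩
    exact ((hν.pow M m).hfil ha ha h2).mono fun s t e =>
      ⟨_, Nat.mul_pos (Nat.succ_pos m) hω, e.1⟩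
  | zero => exact hOn_zero
  | add x y _ _ h1 h2 => exact h1.add h2
  | neg x _ h1 => exact h1.neg

theorem DE_gen (M : Mach2 K mv hull) (ha : Lc a p) {n m : ℕ} {R R' : P → P → Prop}
    (hR : Inv K R) (hR' : Inv K R') (hx : HOn p p (mv n) x) (hy : HOn p p (mv m) y) :
    ∃ U : P → P → Prop, Inv K U ∧ hfil p p R x * hfil p p R' y = hfil p p U (x * y) := by
  have hU : Inv K fun s u => ∃ t, mv n s t ∧ mv m t u ∧ R s t ∧ R' t u :=
    fun g s u ⟨t, h1, h2, h3, h4⟩ =>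
      ⟨g • t, M.inv n g _ _ h1, M.inv m g _ _ h2, hR g _ _ h3, hR' g _ _ h4⟩
  refine ⟨_, hU, ?_⟩
  have e : x * y = hfil p p R x * y + hfil p p (fun s t => ¬ R s t) x * y := by
    rw [← Hm.add_mul, hfil_add_not ha ha hR]
  have k1 := hfil_mul_both ha ha ha (hx.hfil ha ha hR) hy hR' (M.inv m) hU fun s t u c c' =>
    ⟨fun ⟨t', d1, d2, _, d4⟩ => M.mid c.1 c' d1 d2 ▸ d4, fun d => ⟨t, c.1, c', c.2, d⟩⟩
  have k2 : HOn p p (fun s u => ¬ ∃ t, mv n s t ∧ mv m t u ∧ R s t ∧ R' t u)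
      (hfil p p (fun s t => ¬ R s t) x * y) :=
    (hx.hfil ha ha (inv_compl hR)).mul hy (M.inv m) fun s t u c c' ⟨t', d1, d2, d3, _⟩ =>
      c.2 (M.mid c.1 c' d1 d2 ▸ d3)
  rw [e, hfil_add ha ha hU, k1, k2.hfil_zero ha ha hU fun _ _ c => c, add_zero]

/-- Hint: for generators, `hfil R (ν ^ n) * hfil R' (ν ^ m) = hfil R'' (ν ^ (n + m))` with
`R'' s u := ∃ t, mv (n * ω) s t ∧ mv (m * ω) t u ∧ R s t ∧ R' t u`: split both powers by `hfil_add_not`, expand; the
first product is supported on `R''`, the three others on its complement by `M.mid` (`HOn.pow`, `HOn.hfil`). -/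
theorem LJ.mul (M : Mach2 K mv hull) (ha : Lc a p) (hν : HOn p p (mv ω) ν) (hw : 1 ≤ w)
    (hw' : 1 ≤ w') (hx : x ∈ LJ p ν w) (hy : y ∈ LJ p ν w') : x * y ∈ LJ p ν (w + w') := by
  induction hx using AddSubgroup.closure_induction with
  | mem x hx =>
    induction hy using AddSubgroup.closure_induction with
    | mem y hy =>
      obtain ⟨n, R, h1, h2, rfl⟩ := hx
      obtain ⟨m, R', h3, h4, rfl⟩ := hy
      obtain ⟨n, rfl⟩ : ∃ k, n = k + 1 := ⟨n - 1, by omega⟩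
      obtain ⟨m, rfl⟩ : ∃ k, m = k + 1 := ⟨m - 1, by omega⟩
      obtain ⟨U, hU, e⟩ := DE_gen M ha h2 h4 (hν.pow M n) (hν.pow M m)
      exact AddSubgroup.subset_closure ⟨n + 1 + (m + 1), U, add_le_add h1 h3, hU,
        e.trans (congrArg _ (pow_add ν _ _).symm)⟩
    | zero => rw [Hm.mul_zero]; exact zero_mem _
    | add y z _ _ h1 h2 => rw [Hm.mul_add]; exact add_mem h1 h2
    | neg y _ h1 => rw [Hm.mul_neg]; exact neg_mem h1
  | zero => rw [Hm.zero_mul]; exact zero_mem _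
  | add x z _ _ h1 h2 => rw [Hm.add_mul]; exact add_mem h1 h2
  | neg x _ h1 => rw [Hm.neg_mul]; exact neg_mem h1

end

end Pool.Agent.Work.MP_9d1ffa_al.Dg
end

-- merged part: Pool.Agent.Work.MP_9d1ffa_al.Dg.DE2
section
/-! Elimination of nilpotent classes orbit by orbit. -/

namespace Pool.Agent.Work.MP_9d1ffa_al.Dg

open MonoidAlgebra

set_option linter.unusedSectionVars false
set_option linter.unusedVariables false
set_option linter.unusedSimpArgs false

variable {X K P : Type} [Group K] [MulAction K P] {Λ : DG} {ρ : K →* Equiv.Perm X} {a : Tw Λ ρ}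
  {mv : ℕ → P → P → Prop} {hull : P → P → P} {p : a.ob.I → P}

theorem DE2_nil (M : Mach2 K mv hull) (ha : Lc a p) {ω N w : ℕ} {ν x : Hom a a}
    (hν : HOn p p (mv ω) ν) (hN : ν ^ N = 0) (hw : 1 ≤ w) (hx : x ∈ LJ p ν w) : IsNilpotent x := by
  have k : ∀ n, x ^ (n + 1) ∈ LJ p ν (n + 1) := fun n => by
    induction n with
    | zero => simpa using LJ.anti hw hx
    | succ n ih =>
      rw [pow_succ]
      exact LJ.mul M ha hν (by omega) le_rfl ih (LJ.anti hw hx)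
  exact ⟨N + 1, LJ.eq_zero ha hN (Nat.le_succ N) (k N)⟩

theorem DE2_inv (M : Mach2 K mv hull) (ha : Lc a p) {ω N : ℕ} {ν : Hom a a}
    (hν : HOn p p (mv ω) ν) (hN : ν ^ N = 0) (n : ℕ) : ∀ w : ℕ, 1 ≤ w → N ≤ w + n →
      ∀ x ∈ LJ p ν w, ∃ y ∈ LJ p ν w, (1 + x) * (1 + y) = 1 := by
  induction n with
  | zero =>
    intro w hw hk x hx
    have : x = 0 := LJ.eq_zero ha hN hk hx
    exact ⟨0, zero_mem _, by rw [this, add_zero, mul_one]⟩
  | succ n ih =>
    intro w hw hk x hx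
    have h2 : -(x * x) ∈ LJ p ν (w + 1) :=
      neg_mem (LJ.anti (by omega) (LJ.mul M ha hν hw hw hx hx))
    obtain ⟨b, hb, e⟩ := ih (w + 1) (by omega) (by omega) _ h2
    have hb' : b ∈ LJ p ν w := LJ.anti (by omega) hb
    refine ⟨-x + b + -(x * b), add_mem (add_mem (neg_mem hx) hb')
      (neg_mem (LJ.anti (by omega) (LJ.mul M ha hν hw hw hx hb'))), ?_⟩
    refine Eq.trans ?_ e
    noncomm_ring

/-- Hint: port `LJ.inv` and `lazard` of `Rt/QL.lean`.  Instead of counting orbits do an induction on a finite set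
`s : Finset (P × P)` with `HOn p p (fun u v => ∃ θ ∈ s, Orb K θ.1 θ.2 u v) x` (start from `exists_fin`).  For a new `θ` put
`x₁ = hfil (Orb K θ.1 θ.2) x`; either there are `i j g n` with `Orb K θ.1 θ.2 (p i) (g • p j)`, `1 ≤ n`, `mv n (p i) (g • p j)`, and then
`h1` applies (elements of `LJ p ν w` with `1 ≤ w` are nilpotent by `LJ.mul`, `LJ.eq_zero`), or `x₁ = 0` (`LJ.on`, `HOn.and`,
`HOn.mono'`, `HOn.eq_zero`). -/
theorem lazard (M : Mach2 K mv hull) (ha : Lc a p) {ω : ℕ} (hω : 1 ≤ ω) {ν : Hom a a}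
    (hν : HOn p p (mv ω) ν) (hn : IsNilpotent ν)
    (h1 : ∀ (i j : a.ob.I) (g : K) (n : ℕ), 1 ≤ n → mv n (p i) (g • p j) → ∀ x : Hom a a,
      HOn p p (Orb K (p i) (g • p j)) x → IsNilpotent x → Tz (1 + x)) : Tz (1 + ν) := by
  classical
  obtain ⟨N, hN⟩ := hn
  have key : ∀ n w : ℕ, 1 ≤ w → N ≤ w + n → ∀ x ∈ LJ p ν w, Tz (1 + x) := by
    intro n
    induction n with
    | zero =>
      intro w hw hk x hx
      rw [LJ.eq_zero ha hN hk hx, add_zero]
      exact tz_one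
    | succ n ih =>
      intro w hw hk
      have step : ∀ (s : Finset (P × P)) (x c : Hom a a),
          HOn p p (fun u v => ∃ θ ∈ s, Orb K θ.1 θ.2 u v) x → x ∈ LJ p ν w →
          c ∈ LJ p ν (w + 1) → Tz (1 + x + c) := by
        intro s
        induction s using Finset.induction_on with
        | empty =>
          intro x c hs hx hc
          rw [hs.eq_zero fun s t ⟨θ, h, _⟩ => absurd h (Finset.notMem_empty θ), add_zero]
          exact ih (w + 1) (by omega) (by omega) c hc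
        | insert θ s _ ihs =>
          intro x c hs hx hc
          have hO := inv_orb (G := K) θ.1 θ.2
          have hx1 := LJ.hfil ha hO hx
          have hx2 := LJ.hfil ha (inv_compl hO) hx
          have hsum := hfil_add_not ha ha hO x
          have on1 := hOn_hfil ha ha hO x
          have on2 := (hs.hfil ha ha (inv_compl hO)).mono
            (R' := fun u v => ∃ θ ∈ s, Orb K θ.1 θ.2 u v) (by
              rintro u v ⟨⟨η, h, o⟩, k⟩
              rcases Finset.mem_insert.1 h with rfl | h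
              exacts [absurd o k, ⟨η, h, o⟩])
          generalize hfil p p (Orb K θ.1 θ.2) x = x₁ at hx1 hsum on1
          generalize hfil p p (fun u v => ¬ Orb K θ.1 θ.2 u v) x = x₂ at hx2 hsum on2
          have ht1 : Tz (1 + x₁) := by
            by_cases e : ∃ (i j : a.ob.I) (g : K), (∃ n, 1 ≤ n ∧ mv n (p i) (g • p j)) ∧
                Orb K θ.1 θ.2 (p i) (g • p j)
            · obtain ⟨i, j, g, ⟨m, m1, m2⟩, δ, e1, e2⟩ := e
              refine h1 i j g m m1 m2 x₁ (on1.mono ?_) (DE2_nil M ha hν hN hw hx1)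
              rintro u v ⟨γ, rfl, rfl⟩
              exact ⟨γ * δ⁻¹, by rw [e1, mul_smul, inv_smul_smul],
                by rw [e2, mul_smul, inv_smul_smul]⟩
            · rw [(((LJ.on M ha hω hν hw hx1).and ha ha on1 hO).mono' (R' := fun _ _ => False)
                fun i j g k => e ⟨i, j, g, k⟩).eq_zero fun _ _ => id, add_zero]
              exact tz_one
          obtain ⟨b, hb, e⟩ := DE2_inv M ha hν hN N w hw (by omega) x₁ hx1
          have hc' : c + b * (x₂ + c) ∈ LJ p ν (w + 1) := add_mem hc (LJ.anti (by omega)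
            (LJ.mul M ha hν hw hw hb (add_mem hx2 (LJ.anti (by omega) hc))))
          have hm := ht1.mul (ihs x₂ _ on2 hx2 hc')
          have : (1 + x₁) * (1 + x₂ + (c + b * (x₂ + c))) = 1 + x + c := by
            have e1 : 1 + x₂ + (c + b * (x₂ + c)) = 1 + (1 + b) * (x₂ + c) := by noncomm_ring
            rw [e1, mul_add, ← mul_assoc, e, ← hsum]
            noncomm_ring
          exact this ▸ hm
      intro x hx
      obtain ⟨s, hs⟩ := exists_fin ha.fin ha.fin x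
      have := step s x 0 (hs.mono fun u v k => ⟨(u, v), k, 1, (one_smul _ _).symm,
        (one_smul _ _).symm⟩) hx (zero_mem _)
      rwa [add_zero] at this
  exact key N 1 le_rfl (by omega) ν (LJ.self ha)

end Pool.Agent.Work.MP_9d1ffa_al.Dg
end

-- merged part: Pool.Agent.Work.MP_9d1ffa_al.Dg.DU
section
/-! Complexes with labels that cover a given complex. -/

namespace Pool.Agent.Work.MP_9d1ffa_al.Dg

open MonoidAlgebra

set_option linter.unusedSectionVars false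
set_option linter.unusedVariables false
set_option linter.unusedSimpArgs false

variable {X K Z : Type} [Group K] [MulAction K Z] {Λ : DG} {ρ : K →* Equiv.Perm X}
  {a b : Tw Λ ρ}

/-- basis elements of `a` together with labels, closed under the differential -/
structure HD (a : Tw Λ ρ) (Z : Type) [MulAction K Z] : Type 1 where
  ι : Type
  s : ι → a.ob.I
  lab : ι → Z
  fin : (Set.range lab).Finite
  inj : ∀ x y, s x = s y → lab x = lab y → x = y
  cl : ∀ x j g, cf a.δ (s x) j g ≠ 0 → ∃ y, s y = j ∧ lab x = g • lab y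

namespace HD

variable (H : HD a Z)

/-- the object -/
@[reducible] def ob : Ob X where
  I := H.ι
  t x := a.ob.t (H.s x)
  x x := a.ob.x (H.s x)
  fin n := Set.Finite.of_finite_image (f := fun x => (H.s x, H.lab x))
    (((a.ob.fin n).prod H.fin).subset (by
      rintro _ ⟨x, hx, rfl⟩
      exact ⟨hx, x, rfl⟩))
    fun x _ y _ e => H.inj x y (congrArg Prod.fst e) (congrArg Prod.snd e)
  pos x := a.ob.pos _
  tot x := a.ob.tot _
  cpt := a.ob.cpt.imp fun _ h x => h _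

/-- the projection -/
noncomputable def inc : (OA Λ.A ρ).Hom H.ob a.ob :=
  pm Λ.A (I := H.ob) H.s (fun _ => 1) (fun _ => 1) (ctS_one (by
    rintro i _ _ ⟨rfl, rfl⟩
    exact ⟨rfl, rfl, rfl⟩))

theorem isPm_inc : IsPm H.inc H.s (fun _ => 1) fun _ => 1 := isPm_pm _

open Classical in
/-- the lift of a morphism -/
noncomputable def lf {J : Ob X} (r : J.I → Z) (f : (OA Λ.A ρ).Hom J a.ob) :
    (OA Λ.A ρ).Hom J H.ob :=
  ofCf (fun i y g => if r i = g • H.lab y then cf f i (H.s y) g else 0)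
    (((cts f).pull (b' := H.ob) id H.s (fun _ => rfl) (fun _ => rfl) (fun _ => rfl)
      fun _ => rfl).mono fun i y g e k => e (by
        have k' : cf f i (H.s y) g = 0 := k
        rw [k', ite_self]))

section

variable {J : Ob X} {r : J.I → Z}

open Classical in
theorem cf_lf (f : (OA Λ.A ρ).Hom J a.ob) (i : J.I) (y : H.ι) (g : K) :
    cf (H.lf r f) i y g = if r i = g • H.lab y then cf f i (H.s y) g else 0 := rfl

theorem on_lf (f : (OA Λ.A ρ).Hom J a.ob) : On (rel r H.lab Eq) (H.lf r f) := fun i y g e => by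
  by_contra k
  exact e (by rw [cf_lf, if_neg k])

theorem lf_ne {f : (OA Λ.A ρ).Hom J a.ob} {i : J.I} {y : H.ι} {g : K}
    (e : cf (H.lf r f) i y g ≠ 0) : cf f i (H.s y) g ≠ 0 := fun k => e (by rw [cf_lf, k, ite_self])

theorem gd_lf {k : ℤ} {n : J.I → ℤ} {f : (OA Λ.A ρ).Hom J a.ob} (h : Gd k n a.deg f) :
    Gd (J := H.ob) k n (fun y => a.deg (H.s y)) (H.lf r f) := fun i y g => by
  rw [cf_lf]
  split_ifs
  exacts [h i _ g, zero_mem _]

/-- Hint: `IsPm.mul_cf` for `H.isPm_inc`; its side condition follows from `H.inj`. -/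
theorem cf_mul_inc {k : (OA Λ.A ρ).Hom J H.ob} (hk : On (rel r H.lab Eq) k) {i : J.I} {y : H.ι}
    {g : K} (e : r i = g • H.lab y) : cf (k * H.inc) i (H.s y) g = cf k i y g := by
  have h := H.isPm_inc.mul_cf k i y g fun y' e1 e2 => by
    have e3 : r i = (g * 1⁻¹) • H.lab y' := hk i y' _ e2
    rw [inv_one, mul_one, e] at e3
    exact H.inj _ _ e1 (smul_left_cancel g e3).symm
  simpa using h

theorem inj_mul {k : (OA Λ.A ρ).Hom J H.ob} (hk : On (rel r H.lab Eq) k) (e : k * H.inc = 0) :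
    k = 0 := hom_ext fun i y g => by_contra fun c => c (by
  rw [← H.cf_mul_inc hk (hk i y g c), e]
  rfl)

/-- Hint: compare coefficients at `(i, j, g)`; if some `y` has `s y = j` and `r i = g • lab y` use `cf_mul_inc`,
otherwise both sides vanish (`cf_mul_ne`, `IsPm.on`). -/
theorem lf_mul_inc {f : (OA Λ.A ρ).Hom J a.ob}
    (cov : ∀ i j g, cf f i j g ≠ 0 → ∃ y, H.s y = j ∧ r i = g • H.lab y) :
    H.lf r f * H.inc = f := by
  refine hom_ext fun i j g => ?_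
  by_cases c : ∃ y, H.s y = j ∧ r i = g • H.lab y
  · obtain ⟨y, rfl, e⟩ := c
    rw [H.cf_mul_inc (H.on_lf f) e, cf_lf, if_pos e]
  · rw [of_not_not (mt (cov i j g) c)]
    by_contra k
    obtain ⟨y, g₁, g₂, rfl, h1, h2⟩ := cf_mul_ne k
    obtain ⟨e1, e2⟩ := H.isPm_inc.on y j g₂ h2
    refine c ⟨y, e1, ?_⟩
    rw [← e2, mul_one]
    exact H.on_lf f i y g₁ h1

end

/-- the differential -/
noncomputable def δ : (OA Λ.A ρ).Hom H.ob H.ob := H.lf H.lab (H.inc * a.δ)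

theorem δ_ne {x y : H.ι} {g : K} (e : cf H.δ x y g ≠ 0) : cf a.δ (H.s x) (H.s y) g ≠ 0 := by
  have := H.lf_ne e
  rw [H.isPm_inc.cf_mul] at this
  simpa using this

theorem δ_inc : H.δ * H.inc = H.inc * a.δ := H.lf_mul_inc fun x j g e => H.cl x j g (by
  rw [H.isPm_inc.cf_mul] at e
  simpa using e)

theorem gd_inc : Gd (I := H.ob) 0 (fun y => a.deg (H.s y)) a.deg H.inc :=
  H.isPm_inc.gd fun _ => (zero_add _).symm

theorem gd_δ : Gd (I := H.ob) (J := H.ob) 1 (fun y => a.deg (H.s y)) (fun y => a.deg (H.s y)) H.δ :=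
  H.gd_lf (H.gd_inc.mul' a.gd (zero_add _))

/-- Hint: `inj_mul`; `pd δ * inc = pd (δ * inc)` by `pd_mul1`, `IsPm.pd`, then `δ_inc`, `pd_mul0`, `a.mc`. -/
theorem mc : pd (I := H.ob) (fun y => a.deg (H.s y)) H.δ + H.δ * H.δ = 0 := by
  have h0 : On (rel H.lab H.lab Eq) H.δ := H.on_lf _
  refine H.inj_mul (r := H.lab) ((h0.pd _).add (h0.rmul h0 (fun g x y e => congrArg (g • ·) e)
    fun x y z e e' => e.trans e')) ?_
  have h1 := pd_mul1 H.gd_δ odd_one H.inc
  have h2 := pd_mul0 H.gd_inc a.δ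
  rw [H.isPm_inc.pd, Hm.mul_zero, sub_zero, H.δ_inc] at h1
  rw [H.isPm_inc.pd, Hm.zero_mul, zero_add] at h2
  rw [Hm.add_mul, ← h1, h2, Hm.mul_assoc, H.δ_inc, ← Hm.mul_assoc, H.δ_inc, Hm.mul_assoc,
    ← Hm.mul_add]
  exact (congrArg (H.inc * ·) a.mc).trans (Hm.mul_zero _)

/-- the covering complex -/
@[reducible] noncomputable def tw : Tw Λ ρ where
  ob := H.ob
  deg y := a.deg (H.s y)
  δ := H.δ
  gd := H.gd_δ
  mc := H.mc
  lev := by
    obtain ⟨l, hl, h⟩ := a.lev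
    obtain ⟨N, hN⟩ := bd_iff.1 hl
    exact ⟨fun y => l (H.s y), bd_iff.2 ⟨N, fun y => hN _⟩, fun x y g e => h _ _ g (H.δ_ne e)⟩

theorem lc : Lc H.tw H.lab := ⟨H.fin, H.on_lf _⟩

theorem ch_inc : Ch H.tw a H.inc := H.isPm_inc.ch (a := H.tw) (fun _ => rfl) H.δ_inc

/-- Hint: `D0 u * inc = D0 (u * inc) = 0` (`D0_mul0`, `ch_inc`), and `D0 u` preserves labels; `inj_mul`. -/
theorem ch_of {r : b.ob.I → Z} (hb : Lc b r) {u : Mor b H.tw} (h1 : Gd 0 b.deg H.tw.deg u)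
    (h2 : On (rel r H.lab Eq) u) (h3 : Ch b a (u * H.inc)) : Ch b H.tw u := by
  refine ⟨h1, H.inj_mul (r := r) ?_ ?_⟩
  · have i : Inv K (Eq : Z → Z → Prop) := fun g x y e => congrArg (g • ·) e
    exact ((h2.pd _).add (hb.loc.rmul h2 i fun x y z e e' => e.trans e')).sub
      (h2.rmul H.lc.loc i fun x y z e e' => e.trans e')
  · have := D0_mul0 (c := a) h1 H.inc
    rw [h3.d, H.ch_inc.d, Hm.mul_zero, add_zero] at this
    exact this.symm

theorem lift {r : b.ob.I → Z} (hb : Lc b r) {f : Mor b a} (hf : Ch b a f)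
    (cov : ∀ i j g, cf f i j g ≠ 0 → ∃ y, H.s y = j ∧ r i = g • H.lab y) :
    Ch b H.tw (H.lf r f) :=
  H.ch_of hb (H.gd_lf hf.gd) (H.on_lf f) (by rw [H.lf_mul_inc cov]; exact hf)

end HD

/-- Hint: let `T` be the finite set of group elements of `a.δ` (`cts`), `l < N` a level function.  Define finite good
sets `W 0 ⊇ W₀` and `W (m + 1) ⊇ W m ∪ T⁻¹ • W m` by recursion (choice on the subtype of finite sets), monotone in `m`,
and put `U i = W (N - l i)`. -/
theorem exists_levels (a : Tw Λ ρ) (Good : Set Z → Prop)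
    (hG : ∀ A : Set Z, A.Finite → ∃ B : Set Z, B.Finite ∧ A ⊆ B ∧ Good B) {W₀ : Set Z}
    (h₀ : W₀.Finite) : ∃ U : a.ob.I → Set Z, (⋃ i, U i).Finite ∧ (∀ i, W₀ ⊆ U i) ∧
      (∀ i, Good (U i)) ∧ ∀ i j g, cf a.δ i j g ≠ 0 → ∀ z ∈ U i, g⁻¹ • z ∈ U j := by
  classical
  obtain ⟨T, hT⟩ := (cts a.δ).1
  obtain ⟨l, hl, h⟩ := a.lev
  obtain ⟨N, hN⟩ := bd_iff.1 hl
  choose! F hF1 hF2 hF3 using hG
  let st : Set Z → Set Z := fun A => A ∪ ⋃ g ∈ T, (fun z => g⁻¹ • z) '' A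
  have hst : ∀ A : Set Z, A.Finite → (st A).Finite := fun A hA =>
    hA.union (T.finite_toSet.biUnion fun g _ => hA.image _)
  let W : ℕ → Set Z := fun m => Nat.rec (F W₀) (fun _ A => F (st A)) m
  have hW : ∀ m, W (m + 1) = F (st (W m)) := fun m => rfl
  have fW : ∀ m, (W m).Finite := fun m => by
    induction m with
    | zero => exact hF1 _ h₀
    | succ m ih => exact hF1 _ (hst _ ih)
  have sW : ∀ m, st (W m) ⊆ W (m + 1) := fun m => hF2 _ (hst _ (fW m))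
  have mW : Monotone W := monotone_nat_of_le_succ fun m => Set.subset_union_left.trans (sW m)
  refine ⟨fun i => W (N - l i), (fW N).subset (Set.iUnion_subset fun i => mW (Nat.sub_le _ _)),
    fun i => (hF2 _ h₀).trans (mW (Nat.zero_le _)), fun i => ?_, fun i j g e z hz => ?_⟩
  · show Good (W (N - l i))
    rcases N - l i with _ | m
    exacts [hF3 _ h₀, hF3 _ (hst _ (fW m))]
  · have h1 : l j < l i := h i j g e
    have h2 := hN i
    refine mW (show N - l i + 1 ≤ N - l j by omega) (sW _ (Or.inr ?_))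
    exact Set.mem_biUnion (hT i j g e) ⟨z, hz, rfl⟩

end Pool.Agent.Work.MP_9d1ffa_al.Dg
end

-- merged part: Pool.Agent.Work.MP_9d1ffa_al.Dg.DF
section
/-! Factorisation of a class through a complex with a single label. -/

namespace Pool.Agent.Work.MP_9d1ffa_al.Dg

open MonoidAlgebra

set_option linter.unusedSectionVars false
set_option linter.unusedVariables false
set_option linter.unusedSimpArgs false

variable {X K P : Type} [Group K] [MulAction K P] {Λ : DG} {ρ : K →* Equiv.Perm X}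
  {a : Tw Λ ρ} {p : a.ob.I → P}

/-- the object with translated positions -/
@[reducible] noncomputable def DF_ob (ρ : K →* Equiv.Perm X) (A : Ob X) (γ : A.I → K)
    (hγ : (Set.range γ).Finite) : Ob X where
  I := A.I
  t := A.t
  x i := (A.x i).mapDomain (ρ (γ i)⁻¹)
  fin := A.fin
  pos i := mapDomain_pos _ (A.pos i)
  tot i := (l1_mapDomain_perm _ _).trans (A.tot i)
  cpt := by
    classical
    obtain ⟨F, hF⟩ := A.cpt
    refine ⟨Finset.image₂ (fun g y => ρ g⁻¹ y) hγ.toFinset F, fun i y hy => ?_⟩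
    obtain ⟨z, hz, rfl⟩ := Finset.mem_image.1 (Finsupp.mapDomain_support hy)
    exact Finset.mem_image₂_of_mem (hγ.mem_toFinset.2 ⟨i, rfl⟩) (hF i z hz)

theorem DF_cts (A : Ob X) (γ : A.I → K) (hγ : (Set.range γ).Finite) :
    CtS ρ A (DF_ob ρ A γ hγ) fun i j g => Equiv.refl A.I i = j ∧ γ i = g := by
  refine ⟨⟨hγ.toFinset, fun i j g e => hγ.mem_toFinset.2 ⟨i, e.2⟩⟩, ⟨0, ?_⟩, fun ε hε => ⟨0, ?_⟩⟩
  · rintro i _ _ ⟨rfl, rfl⟩
    exact ⟨le_rfl, le_rfl⟩
  · rintro i _ _ - ⟨rfl, rfl⟩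
    change l1 (A.x i - ((A.x i).mapDomain (ρ (γ i)⁻¹)).mapDomain (ρ (γ i))) ≤ ε
    rw [← mapDomain_rho_mul, mul_inv_cancel, mapDomain_rho_one, sub_self, l1_zero]
    exact hε.le

theorem DF_mc {I J : Ob X} {n : I.I → ℤ} {n' : J.I → ℤ} {δ : (OA Λ.A ρ).Hom I I}
    {m : (OA Λ.A ρ).Hom I J} {m' : (OA Λ.A ρ).Hom J I} (hδ : Gd 1 n n δ) (h : pd n δ + δ * δ = 0)
    (g' : Gd 0 n' n m') (p1 : pd n m = 0) (p2 : pd n' m' = 0) (e : m * m' = 1) :
    pd n' (m' * (δ * m)) + m' * (δ * m) * (m' * (δ * m)) = 0 := by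
  have e1 : pd n' (m' * (δ * m)) = m' * (pd n δ * m) := by
    rw [pd_mul0 g', p2, Hm.zero_mul, zero_add, pd_mul1 hδ odd_one, p1, Hm.mul_zero, sub_zero]
  have e2 : m * (m' * (δ * m)) = δ * m := by rw [← Hm.mul_assoc, e, Hm.one_mul]
  have e3 : m' * (δ * m) * (m' * (δ * m)) = m' * (δ * δ * m) :=
    (Hm.mul_assoc m' (δ * m) (m' * (δ * m))).trans (congrArg (m' * ·)
      ((Hm.mul_assoc δ m _).trans ((congrArg (δ * ·) e2).trans (Hm.mul_assoc δ δ m).symm)))
  rw [e1, e3, ← Hm.mul_add, ← Hm.add_mul, h, Hm.zero_mul, Hm.mul_zero]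

/-- the transport of a complex along a monomial isomorphism -/
theorem DF_tr (ha : Lc a p) {J : Ob X} {q : J.I → P} (hq : (Set.range q).Finite) {e : a.ob.I ≃ J.I}
    {γ : a.ob.I → K} {m : (OA Λ.A ρ).Hom a.ob J} (hm : IsPm m e γ fun _ => 1)
    (h1 : ∀ i, p i = γ i • q (e i)) :
    ∃ (b : Tw Λ ρ) (r : b.ob.I → P) (u : Hom a b) (u' : Hom b a), (∀ i, ∃ j, r i = q j) ∧ Lc b r ∧
      u * u' = 1 ∧ u' * u = 1 ∧ HOn p r Eq u ∧ HOn r p Eq u' := by
  obtain ⟨m', hm', e1, e2⟩ := hm.inv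
  have g1 : Gd 0 a.deg (fun j => a.deg (e.symm j)) m := hm.gd fun i => by
    rw [e.symm_apply_apply, zero_add]
  have g2 : Gd 0 (fun j => a.deg (e.symm j)) a.deg m' := hm'.gd fun _ => (zero_add _).symm
  have o1 : On (rel p q Eq) m := hm.on.mono fun i j g k => by
    obtain ⟨rfl, rfl⟩ := k
    exact h1 i
  have o2 : On (rel q p Eq) m' := hm'.on.mono fun j i g k => by
    obtain ⟨rfl, rfl⟩ := k
    refine eq_inv_smul_iff.2 ?_
    rw [h1 (e.symm j), e.apply_symm_apply]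
  obtain ⟨l, l1, l2⟩ := a.lev
  obtain ⟨N, hN⟩ := bd_iff.1 l1
  have k1 : On (fun i j _ => l (e.symm j) < l i) (a.δ * m) :=
    l2.mul hm.on fun i j k _ _ c c' => by
      rw [← c'.1, e.symm_apply_apply]
      exact c
  have k2 : Lo (fun j => l (e.symm j)) (fun j => l (e.symm j)) (m' * (a.δ * m)) :=
    hm'.on.mul k1 fun i j k _ _ c c' => c'.trans_eq (congrArg l c.1).symm
  have k3 : Gd 1 (fun j => a.deg (e.symm j)) (fun j => a.deg (e.symm j)) (m' * (a.δ * m)) :=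
    g2.mul' (a.gd.mul' g1 (add_zero _)) (zero_add _)
  have k4 := DF_mc a.gd a.mc g2 (hm.pd _) (hm'.pd _) e1
  have k5 : a.δ * m = m * (m' * (a.δ * m)) := by rw [← Hm.mul_assoc, e1, Hm.one_mul]
  have k6 : m' * (a.δ * m) * m' = m' * a.δ := by rw [Hm.mul_assoc, Hm.mul_assoc, e1, Hm.mul_one]
  have k7 : On (rel q q Eq) (m' * (a.δ * m)) :=
    o2.rmul (ha.loc.rmul (U := Eq) o1 inv_eq fun _ _ _ => Eq.trans) inv_eq fun _ _ _ => Eq.trans
  let b : Tw Λ ρ := ⟨J, fun j => a.deg (e.symm j), m' * (a.δ * m), k3, k4,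
    ⟨fun j => l (e.symm j), bd_iff.2 ⟨N, fun _ => hN _⟩, k2⟩⟩
  have c1 : Ch a b m := IsPm.ch (b := b) hm (fun i => congrArg a.deg (e.symm_apply_apply i)) k5
  have c2 : Ch b a m' := IsPm.ch (a := b) hm' (fun _ => rfl) k6
  obtain ⟨u, hu⟩ := c1.exists_rp
  obtain ⟨u', hu'⟩ := c2.exists_rp
  exact ⟨b, q, u, u', fun i => ⟨i, rfl⟩, ⟨hq, k7⟩, (hu.mul hu').uniq (rp_one.congr e1.symm),
    (hu'.mul hu).uniq (rp_one.congr e2.symm), ⟨m, hu, o1⟩, ⟨m', hu', o2⟩⟩

/-- Labels in one orbit can be made constant.  Hint: choose `c : P → K` with `z = c z • σ` on the orbit, let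
`γ i = c (p i)` (finite range).  The new object has the same basis and heights and the positions
`(a.ob.x i).mapDomain (ρ (γ i)⁻¹)` (`mapDomain_pos`, `l1_mapDomain_perm`, `Finsupp.mapDomain_support`).  Let
`m = pm _ id γ 1 _` (control: `mapDomain_rho_mul`, `mapDomain_rho_one`), `m'` from `IsPm.inv` with `Equiv.refl`, and take the
differential `m' * a.δ * m` (`pd_mul0`, `IsPm.pd`, `IsPm.gd`, `On.mul` with `IsPm.on`).  `u`, `u'` are the classes of `m`, `m'`. -/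
theorem exists_const (ha : Lc a p) {σ : P} (h : ∀ i, ∃ g : K, p i = g • σ) :
    ∃ (b : Tw Λ ρ) (u : Hom a b) (u' : Hom b a), Lc b (fun _ => σ) ∧ u * u' = 1 ∧ u' * u = 1 ∧
      HOn p (fun _ => σ) Eq u ∧ HOn (fun _ => σ) p Eq u' := by
  have h0 : ∀ z : P, ∃ c : K, (∃ g : K, z = g • σ) → z = c • σ := fun z => by
    by_cases e : ∃ g : K, z = g • σ
    · exact e.imp fun _ k _ => k
    · exact ⟨1, fun k => absurd k e⟩
  choose c hc using h0
  obtain ⟨γ, hγ, h1⟩ : ∃ γ : a.ob.I → K, (Set.range γ).Finite ∧ ∀ i, p i = γ i • σ :=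
    ⟨fun i => c (p i), fin_comp ha.fin c, fun i => hc _ (h i)⟩
  obtain ⟨b, r, u, u', k1, k2⟩ := DF_tr ha (J := DF_ob ρ a.ob γ hγ) (q := fun _ => σ)
    Set.finite_range_const (e := Equiv.refl a.ob.I) (isPm_pm (DF_cts a.ob γ hγ)) h1
  obtain rfl : r = fun _ => σ := funext fun i => (k1 i).elim fun _ e => e
  exact ⟨b, u, u', k2⟩

/-- Hint: let `f` represent `x` with support in the orbit, `T` its finite set of group elements.  Apply
`exists_levels` with `Good = True` and `W₀ = T⁻¹ • range p`; take `H : HD a P` with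
`ι = {y : a.ob.I × P // y.2 ∈ U y.1 ∧ Orb K σ τ y.2 (p y.1)}`; `u` is the class of `H.lf p f` (`HD.lift`, `HD.lf_mul_inc`),
`w` the class of `H.inc`.  The labels `fun y => (H.lab y, p (H.s y))` make `H.tw` located in `P × P` (`HD.δ_ne`, `HD.lc`),
they lie in the orbit of `(σ, τ)`; finish with `exists_const` and `HOn.mul`. -/
theorem exists_fac (ha : Lc a p) {σ τ : P} {x : Hom a a} (hx : HOn p p (Orb K σ τ) x) :
    ∃ (L : Tw Λ ρ) (u : Hom a L) (w : Hom L a), Lc L (fun _ => (σ, τ)) ∧ u * w = x ∧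
      HOn p (fun _ => (σ, τ)) (fun s θ => s = θ.1) u ∧
      HOn (fun _ => (σ, τ)) p (fun θ t => t = θ.2) w := by
  obtain ⟨f, hf, ho⟩ := hx
  obtain ⟨T, hT⟩ := (cts f).1
  obtain ⟨U, u1, u2, -, u3⟩ := exists_levels a (fun _ : Set P => True)
    (fun A hA => ⟨A, hA, subset_rfl, trivial⟩)
    (T.finite_toSet.image2 (fun (g : K) (v : P) => g⁻¹ • v) ha.fin)
  have io : ∀ (g : K) (s t : P), Orb K σ τ s (g • t) → Orb K σ τ (g⁻¹ • s) t := fun g s t e => by
    have := inv_orb σ τ g⁻¹ _ _ e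
    rwa [inv_smul_smul] at this
  let H : HD a P :=
    { ι := {y : a.ob.I × P // y.2 ∈ U y.1 ∧ Orb K σ τ y.2 (p y.1)}
      s := fun y => y.1.1
      lab := fun y => y.1.2
      fin := u1.subset (by
        rintro _ ⟨y, rfl⟩
        exact Set.mem_iUnion.2 ⟨_, y.2.1⟩)
      inj := fun x y e e' => Subtype.ext (Prod.ext e e')
      cl := fun y j g e => ⟨⟨(j, g⁻¹ • y.1.2), u3 _ j g e _ y.2.1, io g _ _ (by
        rw [← show p y.1.1 = g • p j from ha.loc _ j g e]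
        exact y.2.2)⟩, rfl, (smul_inv_smul g _).symm⟩ }
  have cov : ∀ i j g, cf f i j g ≠ 0 → ∃ y, H.s y = j ∧ p i = g • H.lab y := fun i j g e =>
    ⟨⟨(j, g⁻¹ • p i), u2 j (Set.mem_image2_of_mem (hT i j g e) ⟨i, rfl⟩), io g _ _ (ho i j g e)⟩,
      rfl, (smul_inv_smul g _).symm⟩
  obtain ⟨u, hu⟩ := (H.lift ha hf.ch cov).exists_rp
  obtain ⟨w, hw⟩ := H.ch_inc.exists_rp
  have e0 : u * w = x := (hu.mul hw).uniq (hf.congr (H.lf_mul_inc cov).symm)
  have lc : Lc H.tw fun y => (H.lab y, p (H.s y)) := ⟨(H.fin.prod ha.fin).subset (by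
      rintro _ ⟨y, rfl⟩
      exact ⟨⟨y, rfl⟩, _, rfl⟩),
    fun y y' g e => Prod.ext (H.lc.loc y y' g e) (ha.loc _ _ g (H.δ_ne e))⟩
  obtain ⟨L, v, v', hL, e1, -, o1, o2⟩ := exists_const lc (σ := (σ, τ)) fun y =>
    y.2.2.imp fun g e => Prod.ext e.1 e.2
  have o3 : HOn (b := H.tw) p (fun y => (H.lab y, p (H.s y))) (fun s θ => s = θ.1) u :=
    ⟨_, hu, H.on_lf f⟩
  have o4 : HOn (a := H.tw) (fun y => (H.lab y, p (H.s y))) p (fun θ t => t = θ.2) w :=
    ⟨_, hw, H.isPm_inc.on.mono fun y j g e => by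
      obtain ⟨rfl, rfl⟩ := e
      exact one_smul K _⟩
  refine ⟨L, u * v, v' * w, hL, ?_, o3.mul o1 inv_eq fun _ _ _ e e' => e' ▸ e,
    o2.mul o4 (fun g θ t e => congrArg (g • ·) e) fun _ _ _ e e' => e ▸ e'⟩
  rw [Hm.mul_assoc, ← Hm.mul_assoc v, e1, Hm.one_mul, e0]

end Pool.Agent.Work.MP_9d1ffa_al.Dg
end

-- merged part: Pool.Agent.Work.MP_9d1ffa_al.Dg.DG2
section
/-! The induction along rays. -/

namespace Pool.Agent.Work.MP_9d1ffa_al.Dg

open MonoidAlgebra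

set_option linter.unusedSectionVars false
set_option linter.unusedVariables false
set_option linter.unusedSimpArgs false

variable {X K P : Type} [Group K] [MulAction K P] {Λ : DG} {ρ : K →* Equiv.Perm X} {a : Tw Λ ρ}
  {mv : ℕ → P → P → Prop} {hull : P → P → P} {p : a.ob.I → P}

/-- all nilpotent classes along the loop of `s` at `σ` have trivial torsion -/
def LoopD (Λ : DG) (ρ : K →* Equiv.Perm X) (σ : P) (s : K) : Prop :=
  ∀ (J : Tw Λ ρ), Lc J (fun _ => σ) → ∀ x : Hom J J,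
    HOn (fun _ => σ) (fun _ => σ) (Orb K σ (s • σ)) x → IsNilpotent x → Tz (1 + x)

theorem refine_step (M : Mach2 K mv hull) {σ τ : P} {n : ℕ} (hn : 1 ≤ n) (hs : mv n σ τ)
    (h : ∀ (t : K) (m : ℕ), 1 ≤ m → mv m (hull σ τ) (t • hull σ τ) → LoopD Λ ρ (hull σ τ) t)
    (ha : Lc a p) {x : Hom a a} (hx : HOn p p (Orb K σ τ) x) (hN : IsNilpotent x) :
    Tz (1 + x) := by
  obtain ⟨L, u, w, hL, rfl, hu, hw⟩ := exists_fac ha hx
  have e : ∀ (g : K) (θ : P × P), hull (g • θ).1 (g • θ).2 = g • hull θ.1 θ.2 :=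
    fun g θ => M.eqv g θ.1 θ.2
  have hL' : Lc L fun _ => hull σ τ := hL.map (fun θ => hull θ.1 θ.2) e
  refine tz_swap u w (lazard M hL' hn ?_ ?_ fun i j g m hm k y hy => h g m hm k L hL' y hy)
  · have k : HOn (fun _ => (σ, τ)) (fun _ => (σ, τ)) (fun θ θ' : P × P => θ'.1 = θ.2) (w * u) :=
      hw.mul hu (fun g s θ c => c ▸ rfl) fun θ t θ' c c' => c'.symm.trans c
    have k' : HOn (fun _ => (σ, τ)) (fun _ => (σ, τ))
        (fun θ θ' : P × P => mv n (hull θ.1 θ.2) (hull θ'.1 θ'.2)) (w * u) :=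
      k.mono' fun i j g c => by
        have c' : g • σ = τ := c
        have := M.step hs (c' ▸ M.inv n g _ _ hs)
        exact c'.symm ▸ this
    exact k'.map (fun θ => hull θ.1 θ.2) (fun θ => hull θ.1 θ.2) e fun _ _ c => c
  · obtain ⟨N, hN⟩ := hN
    have key : ∀ N, (w * u) ^ (N + 1) = w * (u * w) ^ N * u := fun N => by
      induction N with
      | zero => rw [pow_zero, zero_add, pow_one, Hm.mul_one]
      | succ N ih =>
        rw [pow_succ, ih, pow_succ]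
        simp only [Hm.mul_assoc]
    exact ⟨N + 1, by rw [key, hN, Hm.mul_zero, Hm.zero_mul]⟩

theorem machine (M : Mach2 K mv hull)
    (hC : ¬ ∃ (f : ℕ → P) (s : ℕ → K), ∀ n, (∃ m, 1 ≤ m ∧ mv m (f n) (s n • f n)) ∧
      ¬ LoopD Λ ρ (f n) (s n) ∧ f (n + 1) = hull (f n) (s n • f n))
    (ha : Lc a p) {ν : Hom a a} (hν : HOn p p (mv 1) ν) (hn : IsNilpotent ν) : Tz (1 + ν) := by
  have claim : ∀ (σ : P) (s : K), (∃ m, 1 ≤ m ∧ mv m σ (s • σ)) → LoopD Λ ρ σ s := by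
    by_contra k
    push Not at k
    obtain ⟨σ, s, k⟩ := k
    have nx : ∀ x : {x : P × K // (∃ m, 1 ≤ m ∧ mv m x.1 (x.2 • x.1)) ∧ ¬ LoopD Λ ρ x.1 x.2},
        ∃ y : {x : P × K // (∃ m, 1 ≤ m ∧ mv m x.1 (x.2 • x.1)) ∧ ¬ LoopD Λ ρ x.1 x.2},
          y.1.1 = hull x.1.1 (x.1.2 • x.1.1) := fun x => by
      by_contra e
      obtain ⟨m, h1, h2⟩ := x.2.1
      refine x.2.2 fun J hJ b hb hn => refine_step M h1 h2 (fun t m' k1 k2 => ?_) hJ hb hn
      by_contra e'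
      exact e ⟨⟨(_, t), ⟨m', k1, k2⟩, e'⟩, rfl⟩
    choose nx hnx using nx
    refine hC ⟨fun n => (nx^[n] ⟨(σ, s), k⟩).1.1, fun n => (nx^[n] ⟨(σ, s), k⟩).1.2, fun n =>
      ⟨(nx^[n] ⟨(σ, s), k⟩).2.1, (nx^[n] ⟨(σ, s), k⟩).2.2, ?_⟩⟩
    simp only [Function.iterate_succ_apply']
    exact hnx _
  exact lazard M ha le_rfl hν hn fun i j g n h1 hg x hx hN =>
    refine_step M h1 hg (fun t m k1 k2 => claim _ t ⟨m, k1, k2⟩) ha hx hN

end Pool.Agent.Work.MP_9d1ffa_al.Dg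
end

-- merged part: Pool.Agent.Work.MP_9d1ffa_al.Dg.DP
section
/-! Change of groups. -/

namespace Pool.Agent.Work.MP_9d1ffa_al.Dg

open MonoidAlgebra

set_option linter.unusedSectionVars false
set_option linter.unusedVariables false
set_option linter.unusedSimpArgs false

variable {X K Γ : Type} [Group K] [Group Γ] {ρ : K →* Equiv.Perm X} {I J L M : Ob X}

section

variable {R : Type} [Ring R] (π : Γ →* K)

theorem mapDomain_ne {x : MonoidAlgebra R Γ} {g : K}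
    (h : (mapDomainRingHom R π x).coeff g ≠ 0) : ∃ a, π a = g ∧ x.coeff a ≠ 0 := by
  classical
  have : g ∈ (Finsupp.mapDomain π x.coeff).support := Finsupp.mem_support_iff.2 h
  obtain ⟨a, h1, h2⟩ := Finset.mem_image.1 (Finsupp.mapDomain_support this)
  exact ⟨a, h2, Finsupp.mem_support_iff.1 h1⟩

theorem CtS.push {S : I.I → J.I → Γ → Prop} (h : CtS (ρ.comp π) I J S) :
    CtS ρ I J fun i j g => ∃ a, π a = g ∧ S i j a := by
  classical
  obtain ⟨⟨T, hT⟩, ⟨c, hc⟩, hd⟩ := h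
  refine ⟨⟨T.image π, ?_⟩, ⟨c, ?_⟩, fun ε hε => (hd ε hε).imp fun n hn => ?_⟩
  · rintro i j _ ⟨a, rfl, e⟩
    exact Finset.mem_image_of_mem _ (hT i j a e)
  · rintro i j _ ⟨a, rfl, e⟩
    exact hc i j a e
  · rintro i j _ hi ⟨a, rfl, e⟩
    exact hn i j a hi e

/-- the image of a morphism -/
noncomputable def pf (A : (OA R (ρ.comp π)).Hom I J) : (OA R ρ).Hom I J :=
  mk ((val A).map (mapDomainRingHom R π)) (((cts A).push π).mono fun _ _ _ e => mapDomain_ne π e)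

theorem val_pf (A : (OA R (ρ.comp π)).Hom I J) :
    val (pf π A) = (val A).map (mapDomainRingHom R π) := rfl

theorem cf_pf (A : (OA R (ρ.comp π)).Hom I J) (i : I.I) (j : J.I) (g : K) :
    cf (pf π A) i j g = Finsupp.mapDomain π (val A i j).coeff g := rfl

theorem pf_add (A B : (OA R (ρ.comp π)).Hom I J) : pf π (A + B) = pf π A + pf π B :=
  val_inj (Matrix.ext fun _ _ => map_add (mapDomainRingHom R π) _ _)

theorem pf_neg (A : (OA R (ρ.comp π)).Hom I J) : pf π (-A) = -pf π A :=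
  val_inj (Matrix.ext fun _ _ => map_neg (mapDomainRingHom R π) _)

theorem pf_sub (A B : (OA R (ρ.comp π)).Hom I J) : pf π (A - B) = pf π A - pf π B :=
  val_inj (Matrix.ext fun _ _ => map_sub (mapDomainRingHom R π) _ _)

theorem pf_zero : pf π (0 : (OA R (ρ.comp π)).Hom I J) = 0 :=
  val_inj (Matrix.ext fun _ _ => map_zero (mapDomainRingHom R π))

/-- Hint: `val_mul`, `map_cm`. -/
theorem pf_mul (A : (OA R (ρ.comp π)).Hom I J) (B : (OA R (ρ.comp π)).Hom J L) :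
    pf π (A * B) = pf π A * pf π B := by
  refine val_inj (Matrix.ext fun i k => ?_)
  rw [val_mul, val_pf, val_pf, val_pf, val_mul, Matrix.map_apply]
  refine (map_cm (val_fin A) (val B) (mapDomainRingHom R π).toAddMonoidHom i k).trans ?_
  exact finsum_congr fun j => map_mul (mapDomainRingHom R π) _ _

theorem IsPm.pf {u : (OA R (ρ.comp π)).Hom I J} {e : I.I → J.I} {γ : I.I → Γ} {s : I.I → ℤˣ}
    (h : IsPm u e γ s) : IsPm (pf π u) e (fun i => π (γ i)) s := by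
  unfold IsPm at h ⊢
  rw [val_pf, h]
  refine Matrix.ext fun i j => ?_
  rw [Matrix.map_apply, mono, mono, Matrix.of_apply, Matrix.of_apply]
  split_ifs
  · exact mapDomain_single
  · exact map_zero _

theorem pf_one : pf π (1 : (OA R (ρ.comp π)).Hom I I) = 1 :=
  ((isPm_one.pf π).congr (fun _ => rfl) (fun _ => map_one π) fun _ => rfl).uniq isPm_one

theorem pf_pow (A : (OA R (ρ.comp π)).Hom I I) (n : ℕ) : pf π (A ^ n) = pf π A ^ n := by
  induction n with
  | zero => rw [pow_zero, pow_zero, pf_one]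
  | succ n ih => rw [pow_succ, pow_succ, ← ih]; exact pf_mul π _ _

theorem pf_fromBlocks (a : (OA R (ρ.comp π)).Hom I L) (b : (OA R (ρ.comp π)).Hom I M)
    (c : (OA R (ρ.comp π)).Hom J L) (d : (OA R (ρ.comp π)).Hom J M) :
    pf π (fromBlocks a b c d) = fromBlocks (pf π a) (pf π b) (pf π c) (pf π d) := by
  refine val_inj ?_
  rw [val_pf, val_fromBlocks, val_fromBlocks]
  exact Matrix.fromBlocks_map _ _ _ _ _

theorem On.pf {S : I.I → J.I → Γ → Prop} {T : I.I → J.I → K → Prop}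
    {A : (OA R (ρ.comp π)).Hom I J} (h : On S A) (k : ∀ i j a, S i j a → T i j (π a)) :
    On T (pf π A) := fun i j g e => by
  obtain ⟨a, rfl, c⟩ := mapDomain_ne π e
  exact k i j a (h i j a c)

/-- Hint: `Finsupp.mapDomain_apply'` (injective on a set that contains the support). -/
theorem cf_pf_of {S : Set Γ} (hS : Set.InjOn π S) {A : (OA R (ρ.comp π)).Hom I J}
    (h : On (fun _ _ a => a ∈ S) A) (i : I.I) (j : J.I) {a : Γ} (ha : a ∈ S) :
    cf (pf π A) i j (π a) = cf A i j a := by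
  rw [cf_pf]
  exact Finsupp.mapDomain_apply' S _ (fun x hx => h i j x (Finsupp.mem_support_iff.1 hx)) hS ha

theorem pf_inj {S : Set Γ} (hS : Set.InjOn π S) {A : (OA R (ρ.comp π)).Hom I J}
    (h : On (fun _ _ a => a ∈ S) A) (e : pf π A = 0) : A = 0 :=
  hom_ext fun i j a => by_contra fun c => c (by
    rw [← cf_pf_of π hS h i j (h i j a c), e]
    rfl)

/-- Hint: `ofCf (fun i j a => if a ∈ S then cf A i j (π a) else 0)`; finitely many `a ∈ S` lie over a finite set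
(`Set.Finite.of_finite_image` or `Set.Finite.preimage`-like with `InjOn`); `cf_pf_of`, `On.pf`. -/
theorem exists_lift {S : Set Γ} (hS : Set.InjOn π S) {A : (OA R ρ).Hom I J}
    (h : On (fun _ _ g => g ∈ π '' S) A) : ∃ B : (OA R (ρ.comp π)).Hom I J,
      On (fun _ _ a => a ∈ S) B ∧ pf π B = A ∧ ∀ i j a, cf B i j a = 0 ∨ cf B i j a = cf A i j (π a) := by
  classical
  have ne : ∀ i j a, (if a ∈ S then cf A i j (π a) else 0) ≠ 0 → a ∈ S ∧ cf A i j (π a) ≠ 0 :=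
    fun i j a e => by
      by_cases c : a ∈ S
      · rw [if_pos c] at e
        exact ⟨c, e⟩
      · exact absurd (if_neg c) e
  have ct : CtS (ρ.comp π) I J fun i j a => (if a ∈ S then cf A i j (π a) else 0) ≠ 0 := by
    obtain ⟨⟨T, hT⟩, ⟨c, hc⟩, hd⟩ := cts A
    have fin : (S ∩ π ⁻¹' (T : Set K)).Finite :=
      Set.Finite.of_finite_image (T.finite_toSet.subset (by
        rintro _ ⟨a, ha, rfl⟩
        exact ha.2)) (hS.mono Set.inter_subset_left)
    refine ⟨⟨fin.toFinset, fun i j a e => fin.mem_toFinset.2 ⟨(ne i j a e).1, ?_⟩⟩,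
      ⟨c, fun i j a e => hc i j _ (ne i j a e).2⟩,
      fun ε hε => (hd ε hε).imp fun n hn i j a hi e => hn i j _ hi (ne i j a e).2⟩
    exact hT i j _ (ne i j a e).2
  have on : On (fun _ _ a => a ∈ S) (ofCf _ ct) := fun i j a e => (ne i j a e).1
  refine ⟨ofCf _ ct, on, hom_ext fun i j g => ?_, fun i j a => ?_⟩
  · by_cases c : g ∈ π '' S
    · obtain ⟨a, ha, rfl⟩ := c
      rw [cf_pf_of π hS on i j ha, cf_ofCf, if_pos ha]
    · have k : On (fun _ _ g => g ∈ π '' S) (pf π (ofCf _ ct)) :=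
        on.pf π fun _ _ a ha => ⟨a, ha, rfl⟩
      rw [of_not_not (mt (k i j g) c), of_not_not (mt (h i j g) c)]
  · rw [cf_ofCf]
    by_cases c : a ∈ S
    · exact Or.inr (if_pos c)
    · exact Or.inl (if_neg c)

end

variable {Λ : DG} (π : Γ →* K)

/-- Hint: the coefficient is a finite sum of coefficients (`Finsupp.mapDomain`, `Finsupp.sum`, `sum_mem`). -/
theorem Gd.pf {k : ℤ} {n : I.I → ℤ} {m : J.I → ℤ} {A : (OA Λ.A (ρ.comp π)).Hom I J}
    (h : Gd k n m A) : Gd k n m (pf π A) := by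
  classical
  intro i j g
  rw [cf_pf, Finsupp.mapDomain, Finsupp.sum, Finsupp.finsetSum_apply]
  refine sum_mem fun a _ => ?_
  rw [Finsupp.single_apply]
  split_ifs
  exacts [h i j a, zero_mem _]

theorem pd_pf (n : I.I → ℤ) (A : (OA Λ.A (ρ.comp π)).Hom I J) :
    pd n (pf π A) = pf π (pd n A) := by
  refine hom_ext fun i j g => ?_
  let f : Λ.A →+ Λ.A := ((n i).negOnePow : ℤ) • Λ.d
  have e : (val (pd n A) i j).coeff = Finsupp.mapRange f f.map_zero (val A i j).coeff :=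
    Finsupp.ext fun a => rfl
  rw [cf_pd, cf_pf, cf_pf, e, Finsupp.mapDomain_mapRange π _ f f.map_zero f.map_add]
  rfl

/-- the image of a complex -/
@[reducible] noncomputable def pfT (a : Tw Λ (ρ.comp π)) : Tw Λ ρ where
  ob := a.ob
  deg := a.deg
  δ := pf π a.δ
  gd := a.gd.pf π
  mc := by rw [pd_pf, ← pf_mul, ← pf_add, a.mc, pf_zero]
  lev := a.lev.imp fun l h => ⟨h.1, h.2.pf π fun _ _ _ e => e⟩

variable {a b : Tw Λ (ρ.comp π)}

theorem D0_pf (f : Mor a b) : D0 (pfT π a) (pfT π b) (pf π f) = pf π (D0 a b f) := by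
  rw [D0, D0, pf_sub, pf_add, pf_mul, pf_mul, pd_pf]

theorem D1_pf (f : Mor a b) : D1 (pfT π a) (pfT π b) (pf π f) = pf π (D1 a b f) := by
  rw [D1, D1, pf_add, pf_add, pf_mul, pf_mul, pd_pf]

theorem SI.pf {u : Mor a b} (h : SI a b u) : SI (pfT π a) (pfT π b) (pf π u) := by
  obtain ⟨e, γ, s, m, l, hm, hd, hu, hl, h1, h2, h3⟩ := h
  refine ⟨e, fun i => π (γ i), s, Dg.pf π m, l, hm.pf π, hd,
    ⟨hu.gd.pf π, by rw [D0_pf, hu.d, pf_zero]⟩, hl, h1.pf π fun _ _ _ x => x,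
    h2.pf π fun _ _ _ x => x, ?_⟩
  have k : Dg.pf π u - Dg.pf π m = Dg.pf π (u - m) := (pf_sub π u m).symm
  exact k ▸ h3.pf π fun _ _ _ x => x

theorem SE.pf (h : SE a b) : SE (pfT π a) (pfT π b) := by
  have k : Relation.EqvGen (fun a b => ∃ u, SI a b u) a b := h
  clear h
  induction k with
  | rel x y h =>
    obtain ⟨u, hu⟩ := h
    exact (hu.pf π).se
  | refl x => exact SE.refl _
  | symm x y _ ih => exact ih.symm
  | trans x y z _ _ ih ih' => exact ih.trans ih'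

theorem DP_add (a b : Tw Λ (ρ.comp π)) : SE (pfT π (a + b)) (pfT π a + pfT π b) := by
  have k : pf π (fromBlocks a.δ (0 : Mor a b) (0 : Mor b a) b.δ) =
      fromBlocks (pf π a.δ) 0 0 (pf π b.δ) := by rw [pf_fromBlocks, pf_zero, pf_zero]
  exact se_perm (a := pfT π (a + b)) (b := pfT π a + pfT π b) (Equiv.refl _) (fun _ => rfl)
    (fun _ => rfl) (fun _ => rfl) fun i j g => congrArg (fun x => cf x i j g) k

theorem DP_el (U : Ob X) (n : U.I → ℤ) : SE (pfT π (el Λ (ρ.comp π) U n)) (el Λ ρ U n) := by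
  have k : pf π (fromBlocks (-0 : (OA Λ.A (ρ.comp π)).Hom U U) (1 : (OA Λ.A (ρ.comp π)).Hom U U)
      (0 : (OA Λ.A (ρ.comp π)).Hom U U) (0 : (OA Λ.A (ρ.comp π)).Hom U U)) =
      fromBlocks (-0) 1 0 0 := by rw [pf_fromBlocks, pf_neg, pf_zero, pf_one]
  exact se_perm (a := pfT π (el Λ (ρ.comp π) U n)) (b := el Λ ρ U n) (Equiv.refl _) (fun _ => rfl)
    (fun _ => rfl) (fun _ => rfl) fun i j g => congrArg (fun x => cf x i j g) k

theorem DP_isEl (h : IsEl a) : IsEl (pfT π a) := by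
  obtain ⟨U, n, h⟩ := h
  exact ⟨U, n, (h.pf π).trans (DP_el π U n)⟩

/-- Hint: `se_perm (Equiv.refl _)` and `pf_fromBlocks` identify `pfT π (a + b)` with `pfT π a + pfT π b`, and the image of an
elementary complex with an elementary complex. -/
theorem Sim.pf (h : Sim a) : Sim (pfT π a) := by
  obtain ⟨c, h1, h2⟩ := h
  obtain ⟨U, n, h3⟩ := DP_isEl π h2
  exact ⟨pfT π c, DP_isEl π h1, U, n, (DP_add π a c).symm.trans h3⟩

end Pool.Agent.Work.MP_9d1ffa_al.Dg
end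

-- merged part: Pool.Agent.Work.MP_9d1ffa_al.Dg.DB
section
/-! Comparison with the definitions of the statement. -/

namespace Pool.Agent.Work.MP_9d1ffa_al.Dg

open MonoidAlgebra

set_option linter.unusedSectionVars false
set_option linter.unusedVariables false
set_option linter.unusedSimpArgs false

variable {X K : Type} [Group K] {Λ : DG} {ρ : K →* Equiv.Perm X}

/-- all contractible complexes have trivial torsion -/
def VanS (Λ : DG) (ρ : K →* Equiv.Perm X) : Prop := ∀ a : Tw Λ ρ, Contr a → Sim a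

/-- the underlying matrix data -/
def toCx (a : Tw Λ ρ) : Cx X (MonoidAlgebra Λ.A K) := ⟨a.ob, a.deg, val a.δ⟩

/-- Hint: `val_ctr`, `congrArg val a.mc`, `lw_iff`. -/
theorem isTw_toCx (a : Tw Λ ρ) : IsTw Λ ρ (toCx a) :=
  ⟨⟨val_ctr a.δ, a.gd⟩, congrArg val a.mc, a.lev.imp fun l h => ⟨h.1, lw_iff.2 h.2⟩⟩

theorem exists_toCx {x : Cx X (MonoidAlgebra Λ.A K)} (h : IsTw Λ ρ x) :
    ∃ a : Tw Λ ρ, toCx a = x :=
  ⟨⟨x.ob, x.deg, mk x.δ h.1.1, h.1.2, val_inj h.2.1,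
    h.2.2.imp fun l k => ⟨k.1, lw_iff.1 k.2⟩⟩, rfl⟩

theorem toCx_inj {a b : Tw Λ ρ} (h : toCx a = toCx b) : a = b := by
  obtain ⟨o, d, δ, _, _, _⟩ := a
  obtain ⟨o', d', δ', _, _, _⟩ := b
  simp only [toCx, Cx.mk.injEq] at h
  obtain ⟨rfl, h1, h2⟩ := h
  obtain rfl := eq_of_heq h1
  obtain rfl := val_inj (eq_of_heq h2)
  rfl

theorem toCx_add (a b : Tw Λ ρ) : toCx (a + b) = (toCx a).sum (toCx b) :=
  congrArg (Cx.mk (a.ob.sum b.ob) (Sum.elim a.deg b.deg)) (val_fromBlocks a.δ 0 0 b.δ)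

theorem toCx_el (b : Ob X) (n : b.I → ℤ) : toCx (el Λ ρ b n) = El _ b n :=
  congrArg (Cx.mk (b.sum b) (Sum.elim (fun i => n i - 1) n))
    ((val_fromBlocks (-(0 : (OA Λ.A ρ).Hom b b)) 1 0 0).trans (by rw [neg_zero]; rfl))

theorem DB_dif0 {a b : Tw Λ ρ} (u : Mor a b) :
    Dif Λ 0 (toCx a) (toCx b) (val u) = val (D0 a b u) := by
  rw [Dif, Int.negOnePow_zero, Units.val_one, one_smul]
  rfl

theorem DB_dif1 {a b : Tw Λ ρ} (u : Mor a b) :
    Dif Λ (-1) (toCx a) (toCx b) (val u) = val (D1 a b u) := by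
  rw [Dif, Int.negOnePow_odd _ odd_neg_one', Units.val_neg, Units.val_one, neg_smul, one_smul,
    sub_neg_eq_add]
  rfl

/-- Hint: `u = mk (mono ..) _ + mk N _`; `IsPm.gd`; `Dif Λ 0` of `val u` is `val (D0 u)`. -/
theorem stp_iff {a b : Tw Λ ρ} : Stp Λ ρ (toCx a) (toCx b) ↔ ∃ u, SI a b u := by
  constructor
  · rintro ⟨-, -, e, γ, s, N, l, hd, hc, hN, hD, hl, h1, h2, h3⟩
    have hm : IsPm (mk (mono Λ.A e γ s) hc : Mor a b) e γ s := rfl
    refine ⟨(mk _ hc : Mor a b) + (mk N hN.1 : Mor a b), e, γ, s, mk _ hc, l, hm, hd,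
      ⟨(hm.gd fun i => (hd i).trans (zero_add _).symm).add hN.2,
        val_inj ((DB_dif0 _).symm.trans hD)⟩, hl, lw_iff.1 h1, lw_iff.1 h2, ?_⟩
    exact lw_iff.1 ((congrArg (fun x : Mor a b => Lw (l ∘ e) l (val x))
      (add_sub_cancel_left (mk _ hc : Mor a b) (mk N hN.1))).mpr h3)
  · rintro ⟨u, e, γ, s, m, l, hm, hd, hu, hl, h1, h2, h3⟩
    have e1 : mono Λ.A e γ s + val (u - m) = val u := by
      rw [← hm, ← val_add, add_sub_cancel]
    refine ⟨isTw_toCx a, isTw_toCx b, e, γ, s, val (u - m), l, hd, hm ▸ val_ctr m,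
      ⟨val_ctr _, hu.gd.sub (hm.gd fun i => (hd i).trans (zero_add _).symm)⟩, ?_, hl,
      lw_iff.2 h1, lw_iff.2 h2, lw_iff.2 h3⟩
    exact (congrArg (Dif Λ 0 (toCx a) (toCx b)) e1).trans ((DB_dif0 u).trans (congrArg val hu.d))

/-- Hint: for the forward direction prove by induction on `EqvGen (Stp Λ ρ) x y` that `x = y` or there are `a b` with
`toCx a = x`, `toCx b = y`, `SE a b` (`exists_toCx`, `toCx_inj`). -/
theorem eqv_iff {a b : Tw Λ ρ} : Relation.EqvGen (Stp Λ ρ) (toCx a) (toCx b) ↔ SE a b := by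
  constructor
  · have key : ∀ x y, Relation.EqvGen (Stp Λ ρ) x y →
        x = y ∨ ∃ a b : Tw Λ ρ, toCx a = x ∧ toCx b = y ∧ SE a b := by
      intro x y h
      induction h with
      | rel x y h =>
        obtain ⟨a, rfl⟩ := exists_toCx h.1
        obtain ⟨b, rfl⟩ := exists_toCx h.2.1
        obtain ⟨u, hu⟩ := stp_iff.1 h
        exact Or.inr ⟨a, b, rfl, rfl, hu.se⟩
      | refl x => exact Or.inl rfl
      | symm x y _ ih =>
        exact ih.imp Eq.symm fun ⟨a, b, h1, h2, h3⟩ => ⟨b, a, h2, h1, h3.symm⟩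
      | trans x y z _ _ ih ih' =>
        rcases ih with rfl | ⟨a, b, h1, h2, h3⟩
        · exact ih'
        rcases ih' with rfl | ⟨c, d, h4, h5, h6⟩
        · exact Or.inr ⟨a, b, h1, h2, h3⟩
        obtain rfl := toCx_inj (h2.trans h4.symm)
        exact Or.inr ⟨a, d, h1, h5, h3.trans h6⟩
    intro h
    rcases key _ _ h with e | ⟨c, d, h1, h2, h3⟩
    · exact toCx_inj e ▸ SE.refl a
    · exact toCx_inj h1 ▸ toCx_inj h2 ▸ h3
  · intro h
    have k : Relation.EqvGen (fun a b => ∃ u, SI a b u) a b := h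
    clear h
    induction k with
    | rel x y h => exact .rel _ _ (stp_iff.2 h)
    | refl x => exact .refl _
    | symm x y _ ih => exact .symm _ _ ih
    | trans x y z _ _ ih ih' => exact .trans _ _ _ ih ih'

theorem contr_toCx {a : Tw Λ ρ} :
    (∃ Γ, Hg Λ ρ (-1) (toCx a) (toCx a) Γ ∧ Dif Λ (-1) (toCx a) (toCx a) Γ =
      @OfNat.ofNat _ 1 (@One.toOfNat1 _ (@Matrix.one _ _ (fun _ _ => Classical.propDecidable _) _ _))) ↔
      Contr a :=
  ⟨fun ⟨Γ, h, e⟩ => ⟨mk Γ h.1, h.2, val_inj ((DB_dif1 (mk Γ h.1)).symm.trans e)⟩,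
    fun ⟨Γ, h, e⟩ => ⟨val Γ, ⟨val_ctr Γ, h⟩, (DB_dif1 Γ).trans (congrArg val e)⟩⟩

/-- Hint: `Sim a` means `SE (a + el b m) (el c n)` for some `b m c n` (`SE.add`). -/
theorem vanD_iff {G : Type} [Group G] {σ : G →* Equiv.Perm X} :
    VanD σ ↔ ∀ (K : Type) [Group K] (φ : K →* G) (Λ : DG), VanS Λ (σ.comp φ) := by
  constructor
  · intro h K _ φ Λ a ha
    obtain ⟨b, m, c, n, e⟩ := h K φ Λ (toCx a) (isTw_toCx a) (contr_toCx.2 ha)
    rw [← toCx_el (ρ := σ.comp φ), ← toCx_el (ρ := σ.comp φ), ← toCx_add, eqv_iff] at e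
    exact ⟨el Λ _ b m, ⟨b, m, SE.refl _⟩, c, n, e⟩
  · intro h K _ φ Λ x hx hc
    obtain ⟨a, rfl⟩ := exists_toCx hx
    obtain ⟨c, ⟨b, m, e⟩, d, n, e'⟩ := h K φ Λ a (contr_toCx.1 hc)
    refine ⟨b, m, d, n, ?_⟩
    rw [← toCx_el (ρ := σ.comp φ), ← toCx_el (ρ := σ.comp φ), ← toCx_add, eqv_iff]
    exact ((SE.refl a).add e.symm).trans e'

end Pool.Agent.Work.MP_9d1ffa_al.Dg
end

-- merged part: Pool.Agent.Work.MP_9d1ffa_al.Dg.DQ
section
/-! Nilpotent classes along a loop lift to the HNN extension. -/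

namespace Pool.Agent.Work.MP_9d1ffa_al.Dg

open MonoidAlgebra MulAction

set_option linter.unusedSectionVars false
set_option linter.unusedVariables false
set_option linter.unusedSimpArgs false

variable {X K Γ D P : Type} [Group K] [Group Γ] [Group D] [MulAction K P] {Λ : DG}
  {ρ : K →* Equiv.Perm X} {mv : ℕ → P → P → Prop} {hull : P → P → P}

/-- words with `n` letters `t` -/
def Sn (κ : D →* Γ) (t : Γ) : ℕ → Set Γ
  | 0 => Set.range κ
  | n + 1 => {a | ∃ d b, b ∈ Sn κ t n ∧ a = κ d * t * b}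

theorem DQ_left (κ : D →* Γ) (t : Γ) {m : ℕ} (d : D) {b : Γ} (hb : b ∈ Sn κ t m) :
    κ d * b ∈ Sn κ t m := by
  cases m with
  | zero =>
    obtain ⟨d', rfl⟩ := hb
    exact ⟨d * d', map_mul κ d d'⟩
  | succ m =>
    obtain ⟨d', c, hc, rfl⟩ := hb
    exact ⟨d * d', c, hc, by simp only [map_mul, mul_assoc]⟩

theorem Sn_mul (κ : D →* Γ) (t : Γ) {n m : ℕ} {a b : Γ} (ha : a ∈ Sn κ t n) (hb : b ∈ Sn κ t m) :
    a * b ∈ Sn κ t (n + m) := by
  induction n generalizing a with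
  | zero =>
    obtain ⟨d, rfl⟩ := ha
    rw [Nat.zero_add]
    exact DQ_left κ t d hb
  | succ n ih =>
    obtain ⟨d, c, hc, rfl⟩ := ha
    rw [Nat.add_right_comm]
    exact ⟨d, c * b, ih hc, mul_assoc _ _ _⟩

theorem DQ_right (κ : D →* Γ) (t : Γ) {m : ℕ} (d : D) {b : Γ} (hb : b ∈ Sn κ t m) :
    b * κ d ∈ Sn κ t m := Sn_mul κ t (m := 0) hb ⟨d, rfl⟩

theorem DQ_left_iff (π : Γ →* K) (κ : D →* Γ) (t : Γ) (m : ℕ) {g : K} (hg : g ∈ π '' Sn κ t 0)
    (g' : K) : g * g' ∈ π '' Sn κ t m ↔ g' ∈ π '' Sn κ t m := by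
  obtain ⟨_, ⟨d, rfl⟩, rfl⟩ := hg
  constructor
  · rintro ⟨b, hb, e⟩
    refine ⟨_, DQ_left κ t d⁻¹ hb, ?_⟩
    rw [map_mul, e, map_inv, map_inv, inv_mul_cancel_left]
  · rintro ⟨b, hb, rfl⟩
    exact ⟨_, DQ_left κ t d hb, map_mul π _ _⟩

theorem DQ_right_iff (π : Γ →* K) (κ : D →* Γ) (t : Γ) (m : ℕ) {g' : K}
    (hg : g' ∈ π '' Sn κ t 0) (g : K) : g * g' ∈ π '' Sn κ t m ↔ g ∈ π '' Sn κ t m := by
  obtain ⟨_, ⟨d, rfl⟩, rfl⟩ := hg
  constructor
  · rintro ⟨b, hb, e⟩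
    refine ⟨_, DQ_right κ t d⁻¹ hb, ?_⟩
    rw [map_mul, e, map_inv, map_inv, mul_inv_cancel_right]
  · rintro ⟨b, hb, rfl⟩
    exact ⟨_, DQ_right κ t d hb, map_mul π _ _⟩

theorem DQ_pow {R : Type} [Ring R] {τ : Γ →* Equiv.Perm X} {I : Ob X} (κ : D →* Γ) (t : Γ)
    {A : (OA R τ).Hom I I} (h : On (fun _ _ a => a ∈ Sn κ t 1) A) (n : ℕ) :
    On (fun _ _ a => a ∈ Sn κ t n) (A ^ n) := by
  induction n with
  | zero =>
    rw [pow_zero]
    exact on_one fun _ => ⟨1, map_one κ⟩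
  | succ n ih =>
    rw [pow_succ]
    exact ih.mul h fun _ _ _ _ _ a b => Sn_mul κ t a b

theorem DQ_gd {π : Γ →* K} {I J : Ob X} {k : ℤ} {n : I.I → ℤ} {m : J.I → ℤ}
    {A : (OA Λ.A ρ).Hom I J} {B : (OA Λ.A (ρ.comp π)).Hom I J} (h : Gd k n m A)
    (e : ∀ i j a, cf B i j a = 0 ∨ cf B i j a = cf A i j (π a)) : Gd k n m B := fun i j a => by
  rcases e i j a with c | c
  · rw [c]; exact zero_mem _
  · rw [c]; exact h i j _

/-- lifting a complex -/
theorem DQ_tw {π : Γ →* K} {S : Set Γ} (hS : Set.InjOn π S) (hm : ∀ a ∈ S, ∀ b ∈ S, a * b ∈ S)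
    (J : Tw Λ ρ) (h : On (fun _ _ g => g ∈ π '' S) J.δ) :
    ∃ J' : Tw Λ (ρ.comp π), On (fun _ _ a => a ∈ S) J'.δ ∧ pfT π J' = J := by
  obtain ⟨ob, deg, δ, gd, mc, lev⟩ := J
  obtain ⟨δ', h1, h2, h3⟩ := exists_lift π hS (A := δ) h
  clear h
  subst h2
  refine ⟨⟨ob, deg, δ', DQ_gd gd h3, ?_, ?_⟩, h1, rfl⟩
  · refine pf_inj π hS ((h1.pd deg).add (h1.mul h1 fun _ _ _ _ _ a b => hm _ a _ b)) ?_
    rw [pf_add, pf_mul, ← pd_pf]
    exact mc
  · obtain ⟨l, hl, k⟩ := lev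
    refine ⟨l, hl, fun i j a e => k i j (π a) fun c => e ?_⟩
    rcases h3 i j a with c' | c'
    · exact c'
    · exact c'.trans c

/-- pushing a nilpotent class forward -/
theorem DQ_push {π : Γ →* K} (hV : VanS Λ (ρ.comp π)) {J : Tw Λ (ρ.comp π)} {f : Mor J J}
    (hf : Ch J J f) {N : ℕ} (hN : Nh J J (f ^ N)) {x : Hom (pfT π J) (pfT π J)}
    (hx : Rp x (pf π f)) : Tz (1 + x) := by
  obtain ⟨y, hy⟩ := hf.exists_rp
  have hn : IsNilpotent y := ⟨N, (hy.pow N).eq_zero_iff.2 hN⟩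
  obtain ⟨z, c1, c2⟩ := isUnit_iff_exists.1 hn.isUnit_one_add
  have k := (hV _ (contr_cn (rp_one.add hy) c1 c2)).pf π
  refine ⟨_, rp_one.add hx, k.of_se (se_perm (Equiv.refl _) (fun _ => rfl) (fun _ => rfl)
    (fun _ => rfl) fun i j g => ?_)⟩
  have e : (fromBlocks (-pf π J.δ) (1 + pf π f) 0 (pf π J.δ) :
      (OA Λ.A ρ).Hom (J.ob + J.ob) (J.ob + J.ob)) =
        pf π (fromBlocks (-J.δ) (1 + f) 0 J.δ) := by
    rw [pf_fromBlocks, pf_neg, pf_add, pf_one, pf_zero]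
  exact congrArg (fun A => cf A i j g) e

section

variable (M : Mach2 K mv hull) {σ : P} {s : K} {ω : ℕ} (hs : mv ω σ (s • σ)) {π : Γ →* K}
  {κ : stabilizer K σ →* Γ} {t : Γ} (h1 : ∀ d : stabilizer K σ, π (κ d) = d) (h2 : π t = s)
include M hs h1 h2

theorem DQ_step (d : stabilizer K σ) : mv ω σ (((d : K) * s) • σ) := by
  have := M.inv ω (d : K) _ _ hs
  rwa [mem_stabilizer_iff.1 d.2, ← mul_smul] at this

theorem Sn_mv (n : ℕ) {a : Γ} (ha : a ∈ Sn κ t (n + 1)) : mv ((n + 1) * ω) σ (π a • σ) := by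
  induction n generalizing a with
  | zero =>
    obtain ⟨d, _, ⟨d', rfl⟩, rfl⟩ := ha
    rw [map_mul, map_mul, h1, h1, h2, mul_smul, mem_stabilizer_iff.1 d'.2, Nat.zero_add, one_mul]
    exact DQ_step M hs h1 h2 d
  | succ n ih =>
    obtain ⟨d, b, hb, rfl⟩ := ha
    have k := M.tr (DQ_step M hs h1 h2 d) (M.inv _ ((d : K) * s) _ _ (ih hb))
    rw [map_mul, map_mul, h1, h2, mul_smul, show (n + 1 + 1) * ω = ω + (n + 1) * ω by ring]
    exact k

/-- Hint: induction.  If `κ d * t * b` and `κ d' * t * b'` have the same image then `d • s • σ = d' • s • σ` (directly for `n = 0`, by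
`Sn_mv`, `M.inv`, `M.mid` otherwise).  So `e = s⁻¹ * d'⁻¹ * d * s` fixes `σ`, `h3` gives `κ d * t = κ d' * t * κ e`, and `κ e * b = b'` by
induction (`Sn_mul`). -/
theorem Sn_inj (h3 : ∀ d d' : stabilizer K σ, (d' : K) * s = s * d → κ d' * t = t * κ d) (n : ℕ) :
    Set.InjOn π (Sn κ t n) := by
  induction n with
  | zero =>
    rintro _ ⟨d, rfl⟩ _ ⟨d', rfl⟩ e
    exact congrArg κ (Subtype.ext ((h1 d).symm.trans (e.trans (h1 d'))))
  | succ n ih =>
    rintro _ ⟨d, b, hb, rfl⟩ _ ⟨d', b', hb', rfl⟩ e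
    have e' : (d : K) * s * π b = d' * s * π b' := by simpa only [map_mul, h1, h2] using e
    have k : ((d : K) * s) • σ = ((d' : K) * s) • σ := by
      cases n with
      | zero =>
        obtain ⟨c, rfl⟩ := hb
        obtain ⟨c', rfl⟩ := hb'
        have := congrArg (· • σ) e'
        simpa only [h1, mul_smul, mem_stabilizer_iff.1 c.2, mem_stabilizer_iff.1 c'.2] using this
      | succ n =>
        have k1 := M.inv _ ((d : K) * s) _ _ (Sn_mv M hs h1 h2 n hb)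
        have k2 := M.inv _ ((d' : K) * s) _ _ (Sn_mv M hs h1 h2 n hb')
        rw [← mul_smul _ (π b)] at k1
        rw [← mul_smul _ (π b'), ← e'] at k2
        exact M.mid (DQ_step M hs h1 h2 d) k1 (DQ_step M hs h1 h2 d') k2
    have he : ((d' : K) * s)⁻¹ * (d * s) ∈ stabilizer K σ := by
      rw [mem_stabilizer_iff, mul_smul, k, inv_smul_smul]
    have k3 := h3 ⟨_, he⟩ (d'⁻¹ * d) (by
      simp only [Subgroup.coe_mul, Subgroup.coe_inv]
      group)
    have k4 : κ ⟨_, he⟩ * b = b' := ih (DQ_left κ t _ hb) hb' (by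
      rw [map_mul, h1]
      change ((d' : K) * s)⁻¹ * (d * s) * π b = π b'
      rw [mul_assoc, e', inv_mul_cancel_left])
    rw [map_mul, map_inv] at k3
    calc κ d * t * b = κ d' * ((κ d')⁻¹ * κ d * t) * b := by group
      _ = κ d' * t * b' := by rw [k3, ← k4]; group

end

/-- Hint: compare `loopK_lift` in `Rt/QM.lean`.  Let `f` represent `x` with support in the orbit, `x ^ N = 0`, so `f ^ N = D1 h`
(`Rp.pow`, `Rp.eq_zero_iff`).  `J.δ` is supported on `π '' Sn κ t 0`, `f` on `π '' Sn κ t 1`.  Lift them by `exists_lift` to `δ'`, `f'`.  The set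
`π '' Sn κ t N` is invariant under both multiplications by the stabiliser (`Sn_mul`), so `h` may be replaced by
`fl (fun _ _ g => g ∈ π '' Sn κ t N) h` (`pd_fl`, `fl_mul_left`, `fl_mul_right`; `f ^ N = pf π (f' ^ N)` is supported there); lift it to `h'`.
By `pf_inj` with `Sn_inj` (`pd_pf`, `pf_mul`, `D0_pf`, `D1_pf`, `On.mul`, `On.pd`) the lift `J'` of `J` is a twisted complex over `ρ.comp π`, `f'` is
a chain map and `f' ^ N = D1 h'`.  So the class of `f'` is nilpotent, `1 + f'` is invertible in the homotopy category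
(`IsNilpotent.isUnit_one_add`), its cone is contractible (`contr_cn`) and has trivial torsion by `vanD_iff` with `MonoidHom.id`.
Push forward with `Sim.pf` and compare with `cn (1 + f)` by `se_perm (Equiv.refl _)` and `pf_fromBlocks`. -/
theorem loopD_lift (M : Mach2 K mv hull) {σ : P} {s : K} {ω : ℕ} (hs : mv ω σ (s • σ))
    (h : LiftD ρ (stabilizer K σ) s) : LoopD Λ ρ σ s := by
  obtain ⟨H, _, π, κ, t, hV, h1, h2, h3⟩ := h
  rintro J hJ x ⟨f, hf, hfo⟩ ⟨N, hN⟩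
  have inj := Sn_inj M hs h1 h2 h3
  have hδ : On (fun _ _ g => g ∈ π '' Sn κ t 0) J.δ := hJ.loc.mono fun i j g e =>
    ⟨κ ⟨g, Eq.symm e⟩, ⟨_, rfl⟩, h1 _⟩
  have hf1 : On (fun _ _ g => g ∈ π '' Sn κ t 1) f := hfo.mono fun i j g e => by
    obtain ⟨γ, f1, f2⟩ := e
    refine ⟨_, ⟨⟨γ, f1.symm⟩, _, ⟨⟨(γ * s)⁻¹ * g, by
      rw [mem_stabilizer_iff, mul_smul, f2, ← mul_smul γ s, inv_smul_smul]⟩, rfl⟩, rfl⟩, ?_⟩
    simp only [map_mul, h1, h2]
    exact mul_inv_cancel_left _ _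
  obtain ⟨J', hδ', rfl⟩ := DQ_tw (inj 0) (fun a ha b hb => Sn_mul κ t ha hb) J hδ
  obtain ⟨f', f1, rfl, f3⟩ := exists_lift π (inj 1) hf1
  obtain ⟨k, k1, k2⟩ := (hf.pow N).eq_zero_iff.1 hN
  have hp := DQ_pow κ t f1 N
  have e1 : D1 (pfT π J') (pfT π J') (fl (fun _ _ g => g ∈ π '' Sn κ t N) k) = pf π (f' ^ N) := by
    have hp' : On (fun _ _ g => g ∈ π '' Sn κ t N) (pf π (f' ^ N)) :=
      hp.pf π fun _ _ a e => ⟨a, e, rfl⟩
    rw [← hp'.fl_eq, pf_pow, k2, D1, D1, fl_add, fl_add, pd_fl,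
      fl_mul_left (T := fun _ _ g => g ∈ π '' Sn κ t N) hδ k
        fun _ _ _ g g' e => DQ_left_iff π κ t N e g',
      fl_mul_right (S := fun _ _ g => g ∈ π '' Sn κ t N) k hδ
        fun _ _ _ g g' e => DQ_right_iff π κ t N e g]
  obtain ⟨k', l1, l2, l3⟩ := exists_lift π (inj N) (on_fl (fun _ _ g => g ∈ π '' Sn κ t N) k)
  have cf' : Ch J' J' f' := by
    refine ⟨DQ_gd hf.ch.gd f3, pf_inj π (inj 1) ?_ ((D0_pf π f').symm.trans hf.ch.d)⟩
    exact ((f1.pd _).add (hδ'.mul f1 fun _ _ _ _ _ a b => Sn_mul κ t a b)).sub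
      (f1.mul hδ' fun _ _ _ _ _ a b => Sn_mul κ t a b)
  have nf : Nh J' J' (f' ^ N) := by
    refine ⟨k', DQ_gd (k1.fl _) l3, sub_eq_zero.1 (pf_inj π (inj N) (hp.sub ?_) ?_)⟩
    · refine ((l1.pd _).add (hδ'.mul l1 fun _ _ _ _ _ a b => ?_)).add
        (l1.mul hδ' fun _ _ _ _ _ a b => Sn_mul κ t a b)
      have := Sn_mul κ t a b
      rwa [Nat.zero_add] at this
    · rw [pf_sub, ← D1_pf, l2, e1, sub_self]
  have hV' : VanS Λ (ρ.comp π) := by
    have := vanD_iff.1 hV H (MonoidHom.id H) Λ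
    rwa [MonoidHom.comp_id] at this
  exact DQ_push hV' cf' nf hf

end Pool.Agent.Work.MP_9d1ffa_al.Dg
end

-- merged part: Pool.Agent.Work.MP_9d1ffa_al.Dg.DC
section
/-! Splitting an isomorphism from edges to vertices. -/

namespace Pool.Agent.Work.MP_9d1ffa_al.Dg

open MonoidAlgebra Pool.Agent.Work.MP_904812_al

set_option linter.unusedSectionVars false
set_option linter.unusedVariables false
set_option linter.unusedSimpArgs false

variable {X K V : Type} [Group K] [MulAction K V] {Λ : DG} {ρ : K →* Equiv.Perm X} {a b c : Tw Λ ρ}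

/-- an oriented edge -/
def Ed (d : V → V → ℤ) (O : V × V → Prop) (t : V × V) : Prop := d t.1 t.2 = 1 ∧ O t

/-- `v` lies on the side of the head of `t` -/
def Hd (d : V → V → ℤ) (t : V × V) (v : V) : Prop := d v t.2 < d v t.1

/-- an isomorphism from a complex over the edges to a complex over the vertices -/
structure CoreD (d : V → V → ℤ) (O : V × V → Prop) (z : a.ob.I → V × V) (q : b.ob.I → V)
    (β : Hom a b) (β' : Hom b a) : Prop where
  tr : Tr d
  iso : ∀ (g : K) x y, d (g • x) (g • y) = d x y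
  oinv : ∀ (g : K) e, O e → O (g • e)
  oasym : ∀ x y, d x y = 1 → O (x, y) → ¬ O (y, x)
  la : Lc a z
  lb : Lc b q
  hz : ∀ i, Ed d O (z i)
  on : HOn z q (fun t v => v = t.1 ∨ v = t.2) β
  e1 : β * β' = 1
  e2 : β' * β = 1

/-- the part of `β` going to the head -/
noncomputable def bp (z : a.ob.I → V × V) (q : b.ob.I → V) (β : Hom a b) : Hom a b :=
  hfil z q (fun t v => v = t.2) β

/-- the part of `β'` coming from the side of the head -/
noncomputable def bh (d : V → V → ℤ) (z : a.ob.I → V × V) (q : b.ob.I → V) (β' : Hom b a) :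
    Hom b a := hfil q z (fun v t => Hd d t v) β'

/-- the idempotent -/
noncomputable def pim (d : V → V → ℤ) (z : a.ob.I → V × V) (q : b.ob.I → V) (β : Hom a b)
    (β' : Hom b a) : Hom a a := β * bh d z q β'

/-- the vertex part -/
noncomputable def gam (d : V → V → ℤ) (z : a.ob.I → V × V) (q : b.ob.I → V) (β : Hom a b)
    (β' : Hom b a) : Hom a b :=
  pim d z q β β' * bp z q β + (1 - pim d z q β β') * (β - bp z q β)

/-- its inverse -/
noncomputable def zet (z : a.ob.I → V × V) (q : b.ob.I → V) (β' : Hom b a) : Hom b a :=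
  hfil q z (fun v t => v = t.1 ∨ v = t.2) β'

theorem iv_snd : Inv K (fun (t : V × V) (v : V) => v = t.2) := fun _ _ _ h => h ▸ rfl

theorem iv_fst : Inv K (fun (t : V × V) (v : V) => v = t.1) := fun _ _ _ h => h ▸ rfl

theorem iv_ends : Inv K (fun (t : V × V) (v : V) => v = t.1 ∨ v = t.2) := fun g _ _ h =>
  h.imp (congrArg (g • ·)) (congrArg (g • ·))

theorem iv_ends' : Inv K (fun (v : V) (t : V × V) => v = t.1 ∨ v = t.2) := fun g _ _ h =>
  h.imp (congrArg (g • ·)) (congrArg (g • ·))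

variable {d : V → V → ℤ} {O : V × V → Prop} {z : a.ob.I → V × V} {q : b.ob.I → V} {β : Hom a b}
  {β' : Hom b a}

namespace CoreD

variable (h : CoreD d O z q β β')
include h

theorem ed_smul (g : K) {t : V × V} (e : Ed d O t) : Ed d O (g • t) :=
  ⟨(h.iso g _ _).trans e.1, h.oinv g _ e.2⟩

theorem hd_smul (g : K) (t : V × V) (v : V) : Hd d (g • t) (g • v) ↔ Hd d t v := by
  simp only [Hd, Prod.smul_fst, Prod.smul_snd, h.iso]

theorem iv_hd : Inv K fun (v : V) (t : V × V) => Hd d t v := fun g v t => (h.hd_smul g t v).2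

theorem iv_hd' : Inv K fun (t : V × V) (v : V) => Hd d t v := fun g t v => (h.hd_smul g t v).2

theorem hd_snd {t : V × V} (e : Ed d O t) : Hd d t t.2 := by
  have := h.tr.symm t.2 t.1
  have := h.tr.self t.2
  have := e.1
  simp only [Hd]
  omega

theorem not_hd_fst {t : V × V} (e : Ed d O t) : ¬ Hd d t t.1 := by
  have := h.tr.self t.1
  have := e.1
  simp only [Hd]
  omega

/-- another edge lies on one side -/
theorem side {s t : V × V} (es : Ed d O s) (et : Ed d O t) (n : t ≠ s) :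
    Hd d s t.1 ↔ Hd d s t.2 :=
  side_edge h.tr es.1 et.1 n fun e => h.oasym _ _ es.1 es.2 (e ▸ et.2)

theorem gl {S : Type} [MulAction K S] {r : c.ob.I → S} {R : V × V → S → Prop} {x : Hom a c}
    (k : HOn z r R x) : HOn z r (fun s t => Ed d O s ∧ R s t) x :=
  k.mono' fun i _ _ e => ⟨h.hz i, e⟩

theorem gr {S : Type} [MulAction K S] {r : c.ob.I → S} {R : S → V × V → Prop} {x : Hom c a}
    (k : HOn r z R x) : HOn r z (fun s t => Ed d O t ∧ R s t) x :=
  k.mono' fun _ j g e => ⟨h.ed_smul g (h.hz j), e⟩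

theorem bp_on : HOn z q (fun t v => v = t.2) (bp z q β) := hOn_hfil h.la h.lb iv_snd β

theorem bm_on : HOn z q (fun t v => v = t.1) (β - bp z q β) := by
  rw [bp, sub_eq_of_eq_add' (hfil_add_not h.la h.lb iv_snd β).symm]
  exact (h.on.hfil h.la h.lb (inv_compl iv_snd)).mono fun _ _ e => e.1.resolve_right e.2

theorem bh_on : HOn q z (fun v t => Hd d t v) (bh d z q β') := hOn_hfil h.lb h.la h.iv_hd β'

theorem bt_on : HOn q z (fun v t => ¬ Hd d t v) (β' - bh d z q β') := by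
  rw [bh, sub_eq_of_eq_add' (hfil_add_not h.lb h.la h.iv_hd β').symm]
  exact hOn_hfil h.lb h.la (inv_compl h.iv_hd) β'

theorem DC_ne {R : V × V → V × V → Prop} (k : Inv K R) : Inv K fun s t => s ≠ t ∧ R s t :=
  fun g s t e => ⟨fun c => e.1 (MulAction.injective g c), k g s t e.2⟩

theorem DC_split : bp z q β + (β - bp z q β) = β := add_sub_cancel _ _

theorem DC_split' : bh d z q β' + (β' - bh d z q β') = β' := add_sub_cancel _ _

/-- Hint: `β * bh + β * (β' - bh) = 1`.  The first summand is supported on `s = t ∨ (s ≠ t ∧ Hd d t s.1)`, the second on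
`s = t ∨ (s ≠ t ∧ ¬ Hd d t s.1)` (`gl`, `gr`, `side`).  Filter by `U s t := s ≠ t ∧ Hd d t s.1`: this kills `1` and the second
summand, so `hfil U pim = 0`, and `pim = hfil (¬ U) pim` (`hfil_add_not`, `HOn.hfil`). -/
theorem pim_on : HOn z z Eq (pim d z q β β') := by
  have iU : Inv K fun s t : V × V => s ≠ t ∧ Hd d t s.1 :=
    h.DC_ne fun g s t e => (h.hd_smul g t s.1).2 e
  have k1 : HOn z z (fun s t => s ≠ t → Hd d t s.1) (β * bh d z q β') :=
    (h.gl (h.gr (h.on.mul h.bh_on h.iv_hd (U := fun s t => Hd d t s.1 ∨ Hd d t s.2)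
      fun s v t e k => e.imp (· ▸ k) (· ▸ k)))).mono fun s t e n =>
        e.2.2.elim id (h.side e.2.1 e.1 n).2
  have k2 : HOn z z (fun s t => s ≠ t → ¬ Hd d t s.1) (β * (β' - bh d z q β')) :=
    (h.gl (h.gr (h.on.mul h.bt_on (inv_compl h.iv_hd)
      (U := fun s t => ¬ Hd d t s.1 ∨ ¬ Hd d t s.2)
      fun s v t e k => e.imp (· ▸ k) (· ▸ k)))).mono fun s t e n =>
        e.2.2.elim id fun k c => k ((h.side e.2.1 e.1 n).1 c)
  have e := hfil_add h.la h.la iU (β * bh d z q β') (β * (β' - bh d z q β'))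
  rw [← Hm.mul_add, h.DC_split', h.e1, hOn_one.hfil_zero h.la h.la iU fun s t e c => c.1 e,
    k2.hfil_zero h.la h.la iU fun s t e c => e c.1 c.2, add_zero] at e
  have e' := hfil_add_not h.la h.la iU (β * bh d z q β')
  rw [← e, zero_add] at e'
  rw [pim, ← e']
  exact (k1.hfil h.la h.la (inv_compl iU)).mono fun s t e => by_contra fun n => e.2 ⟨n, e.1 n⟩

theorem inv_pim : β' * pim d z q β β' = bh d z q β' := by
  rw [pim, ← Hm.mul_assoc, h.e2, Hm.one_mul]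

theorem bh_pim : bh d z q β' * pim d z q β β' = bh d z q β' := by
  have := hfil_mul_right h.lb h.la h.la β' h.pim_on inv_eq h.iv_hd h.iv_hd
    fun s t u e => by rw [e]
  rw [h.inv_pim, h.bh_on.hfil_eq h.lb h.la h.iv_hd] at this
  exact this.symm

theorem pim_idem : pim d z q β β' * pim d z q β β' = pim d z q β β' := by
  conv_lhs => rw [pim, Hm.mul_assoc]
  exact congrArg (β * ·) h.bh_pim

/-- Hint: `pim = hfil Eq pim`, `pim = bp * bh + (β - bp) * bh`, `bp * β' = bp * bh + bp * (β' - bh)`; the filter kills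
`(β - bp) * bh` (`not_hd_fst`) and `bp * (β' - bh)` (`hd_snd`). -/
theorem pim_eq : hfil z z Eq (bp z q β * β') = pim d z q β β' := by
  have k1 : HOn z z (fun s t => ¬ s = t) ((β - bp z q β) * bh d z q β') :=
    (h.gl (h.bm_on.mul h.bh_on h.iv_hd (U := fun s t => Hd d t s.1)
      fun s v t e k => e ▸ k)).mono fun s t e n => h.not_hd_fst e.1 (n ▸ e.2)
  have k2 : HOn z z (fun s t => ¬ s = t) (bp z q β * (β' - bh d z q β')) :=
    (h.gl (h.bp_on.mul h.bt_on (inv_compl h.iv_hd) (U := fun s t => ¬ Hd d t s.2)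
      fun s v t e k => e ▸ k)).mono fun s t e n => e.2 (n ▸ h.hd_snd e.1)
  have e1 := hfil_add h.la h.la inv_eq (bp z q β * bh d z q β') ((β - bp z q β) * bh d z q β')
  have e2 := hfil_add h.la h.la inv_eq (bp z q β * bh d z q β') (bp z q β * (β' - bh d z q β'))
  rw [← Hm.add_mul, h.DC_split, k1.hfil_zero h.la h.la inv_eq fun _ _ e => e] at e1
  rw [← Hm.mul_add, h.DC_split', k2.hfil_zero h.la h.la inv_eq fun _ _ e => e] at e2
  rw [e2, ← e1]
  exact h.pim_on.hfil_eq h.la h.la inv_eq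

/-- Hint: write `bp * β' = pim + Y + Z` with `Y`, `Z` the filters of `bp * β'` by `t ≠ s ∧ ¬ Hd d s t.1` and
`t ≠ s ∧ Hd d s t.1` (`pim_eq`, `hfil_add_not`, `HOn.hfil_congr`; or define `N = bp * β' - pim`, supported on `s ≠ t`, and split it).
Multiply by `β`: `bp = pim * β + Y * β + Z * β`.  Filter by `fun s v => Hd d s v`: `bp` stays, `pim * β` becomes `pim * bp`
(`hfil_mul_left`, `HOn.hfil_congr`), `Y * β` dies and `Z * β` stays (`side`).  So `(1 - pim) * bp = Z * β`, and then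
`pim * (β - bp) = -(Y * β)`. -/
theorem sides :
    HOn z z (fun s t => t ≠ s ∧ Hd d s t.1 ∧ Hd d s t.2) ((1 - pim d z q β β') * bp z q β * β') ∧
    HOn z z (fun s t => t ≠ s ∧ ¬ Hd d s t.1 ∧ ¬ Hd d s t.2)
      (pim d z q β β' * (β - bp z q β) * β') := by
  have iH : Inv K fun s t : V × V => Hd d s t.1 := fun g s t e => (h.hd_smul g s t.1).2 e
  obtain ⟨N, hN⟩ : ∃ N, N = bp z q β * β' - pim d z q β β' := ⟨_, rfl⟩
  have n1 : HOn z z (fun s t => ¬ s = t) N := by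
    have e := hfil_add_not h.la h.la inv_eq N
    rw [show hfil z z Eq N = 0 by
      rw [hN, hfil_sub h.la h.la inv_eq, h.pim_eq, h.pim_on.hfil_eq h.la h.la inv_eq, sub_self],
      zero_add] at e
    rw [← e]
    exact hOn_hfil h.la h.la (inv_compl inv_eq) N
  have sp := hfil_add_not h.la h.la iH N
  have zo : HOn z z (fun s t => t ≠ s ∧ Hd d s t.1 ∧ Hd d s t.2)
      (hfil z z (fun s t => Hd d s t.1) N) :=
    (h.gl (h.gr (n1.hfil h.la h.la iH))).mono fun s t e =>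
      ⟨Ne.symm e.2.2.1, e.2.2.2, (h.side e.1 e.2.1 (Ne.symm e.2.2.1)).1 e.2.2.2⟩
  have yo : HOn z z (fun s t => t ≠ s ∧ ¬ Hd d s t.1 ∧ ¬ Hd d s t.2)
      (hfil z z (fun s t => ¬ Hd d s t.1) N) :=
    (h.gl (h.gr (n1.hfil h.la h.la (inv_compl iH)))).mono fun s t e =>
      ⟨Ne.symm e.2.2.1, e.2.2.2, fun c => e.2.2.2 ((h.side e.1 e.2.1 (Ne.symm e.2.2.1)).2 c)⟩
  generalize hfil z z (fun s t => Hd d s t.1) N = Z at sp zo
  generalize hfil z z (fun s t => ¬ Hd d s t.1) N = Y at sp yo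
  have e1 : bp z q β = pim d z q β β' * β + (Z * β + Y * β) := by
    rw [← Hm.add_mul, sp, hN, Hm.sub_mul, Hm.mul_assoc, h.e2, Hm.mul_one, add_sub_cancel]
  have e2 : bp z q β = pim d z q β β' * bp z q β + Z * β := by
    have e := congrArg (hfil z q fun s v => Hd d s v) e1
    rw [((h.gl h.bp_on).mono fun s v e => e.2 ▸ h.hd_snd e.1).hfil_eq h.la h.lb h.iv_hd',
      hfil_add h.la h.lb h.iv_hd', hfil_add h.la h.lb h.iv_hd',
      hfil_mul_left h.la h.la h.lb h.pim_on β h.iv_hd' h.iv_hd' fun s t u e => by rw [e],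
      (h.gl h.on).hfil_congr h.la h.lb h.iv_hd' iv_snd fun s v e =>
        ⟨fun c => e.2.resolve_left fun k => h.not_hd_fst e.1 (k ▸ c), fun c => c ▸ h.hd_snd e.1⟩,
      (zo.mul h.on iv_ends fun s t u e k => k.elim (· ▸ e.2.1) (· ▸ e.2.2)).hfil_eq h.la h.lb
        h.iv_hd',
      (yo.mul h.on iv_ends (U := fun s v => ¬ Hd d s v)
        fun s t u e k => k.elim (· ▸ e.2.1) (· ▸ e.2.2)).hfil_zero h.la h.lb h.iv_hd'
        fun _ _ e => e, add_zero] at e
    exact e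
  have e3 : (1 - pim d z q β β') * bp z q β = Z * β := by
    rw [Hm.sub_mul, Hm.one_mul, sub_eq_iff_eq_add']
    exact e2
  have e4 : pim d z q β β' * (β - bp z q β) = -(Y * β) := by
    have e := e1.symm.trans e2
    rw [Hm.mul_sub, eq_neg_iff_add_eq_zero, ← sub_eq_zero.2 e]
    abel
  rw [e3, e4, Hm.neg_mul, Hm.mul_assoc, Hm.mul_assoc, h.e1, Hm.mul_one, Hm.mul_one]
  exact ⟨zo, yo.neg⟩

/-- Hint: with `π = pim`, `π * bp * zet = hfil (fun s t => s.2 = t.1 ∨ s.2 = t.2) (π * bp * β')` by `hfil_mul_left`, and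
`π * bp * β' = π - π * (β - bp) * β'` (`e1`); the filter keeps `π` and kills the other term (`sides`, `hd_snd`).
In the same way `(1 - π) * (β - bp) * zet = 1 - π`. -/
theorem gam_zet : gam d z q β β' * zet z q β' = 1 := by
  have i1 : Inv K fun s t : V × V => s.1 = t.1 ∨ s.1 = t.2 := fun g _ _ e =>
    e.imp (congrArg (g • ·)) (congrArg (g • ·))
  have i2 : Inv K fun s t : V × V => s.2 = t.1 ∨ s.2 = t.2 := fun g _ _ e =>
    e.imp (congrArg (g • ·)) (congrArg (g • ·))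
  have po := (hOn_one (p := z)).sub h.pim_on
  have e1 := hfil_mul_left h.la h.lb h.la
    (h.pim_on.mul h.bp_on iv_snd (U := fun s v => v = s.2) fun s t u e k => e ▸ k) β' iv_ends' i2
    fun s v t e => by rw [e]
  have e2 := hfil_mul_left h.la h.lb h.la
    (po.mul h.bm_on iv_fst (U := fun s v => v = s.1) fun s t u e k => e ▸ k) β' iv_ends' i1
    fun s v t e => by rw [e]
  have a1 : pim d z q β β' * bp z q β * β' =
      pim d z q β β' - pim d z q β β' * (β - bp z q β) * β' := by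
    rw [Hm.mul_sub, Hm.sub_mul, Hm.mul_assoc _ β, h.e1, Hm.mul_one, sub_sub_cancel]
  have a2 : (1 - pim d z q β β') * (β - bp z q β) * β' =
      (1 - pim d z q β β') - (1 - pim d z q β β') * bp z q β * β' := by
    rw [Hm.mul_sub, Hm.sub_mul, Hm.mul_assoc _ β, h.e1, Hm.mul_one]
  rw [a1, hfil_sub h.la h.la i2, (h.pim_on.mono fun s t e => Or.inr (by rw [e])).hfil_eq h.la h.la i2,
    (h.gl h.sides.2).hfil_zero h.la h.la i2 fun s t e c =>
      c.elim (fun c => e.2.2.1 (c ▸ h.hd_snd e.1)) fun c => e.2.2.2 (c ▸ h.hd_snd e.1),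
    sub_zero] at e1
  rw [a2, hfil_sub h.la h.la i1, (po.mono fun s t e => Or.inl (by rw [e])).hfil_eq h.la h.la i1,
    (h.gl h.sides.1).hfil_zero h.la h.la i1 fun s t e c =>
      h.not_hd_fst e.1 (c.elim (· ▸ e.2.2.1) (· ▸ e.2.2.2)), sub_zero] at e2
  rw [gam, zet, Hm.add_mul, ← e1, ← e2, add_sub_cancel]

/-- Hint: `zet * π = hfil ends (β' * π) = hfil (fun v t => v = t.2) bh` (`hfil_mul_right`, `inv_pim`, `HOn.hfil_congr`), so
`zet * π * bp = hfil Eq (bh * bp)`; similarly `zet * (1 - π) * (β - bp) = hfil Eq ((β' - bh) * (β - bp))`.  Filter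
`1 = β' * β` by `Eq`: the mixed terms `bh * (β - bp)` and `(β' - bh) * bp` die. -/
theorem zet_gam : zet z q β' * gam d z q β β' = 1 := by
  have po := (hOn_one (p := z)).sub h.pim_on
  have iv2 : Inv K fun (v : V) (t : V × V) => v = t.2 := fun _ _ _ e => e ▸ rfl
  have iv1 : Inv K fun (v : V) (t : V × V) => v = t.1 := fun _ _ _ e => e ▸ rfl
  have e1 := hfil_mul_right h.lb h.la h.la β' h.pim_on inv_eq iv_ends' iv_ends'
    fun s t u e => by rw [e]
  have e2 := hfil_mul_right h.lb h.la h.la β' po inv_eq iv_ends' iv_ends'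
    fun s t u e => by rw [e]
  rw [h.inv_pim, (h.gr h.bh_on).hfil_congr h.lb h.la iv_ends' iv2 fun v t e =>
    ⟨fun c => c.resolve_left fun k => h.not_hd_fst e.1 (k ▸ e.2), Or.inr⟩] at e1
  rw [Hm.mul_sub, Hm.mul_one, h.inv_pim, (h.gr h.bt_on).hfil_congr h.lb h.la iv_ends' iv1
    fun v t e => ⟨fun c => c.resolve_right fun k => e.2 (k ▸ h.hd_snd e.1), Or.inl⟩] at e2
  have e3 := hfil_mul_right h.lb h.la h.lb (bh d z q β') h.bp_on iv_snd iv2 inv_eq
    fun s t u e => by rw [e]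
  have e4 := hfil_mul_right h.lb h.la h.lb (β' - bh d z q β') h.bm_on iv_fst iv1 inv_eq
    fun s t u e => by rw [e]
  have k1 := ((h.gr h.bh_on).mul h.bm_on iv_fst (U := fun v u => ¬ v = u)
    fun v t u e k c => h.not_hd_fst e.1 (k ▸ c ▸ e.2)).hfil_zero h.lb h.lb inv_eq fun _ _ e => e
  have k2 := ((h.gr h.bt_on).mul h.bp_on iv_snd (U := fun v u => ¬ v = u)
    fun v t u e k c => e.2 (c ▸ k ▸ h.hd_snd e.1)).hfil_zero h.lb h.lb inv_eq fun _ _ e => e
  have e5 : (bh d z q β' * bp z q β + bh d z q β' * (β - bp z q β)) +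
      ((β' - bh d z q β') * bp z q β + (β' - bh d z q β') * (β - bp z q β)) = 1 := by
    rw [← Hm.mul_add, ← Hm.mul_add, h.DC_split, ← Hm.add_mul, h.DC_split', h.e2]
  have e6 := congrArg (hfil q q Eq) e5
  rw [hfil_add h.lb h.lb inv_eq, hfil_add h.lb h.lb inv_eq, hfil_add h.lb h.lb inv_eq, k1, k2,
    add_zero, zero_add, hOn_one.hfil_eq h.lb h.lb inv_eq] at e6
  rw [gam, zet, Hm.mul_add, ← Hm.mul_assoc, ← Hm.mul_assoc, ← e1, ← e2, ← e3, ← e4, e6]

end CoreD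

end Pool.Agent.Work.MP_9d1ffa_al.Dg
end

-- merged part: Pool.Agent.Work.MP_9d1ffa_al.Dg.DR0
section
/-! Finite subtrees for the basis elements of a complex. -/

namespace Pool.Agent.Work.MP_9d1ffa_al.Dg

open MonoidAlgebra Pool.Agent.Work.MP_904812_al

set_option linter.unusedSectionVars false
set_option linter.unusedVariables false
set_option linter.unusedSimpArgs false

variable {X K V : Type} [Group K] [MulAction K V] {Λ : DG} {ρ : K →* Equiv.Perm X}

/-- edges and vertices of finite subtrees, with every edge matched to its end far from `v₀` -/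
structure MVD (C : Tw Λ ρ) (d : V → V → ℤ) (O : V × V → Prop) (v₀ : V) : Type 1 where
  E : HD C (V × V)
  B : HD C V
  ed : ∀ x, Ed d O (E.lab x)
  hd : E.ι → B.ι
  tl : E.ι → B.ι
  hd_s : ∀ x, B.s (hd x) = E.s x
  tl_s : ∀ x, B.s (tl x) = E.s x
  hd_lab : ∀ x, B.lab (hd x) = (E.lab x).2
  tl_lab : ∀ x, B.lab (tl x) = (E.lab x).1
  e : E.ι ⊕ C.ob.I ≃ B.ι
  e_inl : ∀ x, (e (Sum.inl x) = hd x ∧ d v₀ (E.lab x).1 < d v₀ (E.lab x).2) ∨
    (e (Sum.inl x) = tl x ∧ d v₀ (E.lab x).2 < d v₀ (E.lab x).1)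
  s_inr : ∀ c, B.s (e (Sum.inr c)) = c
  lab_inr : ∀ c, B.lab (e (Sum.inr c)) = v₀

theorem DR0_seg {d : V → V → ℤ} (h : Tr d) (a b : V) : {p | Bt d a p b}.Finite :=
  Set.Finite.of_injOn (f := fun p => d a p) (t := Set.Icc 0 (d a b))
    (fun p hp => ⟨h.nonneg _ _, h.bt_le hp⟩) (fun p hp q hq e => h.bt_uniq hp hq e)
    (Set.finite_Icc _ _)

theorem DR0_par {d : V → V → ℤ} (h : Tr d) {v₀ v x y : V} (hx : d x v = 1) (hy : d y v = 1)
    (h1 : d v₀ x < d v₀ v) (h2 : d v₀ y < d v₀ v) : x = y := by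
  have a := adj_cases h hx v₀
  have b := adj_cases h hy v₀
  exact h.bt_uniq (x := v₀) (y := v) (by unfold Bt; omega) (by unfold Bt; omega) (by omega)

/-- the end of an edge that is far from `v₀` -/
def DR0_far (d : V → V → ℤ) (v₀ : V) (t : V × V) : V := if d v₀ t.1 < d v₀ t.2 then t.2 else t.1

theorem DR0_cases {d : V → V → ℤ} (h : Tr d) (v₀ : V) {t : V × V} (e : d t.1 t.2 = 1) :
    (DR0_far d v₀ t = t.2 ∧ d v₀ t.1 < d v₀ t.2) ∨ (DR0_far d v₀ t = t.1 ∧ d v₀ t.2 < d v₀ t.1) := by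
  have a := adj_cases h e v₀
  by_cases c : d v₀ t.1 < d v₀ t.2
  · exact Or.inl ⟨if_pos c, c⟩
  · exact Or.inr ⟨if_neg c, by omega⟩

theorem DR0_inj {d : V → V → ℤ} {O : V × V → Prop} (h : Tr d)
    (oasym : ∀ x y, d x y = 1 → O (x, y) → ¬ O (y, x)) (v₀ : V) {t t' : V × V} (a : Ed d O t)
    (b : Ed d O t') (e : DR0_far d v₀ t = DR0_far d v₀ t') : t = t' := by
  obtain ⟨x, y⟩ := t
  obtain ⟨x', y'⟩ := t'
  have a1 : d x y = 1 := a.1
  have b1 : d x' y' = 1 := b.1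
  have a2 : d y x = 1 := (h.symm _ _).trans a1
  have b2 : d y' x' = 1 := (h.symm _ _).trans b1
  rcases DR0_cases h v₀ a.1 with ⟨p, q⟩ | ⟨p, q⟩ <;>
    rcases DR0_cases h v₀ b.1 with ⟨p', q'⟩ | ⟨p', q'⟩
  · obtain rfl : y = y' := p.symm.trans (e.trans p')
    rw [DR0_par h a1 b1 q q']
  · obtain rfl : y = x' := p.symm.trans (e.trans p')
    obtain rfl : x = y' := DR0_par h a1 b2 q q'
    exact absurd b.2 (oasym _ _ a1 a.2)
  · obtain rfl : x = y' := p.symm.trans (e.trans p')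
    obtain rfl : y = x' := DR0_par h a2 b1 q q'
    exact absurd b.2 (oasym _ _ a1 a.2)
  · obtain rfl : x = x' := p.symm.trans (e.trans p')
    rw [DR0_par h a2 b2 q q']

theorem DR0_ne {d : V → V → ℤ} (h : Tr d) (v₀ : V) {t : V × V} (e : d t.1 t.2 = 1) :
    DR0_far d v₀ t ≠ v₀ := fun k => by
  have := h.self v₀
  have := h.nonneg v₀ t.1
  have := h.nonneg v₀ t.2
  rcases DR0_cases h v₀ e with ⟨p, q⟩ | ⟨p, q⟩
  · rw [← p, k] at q
    omega
  · rw [← p, k] at q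
    omega

theorem DR0_surj {d : V → V → ℤ} {O : V × V → Prop} (h : Tr d)
    (otot : ∀ x y, d x y = 1 → O (x, y) ∨ O (y, x)) {v₀ v : V} (hv : v ≠ v₀) :
    ∃ t, Ed d O t ∧ DR0_far d v₀ t = v ∧ Bt d v₀ t.1 v ∧ Bt d v₀ t.2 v := by
  have h0 := h.nonneg v₀ v
  have h1 : d v₀ v ≠ 0 := fun k => hv (h.eq_of k).symm
  obtain ⟨p, a, b⟩ := h.ex_bt v₀ v (t := d v₀ v - 1) (by omega) (by omega)
  have c : d p v = 1 := by
    unfold Bt at a
    omega
  rcases otot p v c with k | k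
  · exact ⟨(p, v), ⟨c, k⟩, if_pos (show d v₀ p < d v₀ v by omega), a, h.bt_right _ _⟩
  · exact ⟨(v, p), ⟨(h.symm _ _).trans c, k⟩, if_neg (show ¬ d v₀ v < d v₀ p by omega),
      h.bt_right _ _, a⟩

/-- Hint: `exists_levels` with `W₀ = {v₀}` and `Good A := ∀ v ∈ A, ∀ w, Bt d v₀ w v → w ∈ A`; segments are finite
(`Tr.bt_uniq`: `w ↦ d v₀ w` is injective on the segment with values in an interval), so `B = ⋃ v ∈ A, {w | Bt d v₀ w v}` works.
`B.ι = {y : C.ob.I × V // y.2 ∈ U y.1}`, `E.ι = {y : C.ob.I × (V × V) // Ed d O y.2 ∧ y.2.1 ∈ U y.1 ∧ y.2.2 ∈ U y.1}`.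
`e` is `Equiv.ofBijective` of the map that sends an edge to its far end (`adj_cases`) and `c` to `(c, v₀)`.  Injective: the near end is
the point of the segment from `v₀` to the far end at distance one less (`Tr.bt_uniq`), and `oasym` fixes the orientation.  Surjective:
`Tr.ex_bt` (or `Tr.ex_pt`) gives the parent of `v ≠ v₀`, it lies in `U i` by goodness, `otot` orients the edge. -/
theorem exists_mvd {d : V → V → ℤ} {O : V × V → Prop} (tr : Tr d)
    (iso : ∀ (g : K) x y, d (g • x) (g • y) = d x y) (oinv : ∀ (g : K) e, O e → O (g • e))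
    (oasym : ∀ x y, d x y = 1 → O (x, y) → ¬ O (y, x))
    (otot : ∀ x y, d x y = 1 → O (x, y) ∨ O (y, x)) (v₀ : V) (C : Tw Λ ρ) :
    Nonempty (MVD C d O v₀) := by
  obtain ⟨U, hf, h0, hg, hU⟩ := exists_levels (Z := V) C
    (fun A => ∀ v ∈ A, ∀ w, Bt d v₀ w v → w ∈ A) (fun A hA => ⟨⋃ v ∈ A, {w | Bt d v₀ w v},
      hA.biUnion fun v _ => DR0_seg tr v₀ v, fun v hv => Set.mem_biUnion hv (tr.bt_right _ _),
      fun v hv w hw => by
        obtain ⟨u, hu, k⟩ := Set.mem_iUnion₂.1 hv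
        exact Set.mem_biUnion hu (tr.bt_trans hw k).1⟩) (Set.finite_singleton v₀)
  let B : HD C V :=
    { ι := {y : C.ob.I × V // y.2 ∈ U y.1}
      s := fun y => y.1.1
      lab := fun y => y.1.2
      fin := hf.subset (by
        rintro _ ⟨y, rfl⟩
        exact Set.mem_iUnion.2 ⟨_, y.2⟩)
      inj := fun x y a b => Subtype.ext (Prod.ext a b)
      cl := fun x j g e => ⟨⟨(j, g⁻¹ • x.1.2), hU _ j g e _ x.2⟩, rfl, (smul_inv_smul g _).symm⟩ }
  let E : HD C (V × V) :=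
    { ι := {y : C.ob.I × (V × V) // Ed d O y.2 ∧ y.2.1 ∈ U y.1 ∧ y.2.2 ∈ U y.1}
      s := fun y => y.1.1
      lab := fun y => y.1.2
      fin := (hf.prod hf).subset (by
        rintro _ ⟨y, rfl⟩
        exact ⟨Set.mem_iUnion.2 ⟨_, y.2.2.1⟩, Set.mem_iUnion.2 ⟨_, y.2.2.2⟩⟩)
      inj := fun x y a b => Subtype.ext (Prod.ext a b)
      cl := fun x j g e => ⟨⟨(j, g⁻¹ • x.1.2), ⟨(iso g⁻¹ _ _).trans x.2.1.1, oinv g⁻¹ _ x.2.1.2⟩,
        hU _ j g e _ x.2.2.1, hU _ j g e _ x.2.2.2⟩, rfl, (smul_inv_smul g _).symm⟩ }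
  let f : E.ι ⊕ C.ob.I → B.ι := Sum.elim
    (fun x => ⟨(x.1.1, DR0_far d v₀ x.1.2), by
      rcases DR0_cases tr v₀ x.2.1.1 with ⟨p, -⟩ | ⟨p, -⟩
      exacts [p.symm ▸ x.2.2.2, p.symm ▸ x.2.2.1]⟩)
    fun c => ⟨(c, v₀), h0 c rfl⟩
  have hb : Function.Bijective f := by
    constructor
    · rintro (x | x) (y | y) e
      · have e1 : x.1.1 = y.1.1 := congrArg (fun z : B.ι => z.1.1) e
        have e2 := DR0_inj tr oasym v₀ x.2.1 y.2.1 (congrArg (fun z : B.ι => z.1.2) e)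
        exact congrArg Sum.inl (Subtype.ext (Prod.ext e1 e2))
      · exact absurd (congrArg (fun z : B.ι => z.1.2) e) (DR0_ne tr v₀ x.2.1.1)
      · exact absurd (congrArg (fun z : B.ι => z.1.2) e).symm (DR0_ne tr v₀ y.2.1.1)
      · exact congrArg Sum.inr (congrArg (fun z : B.ι => z.1.1) e)
    · rintro ⟨⟨i, v⟩, hv⟩
      by_cases c : v = v₀
      · subst c
        exact ⟨Sum.inr i, rfl⟩
      · obtain ⟨t, a1, a2, a3, a4⟩ := DR0_surj tr otot c
        exact ⟨Sum.inl ⟨(i, t), a1, hg i v hv _ a3, hg i v hv _ a4⟩, Subtype.ext (Prod.ext rfl a2)⟩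
  exact ⟨{
    E := E
    B := B
    ed := fun x => x.2.1
    hd := fun x => ⟨(x.1.1, x.1.2.2), x.2.2.2⟩
    tl := fun x => ⟨(x.1.1, x.1.2.1), x.2.2.1⟩
    hd_s := fun _ => rfl
    tl_s := fun _ => rfl
    hd_lab := fun _ => rfl
    tl_lab := fun _ => rfl
    e := Equiv.ofBijective f hb
    e_inl := fun x => (DR0_cases tr v₀ x.2.1.1).imp
      (fun k => ⟨Subtype.ext (Prod.ext rfl k.1), k.2⟩) fun k => ⟨Subtype.ext (Prod.ext rfl k.1), k.2⟩
    s_inr := fun _ => rfl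
    lab_inr := fun _ => rfl }⟩

end Pool.Agent.Work.MP_9d1ffa_al.Dg
end

-- merged part: Pool.Agent.Work.MP_9d1ffa_al.Dg.DR
section
/-! The Mayer-Vietoris resolution of a complex. -/

namespace Pool.Agent.Work.MP_9d1ffa_al.Dg

open MonoidAlgebra Pool.Agent.Work.MP_904812_al

set_option linter.unusedSectionVars false
set_option linter.unusedVariables false
set_option linter.unusedSimpArgs false

variable {X K V : Type} [Group K] [MulAction K V] {Λ : DG} {ρ : K →* Equiv.Perm X} {C : Tw Λ ρ}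
  {d : V → V → ℤ} {O : V × V → Prop} {v₀ : V}

theorem DR_alg {O' : Type 1} [Add O'] {𝒞 : ACat O'} {E B D : O'} (x : 𝒞.Hom E E) (y : 𝒞.Hom B B)
    (z : 𝒞.Hom D D) (j q : 𝒞.Hom E B) (i : 𝒞.Hom B D) (p : 𝒞.Hom D B) (h : p * i = 1) :
    fromRows (fromCols (fromBlocks (1 : 𝒞.Hom E E) 0 0 p) (0 : 𝒞.Hom (E + D) D))
        (fromBlocks (fromCols (0 : 𝒞.Hom E E) q) 0 0 (1 : 𝒞.Hom D D)) *
      fromBlocks (-fromBlocks (-x) j 0 y) (fromRows 0 i) 0 z -
    fromBlocks (-(0 : 𝒞.Hom (E + D) (E + D))) (1 : 𝒞.Hom (E + D) (E + D)) 0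
        (0 : 𝒞.Hom (E + D) (E + D)) *
      fromRows (fromCols (fromBlocks (1 : 𝒞.Hom E E) 0 0 p) (0 : 𝒞.Hom (E + D) D))
        (fromBlocks (fromCols (0 : 𝒞.Hom E E) q) 0 0 (1 : 𝒞.Hom D D)) =
    fromRows (fromCols (fromBlocks x (-j - q) 0 (-(p * y))) 0)
      (fromBlocks (fromCols 0 (-(q * y))) (q * i) 0 z) := by
  have e : fromBlocks (fromCols (0 : 𝒞.Hom E E) q) 0 0 (1 : 𝒞.Hom D D) =
      fromCols (fromBlocks 0 q 0 0) (fromRows 0 1) := by
    rw [← fromCols_fromRows_eq_fromBlocks, fromBlocks, fromCols_zero]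
  rw [fromBlocks_mul_fromRows, fromRows_mul, fromRows_sub, fromBlocks_neg, neg_neg, neg_zero,
    neg_zero, fromCols_mul_fromBlocks, fromBlocks_multiply, fromBlocks_multiply,
    fromBlocks_mul_fromRows, fromCols_mul_fromBlocks, fromCols_mul_fromRows]
  simp only [Hm.zero_mul, Hm.mul_zero, Hm.one_mul, add_zero, zero_add, sub_zero, Hm.mul_neg, h]
  rw [e, fromCols_sub, fromBlocks_sub]
  simp only [sub_zero, sub_self, neg_zero, add_zero, zero_add]

theorem DR_map (M : MVD C d O v₀) (f : M.E.ι → M.B.ι) (φ : V × V → V)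
    (hφ : ∀ (g : K) x, φ (g • x) = g • φ x) (h1 : ∀ x, M.B.s (f x) = M.E.s x)
    (h2 : ∀ x, M.B.lab (f x) = φ (M.E.lab x)) :
    ∃ u : Mor M.E.tw M.B.tw, IsPm u f (fun _ => 1) (fun _ => 1) ∧ Ch M.E.tw M.B.tw u ∧
      u * M.B.inc = M.E.inc := by
  obtain ⟨u, hu⟩ := exists_pm Λ.A ρ (I := M.E.ob) (J := M.B.ob) f (fun _ => 1)
    (fun x => congrArg C.ob.t (h1 x)) fun x => congrArg C.ob.x (h1 x)
  have e : u * M.B.inc = M.E.inc :=
    ((hu.mul M.B.isPm_inc).congr h1 (fun _ => one_mul _) fun _ => one_mul _).uniq M.E.isPm_inc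
  refine ⟨u, hu, M.B.ch_of (b := M.E.tw) (M.E.lc.map φ hφ)
    (hu.gd fun x => (congrArg C.deg (h1 x)).trans (zero_add _).symm) (hu.on.mono ?_)
    (e ▸ M.E.ch_inc), e⟩
  rintro x _ _ ⟨rfl, rfl⟩
  exact (h2 x).symm.trans (one_smul K _).symm

/-- the reordering of the basis -/
def DR_eq (A B : Type) : (A ⊕ B) ⊕ (A ⊕ B) ≃ (A ⊕ (A ⊕ B)) ⊕ B where
  toFun := Sum.elim (Sum.elim (fun x => .inl (.inl x)) fun c => .inl (.inr (.inr c)))
    (Sum.elim (fun x => .inl (.inr (.inl x))) fun c => .inr c)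
  invFun := Sum.elim (Sum.elim (fun x => .inl (.inl x))
    (Sum.elim (fun x => .inr (.inl x)) fun c => .inl (.inr c))) fun c => .inr (.inr c)
  left_inv := by rintro ((x | x) | (x | x)) <;> rfl
  right_inv := by rintro ((x | (x | x)) | x) <;> rfl

theorem DR_s (M : MVD C d O v₀) (x : M.E.ι) : M.B.s (M.e (Sum.inl x)) = M.E.s x := by
  rcases M.e_inl x with ⟨h, -⟩ | ⟨h, -⟩
  · rw [h, M.hd_s]
  · rw [h, M.tl_s]

theorem DR_pos (M : MVD C d O v₀) (tr : Tr d) (x : M.E.ι) :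
    0 < d v₀ (M.B.lab (M.e (Sum.inl x))) := by
  rcases M.e_inl x with ⟨h, k⟩ | ⟨h, k⟩
  · rw [h, M.hd_lab]
    exact (tr.nonneg _ _).trans_lt k
  · rw [h, M.tl_lab]
    exact (tr.nonneg _ _).trans_lt k

open Classical in
theorem DR_near (M : MVD C d O v₀) {u v q : (OA Λ.A ρ).Hom M.E.ob M.B.ob}
    (hu : IsPm u M.hd (fun _ => 1) fun _ => 1) (hv : IsPm v M.tl (fun _ => 1) fun _ => 1)
    (hq : IsPm q (fun x => M.e (Sum.inl x)) (fun _ => 1)
      fun x => if M.e (Sum.inl x) = M.hd x then -1 else 1) :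
    On (fun x y _ => M.B.s y = M.E.s x ∧ d v₀ (M.B.lab y) < d v₀ (M.B.lab (M.e (Sum.inl x))))
      (-(u - v) - q) := by
  intro x y g e
  rw [cf_sub, cf_neg, cf_sub, hu.cf, hv.cf, hq.cf] at e
  rcases M.e_inl x with ⟨h, k⟩ | ⟨h, k⟩
  · have c : M.tl x = y := by
      by_contra c
      refine e ?_
      rw [if_neg fun a : M.tl x = y ∧ (1 : K) = g => c a.1, if_pos h, h]
      split_ifs <;> simp
    rw [← c, h, M.tl_s, M.tl_lab, M.hd_lab]
    exact ⟨rfl, k⟩
  · have n : ¬ M.e (Sum.inl x) = M.hd x := fun a => by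
      have := congrArg M.B.lab (h.symm.trans a)
      rw [M.tl_lab, M.hd_lab] at this
      rw [this] at k
      exact lt_irrefl _ k
    have c : M.hd x = y := by
      by_contra c
      refine e ?_
      rw [if_neg fun a : M.hd x = y ∧ (1 : K) = g => c a.1, if_neg n, h]
      split_ifs <;> simp
    rw [← c, h, M.hd_s, M.tl_lab, M.hd_lab]
    exact ⟨rfl, k⟩

/-- Hint: `exists_pm` gives `j₊` (for `M.hd`) and `j₋` (for `M.tl`) with signs `1`; `j₊ * M.B.inc = M.E.inc` by `IsPm.mul`,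
`IsPm.uniq`; both are chain maps by `HD.ch_of` with the labels `M.E.lc.map Prod.snd`, `Prod.fst`.  Put `j = j₊ - j₋` and
`ε = fromRows 0 M.B.inc` (`D0_rows`).  For the last claim apply `se_match` with the object `M.E.ob + C.ob`, the degrees
`Sum.elim (fun x => C.deg (M.E.s x) - 1) C.deg`, `γ = 1` (`exists_pm`) and the bijection
`inl (inl x) ↦ inl (inl x)`, `inl (inr c) ↦ inl (inr (M.e (inr c)))`, `inr (inl x) ↦ inl (inr (M.e (inl x)))`, `inr (inr c) ↦ inr c`.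
All signs are `1` except at `inr (inl x)`, where the sign is `-1` if `M.e (inl x) = M.hd x` and `1` otherwise (the differential of
`cn ε` is `fromBlocks (fromBlocks δE (-j) 0 (-δB)) ε 0 δC`).  The weight is `L * l (s ·) + depth`, where `l` is a level function of
`C`, the depth of `y : M.B.ι` is `(d v₀ (M.B.lab y)).toNat`, the depth of `x : M.E.ι` is the one of `M.e (inl x)`, the depth of
`c : C.ob.I` is `0`, and `L` exceeds all depths (`M.B.fin`).  Compute coefficients with `IsPm.cf_mul`, `cf_blocks..`, `IsPm.cf`,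
`HD.δ_ne`.  Finally `IsEl.sim`. -/
theorem MVD.res (M : MVD C d O v₀) (tr : Tr d) :
    ∃ (j : Mor M.E.tw M.B.tw) (hj : Ch M.E.tw M.B.tw j) (ε : Mor (cn j hj) C)
      (hε : Ch (cn j hj) C ε),
      On (rel M.E.lab M.B.lab fun t v => v = t.1 ∨ v = t.2) j ∧ Sim (cn ε hε) := by
  classical
  obtain ⟨u, hu, cu, eu⟩ := DR_map M M.hd Prod.snd (fun _ _ => rfl) M.hd_s M.hd_lab
  obtain ⟨v, hv, cv, ev⟩ := DR_map M M.tl Prod.fst (fun _ _ => rfl) M.tl_s M.tl_lab
  have hj := cu.sub cv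
  have e0 : (u - v) * M.B.inc = 0 := by rw [Hm.sub_mul, eu, ev, sub_self]
  have hε : Ch (cn (u - v) hj) C (fromRows (0 : (OA Λ.A ρ).Hom M.E.ob C.ob) M.B.inc) := by
    refine ⟨gd_fromRows.2 ⟨gd_zero, M.B.gd_inc⟩,
      (D0_rows (a := sh M.E.tw) (b := M.B.tw) (e := C) hj.co 0 M.B.inc).trans ?_⟩
    rw [D0_zero, zero_add, M.B.ch_inc.d]
    exact (congrArg (fromRows · 0) e0).trans fromRows_zero
  refine ⟨u - v, hj, _, hε, On.sub (hu.on.mono ?_) (hv.on.mono ?_), ?_⟩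
  · rintro x _ _ ⟨rfl, rfl⟩
    exact Or.inr ((one_smul K _).trans (M.hd_lab x))
  · rintro x _ _ ⟨rfl, rfl⟩
    exact Or.inl ((one_smul K _).trans (M.tl_lab x))
  obtain ⟨p, hp⟩ := exists_pm Λ.A ρ (I := C.ob) (J := M.B.ob) (fun c => M.e (Sum.inr c))
    (fun _ => 1) (fun c => congrArg C.ob.t (M.s_inr c)) fun c => congrArg C.ob.x (M.s_inr c)
  obtain ⟨q, hq⟩ := exists_pm Λ.A ρ (I := M.E.ob) (J := M.B.ob) (fun x => M.e (Sum.inl x))
    (fun x => if M.e (Sum.inl x) = M.hd x then -1 else 1)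
    (fun x => congrArg C.ob.t (DR_s M x)) fun x => congrArg C.ob.x (DR_s M x)
  have ep : p * M.B.inc = 1 :=
    ((hp.mul M.B.isPm_inc).congr M.s_inr (fun _ => one_mul _) fun _ => one_mul _).uniq isPm_one
  obtain ⟨l, hl, lC⟩ := C.lev
  obtain ⟨N, hN⟩ := bd_iff.1 hl
  obtain ⟨L, hL⟩ := bd_iff.1 (fin_comp M.B.fin fun v => (d v₀ v).toNat).bddAbove
  obtain ⟨w, hw⟩ : ∃ w : M.B.ι → ℕ, ∀ y, w y = (L + 1) * l (M.B.s y) + (d v₀ (M.B.lab y)).toNat :=
    ⟨_, fun _ => rfl⟩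
  have key : ∀ y y', l (M.B.s y') < l (M.B.s y) → w y' < w y := fun y y' h => by
    have k1 := hL y'
    have k2 := Nat.mul_le_mul_left (L + 1) (Nat.succ_le_of_lt h)
    rw [Nat.mul_succ] at k2
    rw [hw, hw]
    omega
  have wb : ∀ y, w y < (L + 1) * N + L := fun y => by
    have k1 := hL y
    have k2 := Nat.mul_le_mul_left (L + 1) (hN (M.B.s y)).le
    rw [hw]
    omega
  have wc : ∀ c, w (M.e (Sum.inr c)) = (L + 1) * l c := fun c => by
    rw [hw, M.s_inr, M.lab_inr, tr.self]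
    rfl
  have lB : Lo (I := M.B.ob) (J := M.B.ob) w w M.B.δ := fun x y g e =>
    key _ _ (lC _ _ g (M.B.δ_ne e))
  have hm : IsPm (fromRows (fromCols (fromBlocks (1 : (OA Λ.A ρ).Hom M.E.ob M.E.ob) 0 0 p)
      (0 : (OA Λ.A ρ).Hom (M.E.ob + C.ob) C.ob))
      (fromBlocks (fromCols (0 : (OA Λ.A ρ).Hom M.E.ob M.E.ob) q) 0 0
        (1 : (OA Λ.A ρ).Hom C.ob C.ob)))
      ((DR_eq M.E.ι C.ob.I).trans (((Equiv.refl M.E.ι).sumCongr M.e).sumCongr (Equiv.refl C.ob.I)))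
      _ _ :=
    (((isPm_one.sum hp).inl C.ob).rows ((hq.inr M.E.ob).sum isPm_one)).congr
      (by rintro ((x | x) | (x | x)) <;> rfl) (fun _ => rfl) fun _ => rfl
  refine IsEl.sim ⟨M.E.ob + C.ob, Sum.elim (fun x => C.deg (M.E.s x) - 1) C.deg, SE.symm ?_⟩
  refine se_match (a := cn _ hε) (M.E.ob + C.ob) _ hm ?_
    (Sum.elim (Sum.elim (fun x => w (M.e (Sum.inl x))) w) fun c => w (M.e (Sum.inr c))) ?_ ?_ ?_
  · rintro ((x | x) | (x | x))
    · rfl
    · exact congrArg (fun c => C.deg c - 1) (M.s_inr x)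
    · exact congrArg (fun c => C.deg c - 1) (DR_s M x)
    · rfl
  · refine bd_iff.2 ⟨(L + 1) * N + L, ?_⟩
    rintro ((x | x) | x) <;> exact wb _
  · rintro (x | x) <;> rfl
  · have k := DR_alg M.E.δ M.B.δ C.δ (u - v) q M.B.inc p ep
    refine k.symm ▸ ?_
    refine on_fromRows.2 ⟨on_fromCols.2 ⟨on_fromBlocks.2 ⟨fun x y g e => ?_, ?_, on_zero, ?_⟩,
      on_zero⟩, on_fromBlocks.2 ⟨on_fromCols.2 ⟨on_zero, ?_⟩, ?_, on_zero, fun x y g e => ?_⟩⟩
    · refine key (M.e (Sum.inl x)) (M.e (Sum.inl y)) ?_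
      rw [DR_s, DR_s]
      exact lC _ _ g (M.E.δ_ne e)
    · refine (DR_near M hu hv hq).mono fun x y g e => ?_
      change w y < w (M.e (Sum.inl x))
      have k1 := tr.nonneg v₀ (M.B.lab y)
      have k2 := e.2
      rw [hw, hw, DR_s, e.1]
      omega
    · refine On.neg (hp.on.mul lB ?_)
      rintro x _ y _ _ ⟨rfl, -⟩ e
      exact e
    · refine On.neg (hq.on.mul lB ?_)
      rintro x _ y _ _ ⟨rfl, -⟩ e
      exact e
    · refine hq.on.mul M.B.isPm_inc.on ?_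
      rintro x _ _ _ _ ⟨rfl, -⟩ ⟨rfl, -⟩
      change w (M.e (Sum.inr (M.B.s (M.e (Sum.inl x))))) < w (M.e (Sum.inl x))
      have k1 := DR_pos M tr x
      rw [wc, hw]
      omega
    · change w (M.e (Sum.inr y)) < w (M.e (Sum.inr x))
      rw [wc, wc]
      exact Nat.mul_lt_mul_of_pos_left (lC _ _ g e) L.succ_pos

end Pool.Agent.Work.MP_9d1ffa_al.Dg
end

-- merged part: Pool.Agent.Work.MP_9d1ffa_al.Dg.DC2
section
/-! The nilpotent part of an isomorphism from edges to vertices. -/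

namespace Pool.Agent.Work.MP_9d1ffa_al.Dg

open MonoidAlgebra Pool.Agent.Work.MP_904812_al

set_option linter.unusedSectionVars false
set_option linter.unusedVariables false
set_option linter.unusedSimpArgs false

variable {X K V : Type} [Group K] [MulAction K V] {Λ : DG} {ρ : K →* Equiv.Perm X} {a b : Tw Λ ρ}
  {d : V → V → ℤ} {O : V × V → Prop} {z : a.ob.I → V × V} {q : b.ob.I → V} {β : Hom a b}
  {β' : Hom b a}

/-- the directed edges that label the two summands -/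
def zz (z : a.ob.I → V × V) : (a + a).ob.I → V × V := Sum.elim (fun i => (z i).swap) z

theorem lc_zz (h : Lc a z) : Lc (a + a) (zz z) := (h.map Prod.swap fun _ _ => rfl).sum h

/-- Hint: compare `CoreH.nil` in `Rt/QB.lean`.  With `π = pim`, `r = fromCols π (1 - π)`,
`w = fromRows (π * (β - bp)) ((1 - π) * bp)` take `ν = w * zet * r`, `μ = -(w * β' * r)`; `r * w = β - gam`.  Supports (use `HOn.map`
with `Prod.swap` or `id` for the blocks, `HOn.fromRows`, `HOn.fromCols`, `gl`, `gr`, `adj_cases`):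
`w` on `v = σ.2`; `r` on `τ = t ∨ τ = t.swap`; `w * β'` on `d σ.1 σ.2 = 1 ∧ d t.1 σ.2 < d t.1 σ.1 ∧ d t.2 σ.2 < d t.2 σ.1` (`sides`);
`β' * r = fromCols bh (β' - bh)` (`inv_pim`) on `d τ.1 τ.2 = 1 ∧ d v τ.1 < d v τ.2`.  So `w * β' * r` is supported on `cone d` by
`HOn.and` (`inv_cone` or `inv_and`), use `cone_mv`.  Further `ν = hfil (fun σ τ => σ.2 = τ.1 ∨ σ.2 = τ.2) (w * β' * r)` by
`hfil_mul_right` and `hfil_mul_left`, use `HOn.hfil` and `cone_mv_one`.  The last claim is `tz_swap r (w * zet)`. -/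
theorem CoreD.nil (h : CoreD d O z q β β') : ∃ ν μ : Hom (a + a) (a + a),
    HOn (zz z) (zz z) (Mv d 1) ν ∧ HOn (zz z) (zz z) (fun σ τ => ∃ n, 1 ≤ n ∧ Mv d n σ τ) μ ∧
      (1 + ν) * (1 + μ) = 1 ∧ (Tz (1 + ν) → Tz (β * zet z q β')) := by
  have s1 := h.sides.1
  have s2 := h.sides.2
  have po := h.pim_on
  have idem := h.pim_idem
  have ip := h.inv_pim
  have gz := h.gam_zet
  have zg := h.zet_gam
  rw [gam] at gz zg
  generalize pim d z q β β' = π at *
  have L := lc_zz h.la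
  have po' : HOn z z Eq (1 - π) := hOn_one.sub po
  have hw : HOn (zz z) q (fun σ v => v = σ.2)
      (fromRows (π * (β - bp z q β)) ((1 - π) * bp z q β)) :=
    ((po.mul h.bm_on iv_fst (U := fun t v => v = t.1) fun s t u e e' => e ▸ e').map Prod.swap id
      (fun _ _ => rfl) fun _ _ e => e).fromRows (po'.mul h.bp_on iv_snd fun s t u e e' => e ▸ e')
  have hr : HOn z (zz z) (fun t τ => τ = t ∨ τ = t.swap) (fromCols π (1 - π)) :=
    (po.map id Prod.swap (fun _ _ => rfl) fun _ _ e => Or.inr (e ▸ rfl)).fromCols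
      (po'.mono fun _ _ e => Or.inl e.symm)
  have ir : Inv K fun t τ : V × V => τ = t ∨ τ = t.swap := fun g t τ e =>
    e.imp (congrArg (g • ·)) (congrArg (g • ·))
  have h1 : HOn (zz z) z (fun σ t => d σ.1 σ.2 = 1 ∧ d t.1 σ.2 < d t.1 σ.1 ∧ d t.2 σ.2 < d t.2 σ.1)
      (fromRows (π * (β - bp z q β)) ((1 - π) * bp z q β) * β') := by
    rw [fromRows_mul]
    refine ((h.gl s2).map Prod.swap id (fun _ _ => rfl) fun s t e => ?_).fromRows
      ((h.gl s1).mono fun s t e => ⟨e.1.1, e.2.2⟩)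
    obtain ⟨⟨e1, -⟩, -, e2, e3⟩ := e
    have c1 := adj_cases h.tr e1 t.1
    have c2 := adj_cases h.tr e1 t.2
    simp only [Hd] at e2 e3
    exact ⟨(h.tr.symm _ _).trans e1, by simp only [Prod.fst_swap, Prod.snd_swap, id]; omega,
      by simp only [Prod.fst_swap, Prod.snd_swap, id]; omega⟩
  have h2 : HOn q (zz z) (fun v τ => d τ.1 τ.2 = 1 ∧ d v τ.1 < d v τ.2)
      (β' * fromCols π (1 - π)) := by
    rw [mul_fromCols, Hm.mul_sub, Hm.mul_one, ip]
    refine ((h.gr h.bh_on).map id Prod.swap (fun _ _ => rfl) fun v t e =>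
      ⟨(h.tr.symm _ _).trans e.1.1, e.2⟩).fromCols ((h.gr h.bt_on).mono fun v t e => ⟨e.1.1, ?_⟩)
    have c1 := adj_cases h.tr e.1.1 v
    have e2 := e.2
    simp only [Hd] at e2
    omega
  have rw0 : fromCols π (1 - π) * fromRows (π * (β - bp z q β)) ((1 - π) * bp z q β) =
      β - (π * bp z q β + (1 - π) * (β - bp z q β)) := by
    have i2 : (1 - π) * (1 - π) = 1 - π := by
      rw [mul_sub, mul_one, sub_mul, one_mul, idem, sub_self, sub_zero]
    rw [fromCols_mul_fromRows, ← Hm.mul_assoc, ← Hm.mul_assoc, idem, i2]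
    simp only [Hm.mul_sub, Hm.sub_mul, Hm.one_mul]
    abel
  generalize fromRows (π * (β - bp z q β)) ((1 - π) * bp z q β) = w at *
  generalize fromCols π (1 - π) = r at *
  generalize π * bp z q β + (1 - π) * (β - bp z q β) = γ at *
  have k1 := h1.mul hr ir
    (U := fun σ τ => d σ.1 σ.2 = 1 ∧ d τ.1 σ.2 < d τ.1 σ.1 ∧ d τ.2 σ.2 < d τ.2 σ.1) (by
      rintro σ t τ e (rfl | rfl)
      exacts [e, ⟨e.1, e.2.2, e.2.1⟩])
  have k2 := hw.mul h2 (U := fun σ τ => d τ.1 τ.2 = 1 ∧ d σ.2 τ.1 < d σ.2 τ.2)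
    (fun g v τ e => by simpa only [Prod.smul_fst, Prod.smul_snd, h.iso] using e)
    fun σ v τ e e' => e ▸ e'
  rw [← Hm.mul_assoc] at k2
  have k3 : HOn (zz z) (zz z) (cone d) (w * β' * r) :=
    (k1.and L L k2 fun g σ τ e => by
      simpa only [Prod.smul_fst, Prod.smul_snd, h.iso] using e).mono
      fun σ τ e => ⟨e.1.1, e.2.1, e.1.2.1, e.1.2.2, e.2.2⟩
  have iU : Inv K fun σ τ : V × V => σ.2 = τ.1 ∨ σ.2 = τ.2 := fun g _ _ e =>
    e.imp (congrArg (g • ·)) (congrArg (g • ·))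
  have k4 : hfil (zz z) (zz z) (fun σ τ => σ.2 = τ.1 ∨ σ.2 = τ.2) (w * β' * r) =
      w * zet z q β' * r := by
    rw [hfil_mul_right L h.la L _ hr ir iU iU (by
      rintro σ t τ (rfl | rfl)
      exacts [Iff.rfl, or_comm]),
      hfil_mul_left L h.lb h.la hw β' iv_ends' iU fun σ v t e => by rw [e], zet]
  refine ⟨w * zet z q β' * r, -(w * β' * r), ?_, (k3.mono fun _ _ => cone_mv h.tr).neg, ?_,
    fun t => ?_⟩
  · exact k4 ▸ (k3.hfil L L iU).mono fun _ _ e => cone_mv_one h.tr e.1 e.2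
  · have e : w * zet z q β' * r * (w * β' * r) = w * zet z q β' * r - w * β' * r := by
      have f : zet z q β' * (r * w) * β' = zet z q β' - β' := by
        rw [rw0, Hm.mul_sub, Hm.sub_mul, zg, Hm.one_mul, Hm.mul_assoc, h.e1, Hm.mul_one]
      calc w * zet z q β' * r * (w * β' * r) = w * (zet z q β' * (r * w) * β') * r := by
            simp only [Hm.mul_assoc]
        _ = _ := by rw [f, Hm.mul_sub, Hm.sub_mul]
    rw [add_mul, one_mul, mul_add, mul_one, mul_neg, e]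
    abel
  · have := tz_swap r (w * zet z q β') t
    rw [← Hm.mul_assoc, rw0, Hm.sub_mul, gz] at this
    simpa using this

end Pool.Agent.Work.MP_9d1ffa_al.Dg
end

-- merged part: Pool.Agent.Work.MP_9d1ffa_al.Dg.DW1
section
/-! The Eilenberg swindle for complexes with labels. -/

namespace Pool.Agent.Work.MP_9d1ffa_al.Dg

open MonoidAlgebra

set_option linter.unusedSectionVars false
set_option linter.unusedVariables false
set_option linter.unusedSimpArgs false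

variable {X K Z : Type} [Group K] [MulAction K Z] {Λ : DG} {ρ : K →* Equiv.Perm X}

/-- a complex that absorbs `a`, functorially for maps that preserve the labels -/
structure Sw (a : Tw Λ ρ) (p : a.ob.I → Z) : Type 1 where
  s : Tw Λ ρ
  ps : s.ob.I → Z
  lc : Lc s ps
  u : Mor s (a + s)
  si : SI s (a + s) u
  on : On (rel ps (Sum.elim p ps) Eq) u
  S : Mor a a →+ Mor s s
  S_one : S 1 = 1
  S_δ : S a.δ = s.δ
  S_pd : ∀ f, S (pd a.deg f) = pd s.deg (S f)
  S_gd : ∀ k f, Gd k a.deg a.deg f → Gd k s.deg s.deg (S f)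
  S_on : ∀ f, On (rel p p Eq) f → On (rel ps ps Eq) (S f)
  S_mul : ∀ f g, On (rel p p Eq) f → On (rel p p Eq) g → S (f * g) = S f * S g
  nat : ∀ f, On (rel p p Eq) f → u * fromBlocks f 0 0 (S f) = S f * u

theorem DW1_mul {I J L : Ob X} (A : (OA Λ.A ρ).Hom I J) (D : (OA Λ.A ρ).Hom J L) (i : I.I)
    (s : Finset (J.I × K)) (h : ∀ j g, cf A i j g ≠ 0 → (j, g) ∈ s) (l : L.I) (g : K) :
    cf (A * D) i l g = ∑ x ∈ s, cf A i x.1 x.2 * cf D x.1 l (x.2⁻¹ * g) := by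
  classical
  obtain ⟨t, -, ht⟩ := cf_mul_eq A D i
  rw [ht (t ∪ s) Finset.subset_union_left]
  refine (Finset.sum_subset Finset.subset_union_right fun x _ hx => ?_).symm
  rw [of_not_not (mt (h x.1 x.2) hx), zero_mul]

section S

variable {π : Z → X} (hπ : ∀ (g : K) z, π (g • z) = ρ g (π z)) {a : Ob X} {p : a.I → Z}
  (h : (Set.range fun i => π (p i)).Finite)

open Classical in
/-- the sum of all shifts of the part of a map that preserves the labels -/
noncomputable def DW1_S (f : (OA Λ.A ρ).Hom a a) : (OA Λ.A ρ).Hom (swP a _ h) (swP a _ h) :=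
  ofCf (fun i j g => if i.2 = j.2 ∧ p i.1 = g • p j.1 then cf f i.1 j.1 g else 0)
    ((cts_swN h h (A := fun i j g => p i = g • p j ∧ cf f i j g ≠ 0)
      ((cts f).mono fun _ _ _ e => e.2) fun i j g e => by rw [e.1, hπ]).mono fun i j g e => by
        by_cases c : i.2 = j.2 ∧ p i.1 = g • p j.1
        · rw [if_pos c] at e
          exact ⟨c.1, c.2, e⟩
        · exact absurd (if_neg c) e)

open Classical in
theorem DW1_cf (f : (OA Λ.A ρ).Hom a a) (i j : (swP a _ h).I) (g : K) :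
    cf (DW1_S hπ h f) i j g = if i.2 = j.2 ∧ p i.1 = g • p j.1 then cf f i.1 j.1 g else 0 := rfl

theorem DW1_ne {f : (OA Λ.A ρ).Hom a a} {i j : (swP a _ h).I} {g : K}
    (e : cf (DW1_S hπ h f) i j g ≠ 0) : i.2 = j.2 ∧ p i.1 = g • p j.1 ∧ cf f i.1 j.1 g ≠ 0 := by
  rw [DW1_cf] at e
  split_ifs at e with c
  exacts [⟨c.1, c.2, e⟩, absurd rfl e]

theorem DW1_cf' {f : (OA Λ.A ρ).Hom a a} (hf : On (rel p p Eq) f) (i j : (swP a _ h).I) (g : K) :
    cf (DW1_S hπ h f) i j g = if i.2 = j.2 then cf f i.1 j.1 g else 0 := by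
  rw [DW1_cf]
  by_cases c : i.2 = j.2
  · rw [if_pos c]
    split_ifs with d
    exacts [rfl, (of_not_not fun e => d ⟨c, hf _ _ _ e⟩).symm]
  · rw [if_neg c, if_neg fun d => c d.1]

theorem DW1_add (f f' : (OA Λ.A ρ).Hom a a) :
    DW1_S hπ h (f + f') = DW1_S hπ h f + DW1_S hπ h f' := hom_ext fun i j g => by
  rw [cf_add, DW1_cf, DW1_cf, DW1_cf, cf_add]
  split_ifs <;> simp

theorem DW1_one : DW1_S hπ h (1 : (OA Λ.A ρ).Hom a a) = 1 := hom_ext fun i j g => by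
  classical
  rw [DW1_cf' hπ h (on_one fun i => (one_smul K _).symm), cf_one, cf_one]
  by_cases c : i = j ∧ g = 1
  · obtain ⟨rfl, rfl⟩ := c
    simp
  · rw [if_neg c]
    split_ifs with d e
    exacts [absurd ⟨Prod.ext e.1 d, e.2⟩ c, rfl, rfl]

theorem DW1_pd (n : a.I → ℤ) (f : (OA Λ.A ρ).Hom a a) :
    DW1_S hπ h (pd n f) = pd (I := swP a _ h) (fun i => n i.1) (DW1_S hπ h f) :=
  hom_ext fun i j g => by
    rw [cf_pd, DW1_cf, DW1_cf, cf_pd]
    split_ifs <;> simp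

theorem DW1_gd {k : ℤ} {n : a.I → ℤ} {f : (OA Λ.A ρ).Hom a a} (hf : Gd k n n f) :
    Gd (I := swP a _ h) (J := swP a _ h) k (fun i => n i.1) (fun i => n i.1) (DW1_S hπ h f) :=
  fun i j g => by
    rw [DW1_cf]
    split_ifs
    exacts [hf _ _ _, zero_mem _]

theorem DW1_on (f : (OA Λ.A ρ).Hom a a) :
    On (I := swP a _ h) (J := swP a _ h) (rel (fun i => p i.1) (fun i => p i.1) Eq)
      (DW1_S hπ h f) := fun i j g e => (DW1_ne hπ h e).2.1

theorem DW1_hom {f f' : (OA Λ.A ρ).Hom a a} (hf : On (rel p p Eq) f) (hf' : On (rel p p Eq) f') :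
    DW1_S hπ h (f * f') = DW1_S hπ h f * DW1_S hπ h f' := hom_ext fun i k g => by
  classical
  obtain ⟨t, ht, -⟩ := cf_mul_eq f f' i.1
  let m : a.I × K ↪ (swP a _ h).I × K := ⟨fun x => ((x.1, i.2), x.2), fun x y e =>
    Prod.ext (congrArg (fun z => z.1.1) e) (congrArg (fun z => z.2) e)⟩
  rw [DW1_cf' hπ h (hf.rmul hf' inv_eq fun _ _ _ => Eq.trans), DW1_mul f f' i.1 t ht,
    DW1_mul _ _ i (t.map m) fun j g e => Finset.mem_map.2
      ⟨(j.1, g), ht _ _ (DW1_ne hπ h e).2.2, Prod.ext (Prod.ext rfl (DW1_ne hπ h e).1) rfl⟩]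
  refine Eq.trans ?_ (Finset.sum_map t m _).symm
  have : ∀ x : a.I × K, cf (DW1_S hπ h f) i (m x).1 (m x).2 *
      cf (DW1_S hπ h f') (m x).1 k ((m x).2⁻¹ * g) =
        if i.2 = k.2 then cf f i.1 x.1 x.2 * cf f' x.1 k.1 (x.2⁻¹ * g) else 0 := fun x => by
    rw [DW1_cf' hπ h hf, DW1_cf' hπ h hf', if_pos (show i.2 = (m x).1.2 from rfl)]
    change _ * (if i.2 = k.2 then _ else _) = _
    split_ifs
    exacts [rfl, mul_zero _]
  rw [Finset.sum_congr rfl fun x _ => this x]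
  split_ifs <;> simp

theorem DW1_nat {u : (OA Λ.A ρ).Hom (swP a _ h) (a + swP a _ h)}
    (hu : IsPm u swE (fun _ => 1) fun _ => 1) {f : (OA Λ.A ρ).Hom a a} (hf : On (rel p p Eq) f) :
    u * fromBlocks f 0 0 (DW1_S hπ h f) = DW1_S hπ h f * u := hom_ext fun i k g => by
  obtain ⟨j, rfl⟩ := swE_bij.2 k
  refine (hu.cf_mul _ _ _ _).trans (Eq.trans (congrArg _ ?_)
    (hu.mul_cf _ _ j _ fun i' e _ => swE_bij.1 e).symm)
  rw [inv_one, mul_one, one_mul]
  refine Eq.trans ?_ (DW1_cf' hπ h hf i j g).symm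
  obtain ⟨i, _ | n⟩ := i <;> obtain ⟨j, _ | m⟩ := j
  · exact (cf_blocks₁₁ g f 0 0 (DW1_S hπ h f) i j).trans (if_pos rfl).symm
  · exact (cf_blocks₁₂ g f 0 0 (DW1_S hπ h f) i (j, m)).trans
      (if_neg (Nat.succ_ne_zero m).symm).symm
  · exact (cf_blocks₂₁ g f 0 0 (DW1_S hπ h f) (i, n) j).trans
      (if_neg (Nat.succ_ne_zero n)).symm
  · exact (cf_blocks₂₂ g f 0 0 (DW1_S hπ h f) (i, n) (j, m)).trans
      ((DW1_cf' hπ h hf _ _ _).trans (if_congr Nat.succ_inj.symm rfl rfl))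

/-- the sum of all shifts, as an additive map -/
noncomputable def DW1_A : (OA Λ.A ρ).Hom a a →+ (OA Λ.A ρ).Hom (swP a _ h) (swP a _ h) :=
  AddMonoidHom.mk' (DW1_S hπ h) (DW1_add hπ h)

end S

/-- the sum of all shifts of a complex -/
@[reducible] noncomputable def DW1_T {π : Z → X} (hπ : ∀ (g : K) z, π (g • z) = ρ g (π z))
    {a : Tw Λ ρ} {p : a.ob.I → Z} (h : (Set.range fun i => π (p i)).Finite)
    (ha : On (rel p p Eq) a.δ) : Tw Λ ρ where
  ob := swP a.ob _ h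
  deg i := a.deg i.1
  δ := DW1_S hπ h a.δ
  gd := DW1_gd hπ h a.gd
  mc := by
    rw [← DW1_pd, ← DW1_hom hπ h ha ha, ← DW1_add, a.mc]
    exact (DW1_A hπ h).map_zero
  lev := by
    obtain ⟨l, hl, k⟩ := a.lev
    obtain ⟨N, hN⟩ := bd_iff.1 hl
    exact ⟨fun i => l i.1, bd_iff.2 ⟨N, fun i => hN _⟩,
      fun i j g e => k _ _ g (DW1_ne hπ h e).2.2⟩

/-- Hint: the object is `swP a.ob (fun i => π (p i)) (fin_comp ha.fin π)`-like (`fin_comp` needs no action on
`X`, copy it), degrees and labels through `Prod.fst`.  Define `S f` for all `f` by `ofCf` with the coefficients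
`if i.2 = j.2 ∧ p i.1 = g • p j.1 then cf f i.1 j.1 g else 0`, controlled by `cts_swN`.  For `S_mul` use
`cf_mul_eq` on both sides (map the finite set along `fun (j, g) => ((j, n), g)`), or `val_mul`, `cm_row`.
`u` is `pm _ swE (fun _ => 1) (fun _ => 1) (cts_swE ..)`; `nat` by `IsPm.cf_mul`, `IsPm.mul_cf` and `swE_bij`;
`si` by `si_pm` with `Equiv.ofBijective swE swE_bij` and `nat` for `a.δ`. -/
theorem exists_sw {π : Z → X} (hπ : ∀ (g : K) z, π (g • z) = ρ g (π z)) {a : Tw Λ ρ}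
    {p : a.ob.I → Z} (ha : Lc a p) : Nonempty (Sw a p) := by
  have h : (Set.range fun i => π (p i)).Finite := (ha.fin.image π).subset (by
    rintro _ ⟨i, rfl⟩
    exact ⟨_, ⟨i, rfl⟩, rfl⟩)
  have hu := isPm_pm (R := Λ.A) (s := fun _ => 1) (cts_swE ρ a.ob _ h)
  refine ⟨⟨DW1_T hπ h ha.loc, fun i => p i.1, ⟨ha.fin.subset ?_, DW1_on hπ h _⟩, _,
    si_pm (e := Equiv.ofBijective swE swE_bij) hu ?_ (DW1_nat hπ h hu ha.loc).symm,
    hu.on.mono ?_, DW1_A hπ h, DW1_one hπ h, rfl, DW1_pd hπ h _, fun _ _ => DW1_gd hπ h,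
    fun f _ => DW1_on hπ h f, fun _ _ => DW1_hom hπ h, fun _ => DW1_nat hπ h hu⟩⟩
  · rintro _ ⟨i, rfl⟩
    exact ⟨i.1, rfl⟩
  · rintro ⟨i, _ | n⟩ <;> rfl
  · rintro ⟨i, _ | n⟩ _ _ ⟨rfl, rfl⟩ <;> exact (one_smul K _).symm

end Pool.Agent.Work.MP_9d1ffa_al.Dg
end

-- merged part: Pool.Agent.Work.MP_9d1ffa_al.Dg.DW
section
/-! Isomorphisms that preserve labels have trivial torsion. -/

namespace Pool.Agent.Work.MP_9d1ffa_al.Dg

open MonoidAlgebra

set_option linter.unusedSectionVars false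
set_option linter.unusedVariables false
set_option linter.unusedSimpArgs false

/-- Hint: copy the proof of `Flq.sfi` in `Ct/BSw.lean`. -/
theorem split_alg {O : Type 1} [Add O] {𝒞 : ACat O} {I J : O} {u : 𝒞.Hom J (I + J)}
    {u' : 𝒞.Hom (I + J) J} (h1 : u * u' = 1) (h2 : u' * u = 1) {E : 𝒞.Hom I I} {P : 𝒞.Hom J J}
    (hE : E * E = E) (hP : P * P = P) (n : u * fromBlocks E 0 0 P = P * u) :
    (P * u + fromCols 0 (1 - P)) * (u' * P + fromRows 0 (1 - P)) = 1 ∧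
      (u' * P + fromRows 0 (1 - P)) * (P * u + fromCols 0 (1 - P)) = fromBlocks E 0 0 1 := by
  have n1 : P * u = u * fromBlocks E 0 0 P := n.symm
  have n2 : u' * P = fromBlocks E 0 0 P * u' := by
    rw [← Hm.mul_one (u' * P), ← h1, ← Hm.mul_assoc, Hm.mul_assoc _ P, n1, ← Hm.mul_assoc, h2,
      Hm.one_mul]
  have p1 : P * (1 - P) = 0 := by rw [Hm.mul_sub, Hm.mul_one, hP, sub_self]
  have p2 : (1 - P) * P = 0 := by rw [Hm.sub_mul, Hm.one_mul, hP, sub_self]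
  have p3 : (1 - P) * (1 - P) = 1 - P := by rw [Hm.sub_mul, Hm.one_mul, p1, sub_zero]
  constructor
  · have a1 : P * u * (u' * P) = P := by
      rw [Hm.mul_assoc, ← Hm.mul_assoc u, h1, Hm.one_mul, hP]
    have a2 : P * u * fromRows (0 : 𝒞.Hom I _) (1 - P) = 0 := by
      rw [n1, Hm.mul_assoc, fromBlocks_mul_fromRows]
      simp [p1]
    have a3 : fromCols (0 : 𝒞.Hom _ I) (1 - P) * (u' * P) = 0 := by
      rw [n2, ← Hm.mul_assoc, fromCols_mul_fromBlocks]
      simp [p2]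
    rw [Hm.add_mul, Hm.mul_add, Hm.mul_add, a1, a2, a3, fromCols_mul_fromRows, p3]
    simp
  · have a1 : u' * P * (P * u) = fromBlocks E 0 0 P := by
      rw [Hm.mul_assoc, ← Hm.mul_assoc P, hP, n1, ← Hm.mul_assoc, h2, Hm.one_mul]
    have a2 : u' * P * fromCols (0 : 𝒞.Hom _ I) (1 - P) = 0 := by
      rw [Hm.mul_assoc, mul_fromCols, p1]
      simp
    have a3 : fromRows 0 (1 - P) * (P * u) = (0 : 𝒞.Hom (I + J) (I + J)) := by
      rw [← Hm.mul_assoc, fromRows_mul, p2]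
      simp
    rw [Hm.add_mul, Hm.mul_add, Hm.mul_add, a1, a2, a3, fromRows_mul_fromCols, p3]
    simp [fromBlocks_add]

variable {X K Z V : Type} [Group K] [MulAction K Z] [MulAction K V] {Λ : DG}
  {ρ : K →* Equiv.Perm X} {a b : Tw Λ ρ}

theorem Sw.D0 {p : a.ob.I → Z} (w : Sw a p) (ha : Lc a p) {f : Mor a a}
    (hf : On (rel p p Eq) f) : D0 w.s w.s (w.S f) = w.S (D0 a a f) := by
  rw [Dg.D0, Dg.D0, map_sub, map_add, w.S_pd, w.S_mul _ _ ha.loc hf, w.S_mul _ _ hf ha.loc, w.S_δ]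

theorem Sw.D1 {p : a.ob.I → Z} (w : Sw a p) (ha : Lc a p) {f : Mor a a}
    (hf : On (rel p p Eq) f) : D1 w.s w.s (w.S f) = w.S (D1 a a f) := by
  rw [Dg.D1, Dg.D1, map_add, map_add, w.S_pd, w.S_mul _ _ ha.loc hf, w.S_mul _ _ hf ha.loc, w.S_δ]

/-- Hint: filter the contraction (`D1_fl`, `On.fl_eq`, `on_one`), apply `S`, then `sim_of_absorb`. -/
theorem Lc.sim {π : Z → X} (hπ : ∀ (g : K) z, π (g • z) = ρ g (π z)) {p : a.ob.I → Z}
    (ha : Lc a p) (h : Contr a) : Sim a := by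
  obtain ⟨w⟩ := exists_sw hπ ha
  obtain ⟨Γ, g, e⟩ := h
  have h1 : On (rel p p Eq) (1 : Mor a a) := on_one fun i => (one_smul K _).symm
  have hc : Contr w.s := ⟨w.S (fl (rel p p Eq) Γ), w.S_gd _ _ (g.fl _), by
    rw [w.D1 ha (on_fl _ _), D1_fl ha ha inv_eq, e, h1.fl_eq, w.S_one]⟩
  exact sim_of_absorb hc w.si.se

theorem tz_local {π : Z → X} (hπ : ∀ (g : K) z, π (g • z) = ρ g (π z)) {p : a.ob.I → Z}
    {q : b.ob.I → Z} (ha : Lc a p) (hb : Lc b q) {x : Hom a b} {y : Hom b a} (hx : HOn p q Eq x)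
    (h1 : x * y = 1) (h2 : y * x = 1) : Tz x :=
  let ⟨f, h, k⟩ := hx
  ⟨f, h, (ha.sh.tsum hb h.ch.co k).sim hπ (contr_cn h h1 h2)⟩

/-- Idempotents that preserve labels split stably.  Hint: let `f` be a local representative of `E`; then
`f * f - f = D1 k`, and `k` may be replaced by its local part (`D1_fl`); so the class `P` of `S f` is idempotent.
Apply `split_alg` in `HC Λ ρ` to the classes of `w.u` and of its inverse (`SI.inv`), with `c = b = w.s`; then
`exists_cols`, `exists_rows`, `fromCols_mul_fromRows`, `fromRows_mul_fromCols` as in `QG_sf` of `Rt/QG.lean`.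
For the supports write `U = A * fromRows 1 0` (`toCols₁`, with `(HC Λ ρ).fst a b = fromRows 1 0`) and use `HOn.mul`. -/
theorem exists_split {π : Z → X} (hπ : ∀ (g : K) z, π (g • z) = ρ g (π z)) {p : a.ob.I → Z}
    (ha : Lc a p) {E : Hom a a} (hE : E * E = E) (hm : HOn p p Eq E) :
    ∃ (c b : Tw Λ ρ) (pc : c.ob.I → Z) (pb : b.ob.I → Z) (U : Hom b a) (U₂ : Hom b c)
      (W : Hom a b) (W₂ : Hom c b), Lc c pc ∧ Lc b pb ∧ HOn pb p Eq U ∧ HOn pb pc Eq U₂ ∧
      U * W + U₂ * W₂ = 1 ∧ W * U = E ∧ W * U₂ = 0 ∧ W₂ * U = 0 ∧ W₂ * U₂ = 1 := by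
  obtain ⟨w⟩ := exists_sw hπ ha
  obtain ⟨f, hf, on⟩ := hm
  obtain ⟨k, gk, e⟩ := ((hf.mul hf).eq_iff hf).1 hE
  have o2 : On (rel p p Eq) (f * f - f) :=
    (on.rmul on inv_eq fun _ _ _ => Eq.trans).sub on
  have cS : Ch w.s w.s (w.S f) :=
    ⟨w.S_gd _ _ hf.ch.gd, by rw [w.D0 ha on, hf.ch.d, map_zero]⟩
  obtain ⟨P, hP⟩ := cS.exists_rp
  have hPP : P * P = P := ((hP.mul hP).eq_iff hP).2
    ⟨w.S (fl (rel p p Eq) k), w.S_gd _ _ (gk.fl _), by
      rw [w.D1 ha (on_fl _ _), D1_fl ha ha inv_eq, ← e, o2.fl_eq, map_sub, w.S_mul _ _ on on]⟩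
  obtain ⟨u, hu⟩ := w.si.ch.exists_rp
  obtain ⟨v, cv, v1, v2⟩ := w.si.inv
  obtain ⟨u', hu'⟩ := cv.exists_rp
  have h1 : u * u' = 1 := (hu.mul hu').uniq (rp_one.congr v1.symm)
  have h2 : u' * u = 1 := (hu'.mul hu).uniq (rp_one.congr v2.symm)
  have n : u * fromBlocks E 0 0 P = P * u :=
    (hu.mul (Rp.fromBlocks hf rp_zero rp_zero hP)).uniq ((hP.mul hu).congr (w.nat f on).symm)
  obtain ⟨k1, k2⟩ := split_alg h1 h2 hE hPP n
  have oP : HOn w.ps w.ps Eq P := ⟨_, hP, w.S_on f on⟩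
  have ou : HOn (b := a + w.s) w.ps (Sum.elim p w.ps) Eq u := ⟨_, hu, w.on⟩
  have oA : HOn (b := a + w.s) w.ps (Sum.elim p w.ps) Eq (P * u + fromCols 0 (1 - P)) :=
    (oP.mul ou inv_eq fun _ _ _ => Eq.trans).add (hOn_zero.fromCols (hOn_one.sub oP))
  generalize P * u + fromCols 0 (1 - P) = A at k1 k2 oA
  generalize u' * P + fromRows 0 (1 - P) = B at k1 k2
  obtain ⟨U, U₂, rfl⟩ := exists_cols A
  obtain ⟨W, W₂, rfl⟩ := exists_rows B
  rw [fromCols_mul_fromRows] at k1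
  rw [fromRows_mul_fromCols, fromBlocks_inj] at k2
  have o1 : HOn w.ps p Eq (fromCols U U₂ * fromRows (1 : Hom a a) (0 : Hom w.s a)) :=
    oA.mul (hOn_one.fromRows hOn_zero) inv_eq fun _ _ _ => Eq.trans
  have o3 : HOn w.ps w.ps Eq (fromCols U U₂ * fromRows (0 : Hom a w.s) (1 : Hom w.s w.s)) :=
    oA.mul (hOn_zero.fromRows hOn_one) inv_eq fun _ _ _ => Eq.trans
  rw [fromCols_mul_fromRows, Hm.mul_one, Hm.mul_zero, add_zero] at o1
  rw [fromCols_mul_fromRows, Hm.mul_one, Hm.mul_zero, zero_add] at o3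
  exact ⟨w.s, w.s, w.ps, w.ps, U, U₂, W, W₂, w.lc, w.lc, o1, o3, k1, k2.1, k2.2.1, k2.2.2.1,
    k2.2.2.2⟩

/-- Hint: port `gamma_trK` of `Rt/QG.lean`.  `Θ` is local for the labels in `V × V`, so `Tz Θ` by `tz_local` with
`fun x => π x.1`; `Θ * Γ` is local for the labels in `V` (`Lc.map`, `HOn.map` with `Prod.snd` on the first and
`Prod.fst` on the second splitting, `q` on `b`), so `Tz (Θ * Γ)`; finish with `Tz.mul_left` and `tz_block`. -/
theorem tz_gamma {π : V → X} (hπ : ∀ (g : K) v, π (g • v) = ρ g (π v)) {z : a.ob.I → V × V}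
    {q : b.ob.I → V} (ha : Lc a z) (hb : Lc b q) {E : Hom a a} {A B : Hom a b} {ζ : Hom b a}
    (hE : E * E = E) (hm : HOn z z Eq E) (hA : HOn z q (fun z v => v = z.2) A)
    (hB : HOn z q (fun z v => v = z.1) B) (e1 : (E * A + (1 - E) * B) * ζ = 1)
    (e2 : ζ * (E * A + (1 - E) * B) = 1) : Tz (E * A + (1 - E) * B) := by
  have f1 : ∀ (g : K) (x : V × V), π (g • x).1 = ρ g (π x.1) := fun g x => hπ g x.1
  obtain ⟨c, d, pc, pd, U, U₂, W, W₂, fc, fd, m1, m2, s1, s2, s3, s4, s5⟩ :=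
    exists_split (π := fun x : V × V => π x.1) f1 ha hE hm
  obtain ⟨c', d', pc', pd', U', U₂', W', W₂', fc', fd', m1', m2', t1, t2, t3, t4, t5⟩ :=
    exists_split (π := fun x : V × V => π x.1) f1 ha (E := 1 - E)
      (by rw [Hm.mul_sub, Hm.mul_one, Hm.sub_mul, Hm.one_mul, hE, sub_self, sub_zero])
      (hOn_one.sub hm)
  have u1 : U * E = U := by
    rw [← s2, ← Hm.mul_assoc, eq_sub_of_add_eq s1, Hm.sub_mul, Hm.mul_assoc, s4]
    simp
  have u2 : U' * E = 0 := by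
    have : U' * (1 - E) = U' := by
      rw [← t2, ← Hm.mul_assoc, eq_sub_of_add_eq t1, Hm.sub_mul, Hm.mul_assoc, t4]
      simp
    rwa [Hm.mul_sub, Hm.mul_one, sub_eq_self] at this
  have w1 : E * W = W := by
    rw [← s2, Hm.mul_assoc, eq_sub_of_add_eq s1, Hm.mul_sub, ← Hm.mul_assoc, s3]
    simp
  have w2 : (1 - E) * W' = W' := by
    rw [← t2, Hm.mul_assoc, eq_sub_of_add_eq t1, Hm.mul_sub, ← Hm.mul_assoc, t3]
    simp
  have u3 : U * (1 - E) = 0 := by rw [Hm.mul_sub, Hm.mul_one, u1, sub_self]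
  have u4 : U' * (1 - E) = U' := by rw [Hm.mul_sub, Hm.mul_one, u2, sub_zero]
  have x1 : U * W' = 0 := by rw [← w2, ← Hm.mul_assoc, u3, Hm.zero_mul]
  have x2 : U' * W = 0 := by rw [← w1, ← Hm.mul_assoc, u2, Hm.zero_mul]
  let Θ : Hom (d + d') (a + (c + c')) := fromCols (fromRows U U') (fromBlocks U₂ 0 0 U₂')
  let Θ' : Hom (a + (c + c')) (d + d') := fromRows (fromCols W W') (fromBlocks W₂ 0 0 W₂')
  have θ1 : Θ * Θ' = 1 := by
    simp [Θ, Θ', fromCols_mul_fromRows, fromRows_mul_fromCols, fromBlocks_multiply,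
      fromBlocks_add, x1, x2, s1, t1, fromCols_fromRows_eq_fromBlocks]
  have θ2 : Θ' * Θ = 1 := by
    simp [Θ, Θ', fromCols_mul_fromRows, fromRows_mul_fromCols, fromBlocks_multiply,
      fromCols_mul_fromBlocks, fromBlocks_mul_fromRows, s2, s3, s4, s5, t2, t3, t4, t5,
      fromCols_fromRows_eq_fromBlocks]
  generalize hγ : E * A + (1 - E) * B = γ at e1 e2
  let Γ : Hom (a + (c + c')) (b + (c + c')) := fromBlocks γ 0 0 1
  let Y : Hom (b + (c + c')) (a + (c + c')) := fromBlocks ζ 0 0 1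
  have z1 : Γ * Y = 1 := by simp [Γ, Y, fromBlocks_multiply, e1]
  have z2 : Y * Γ = 1 := by simp [Γ, Y, fromBlocks_multiply, e2]
  have γ1 : Θ * Γ = fromCols (fromRows (U * A) (U' * B)) (fromBlocks U₂ 0 0 U₂') := by
    have a1 : U * γ = U * A := by simp [← hγ, Hm.mul_add, ← Hm.mul_assoc, u1, u3]
    have a2 : U' * γ = U' * B := by simp [← hγ, Hm.mul_add, ← Hm.mul_assoc, u2, u4]
    rw [fromCols_mul_fromBlocks]
    simp [a1, a2]
  have i1 : Inv K fun (z : V × V) (v : V) => v = z.2 := fun g a b h => h ▸ rfl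
  have i2 : Inv K fun (z : V × V) (v : V) => v = z.1 := fun g a b h => h ▸ rfl
  have g1 : ∀ (g : K) (x : V × V), (g • x).1 = g • x.1 := fun _ _ => rfl
  have g2 : ∀ (g : K) (x : V × V), (g • x).2 = g • x.2 := fun _ _ => rfl
  have T1 : Tz Θ := tz_local (π := fun x : V × V => π x.1) f1 (fd.sum fd') (ha.sum (fc.sum fc'))
    ((m1.fromRows m1').fromCols (m2.fromBlocks hOn_zero hOn_zero m2')) θ1 θ2
  have o1 : HOn (fun i => (pd i).2) q Eq (U * A) :=
    (m1.mul (U := fun z v => v = z.2) hA i1 fun _ _ _ e k => e ▸ k).map Prod.snd id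
      (fun _ _ => rfl) fun _ _ e => e.symm
  have o2 : HOn (fun i => (pd' i).1) q Eq (U' * B) :=
    (m1'.mul (U := fun z v => v = z.1) hB i2 fun _ _ _ e k => e ▸ k).map Prod.fst id
      (fun _ _ => rfl) fun _ _ e => e.symm
  have o3 : HOn (fun i => (pd i).2) (fun i => (pc i).2) Eq U₂ :=
    m2.map Prod.snd Prod.snd g2 fun _ _ e => congrArg Prod.snd e
  have o4 : HOn (fun i => (pd' i).1) (fun i => (pc' i).1) Eq U₂' :=
    m2'.map Prod.fst Prod.fst g1 fun _ _ e => congrArg Prod.fst e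
  have T2 : Tz (Θ * Γ) := tz_local (y := Y * Θ') hπ
    ((fd.map Prod.snd g2).sum (fd'.map Prod.fst g1))
    (hb.sum ((fc.map Prod.snd g2).sum (fc'.map Prod.fst g1)))
    (by
      rw [γ1]
      exact (o1.fromRows o2).fromCols (o3.fromBlocks hOn_zero hOn_zero o4))
    (by rw [Hm.mul_assoc, ← Hm.mul_assoc Γ, z1, Hm.one_mul, θ1])
    (by rw [Hm.mul_assoc, ← Hm.mul_assoc Θ', θ2, Hm.one_mul, z2])
  exact tz_block.1 ((T1.mul_left Γ).1 T2)

end Pool.Agent.Work.MP_9d1ffa_al.Dg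
end

-- merged part: Pool.Agent.Work.MP_9d1ffa_al.Dg.DTop
section
/-! Vanishing of the torsion over the obstruction category of an action on a tree. -/

namespace Pool.Agent.Work.MP_9d1ffa_al.Dg

open MonoidAlgebra MulAction Pool.Agent.Work.MP_904812_al

set_option linter.unusedSectionVars false
set_option linter.unusedVariables false

variable {X G V : Type} [Group G] [MulAction G V] {ρ : G →* Equiv.Perm X}

theorem k_tree {T : SimpleGraph V} (hT : T.IsTree)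
    (act : ∀ (g : G) (a b : V), T.Adj a b → T.Adj (g • a) (g • b))
    (noinv : ∀ (g : G) (a b : V), T.Adj a b → g • a = b → g • b ≠ a)
    (hF : ∀ v : V, ∃ z : X, ∀ g : G, g • v = v → ρ g z = z) (hC : NoRayD ρ T) (Λ : DG) :
    VanS Λ ρ := by
  classical
  intro C hc
  have adj : ∀ x y : V, (T.dist x y : ℤ) = 1 → T.Adj x y := fun x y e =>
    SimpleGraph.dist_eq_one_iff_adj.1 (by exact_mod_cast e)
  obtain ⟨v₀⟩ : Nonempty V := hT.connected.nonempty
  obtain ⟨π, hπ⟩ : ∃ π : V → X, ∀ (g : G) v, π (g • v) = ρ g (π v) := by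
    let _ : MulAction G X := MulAction.compHom X ρ
    exact exists_eqv (ρ := MulAction.toPermHom G V) (V := X) hF
  have tr := tr_of_isTree hT
  have iso : ∀ (g : G) x y, (T.dist (g • x) (g • y) : ℤ) = T.dist x y := fun g x y => by
    rw [dist_smul hT act]
  obtain ⟨O, oinv, oasym, otot⟩ := exists_orient tr fun g x y e => noinv g x y (adj x y e)
  obtain ⟨M⟩ := exists_mvd tr iso oinv oasym otot v₀ C
  obtain ⟨j, hj, ε, hε, on, hs⟩ := M.res tr
  have k1 := se_split hε.co (Or.inr hc)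
  obtain ⟨β, hβ⟩ := hj.exists_rp
  obtain ⟨β', e1, e2⟩ :=
    inv_of_contr hβ (contr_sh.1 (contr_add.1 (k1.contr_iff.1 hs.contr)).1)
  have h : CoreD (fun a b => (T.dist a b : ℤ)) O M.E.lab M.B.lab β β' :=
    ⟨tr, iso, oinv, oasym, M.E.lc, M.B.lc, M.ed, ⟨j, hβ, on⟩, e1, e2⟩
  have N := mach2_tree tr iso
  obtain ⟨ν, μ, n1, n2, n3, n4⟩ := h.nil
  have g1 : Tz (gam (fun a b => (T.dist a b : ℤ)) M.E.lab M.B.lab β β') :=
    tz_gamma hπ h.la h.lb h.pim_idem h.pim_on h.bp_on h.bm_on h.gam_zet h.zet_gam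
  have g2 : Tz (1 + ν) := by
    refine machine N ?_ (lc_zz h.la) n1 (nil_of_cone N (lc_zz h.la) n1 n2 n3)
    rintro ⟨f, s, hf⟩
    have e : ∀ n, f n = ((f 0).1, (f n).2) := fun n => by
      induction n with
      | zero => rfl
      | succ n ih =>
        have a := congrArg Prod.fst (hf n).2.2
        have b := congrArg Prod.fst ih
        exact Prod.ext (a.trans b) rfl
    refine hC ⟨(f 0).1, fun n => (f n).2, s, fun n => ⟨?_, fun k => (hf n).2.1 ?_,
      congrArg Prod.snd (hf n).2.2⟩⟩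
    · obtain ⟨m, hm, a, b, -, c, c'⟩ := e n ▸ (hf n).1
      refine ⟨a, fun z => ?_, Int.ofNat_inj.1 c, Int.ofNat_inj.1 c'⟩
      have b' : (T.dist (f 0).1 (s n • (f 0).1) : ℤ) = m := b
      rw [z, SimpleGraph.dist_self] at b'
      omega
    · obtain ⟨m, -, a⟩ := (hf n).1
      exact loopD_lift N a (by rw [e n]; exact k)
  have g3 := (n4 g2).mul g1
  rw [Hm.mul_assoc, h.zet_gam, Hm.mul_one] at g3
  exact ((tz_iff hβ).1 g3).sh.cancel (k1.sim_iff.1 hs)

variable {K : Type} [Group K] (φ : K →* G)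

theorem liftD_comp {D : Subgroup G} {s : K} (h : LiftD ρ D (φ s)) :
    LiftD (ρ.comp φ) (D.comap φ) s := by
  obtain ⟨H, _, π, κ, t, v, h1, h2, h3⟩ := h
  let L := (π.comp (MonoidHom.fst H K)).eqLocus (φ.comp (MonoidHom.snd H K))
  let p : L →* H := (MonoidHom.fst H K).comp L.subtype
  let q : L →* K := (MonoidHom.snd H K).comp L.subtype
  have e : (ρ.comp φ).comp q = (ρ.comp π).comp p := MonoidHom.ext fun z => congrArg ρ z.2.symm
  refine ⟨L, inferInstance, q, ((κ.comp (φ.subgroupComap D)).prod (D.comap φ).subtype).codRestrict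
    L fun d => h1 _, ⟨(t, s), h2⟩, ?_, fun d => rfl, rfl, fun d d' k => ?_⟩
  · rw [e]
    exact fun M _ ψ => v M (p.comp ψ)
  · exact Subtype.ext (Prod.ext (h3 (φ.subgroupComap D d) (φ.subgroupComap D d')
      (((map_mul φ _ _).symm.trans (congrArg φ k)).trans (map_mul φ _ _))) k)

theorem vanD_tree {T : SimpleGraph V} (hT : T.IsTree)
    (act : ∀ (g : G) (a b : V), T.Adj a b → T.Adj (g • a) (g • b))
    (noinv : ∀ (g : G) (a b : V), T.Adj a b → g • a = b → g • b ≠ a)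
    (hF : ∀ v : V, ∃ z : X, ∀ g : G, g • v = v → ρ g z = z) (hC : NoRayD ρ T) : VanD ρ :=
  vanD_iff.2 fun K _ φ Λ => by
    let _ : MulAction K V := MulAction.compHom V φ
    refine k_tree hT (fun g => act (φ g)) (fun g => noinv (φ g))
      (fun v => (hF v).imp fun z h g => h (φ g)) ?_ Λ
    rintro ⟨a, b, s, h⟩
    exact hC ⟨a, b, fun n => φ (s n), fun n =>
      ⟨(h n).1, fun k => (h n).2.1 (liftD_comp φ k), (h n).2.2⟩⟩

end Pool.Agent.Work.MP_9d1ffa_al.Dg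
end
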